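import Pool.Agent.VK3.Defs2

/-!
# Parametrisation of conics
-/

set_option autoImplicit false

noncomputable section

namespace Pool.Agent.VK3

open Pool.Agent.ZCyc Polynomial

universe u

variable {k : Type u} [Field k] [IsAlgClosed k] [CharZero k]

omit [IsAlgClosed k] [CharZero k] in
private lemma quad (q : k[X]) (hq : q.natDegree ≤ 2) (h0 : q.eval 0 = 1) :
    q = C (q.coeff 2) * X ^ 2 + C (q.coeff 1) * X + 1 := by
  have h1 := eq_quadratic_of_degree_le_two (natDegree_le_iff_degree_le.1 hq)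
  have h2 : q.coeff 0 = 1 := by rw [coeff_zero_eq_eval_zero]; exact h0
  rw [h2] at h1
  simpa using h1

omit [IsAlgClosed k] [CharZero k] in
private lemma at_two (v : Place k (Om k)) : v.At (2 : Om k) 2 := by
  have h := Place.at_const (v := v) (2 : k)
  have e : (algebraMap k (Om k)) 2 = 2 := map_ofNat _ 2
  rwa [e] at h

/-- If `q = (1 + c τ) ²` take `τ = t`; otherwise `q = 1 + q₁ τ + q₂ τ ²`, `r = 1 + t τ`,
`τ = (q₁ - 2 t) / (t ² - q₂)`, `c₀ = q₁ / 2`, `c₁ = (r₁ - 1) / τ₁`, `r₁ ² = q(τ₁)`. -/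
theorem conic (q : k[X]) (hq : q.natDegree ≤ 2) (h0 : q.eval 0 = 1) (τ₁ : k) (h1 : τ₁ ≠ 0) :
    ∃ (τ r : Om k) (c₀ c₁ : k), r ^ 2 = aeval τ q ∧
      (∀ v : Place k (Om k), v.At (tt k) c₀ → v.At τ 0 ∧ v.At r 1) ∧
      ∀ v : Place k (Om k), v.At (tt k) c₁ → v.At τ τ₁ := by
  have hqq := quad q hq h0
  obtain ⟨q₁, hq₁⟩ : ∃ c, c = q.coeff 1 := ⟨_, rfl⟩
  obtain ⟨q₂, hq₂⟩ : ∃ c, c = q.coeff 2 := ⟨_, rfl⟩
  rw [← hq₁, ← hq₂] at hqq
  have h1' : ∀ v : Place k (Om k), v.At (1 : Om k) 1 := fun v => by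
    simpa using Place.at_const (v := v) (1 : k)
  by_cases hsq : q₂ = (q₁ / 2) ^ 2
  · refine ⟨tt k, 1 + algebraMap k (Om k) (q₁ / 2) * tt k, 0, τ₁, ?_, ?_, fun v hv => hv⟩
    · rw [hqq, hsq]
      simp only [map_add, map_mul, map_pow, aeval_C, aeval_X, map_one, map_div₀]
      have : (algebraMap k (Om k)) 2 = 2 := map_ofNat _ 2
      rw [this]
      ring
    · intro v hv
      refine ⟨hv, ?_⟩
      have := (h1' v).add ((Place.at_const (v := v) (q₁ / 2)).mul hv)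
      simpa using this
  · set ρ : Om k := tt k with hρ
    set Q₁ : Om k := algebraMap k (Om k) q₁ with hQ₁
    set Q₂ : Om k := algebraMap k (Om k) q₂ with hQ₂
    obtain ⟨r₁, hr₁⟩ := IsAlgClosed.exists_pow_nat_eq (q.eval τ₁) (n := 2) (by norm_num)
    have hev : q.eval τ₁ = q₂ * τ₁ ^ 2 + q₁ * τ₁ + 1 := by rw [hqq]; simp
    rw [hev] at hr₁
    refine ⟨(Q₁ - 2 * ρ) / (ρ ^ 2 - Q₂), 1 + ρ * ((Q₁ - 2 * ρ) / (ρ ^ 2 - Q₂)), q₁ / 2,
      (r₁ - 1) / τ₁, ?_, ?_, ?_⟩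
    · have hq' : aeval ((Q₁ - 2 * ρ) / (ρ ^ 2 - Q₂)) q =
          Q₂ * ((Q₁ - 2 * ρ) / (ρ ^ 2 - Q₂)) ^ 2 + Q₁ * ((Q₁ - 2 * ρ) / (ρ ^ 2 - Q₂)) + 1 := by
        conv_lhs => rw [hqq]
        simp only [map_add, map_mul, map_pow, aeval_C, aeval_X, map_one]
        rfl
      rw [hq']
      by_cases hD : ρ ^ 2 - Q₂ = 0
      · rw [hD]; simp
      · field_simp
        ring
    · intro v hv
      have e2 : v.At (2 : Om k) 2 := at_two v
      have h2 : v.At (Q₁ - 2 * ρ) 0 := by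
        have := (Place.at_const (v := v) q₁).sub (e2.mul hv)
        have e : q₁ - 2 * (q₁ / 2) = 0 := by ring
        rwa [e] at this
      have h3 : v.At (ρ ^ 2 - Q₂) ((q₁ / 2) ^ 2 - q₂) := (hv.pow 2).sub (Place.at_const q₂)
      have h4 : (q₁ / 2) ^ 2 - q₂ ≠ 0 := by
        intro h; exact hsq (sub_eq_zero.1 h).symm
      have h5 := h2.div h3 h4
      rw [zero_div] at h5
      refine ⟨h5, ?_⟩
      have := (h1' v).add (hv.mul h5)
      simpa using this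
    · intro v hv
      have e2 : v.At (2 : Om k) 2 := at_two v
      obtain ⟨c₁, hc₁⟩ : ∃ c₁, c₁ = (r₁ - 1) / τ₁ := ⟨_, rfl⟩
      rw [← hc₁] at hv
      have hr : r₁ = 1 + c₁ * τ₁ := by rw [hc₁]; field_simp; ring
      have key : τ₁ * (c₁ ^ 2 - q₂) = q₁ - 2 * c₁ := by
        rw [hr] at hr₁
        apply mul_left_cancel₀ h1
        linear_combination hr₁
      have h4 : c₁ ^ 2 - q₂ ≠ 0 := by
        intro h
        rw [h, mul_zero] at key
        apply hsq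
        have : q₁ / 2 = c₁ := by
          have : q₁ = 2 * c₁ := (sub_eq_zero.1 key.symm)
          rw [this]; field_simp
        rw [this]
        exact (sub_eq_zero.1 h).symm
      have h2 : v.At (Q₁ - 2 * ρ) (q₁ - 2 * c₁) := (Place.at_const (v := v) q₁).sub (e2.mul hv)
      have h3 : v.At (ρ ^ 2 - Q₂) (c₁ ^ 2 - q₂) := (hv.pow 2).sub (Place.at_const q₂)
      have h5 := h2.div h3 h4
      have h6 : (q₁ - 2 * c₁) / (c₁ ^ 2 - q₂) = τ₁ := by
        rw [← key]; field_simp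
      rwa [h6] at h5

/-- `r = 1 + ρ τ`, `τ = (q₁ - 2 ρ) / (ρ ² - q₂)` with `ρ = q₁ / 2 + (1 - t) / t`, `c₀ = 1`,
`c₁ = 0` -/
theorem conic' (q : k[X]) (hq : q.natDegree ≤ 2) (h0 : q.eval 0 = 1)
    (hns : ¬ ∃ p : k[X], q = p ^ 2) :
    ∃ (τ r : Om k) (c₀ c₁ : k), r ^ 2 = aeval τ q ∧
      (∀ v : Place k (Om k), v.At (tt k) c₀ → v.At τ 0 ∧ v.At r 1) ∧
      ∀ v : Place k (Om k), v.At (tt k) c₁ → v.At τ 0 ∧ v.At r (-1) := by
  have hqq := quad q hq h0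
  obtain ⟨q₁, hq₁⟩ : ∃ c, c = q.coeff 1 := ⟨_, rfl⟩
  obtain ⟨q₂, hq₂⟩ : ∃ c, c = q.coeff 2 := ⟨_, rfl⟩
  rw [← hq₁, ← hq₂] at hqq
  obtain ⟨σ, hσ⟩ : ∃ σ, σ = q₁ / 2 := ⟨_, rfl⟩
  have hq₁' : q₁ = 2 * σ := by rw [hσ]; field_simp
  have hsq : σ ^ 2 - q₂ ≠ 0 := by
    intro h
    apply hns
    refine ⟨1 + C σ * X, ?_⟩
    rw [hqq, ← sub_eq_zero.1 h, hq₁']
    simp only [map_mul, map_pow]
    have : (C (2 : k)) = (2 : k[X]) := map_ofNat _ 2
    rw [this]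
    ring
  have h1' : ∀ v : Place k (Om k), v.At (1 : Om k) 1 := fun v => by
    simpa using Place.at_const (v := v) (1 : k)
  set t : Om k := tt k with ht
  set S : Om k := algebraMap k (Om k) σ with hS
  set Q₂ : Om k := algebraMap k (Om k) q₂ with hQ₂
  set N : Om k := S * t + 1 - t with hN
  set D : Om k := N ^ 2 - Q₂ * t ^ 2 with hD
  refine ⟨2 * t * (t - 1) / D, 1 + 2 * N * (t - 1) / D, 1, 0, ?_, ?_, ?_⟩
  · have hq' : aeval (2 * t * (t - 1) / D) q =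
        Q₂ * (2 * t * (t - 1) / D) ^ 2 + 2 * S * (2 * t * (t - 1) / D) + 1 := by
      conv_lhs => rw [hqq, hq₁']
      simp only [map_add, map_mul, map_pow, aeval_C, aeval_X, map_one]
      have : (algebraMap k (Om k)) 2 = 2 := map_ofNat _ 2
      rw [this]
    rw [hq']
    by_cases hD0 : D = 0
    · rw [hD0]; simp
    · field_simp
      rw [hD, hN]
      ring
  · intro v hv
    have e2 : v.At (2 : Om k) 2 := at_two v
    have hN' : v.At N (σ * 1 + 1 - 1) := (((Place.at_const σ).mul hv).add (h1' v)).sub hv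
    have hD' : v.At D ((σ * 1 + 1 - 1) ^ 2 - q₂ * 1 ^ 2) :=
      (hN'.pow 2).sub ((Place.at_const q₂).mul (hv.pow 2))
    have hne : (σ * 1 + 1 - 1) ^ 2 - q₂ * 1 ^ 2 ≠ 0 := by
      have : (σ * 1 + 1 - 1) ^ 2 - q₂ * 1 ^ 2 = σ ^ 2 - q₂ := by ring
      rwa [this]
    constructor
    · have := ((e2.mul hv).mul (hv.sub (h1' v))).div hD' hne
      simpa using this
    · have := (h1' v).add (((e2.mul hN').mul (hv.sub (h1' v))).div hD' hne)
      simpa using this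
  · intro v hv
    have e2 : v.At (2 : Om k) 2 := at_two v
    have hN' : v.At N (σ * 0 + 1 - 0) := (((Place.at_const σ).mul hv).add (h1' v)).sub hv
    have hD' : v.At D ((σ * 0 + 1 - 0) ^ 2 - q₂ * 0 ^ 2) :=
      (hN'.pow 2).sub ((Place.at_const q₂).mul (hv.pow 2))
    have hne : (σ * 0 + 1 - 0) ^ 2 - q₂ * 0 ^ 2 ≠ 0 := by
      have : (σ * 0 + 1 - 0) ^ 2 - q₂ * 0 ^ 2 = 1 := by ring
      rw [this]; exact one_ne_zero
    constructor
    · have := ((e2.mul hv).mul (hv.sub (h1' v))).div hD' hne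
      simpa using this
    · have := (h1' v).add (((e2.mul hN').mul (hv.sub (h1' v))).div hD' hne)
      have e : (1 : k) + 2 * (σ * 0 + 1 - 0) * (0 - 1) / ((σ * 0 + 1 - 0) ^ 2 - q₂ * 0 ^ 2) = -1 := by
        have : (σ * 0 + 1 - 0) ^ 2 - q₂ * 0 ^ 2 = 1 := by ring
        rw [this]; ring
      rwa [e] at this

end Pool.Agent.VK3
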