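import Pool.Agent.VK3.PDefs2

/-!
# Products of elliptic K3 surfaces: general facts
-/

set_option autoImplicit false

noncomputable section

namespace Pool.Agent.VK3

open Pool.Agent.ZCyc Polynomial

universe u

variable {k : Type u} [Field k] [IsAlgClosed k] [CharZero k] {m m' : ℕ} {X : Fin m → EK3 k}
  {Y : Fin m' → EK3 k}

omit [IsAlgClosed k] [CharZero k] in
private theorem at_mv {v : Place k (Om k)} {σ : Type} (f : σ → Om k) (c : σ → k)
    (h : ∀ i, v.At (f i) (c i)) (F : MvPolynomial σ k) :
    v.At (MvPolynomial.aeval f F) (MvPolynomial.aeval c F) := by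
  induction F using MvPolynomial.induction_on with
  | C a =>
    rw [MvPolynomial.aeval_C, MvPolynomial.aeval_C]
    exact Place.at_const a
  | add p q hp hq =>
    rw [map_add, map_add]
    exact hp.add hq
  | mul_X p i hp =>
    rw [map_mul, map_mul, MvPolynomial.aeval_X, MvPolynomial.aeval_X]
    exact hp.mul (h i)

omit [IsAlgClosed k] [CharZero k] in
private theorem hom_scale {A : MvPolynomial (Fin 2) k} {n : ℕ} (hA : A.IsHomogeneous n)
    {K : Type*} [Field K] [Algebra k K] (c x y : K) :
    MvPolynomial.aeval ![c * x, c * y] A = c ^ n * MvPolynomial.aeval ![x, y] A := by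
  rw [MvPolynomial.aeval_def, MvPolynomial.aeval_def, MvPolynomial.eval₂_eq',
    MvPolynomial.eval₂_eq', Finset.mul_sum]
  refine Finset.sum_congr rfl fun d hd => ?_
  have h1 : d.degree = n := by
    have := hA (MvPolynomial.mem_support_iff.1 hd)
    rw [Finsupp.degree_eq_weight_one]
    exact this
  have h2 : d 0 + d 1 = n := by
    rw [← h1, Finsupp.degree_eq_sum, Fin.sum_univ_two]
  simp only [Fin.prod_univ_two, Matrix.cons_val_zero, Matrix.cons_val_one, mul_pow]
  rw [← h2, pow_add]
  ring

omit [IsAlgClosed k] [CharZero k] in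
private theorem hom_zero {A : MvPolynomial (Fin 2) k} {n : ℕ} (hn : n ≠ 0)
    (hA : A.IsHomogeneous n) : MvPolynomial.aeval ![(0 : k), 0] A = 0 := by
  have h := hom_scale hA (0 : k) 0 0
  rw [zero_pow hn, zero_mul] at h
  simpa using h

omit [IsAlgClosed k] [CharZero k] in
/-- the values of a point of a surface are points of the surface -/
theorem IsValue.onX {A B : MvPolynomial (Fin 2) k} (hA : A.IsHomogeneous 8)
    (hB : B.IsHomogeneous 12) {v : Place k (Om k)} {P : Fin 4 → Om k} {p : Fin 4 → k}
    (hP : OnX A B P) (hp : p ≠ 0) (h : IsValue v P p) : OnX A B p := by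
  obtain ⟨c, hc⟩ := h
  refine ⟨hp, ?_⟩
  have s0 : scale c P 0 = c * P 0 := by simp [scale, wt]
  have s1 : scale c P 1 = c * P 1 := by simp [scale, wt]
  have s2 : scale c P 2 = c ^ 4 * P 2 := by simp [scale, wt]
  have s3 : scale c P 3 = c ^ 6 * P 3 := by simp [scale, wt]
  have h0 : v.At (c * P 0) (p 0) := by rw [← s0]; exact hc 0
  have h1 : v.At (c * P 1) (p 1) := by rw [← s1]; exact hc 1
  have h2 : v.At (c ^ 4 * P 2) (p 2) := by rw [← s2]; exact hc 2
  have h3 : v.At (c ^ 6 * P 3) (p 3) := by rw [← s3]; exact hc 3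
  have hv : ∀ i : Fin 2, v.At ((![c * P 0, c * P 1] : Fin 2 → Om k) i)
      ((![p 0, p 1] : Fin 2 → k) i) := by
    intro i
    fin_cases i
    · exact h0
    · exact h1
  have hAv := at_mv _ _ hv A
  have hBv := at_mv _ _ hv B
  have e1 : (c ^ 6 * P 3) ^ 2 = (c ^ 4 * P 2) ^ 3 +
      MvPolynomial.aeval ![c * P 0, c * P 1] A * (c ^ 4 * P 2) +
      MvPolynomial.aeval ![c * P 0, c * P 1] B := by
    rw [hom_scale hA, hom_scale hB]
    linear_combination c ^ 12 * hP.2
  have h4 := h3.pow 2
  rw [e1] at h4
  exact h4.unique (((h2.pow 3).add (hAv.mul h2)).add hBv)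

omit [IsAlgClosed k] [CharZero k] in
theorem onX_ngv {A B : MvPolynomial (Fin 2) k} {w : Fin 4 → k} (h : OnX A B w) :
    OnX A B (ngv w) := by
  have e0 : ngv w 0 = w 0 := rfl
  have e1 : ngv w 1 = w 1 := rfl
  have e2 : ngv w 2 = w 2 := rfl
  have e3 : ngv w 3 = -w 3 := rfl
  refine ⟨?_, ?_⟩
  · intro h0
    apply h.1
    funext i
    have h1 := congrFun h0 i
    match i with
    | 0 => exact h1
    | 1 => exact h1
    | 2 => exact h1
    | 3 => exact neg_eq_zero.1 h1
  · rw [e0, e1, e2, e3, neg_sq]
    exact h.2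

omit [IsAlgClosed k] [CharZero k] in
theorem onX_oo (E : EK3 k) : OnX E.A E.B (oo : Fin 4 → k) := by
  refine ⟨?_, ?_⟩
  · intro h0
    have := congrFun h0 2
    simp [oo] at this
  · have e0 : (oo : Fin 4 → k) 0 = 0 := rfl
    have e1 : (oo : Fin 4 → k) 1 = 0 := rfl
    have e2 : (oo : Fin 4 → k) 2 = 1 := rfl
    have e3 : (oo : Fin 4 → k) 3 = 1 := rfl
    rw [e0, e1, e2, e3, hom_zero (by norm_num) E.homA, hom_zero (by norm_num) E.homB]
    ring

/-- multiplication of the last coordinate by a sign -/
private def sg {K : Type*} [Field K] (ε : ℤˣ) (w : Fin 4 → K) : Fin 4 → K :=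
  ![w 0, w 1, w 2, ((ε : ℤ) : K) * w 3]

private theorem sg_one {K : Type*} [Field K] (w : Fin 4 → K) : sg 1 w = w := by
  funext i
  match i with
  | 0 => rfl
  | 1 => rfl
  | 2 => rfl
  | 3 =>
    change ((1 : ℤˣ) : ℤ) * w 3 = w 3
    simp

private theorem sg_cases {K : Type*} [Field K] (ε : ℤˣ) (w : Fin 4 → K) :
    sg ε w = w ∨ sg ε w = ![w 0, w 1, w 2, -w 3] := by
  rcases Int.units_eq_one_or ε with rfl | rfl
  · exact Or.inl (sg_one w)
  · right
    unfold sg
    simp

omit [IsAlgClosed k] [CharZero k] in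
private theorem onX_sg {A B : MvPolynomial (Fin 2) k} {K : Type*} [Field K] [Algebra k K]
    {w : Fin 4 → K} (h : OnX A B w) (ε : ℤˣ) : OnX A B (sg ε w) := by
  rcases sg_cases ε w with h1 | h1
  · rw [h1]
    exact h
  · rw [h1]
    refine ⟨?_, ?_⟩
    · intro h0
      apply h.1
      funext i
      have h1 := congrFun h0 i
      match i with
      | 0 => exact h1
      | 1 => exact h1
      | 2 => exact h1
      | 3 => exact neg_eq_zero.1 h1
    · change (-w 3) ^ 2 = w 2 ^ 3 + MvPolynomial.aeval ![w 0, w 1] A * w 2 +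
        MvPolynomial.aeval ![w 0, w 1] B
      rw [neg_sq]
      exact h.2

omit [IsAlgClosed k] [CharZero k] in
theorem Mor.onP (f : Mor X Y) {x : Pts m k} (hx : OnP X x) : OnP Y (f.app x) := by
  intro j
  unfold Mor.app
  cases hf : f j with
  | const w hw => exact hw
  | fac i h ε =>
    have h1 := onX_sg (hx i) ε
    rw [h] at h1
    exact h1

omit [IsAlgClosed k] [CharZero k] in
theorem Mor.onP_base (f : Mor X Y) {x : Pts m k} (hx : OnP X x) : OnP Y (f.base x) := by
  intro j
  unfold Mor.base
  cases hf : f j with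
  | const w hw => exact hw
  | fac i h ε =>
    have h1 := hx i
    rw [h] at h1
    exact h1

omit [IsAlgClosed k] [CharZero k] in
/-- cycles which are rationally equivalent to zero are supported on the product and have degree
zero -/
theorem ratEqP_supp {z : Pts m k →₀ ℚ} (hz : z ∈ ratEqP X) :
    (∀ p ∈ z.support, OnP X p) ∧ (z.sum fun _ c => c) = 0 := by
  classical
  let N : Submodule ℚ (Pts m k →₀ ℚ) :=
    { carrier := {z | (∀ p ∈ z.support, OnP X p) ∧ (z.sum fun _ c => c) = 0}
      zero_mem' := by simp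
      add_mem' := by
        rintro z z' ⟨h1, h2⟩ ⟨h3, h4⟩
        refine ⟨fun p hp => ?_, ?_⟩
        · rcases Finset.mem_union.1 (Finsupp.support_add hp) with h | h
          · exact h1 p h
          · exact h3 p h
        · rw [Finsupp.sum_add_index' (fun _ => rfl) (fun _ _ _ => rfl), h2, h4, add_zero]
      smul_mem' := by
        rintro c z ⟨h1, h2⟩
        refine ⟨fun p hp => h1 p (Finsupp.support_smul hp), ?_⟩
        rw [Finsupp.sum_smul_index' (fun _ => rfl)]
        simp only [smul_eq_mul]
        rw [← Finsupp.mul_sum, h2, mul_zero] }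
  have hsingle : ∀ p q : Pts m k, OnP X p → OnP X q →
      (Finsupp.single p (1 : ℚ) - Finsupp.single q 1) ∈ N := by
    intro p q hp hq
    refine ⟨fun r hr => ?_, ?_⟩
    · rcases Finset.mem_union.1 (Finsupp.support_sub hr) with h | h
      · rw [Finset.mem_singleton.1 (Finsupp.support_single_subset h)]
        exact hp
      · rw [Finset.mem_singleton.1 (Finsupp.support_single_subset h)]
        exact hq
    · rw [Finsupp.sum_sub_index (fun _ _ _ => rfl), Finsupp.sum_single_index rfl,
        Finsupp.sum_single_index rfl, sub_self]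
  have key : ratEqP X ≤ N := by
    unfold ratEqP
    rw [Submodule.span_le]
    rintro z ⟨n, P, c, c', v, v', p, p', hOn, hG, hv, hv', hp, hp', rfl⟩
    refine N.sum_mem fun a _ => hsingle _ _ ?_ ?_
    · exact fun i => IsValue.onX (X i).homA (X i).homB (hOn a i) (hp a i).1 (hp a i).2
    · exact fun i => IsValue.onX (X i).homA (X i).homB (hOn a i) (hp' a i).1 (hp' a i).2
  exact key hz

/-- the component over a field extension -/
private def appK {K : Type*} [Field K] [Algebra k K] {Z : EK3 k} (f : Comp X Z)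
    (P : Pts m K) : Fin 4 → K :=
  match f with
  | .const w _ => fun i => algebraMap k K (w i)
  | .fac i _ ε => sg ε (P i)

omit [IsAlgClosed k] [CharZero k] in
private theorem onX_appK {K : Type*} [Field K] [Algebra k K] {Z : EK3 k} (f : Comp X Z)
    {P : Pts m K} (hP : OnP X P) : OnX Z.A Z.B (appK f P) := by
  cases f with
  | const w h =>
    refine ⟨?_, ?_⟩
    · intro h0
      apply h.1
      funext i
      have := congrFun h0 i
      exact (algebraMap k K).injective (by simpa [appK] using this)
    · have e : ∀ F : MvPolynomial (Fin 2) k,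
          MvPolynomial.aeval ![algebraMap k K (w 0), algebraMap k K (w 1)] F =
            algebraMap k K (MvPolynomial.aeval ![w 0, w 1] F) := by
        intro F
        rw [← MvPolynomial.aeval_algebraMap_apply]
        congr 1
        congr 1
        funext i
        fin_cases i <;> rfl
      have h2 := congrArg (algebraMap k K) h.2
      simp only [map_add, map_mul, map_pow] at h2
      change algebraMap k K (w 3) ^ 2 = algebraMap k K (w 2) ^ 3 +
        MvPolynomial.aeval ![algebraMap k K (w 0), algebraMap k K (w 1)] Z.A *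
          algebraMap k K (w 2) +
        MvPolynomial.aeval ![algebraMap k K (w 0), algebraMap k K (w 1)] Z.B
      rw [e Z.A, e Z.B]
      exact h2
  | fac i h ε =>
    have h1 := onX_sg (hP i) ε
    rw [h] at h1
    exact h1

omit [IsAlgClosed k] [CharZero k] in
private theorem isValue_app {Z : EK3 k} (f : Comp X Z) {v : Place k (Om k)}
    {P : Pts m (Om k)} {p : Pts m k} (h : ∀ i, IsValue v (P i) (p i)) :
    IsValue v (appK f P) (f.app p) := by
  cases f with
  | const w hw =>
    refine ⟨1, fun i => ?_⟩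
    change v.Vanishes (scale 1 (fun i => algebraMap k (Om k) (w i)) i - algebraMap k (Om k) (w i))
    have : scale (1 : Om k) (fun i => algebraMap k (Om k) (w i)) i -
        algebraMap k (Om k) (w i) = 0 := by
      simp [scale]
    rw [this]
    exact v.vanishes_zero
  | fac i hi ε =>
    obtain ⟨c, hc⟩ := h i
    refine ⟨c, fun j => ?_⟩
    match j with
    | 0 => exact hc 0
    | 1 => exact hc 1
    | 2 => exact hc 2
    | 3 =>
      change v.Vanishes (c ^ wt 3 * (((ε : ℤ) : Om k) * P i 3) -
        algebraMap k (Om k) (((ε : ℤ) : k) * p i 3))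
      have h1 : c ^ wt 3 * (((ε : ℤ) : Om k) * P i 3) -
          algebraMap k (Om k) (((ε : ℤ) : k) * p i 3) =
          algebraMap k (Om k) ((ε : ℤ) : k) * (scale c (P i) 3 - algebraMap k (Om k) (p i 3)) := by
        have h2 : algebraMap k (Om k) ((ε : ℤ) : k) = ((ε : ℤ) : Om k) := map_intCast _ _
        rw [map_mul, h2]
        unfold scale
        ring
      rw [h1]
      exact (hc 3).mul' v (v.const_mem _)

omit [IsAlgClosed k] [CharZero k] in
private theorem gal_app {Z : EK3 k} (f : Comp X Z) (g : Om k ≃ₐ[RatFunc k] Om k)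
    (P : Pts m (Om k)) : appK f (fun i => g ∘ P i) = g ∘ appK f P := by
  cases f with
  | const w hw =>
    funext i
    change algebraMap k (Om k) (w i) = g (algebraMap k (Om k) (w i))
    rw [IsScalarTower.algebraMap_apply k (RatFunc k) (Om k), g.commutes]
  | fac i hi ε =>
    funext j
    match j with
    | 0 => rfl
    | 1 => rfl
    | 2 => rfl
    | 3 =>
      change ((ε : ℤ) : Om k) * g (P i 3) = g (((ε : ℤ) : Om k) * P i 3)
      rw [map_mul, map_intCast]

omit [IsAlgClosed k] [CharZero k] in
/-- push-forward by a morphism (the family `P a` goes to the family with the components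
`algebraMap ∘ w` or `![P a i 0, P a i 1, P a i 2, ± P a i 3]`) -/
theorem mapDomain_ratEqP (f : Mor X Y) {z : Pts m k →₀ ℚ} (hz : z ∈ ratEqP X) :
    z.mapDomain f.app ∈ ratEqP Y := by
  have key : ratEqP X ≤ (ratEqP Y).comap (Finsupp.lmapDomain ℚ ℚ f.app) := by
    conv_lhs => unfold ratEqP
    rw [Submodule.span_le]
    rintro z ⟨n, P, c, c', v, v', p, p', hOn, hG, hv, hv', hp, hp', rfl⟩
    have hon : ∀ (q : Pts m k), OnP X q → ∀ j, f.app q j ≠ 0 := fun q hq j =>
      (Mor.onP f hq j).1
    have hpX : ∀ a, OnP X (p a) := fun a i =>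
      IsValue.onX (X i).homA (X i).homB (hOn a i) (hp a i).1 (hp a i).2
    have hpX' : ∀ a, OnP X (p' a) := fun a i =>
      IsValue.onX (X i).homA (X i).homB (hOn a i) (hp' a i).1 (hp' a i).2
    refine Submodule.subset_span ⟨n, fun a j => appK (f j) (P a), c, c', v, v',
      fun a => f.app (p a), fun a => f.app (p' a), fun a j => onX_appK (f j) (hOn a),
      fun g => ?_, hv, hv', fun a j => ⟨hon _ (hpX a) j, ?_⟩, fun a j => ⟨hon _ (hpX' a) j, ?_⟩,
      ?_⟩
    · obtain ⟨r, hr⟩ := hG g
      refine ⟨r, fun a j => ?_⟩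
      have h1 : P (r a) = fun i => g ∘ P a i := funext fun i => hr a i
      rw [← gal_app, ← h1]
    · exact isValue_app (f j) fun i => (hp a i).2
    · exact isValue_app (f j) fun i => (hp' a i).2
    · rw [map_sum]
      refine Finset.sum_congr rfl fun a _ => ?_
      rw [map_sub, Finsupp.lmapDomain_apply, Finsupp.lmapDomain_apply, Finsupp.mapDomain_single,
        Finsupp.mapDomain_single]
  exact key hz

end Pool.Agent.VK3
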