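import Pool.Agent.VK3.PE

/-!
# Products of elliptic K3 surfaces: permutations
-/

set_option autoImplicit false

noncomputable section

namespace Pool.Agent.VK3

open Pool.Agent.ZCyc Polynomial

universe u

variable {k : Type u} [Field k] [IsAlgClosed k] [CharZero k] {m m' : ℕ} {X : Fin m → EK3 k}
  {Y : Fin m' → EK3 k}

omit [IsAlgClosed k] [CharZero k] in
private theorem pi_exists_equiv {f : Mor X Y} {I : Finset (Fin m)} {K : Finset (Fin m')}
    (hf : pullCoef f I K ≠ 0) :
    ∃ e : {j // j ∈ K} ≃ {i // i ∈ I}, ∀ j, (f j.1).src = some (e j).1 := by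
  unfold pullCoef at hf
  split_ifs at hf with h
  · obtain ⟨h1, h2⟩ := h
    choose s hs using h1
    have hinj : Function.Injective (fun j : {j // j ∈ K} => (⟨s j.1 j.2, (hs j.1 j.2).1⟩ :
        {i // i ∈ I})) := by
      intro a b hab
      have hab' : s a.1 a.2 = s b.1 b.2 := congrArg Subtype.val hab
      obtain ⟨j, _, hj⟩ := h2 (s a.1 a.2) (hs a.1 a.2).1
      have ea := hj a.1 ⟨a.2, (hs a.1 a.2).2⟩
      have eb := hj b.1 ⟨b.2, by rw [hab']; exact (hs b.1 b.2).2⟩
      exact Subtype.ext (ea.trans eb.symm)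
    have hsurj : Function.Surjective (fun j : {j // j ∈ K} => (⟨s j.1 j.2, (hs j.1 j.2).1⟩ :
        {i // i ∈ I})) := by
      intro i
      obtain ⟨j, hj, _⟩ := h2 i.1 i.2
      refine ⟨⟨j, hj.1⟩, Subtype.ext ?_⟩
      exact (Option.some_injective _ (hj.2.symm.trans (hs j hj.1).2)).symm
    exact ⟨Equiv.ofBijective _ ⟨hinj, hsurj⟩, fun j => (hs j.1 j.2).2⟩
  · exact absurd rfl hf

omit [IsAlgClosed k] [CharZero k] in
private theorem pi_src {Z : EK3 k} {f : Comp X Z} {i : Fin m} (h : f.src = some i) :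
    X i = Z ∧ ∀ x : Pts m k, f.base x = x i := by
  cases f with
  | const w hw => simp [Comp.src] at h
  | fac i' h' ε =>
    simp only [Comp.src, Option.some.injEq] at h
    subst h
    exact ⟨h', fun _ => rfl⟩

omit [IsAlgClosed k] [CharZero k] in
private theorem pi_onP {f : Mor X Y} {x : Pts m k} (hx : OnP X x) : OnP Y (f.base x) := by
  intro j
  change OnX (Y j).A (Y j).B ((f j).base x)
  cases hfj : f j with
  | const w hw => exact hw
  | fac i h ε =>
    have := hx i
    rw [h] at this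
    exact this

/-- both morphisms induce bijections `K → I`, which differ by a permutation of `K` -/
theorem eP_indep {f f' : Mor X Y} {I : Finset (Fin m)} {K : Finset (Fin m')}
    (hf : pullCoef f I K ≠ 0) (hf' : pullCoef f' I K ≠ 0) {x : Pts m k} (hx : OnP X x) :
    eP Y K (f.base x) = eP Y K (f'.base x) := by
  classical
  obtain ⟨e, he⟩ := pi_exists_equiv hf
  obtain ⟨e', he'⟩ := pi_exists_equiv hf'
  let π₀ : Equiv.Perm {j // j ∈ K} := e'.trans e.symm
  let π : Equiv.Perm (Fin m') := Equiv.Perm.ofSubtype π₀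
  have hπ : ∀ j (hj : j ∈ K), π j = (e.symm (e' ⟨j, hj⟩)).1 := by
    intro j hj
    exact Equiv.Perm.ofSubtype_apply_of_mem π₀ hj
  have hπ' : ∀ j, j ∉ K → π j = j := fun j hj => Equiv.Perm.ofSubtype_apply_of_not_mem π₀ hj
  have hsrc : ∀ j (hj : j ∈ K), (f (π j)).src = some (e' ⟨j, hj⟩).1 := by
    intro j hj
    rw [hπ j hj, he, Equiv.apply_symm_apply]
  have hY : ∀ j, Y (π j) = Y j := by
    intro j
    by_cases hj : j ∈ K
    · exact (pi_src (hsrc j hj)).1.symm.trans (pi_src (he' ⟨j, hj⟩)).1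
    · rw [hπ' j hj]
  rw [← eP_perm (pi_onP (f := f) hx) π hY hπ']
  refine eP_congr K fun j hj => ?_
  change (f (π j)).base x = (f' j).base x
  rw [(pi_src (hsrc j hj)).2 x, (pi_src (he' ⟨j, hj⟩)).2 x]

end Pool.Agent.VK3
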