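import Pool.Agent.VK3.PE

/-!
# Products of elliptic K3 surfaces: push-forward of the classes eP
-/

set_option autoImplicit false
set_option linter.unusedSectionVars false

noncomputable section

namespace Pool.Agent.VK3

open Pool.Agent.ZCyc Polynomial

universe u

variable {k : Type u} [Field k] [IsAlgClosed k] [CharZero k] {m m' : ℕ} {X : Fin m → EK3 k}
  {Y : Fin m' → EK3 k}

/-- the push-forward of classes by a morphism -/
def pushV (f : Mor X Y) : VP X →ₗ[ℚ] VP Y :=
  (ratEqP X).mapQ (ratEqP Y) (Finsupp.lmapDomain ℚ ℚ f.app) fun _ hz => mapDomain_ratEqP f hz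

private theorem pp_clP (f : Mor X Y) (y : Pts m k) : pushV f (clP X y) = clP Y (f.app y) := by
  have h : pushV f (clP X y) =
      Submodule.Quotient.mk (Finsupp.mapDomain f.app (Finsupp.single y (1 : ℚ))) := rfl
  rw [h, Finsupp.mapDomain_single]
  rfl

/-- multiplication of the last coordinate by a sign -/
private def sv (s : ℤ) (w : Fin 4 → k) : Fin 4 → k := ![w 0, w 1, w 2, (s : k) * w 3]

private theorem sv_one (w : Fin 4 → k) : sv 1 w = w := by
  funext e
  fin_cases e <;> simp [sv]

private theorem sv_neg (w : Fin 4 → k) : sv (-1) w = ngv w := by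
  funext e
  fin_cases e <;> simp [sv, ngv]

private theorem sv_mul_neg (s : ℤ) (w : Fin 4 → k) : sv s (ngv w) = sv (s * -1) w := by
  funext e
  fin_cases e <;> simp [sv, ngv]

/-- change of signs -/
private theorem eP_sign {K : Finset (Fin m')} (s : Fin m' → ℤ) (hs : ∀ j ∈ K, s j = 1 ∨ s j = -1)
    {y y' : Pts m' k} (h : ∀ j ∈ K, y' j = sv (s j) (y j)) :
    eP Y K y' = (∏ j ∈ K, (s j : ℚ)) • eP Y K y := by
  classical
  have key : ∀ T : Finset (Fin m'), T ⊆ K →
      eP Y K (fun j => if j ∈ T then sv (s j) (y j) else y j) =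
        (∏ j ∈ T, (s j : ℚ)) • eP Y K y := by
    intro T
    induction T using Finset.induction_on with
    | empty =>
      intro _
      simp
    | insert j T hj ih =>
      intro hT
      have hjK : j ∈ K := hT (Finset.mem_insert_self _ _)
      have hTK : T ⊆ K := fun a ha => hT (Finset.mem_insert_of_mem ha)
      have e : (fun l => if l ∈ insert j T then sv (s l) (y l) else y l) =
          Function.update (fun l => if l ∈ T then sv (s l) (y l) else y l) j (sv (s j) (y j)) := by
        funext l
        by_cases hl : l = j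
        · subst hl
          simp
        · rw [Function.update_of_ne hl]
          simp [hl]
      rw [e, Finset.prod_insert hj]
      rcases hs j hjK with h1 | h1
      · rw [h1, sv_one]
        have e2 : Function.update (fun l => if l ∈ T then sv (s l) (y l) else y l) j (y j) =
            fun l => if l ∈ T then sv (s l) (y l) else y l := by
          rw [Function.update_eq_self_iff]
          simp [hj]
        rw [e2, ih hTK]
        simp
      · rw [h1, sv_neg]
        have e2 := eP_ngv (X := Y) (fun l => if l ∈ T then sv (s l) (y l) else y l) hjK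
        simp only [if_neg hj] at e2
        rw [ih hTK] at e2
        rw [e2]
        simp
  rw [← key K (Finset.Subset.refl _)]
  refine eP_congr K fun j hj => ?_
  rw [h j hj, if_pos hj]

/-- the sign of a component, `1` for a constant -/
private def esgn {Z : EK3 k} : Comp X Z → ℤ
  | .const _ _ => 1
  | .fac _ _ ε => ε

private theorem esgn_or {Z : EK3 k} (f : Comp X Z) : esgn f = 1 ∨ esgn f = -1 := by
  cases f with
  | const w hw => exact Or.inl rfl
  | fac i h ε =>
    rcases Int.units_eq_one_or ε with h1 | h1
    · left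
      rw [h1]
      rfl
    · right
      rw [h1]
      rfl

/-- the points in the sum `eP X I x` -/
private def xs (I : Finset (Fin m)) (x : Pts m k) (S : Finset (Fin m)) : Pts m k :=
  fun i => if i ∈ S then ngv (x i) else if i ∈ I then x i else oo

private theorem xs_on {I : Finset (Fin m)} {x : Pts m k} (hx : OnP X x) (S : Finset (Fin m)) :
    OnP X (xs I x S) := by
  intro i
  unfold xs
  split_ifs
  · exact onX_ngv (hx i)
  · exact hx i
  · exact onX_oo (X i)

/-- the sign coming from `S` -/
private def tS {Z : EK3 k} (S : Finset (Fin m)) (f : Comp X Z) : ℤ :=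
  ∏ i ∈ S, if f.src = some i then -1 else 1

private theorem tS_or {Z : EK3 k} (S : Finset (Fin m)) (f : Comp X Z) :
    tS S f = 1 ∨ tS S f = -1 := by
  classical
  unfold tS
  induction S using Finset.induction_on with
  | empty => left; simp
  | insert i S hi ih =>
    rw [Finset.prod_insert hi]
    split_ifs <;> rcases ih with h | h <;> rw [h] <;> norm_num

private theorem app_xs {Z : EK3 k} {I S : Finset (Fin m)} (x : Pts m k)
    (f : Comp X Z) (hf : ∀ i, f.src = some i → i ∈ I) :
    f.app (xs I x S) = sv (esgn f * tS S f) (f.base x) := by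
  cases f with
  | const w hw =>
    have h1 : tS S (Comp.const w hw : Comp X Z) = 1 := by
      unfold tS Comp.src
      simp
    rw [h1]
    show w = sv (1 * 1) w
    rw [one_mul, sv_one]
  | fac i h ε =>
    have hi : i ∈ I := hf i rfl
    have h1 : tS S (Comp.fac i h ε : Comp X Z) = if i ∈ S then -1 else 1 := by
      unfold tS Comp.src
      simp only [Option.some.injEq]
      rw [Finset.prod_ite_eq]
    rw [h1]
    show sv (ε : ℤ) (xs I x S i) = sv ((ε : ℤ) * if i ∈ S then -1 else 1) (x i)
    unfold xs
    by_cases h2 : i ∈ S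
    · rw [if_pos h2, if_pos h2, sv_mul_neg]
    · rw [if_neg h2, if_neg h2, if_pos hi, mul_one]

/-- the number of components in `K` with the factor `i` -/
private def nK (f : Mor X Y) (K : Finset (Fin m')) (i : Fin m) : ℕ :=
  (K.filter fun j => (f j).src = some i).card

private theorem prod_tS (f : Mor X Y) (K : Finset (Fin m')) (S : Finset (Fin m)) :
    (∏ j ∈ K, (tS S (f j) : ℚ)) = ∏ i ∈ S, (-1 : ℚ) ^ nK f K i := by
  unfold tS
  simp only [Int.cast_prod]
  rw [Finset.prod_comm]
  refine Finset.prod_congr rfl fun i _ => ?_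
  unfold nK
  have h : ∀ j, (((if (f j).src = some i then -1 else 1 : ℤ) : ℤ) : ℚ) =
      if (f j).src = some i then (-1 : ℚ) else 1 := by
    intro j
    split_ifs <;> simp
  simp only [h]
  rw [Finset.prod_ite]
  simp

/-- the sum over the signs, if no component in `K` has a factor outside of `I` -/
private theorem sum_sign (f : Mor X Y) {I : Finset (Fin m)} (K : Finset (Fin m')) (x : Pts m k)
    (hK : ∀ j ∈ K, ∀ i, (f j).src = some i → i ∈ I) :
    ∑ S ∈ I.powerset, ((-1 : ℚ) ^ S.card) • eP Y K (f.app (xs I x S)) =
      ((∏ j ∈ K, (esgn (f j) : ℚ)) * ∏ i ∈ I, (1 - (-1 : ℚ) ^ nK f K i)) •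
        eP Y K (f.base x) := by
  classical
  have h1 : ∀ S ∈ I.powerset, ((-1 : ℚ) ^ S.card) • eP Y K (f.app (xs I x S)) =
      ((∏ j ∈ K, (esgn (f j) : ℚ)) * ∏ i ∈ S, (-(-1 : ℚ) ^ nK f K i)) • eP Y K (f.base x) := by
    intro S hS
    rw [Finset.mem_powerset] at hS
    rw [eP_sign (Y := Y) (K := K) (fun j => esgn (f j) * tS S (f j)) (y := f.base x)
      (y' := f.app (xs I x S)) (fun j _ => ?_) (fun j hj => app_xs x (f j) (hK j hj)), smul_smul]
    · congr 1
      simp only [Int.cast_mul, Finset.prod_mul_distrib]
      rw [prod_tS]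
      have h2 : ∏ i ∈ S, (-(-1 : ℚ) ^ nK f K i) = (-1) ^ S.card * ∏ i ∈ S, (-1 : ℚ) ^ nK f K i := by
        rw [← Finset.prod_const, ← Finset.prod_mul_distrib]
        refine Finset.prod_congr rfl fun i _ => ?_
        ring
      rw [h2]
      ring
    · rcases esgn_or (f j) with h | h <;> rcases tS_or S (f j) with h' | h' <;>
        simp [h, h']
  rw [Finset.sum_congr rfl h1, ← Finset.sum_smul, ← Finset.mul_sum]
  congr 2
  rw [← Finset.prod_one_add]
  refine Finset.prod_congr rfl fun i _ => ?_
  ring

/-- the sum over the signs, if some component in `K` has a factor outside of `I` -/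
private theorem sum_sign_zero (f : Mor X Y) {I : Finset (Fin m)} {K : Finset (Fin m')}
    {x : Pts m k} (hx : OnP X x) {j : Fin m'} (hj : j ∈ K) {i : Fin m}
    (hi : (f j).src = some i) (hI : i ∉ I) :
    ∑ S ∈ I.powerset, ((-1 : ℚ) ^ S.card) • eP Y K (f.app (xs I x S)) = 0 := by
  refine Finset.sum_eq_zero fun S hS => ?_
  rw [Finset.mem_powerset] at hS
  have hiS : i ∉ S := fun h => hI (hS h)
  rw [eP_oo (X := Y) (f.onP (xs_on hx S)) hj, smul_zero]
  show (f j).app (xs I x S) = oo ∨ (f j).app (xs I x S) = ngv oo
  generalize f j = g at hi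
  cases g with
  | const w hw => cases hi
  | fac i' h ε =>
    have hii : i' = i := by
      simpa [Comp.src] using hi
    subst hii
    have e : xs I x S i' = oo := by
      unfold xs
      rw [if_neg hiS, if_neg hI]
    show sv (ε : ℤ) (xs I x S i') = oo ∨ sv (ε : ℤ) (xs I x S i') = ngv oo
    rw [e]
    rcases Int.units_eq_one_or ε with h1 | h1
    · left
      rw [h1]
      exact sv_one _
    · right
      rw [h1]
      exact sv_neg _

private theorem sum_nK_le (f : Mor X Y) (I : Finset (Fin m)) (K : Finset (Fin m')) :
    ∑ i ∈ I, nK f K i = (K.filter fun j => ∃ i ∈ I, (f j).src = some i).card := by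
  classical
  unfold nK
  rw [← Finset.card_biUnion]
  · congr 1
    ext j
    simp only [Finset.mem_biUnion, Finset.mem_filter]
    constructor
    · rintro ⟨i, hi, hj, h⟩
      exact ⟨hj, i, hi, h⟩
    · rintro ⟨hj, i, hi, h⟩
      exact ⟨i, hi, hj, h⟩
  · intro i _ i' _ hne
    rw [Function.onFun, Finset.disjoint_left]
    intro j hj hj'
    rw [Finset.mem_filter] at hj hj'
    apply hne
    have := hj.2.symm.trans hj'.2
    simpa using this

private theorem term_mem (f : Mor X Y) (I : Finset (Fin m)) {x : Pts m k} (hx : OnP X x)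
    (K : Finset (Fin m')) :
    ((1 / 2 : ℚ) ^ K.card) • ∑ S ∈ I.powerset, ((-1 : ℚ) ^ S.card) • eP Y K (f.app (xs I x S)) -
      (if K.card = I.card then (pullCoef f I K : ℚ) • eP Y K (f.base x) else 0) ∈
        FV Y (2 * I.card + 1) := by
  classical
  by_cases hA : ∀ j ∈ K, ∀ i, (f j).src = some i → i ∈ I
  · rw [sum_sign f K x hA]
    by_cases hB : ∃ i ∈ I, Even (nK f K i)
    · obtain ⟨i, hi, hn⟩ := hB
      have h1 : ∏ i ∈ I, (1 - (-1 : ℚ) ^ nK f K i) = 0 := by
        refine Finset.prod_eq_zero hi ?_
        rw [hn.neg_one_pow, sub_self]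
      have h2 : pullCoef f I K = 0 := by
        unfold pullCoef
        rw [if_neg]
        rintro ⟨-, h3⟩
        obtain ⟨j, ⟨hj, hj2⟩, hu⟩ := h3 i hi
        have h4 : nK f K i = 1 := by
          unfold nK
          rw [Finset.card_eq_one]
          refine ⟨j, ?_⟩
          ext l
          simp only [Finset.mem_filter, Finset.mem_singleton]
          constructor
          · intro h
            exact hu l h
          · rintro rfl
            exact ⟨hj, hj2⟩
        rw [h4] at hn
        exact absurd hn (by decide)
      rw [h1, h2, mul_zero, zero_smul, smul_zero]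
      simp
    · push Not at hB
      have hodd : ∀ i ∈ I, Odd (nK f K i) := fun i hi => Nat.not_even_iff_odd.1 (hB i hi)
      have h1 : ∏ i ∈ I, (1 - (-1 : ℚ) ^ nK f K i) = 2 ^ I.card := by
        rw [← Finset.prod_const]
        refine Finset.prod_congr rfl fun i hi => ?_
        rw [(hodd i hi).neg_one_pow]
        norm_num
      have hsum := sum_nK_le f I K
      have hge : I.card ≤ ∑ i ∈ I, nK f K i := by
        calc I.card = ∑ i ∈ I, 1 := by simp
          _ ≤ ∑ i ∈ I, nK f K i := Finset.sum_le_sum fun i hi => (hodd i hi).pos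
      have hle : (K.filter fun j => ∃ i ∈ I, (f j).src = some i).card ≤ K.card :=
        Finset.card_filter_le _ _
      by_cases hc : K.card = I.card
      · rw [if_pos hc, h1]
        have hfull : (K.filter fun j => ∃ i ∈ I, (f j).src = some i) = K := by
          apply Finset.eq_of_subset_of_card_le (Finset.filter_subset _ _)
          omega
        have hone : ∀ i ∈ I, nK f K i = 1 := by
          by_contra hcon
          push Not at hcon
          obtain ⟨i, hi, hne⟩ := hcon
          have hlt : ∑ i ∈ I, 1 < ∑ i ∈ I, nK f K i := by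
            refine Finset.sum_lt_sum (fun i hi => (hodd i hi).pos) ⟨i, hi, ?_⟩
            have := (hodd i hi).pos
            omega
          simp only [Finset.sum_const, smul_eq_mul, mul_one] at hlt
          rw [hsum] at hlt
          omega
        have h2 : pullCoef f I K = ∏ j ∈ K, (f j).sgn := by
          unfold pullCoef
          rw [if_pos]
          refine ⟨fun j hj => ?_, fun i hi => ?_⟩
          · rw [← hfull, Finset.mem_filter] at hj
            exact hj.2
          · have h3 := hone i hi
            unfold nK at h3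
            rw [Finset.card_eq_one] at h3
            obtain ⟨j, hj⟩ := h3
            have hj1 : j ∈ K.filter fun j => (f j).src = some i := by
              rw [hj]
              exact Finset.mem_singleton_self j
            rw [Finset.mem_filter] at hj1
            refine ⟨j, hj1, fun l hl => ?_⟩
            have hl1 : l ∈ K.filter fun j => (f j).src = some i := by
              rw [Finset.mem_filter]
              exact hl
            rw [hj] at hl1
            exact Finset.mem_singleton.1 hl1
        have h3 : ∀ j ∈ K, (f j).sgn = esgn (f j) := by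
          intro j hj
          rw [← hfull, Finset.mem_filter] at hj
          obtain ⟨-, i, -, hi⟩ := hj
          generalize f j = g at hi
          cases g with
          | const w hw => cases hi
          | fac i' h ε => rfl
        rw [h2, Finset.prod_congr rfl h3, smul_smul, hc, Int.cast_prod]
        have h4 : (1 / 2 : ℚ) ^ I.card * ((∏ j ∈ K, (esgn (f j) : ℚ)) * 2 ^ I.card) =
            ∏ j ∈ K, (esgn (f j) : ℚ) := by
          have h5 : (1 / 2 : ℚ) ^ I.card * 2 ^ I.card = 1 := by
            rw [← mul_pow]
            norm_num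
          linear_combination (∏ j ∈ K, (esgn (f j) : ℚ)) * h5
        rw [h4, sub_self]
        exact zero_mem _
      · rw [if_neg hc, sub_zero, smul_smul]
        refine Submodule.smul_mem _ _ (Submodule.subset_span ⟨K, f.base x, f.onP_base hx, ?_, rfl⟩)
        omega
  · push Not at hA
    obtain ⟨j, hj, i, hi, hI⟩ := hA
    rw [sum_sign_zero f hx hj hi hI, smul_zero]
    have h2 : pullCoef f I K = 0 := by
      unfold pullCoef
      rw [if_neg]
      rintro ⟨h3, -⟩
      obtain ⟨i', hi', h4⟩ := h3 j hj
      rw [hi] at h4
      apply hI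
      have : i = i' := by simpa using h4
      rw [this]
      exact hi'
    rw [h2]
    simp

/-- Expand `f_* eP X I x = ∑ ε, ∏ ε_i [f (ε x)]`, the sum over all signs `ε_i`, `i ∈ I`, with
`clP_eq_sum`: `[f (ε x)] = ∑ K, 2 ^ (-|K|) eP Y K (f (ε x))`. The term of `K` vanishes if a component
in `K` comes from a factor outside of `I` (`eP_oo`), and after summation over the signs unless
every `i ∈ I` is the source of an odd number of `j ∈ K`. So `|K| ≥ |I|`, with equality only if `f`
induces a bijection from `K` to `I`. -/
theorem pushV_eP (f : Mor X Y) (I : Finset (Fin m)) {x : Pts m k} (hx : OnP X x) :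
    pushV f (eP X I x) - ∑ K : Finset (Fin m') with K.card = I.card,
      (pullCoef f I K : ℚ) • eP Y K (f.base x) ∈ FV Y (2 * I.card + 1) := by
  have h1 : pushV f (eP X I x) = ∑ K : Finset (Fin m'), ((1 / 2 : ℚ) ^ K.card) •
      ∑ S ∈ I.powerset, ((-1 : ℚ) ^ S.card) • eP Y K (f.app (xs I x S)) := by
    have h2 : eP X I x = ∑ S ∈ I.powerset, ((-1 : ℚ) ^ S.card) • clP X (xs I x S) := rfl
    rw [h2, map_sum]
    have h3 : ∀ S ∈ I.powerset, pushV f (((-1 : ℚ) ^ S.card) • clP X (xs I x S)) =
        ∑ K : Finset (Fin m'), ((1 / 2 : ℚ) ^ K.card) •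
          (((-1 : ℚ) ^ S.card) • eP Y K (f.app (xs I x S))) := by
      intro S _
      rw [map_smul, pp_clP, clP_eq_sum (f.onP (xs_on hx S)), Finset.smul_sum]
      refine Finset.sum_congr rfl fun K _ => ?_
      rw [smul_comm]
    rw [Finset.sum_congr rfl h3, Finset.sum_comm]
    refine Finset.sum_congr rfl fun K _ => ?_
    rw [Finset.smul_sum]
  rw [h1, Finset.sum_filter, ← Finset.sum_sub_distrib]
  exact Submodule.sum_mem _ fun K _ => term_mem f I hx K

end Pool.Agent.VK3
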