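import Pool.Agent.VK3.PFil
import Pool.Agent.VK3.PPush
import Pool.Agent.VK3.PIndep

/-!
# Products of elliptic K3 surfaces: functoriality
-/

set_option autoImplicit false

noncomputable section

namespace Pool.Agent.VK3

open Pool.Agent.ZCyc Polynomial

universe u

variable {k : Type u} [Field k] [IsAlgClosed k] [CharZero k] {m m' : ℕ} {X : Fin m → EK3 k}
  {Y : Fin m' → EK3 k}

/-- the push-forward of classes by a combination of morphisms -/
def pushGV (γ : Mor X Y →₀ ℚ) : VP X →ₗ[ℚ] VP Y := γ.sum fun f c => c • pushV f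

theorem pushGV_apply (γ : Mor X Y →₀ ℚ) (z : VP X) :
    pushGV γ z = ∑ f ∈ γ.support, γ f • pushV f z := by
  simp [pushGV, Finsupp.sum, LinearMap.sum_apply]

theorem mkQ_pushM (γ : Mor X Y →₀ ℚ) (z : Pts m k →₀ ℚ) :
    (ratEqP Y).mkQ (pushM γ z) = pushGV γ ((ratEqP X).mkQ z) := by
  rw [pushGV_apply, pushM, Finsupp.sum, LinearMap.sum_apply, map_sum]
  refine Finset.sum_congr rfl fun f _ => ?_
  rw [LinearMap.smul_apply, map_smul]
  rfl

/-- the push-forward of a generator by one morphism -/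
theorem pushV_eP_mem (f : Mor X Y) (I : Finset (Fin m)) {x : Pts m k} (hx : OnP X x) :
    pushV f (eP X I x) ∈ FV Y (2 * I.card) := by
  have h1 := FV_anti Y (Nat.le_succ (2 * I.card)) (pushV_eP f I hx)
  have h2 : (∑ K : Finset (Fin m') with K.card = I.card,
      (pullCoef f I K : ℚ) • eP Y K (f.base x)) ∈ FV Y (2 * I.card) := by
    refine Submodule.sum_mem _ fun K hK => Submodule.smul_mem _ _ (Submodule.subset_span ?_)
    rw [Finset.mem_filter] at hK
    exact ⟨K, f.base x, Mor.onP_base f hx, by rw [hK.2], rfl⟩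
  have := Submodule.add_mem _ h1 h2
  rwa [sub_add_cancel] at this

theorem map_le_of_FV {μ ν : ℕ} (γ : Mor X Y →₀ ℚ)
    (h : ∀ (I : Finset (Fin m)) (x : Pts m k), OnP X x → ν ≤ 2 * I.card →
      pushGV γ (eP X I x) ∈ FV Y μ) : (Fil X ν).map (pushM γ) ≤ Fil Y μ := by
  rw [Submodule.map_le_iff_le_comap, Fil_eq X ν, Fil_eq Y μ]
  have h1 : FV X ν ≤ (FV Y μ).comap (pushGV γ) := by
    rw [FV, Submodule.span_le]
    rintro _ ⟨I, x, hx, hI, rfl⟩
    exact h I x hx hI
  intro z hz
  rw [Submodule.mem_comap] at hz ⊢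
  rw [Submodule.mem_comap, mkQ_pushM]
  exact h1 hz

theorem Fil_map (γ : Mor X Y →₀ ℚ) (ν : ℕ) : (Fil X ν).map (pushM γ) ≤ Fil Y ν := by
  refine map_le_of_FV γ fun I x hx hI => ?_
  rw [pushGV_apply]
  exact Submodule.sum_mem _ fun f _ =>
    Submodule.smul_mem _ _ (FV_anti Y hI (pushV_eP_mem f I hx))

theorem Fil_grad (γ : Mor X Y →₀ ℚ) (ν : ℕ) (h : KillsForms γ ν) :
    (Fil X ν).map (pushM γ) ≤ Fil Y (ν + 1) := by
  refine map_le_of_FV γ fun I x hx hI => ?_
  rw [pushGV_apply]
  rcases Nat.lt_or_ge ν (2 * I.card) with hlt | hge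
  · exact Submodule.sum_mem _ fun f _ =>
      Submodule.smul_mem _ _ (FV_anti Y hlt (pushV_eP_mem f I hx))
  · have hν : ν = 2 * I.card := le_antisymm hI hge
    -- the terms with `|K| = |I|` cancel
    have hK : ∀ K : Finset (Fin m'), K.card = I.card →
        ∑ f ∈ γ.support, γ f • ((pullCoef f I K : ℚ) • eP Y K (f.base x)) = 0 := by
      intro K hKc
      by_cases hex : ∃ f0 : Mor X Y, pullCoef f0 I K ≠ 0
      · obtain ⟨f0, hf0⟩ := hex
        have : ∀ f ∈ γ.support, γ f • ((pullCoef f I K : ℚ) • eP Y K (f.base x)) =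
            (γ f * (pullCoef f I K : ℚ)) • eP Y K (f0.base x) := by
          intro f _
          rw [smul_smul]
          by_cases hf : pullCoef f I K = 0
          · rw [hf]; simp
          · rw [eP_indep hf hf0 hx]
        rw [Finset.sum_congr rfl this, ← Finset.sum_smul]
        have h0 := h I K hν (by rw [hKc, hν])
        rw [Finsupp.sum] at h0
        rw [h0, zero_smul]
      · push Not at hex
        refine Finset.sum_eq_zero fun f _ => ?_
        rw [hex f]; simp
    have hrest : ∑ f ∈ γ.support, γ f • (pushV f (eP X I x) -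
        ∑ K : Finset (Fin m') with K.card = I.card,
          (pullCoef f I K : ℚ) • eP Y K (f.base x)) ∈ FV Y (ν + 1) := by
      rw [hν]
      exact Submodule.sum_mem _ fun f _ => Submodule.smul_mem _ _ (pushV_eP f I hx)
    have hsum : ∑ f ∈ γ.support, γ f • (∑ K : Finset (Fin m') with K.card = I.card,
        (pullCoef f I K : ℚ) • eP Y K (f.base x)) = 0 := by
      simp_rw [Finset.smul_sum]
      rw [Finset.sum_comm]
      refine Finset.sum_eq_zero fun K hKm => ?_
      rw [Finset.mem_filter] at hKm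
      exact hK K hKm.2
    have : ∑ f ∈ γ.support, γ f • pushV f (eP X I x) =
        ∑ f ∈ γ.support, γ f • (pushV f (eP X I x) -
        ∑ K : Finset (Fin m') with K.card = I.card,
          (pullCoef f I K : ℚ) • eP Y K (f.base x)) := by
      rw [← sub_zero (∑ f ∈ γ.support, γ f • pushV f (eP X I x)), ← hsum,
        ← Finset.sum_sub_distrib]
      refine Finset.sum_congr rfl fun f _ => ?_
      rw [smul_sub]
    rw [this]
    exact hrest

end Pool.Agent.VK3
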