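import Pool.Agent.VK3.Defs2

/-!
# Polynomial points on cubic curves
-/

set_option autoImplicit false

noncomputable section

namespace Pool.Agent.VK3

open Pool.Agent.ZCyc Polynomial

universe u

variable {k : Type u} [Field k] [IsAlgClosed k] [CharZero k]

set_option linter.unusedSectionVars false

private theorem cnat (n : ℕ) [n.AtLeastTwo] : (C (OfNat.ofNat n : k) : k[X]) = OfNat.ofNat n :=
  map_ofNat C n

private theorem const_of_deriv {p : k[X]} (h : derivative p = 0) : p = C (p.eval 0) := by
  have h1 := derivative_eq_zero.1 h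
  obtain ⟨c, hc⟩ := natDegree_eq_zero.1 h1
  rw [← hc]; simp

private theorem const_of_natDegree {p : k[X]} (h : p.natDegree = 0) : p = C (p.eval 0) := by
  obtain ⟨c, hc⟩ := natDegree_eq_zero.1 h
  rw [← hc]; simp

/-- an elliptic curve has no nonconstant polynomial points -/
theorem poly_point {X' Y' : k[X]} {α γ : k} (h : Y' ^ 2 = 4 * X' ^ 3 - C (12 * α) * X' + C γ)
    (hc : ¬ (X' = C (X'.eval 0) ∧ Y' = C (Y'.eval 0))) : ∃ x : k, x ^ 2 = α ∧ γ = 8 * x ^ 3 := by
  by_contra hne
  push Not at hne
  obtain ⟨x0, hx0⟩ := IsAlgClosed.exists_pow_nat_eq α (n := 2) (by norm_num)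
  have h1 := hne x0 hx0
  have h2 := hne (-x0) (by rw [neg_sq, hx0])
  have hD : γ ^ 2 - 64 * α ^ 3 ≠ 0 := by
    rw [← hx0]
    intro h0
    have : (γ - 8 * x0 ^ 3) * (γ - 8 * (-x0) ^ 3) = 0 := by linear_combination h0
    rcases mul_eq_zero.1 this with h3 | h3
    · exact h1 (sub_eq_zero.1 h3)
    · exact h2 (sub_eq_zero.1 h3)
  set w : k[X] := 12 * X' ^ 2 - C (12 * α) with hw
  have hC12 : (C (12 * α) : k[X]) = 12 * C α := by rw [C_mul, cnat]
  have hbez : (3 * (8 * C α * X' + C γ)) * Y' ^ 2
      + (16 * C α ^ 2 - X' * (8 * C α * X' + C γ)) * w = C (3 * (γ ^ 2 - 64 * α ^ 3)) := by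
    have hr : (C (3 * (γ ^ 2 - 64 * α ^ 3)) : k[X]) = 3 * (C γ ^ 2 - 64 * C α ^ 3) := by
      rw [C_mul, C_sub, C_mul, C_pow, C_pow, cnat, cnat]
    rw [hr, h, hw, hC12]; ring
  have hcop : IsCoprime Y' w := by
    refine ⟨C (3 * (γ ^ 2 - 64 * α ^ 3))⁻¹ * ((3 * (8 * C α * X' + C γ)) * Y'),
      C (3 * (γ ^ 2 - 64 * α ^ 3))⁻¹ * (16 * C α ^ 2 - X' * (8 * C α * X' + C γ)), ?_⟩
    have hne3 : (3 * (γ ^ 2 - 64 * α ^ 3)) ≠ 0 := mul_ne_zero (by norm_num) hD
    have : (C (3 * (γ ^ 2 - 64 * α ^ 3))⁻¹ : k[X]) * C (3 * (γ ^ 2 - 64 * α ^ 3)) = 1 := by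
      rw [← C_mul, inv_mul_cancel₀ hne3, C_1]
    rw [← this, ← hbez]; ring
  have hder : 2 * Y' * derivative Y' = w * derivative X' := by
    have h3 := congrArg derivative h
    simp only [derivative_pow, derivative_add, derivative_sub, derivative_mul, derivative_C,
      derivative_ofNat] at h3
    rw [hw, hC12]
    rw [hC12] at h3
    simp only [Nat.cast_ofNat, map_ofNat] at h3
    norm_num at h3
    linear_combination h3
  have hdvd : Y' ∣ derivative X' := by
    apply hcop.dvd_of_dvd_mul_left
    rw [← hder]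
    exact ⟨2 * derivative Y', by ring⟩
  by_cases hX : derivative X' = 0
  · have hXc := const_of_deriv hX
    apply hc
    refine ⟨hXc, ?_⟩
    apply const_of_natDegree
    have h4 : (Y' ^ 2).natDegree = 0 := by
      rw [h, hXc]
      have : (4 * (C (eval 0 X')) ^ 3 - C (12 * α) * C (eval 0 X') + C γ : k[X])
          = C (4 * (eval 0 X') ^ 3 - (12 * α) * (eval 0 X') + γ) := by
        rw [C_add, C_sub, C_mul (a := (4 : k)), C_pow, C_mul (a := 12 * α), cnat]
      rw [this, natDegree_C]
    rw [natDegree_pow] at h4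
    omega
  · have hle := natDegree_le_of_dvd hdvd hX
    have hlt : (derivative X').natDegree < X'.natDegree := by
      apply natDegree_derivative_lt
      intro h0
      apply hX
      obtain ⟨c, hc'⟩ := natDegree_eq_zero.1 h0
      rw [← hc']; simp
    have hpos : 0 < X'.natDegree := by omega
    have h5 : (Y' ^ 2).natDegree = 3 * X'.natDegree := by
      rw [h]
      have e1 : (4 * X' ^ 3 : k[X]).natDegree = 3 * X'.natDegree := by
        rw [← cnat 4, natDegree_C_mul (by norm_num), natDegree_pow]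
      have e2 : (C (12 * α) * X' : k[X]).natDegree ≤ X'.natDegree := natDegree_C_mul_le _ _
      have e3 : (C γ : k[X]).natDegree = 0 := natDegree_C _
      have e4 : (C (12 * α) * X' - C γ : k[X]).natDegree ≤ X'.natDegree := by
        refine (natDegree_sub_le _ _).trans ?_
        rw [e3]; exact max_le e2 (Nat.zero_le _)
      rw [sub_add, natDegree_sub_eq_left_of_natDegree_lt, e1]
      omega
    rw [natDegree_pow] at h5
    omega

theorem poly_const {G T : k[X]} {d : k} (hd : d ≠ 0) (h : G ^ 2 - 4 * C d = T ^ 2) :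
    G = C (G.eval 0) ∧ T = C (T.eval 0) := by
  have h1 : (G - T) * (G + T) = C (4 * d) := by
    have : (C (4 * d) : k[X]) = 4 * C d := by rw [C_mul, cnat]
    rw [this]; linear_combination h
  have hu : IsUnit ((G - T) * (G + T)) := by
    rw [h1]
    exact (isUnit_C).2 (IsUnit.mk0 _ (mul_ne_zero (by norm_num) hd))
  have h2 := isUnit_of_mul_isUnit_left hu
  have h3 := isUnit_of_mul_isUnit_right hu
  have d2 : (G - T).natDegree = 0 := natDegree_eq_zero_of_isUnit h2
  have d3 : (G + T).natDegree = 0 := natDegree_eq_zero_of_isUnit h3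
  obtain ⟨c2, hc2⟩ := natDegree_eq_zero.1 d2
  obtain ⟨c3, hc3⟩ := natDegree_eq_zero.1 d3
  have hhalf : (C (1 / 2 : k) : k[X]) * 2 = 1 := by
    rw [← cnat 2, ← C_mul]; norm_num
  have hG : G = C ((c2 + c3) / 2) := by
    have h22 : (2 : k[X]) * G = C (c2 + c3) := by
      rw [C_add, hc2, hc3]; ring
    calc G = (C (1 / 2 : k) * 2) * G := by rw [hhalf, one_mul]
      _ = C (1 / 2 : k) * C (c2 + c3) := by rw [mul_assoc, h22]
      _ = C ((c2 + c3) / 2) := by rw [← C_mul]; congr 1; ring
  have hT : T = C ((c3 - c2) / 2) := by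
    have h22 : (2 : k[X]) * T = C (c3 - c2) := by
      rw [C_sub, hc2, hc3]; ring
    calc T = (C (1 / 2 : k) * 2) * T := by rw [hhalf, one_mul]
      _ = C (1 / 2 : k) * C (c3 - c2) := by rw [mul_assoc, h22]
      _ = C ((c3 - c2) / 2) := by rw [← C_mul]; congr 1; ring
  constructor
  · rw [hG]; simp
  · rw [hT]; simp

/-- for the minimality of the Weierstrass equation -/
theorem poly_disc {a b : k[X]} {c : k} (hc : c ≠ 0) (h : 4 * a ^ 3 + 27 * b ^ 2 = C c) :
    a = C (a.eval 0) ∧ b = C (b.eval 0) := by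
  have hcop : IsCoprime (a ^ 2) b := by
    refine ⟨C c⁻¹ * (4 * a), C c⁻¹ * (27 * b), ?_⟩
    have : (C c⁻¹ : k[X]) * C c = 1 := by rw [← C_mul, inv_mul_cancel₀ hc, C_1]
    rw [← this, ← h]; ring
  have hcop' : IsCoprime a b := (IsCoprime.pow_left_iff (by norm_num)).1 hcop
  have hder : 2 * a ^ 2 * derivative a = - (9 * b * derivative b) := by
    have h1 := congrArg derivative h
    simp only [derivative_pow, derivative_add, derivative_mul, derivative_C,
      derivative_ofNat] at h1
    simp only [Nat.cast_ofNat, map_ofNat] at h1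
    norm_num at h1
    have h6 : (6 : k[X]) * (2 * a ^ 2 * derivative a + (9 * b * derivative b)) = 0 := by
      linear_combination h1
    have h7 : (6 : k[X]) ≠ 0 := by
      rw [← cnat 6]
      exact C_ne_zero.2 (by norm_num)
    rcases mul_eq_zero.1 h6 with h8 | h8
    · exact absurd h8 h7
    · linear_combination h8
  have hC9 : IsUnit (9 : k[X]) := by
    rw [← cnat 9]
    exact isUnit_C.2 (IsUnit.mk0 _ (by norm_num))
  have hC2 : IsUnit (2 : k[X]) := by
    rw [← cnat 2]
    exact isUnit_C.2 (IsUnit.mk0 _ (by norm_num))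
  have hb_dvd : b ∣ derivative a := by
    have h1 : b ∣ a ^ 2 * (2 * derivative a) := ⟨-(9 * derivative b), by linear_combination hder⟩
    have h2 := hcop.symm.dvd_of_dvd_mul_left h1
    exact (hC2.dvd_mul_left).1 h2
  have ha_dvd : a ^ 2 ∣ derivative b := by
    have h1 : a ^ 2 ∣ b * (9 * derivative b) := ⟨-(2 * derivative a), by linear_combination hder⟩
    have h2 := hcop.dvd_of_dvd_mul_left h1
    exact (hC9.dvd_mul_left).1 h2
  have hlt : ∀ p : k[X], derivative p ≠ 0 → (derivative p).natDegree < p.natDegree := by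
    intro p hp
    apply natDegree_derivative_lt
    intro h0
    apply hp
    obtain ⟨c, hc'⟩ := natDegree_eq_zero.1 h0
    rw [← hc']; simp
  by_cases ha : derivative a = 0
  · have hac := const_of_deriv ha
    refine ⟨hac, ?_⟩
    have h3 : b * derivative b = 0 := by
      rw [ha] at hder
      have : (9 : k[X]) * (b * derivative b) = 0 := by linear_combination hder
      rcases mul_eq_zero.1 this with h8 | h8
      · exact absurd h8 hC9.ne_zero
      · exact h8
    rcases mul_eq_zero.1 h3 with h4 | h4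
    · rw [h4]; simp
    · exact const_of_deriv h4
  · exfalso
    have h1 := natDegree_le_of_dvd hb_dvd ha
    have h2 := hlt a ha
    by_cases hb : derivative b = 0
    · rw [hb] at hder
      have h5 : a ^ 2 * derivative a = 0 := by
        have : (2 : k[X]) * (a ^ 2 * derivative a) = 0 := by linear_combination hder
        rcases mul_eq_zero.1 this with h8 | h8
        · exact absurd h8 hC2.ne_zero
        · exact h8
      rcases mul_eq_zero.1 h5 with h6 | h6
      · have : a = 0 := by simpa using h6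
        rw [this] at ha; simp at ha
      · exact ha h6
    · have h3 := natDegree_le_of_dvd ha_dvd hb
      have h4 := hlt b hb
      rw [natDegree_pow] at h3
      omega

end Pool.Agent.VK3
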