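import Pool.Agent.VK3.Val

/-!
# Linear changes of the coordinates of the line
-/

set_option autoImplicit false

noncomputable section

namespace Pool.Agent.VK3

open Pool.Agent.ZCyc Polynomial

universe u

variable {k : Type u} [Field k]

/-- the form `A(X₀ - c X₁, X₁)` -/
def shf (c : k) (A : MvPolynomial (Fin 2) k) : MvPolynomial (Fin 2) k :=
  MvPolynomial.bind₁ ![MvPolynomial.X 0 - MvPolynomial.C c * MvPolynomial.X 1, MvPolynomial.X 1] A

/-- `(w₀ + c w₁, w₁, w₂, w₃)` -/
def shv {K : Type*} [Field K] (c : K) (w : Fin 4 → K) : Fin 4 → K :=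
  ![w 0 + c * w 1, w 1, w 2, w 3]

theorem shf_hom {c : k} {A : MvPolynomial (Fin 2) k} {n : ℕ} (h : A.IsHomogeneous n) :
    (shf c A).IsHomogeneous n := by
  have h1 := h.aeval (![MvPolynomial.X 0 - MvPolynomial.C c * MvPolynomial.X 1,
    MvPolynomial.X 1] : Fin 2 → MvPolynomial (Fin 2) k) (n := 1) (by
      intro i
      fin_cases i
      · refine (MvPolynomial.isHomogeneous_X _ _).sub ?_
        have := (MvPolynomial.isHomogeneous_C (Fin 2) c).mul
          (MvPolynomial.isHomogeneous_X k (1 : Fin 2))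
        simpa using this
      · exact MvPolynomial.isHomogeneous_X _ _)
  rw [one_mul] at h1
  exact h1

theorem shf_shf (c : k) (A : MvPolynomial (Fin 2) k) : shf (-c) (shf c A) = A := by
  unfold shf
  rw [MvPolynomial.bind₁_bind₁]
  have h1 : (fun i : Fin 2 => MvPolynomial.bind₁
      (![MvPolynomial.X 0 - MvPolynomial.C (-c) * MvPolynomial.X 1, MvPolynomial.X 1] :
        Fin 2 → MvPolynomial (Fin 2) k)
      ((![MvPolynomial.X 0 - MvPolynomial.C c * MvPolynomial.X 1, MvPolynomial.X 1] :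
        Fin 2 → MvPolynomial (Fin 2) k) i)) = MvPolynomial.X := by
    funext i
    fin_cases i
    · simp
    · simp
  rw [h1, MvPolynomial.bind₁_X_left]
  rfl

theorem shf_aeval (c : k) (A : MvPolynomial (Fin 2) k) {K : Type*} [Field K] [Algebra k K]
    (x y : K) : MvPolynomial.aeval ![x + algebraMap k K c * y, y] (shf c A) =
      MvPolynomial.aeval ![x, y] A := by
  unfold shf
  rw [MvPolynomial.aeval_bind₁]
  congr 1
  congr 1
  funext i
  fin_cases i
  · simp
  · simp

theorem shv_shv {K : Type*} [Field K] (c : K) (w : Fin 4 → K) : shv (-c) (shv c w) = w := by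
  funext i
  fin_cases i <;> simp [shv]

private theorem shv_ne {K : Type*} [Field K] (c : K) {w : Fin 4 → K} (h : w ≠ 0) :
    shv c w ≠ 0 := by
  intro h0
  apply h
  have h1 := shv_shv c w
  rw [h0] at h1
  rw [← h1]
  funext i
  fin_cases i <;> simp [shv]

theorem onX_shv (c : k) {A B : MvPolynomial (Fin 2) k} {K : Type*} [Field K] [Algebra k K]
    {w : Fin 4 → K} (h : OnX A B w) : OnX (shf c A) (shf c B) (shv (algebraMap k K c) w) := by
  refine ⟨shv_ne _ h.1, ?_⟩
  have h1 : shv (algebraMap k K c) w 0 = w 0 + algebraMap k K c * w 1 := rfl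
  have h2 : shv (algebraMap k K c) w 1 = w 1 := rfl
  have h3 : shv (algebraMap k K c) w 2 = w 2 := rfl
  have h4 : shv (algebraMap k K c) w 3 = w 3 := rfl
  rw [h1, h2, h3, h4, shf_aeval, shf_aeval]
  exact h.2

private theorem scale_shv {K : Type*} [Field K] [Algebra k K] (d : K) (c : k) (P : Fin 4 → K)
    (p : Fin 4 → k) : scale d (shv (algebraMap k K c) P) 0 - algebraMap k K (shv c p 0) =
      (scale d P 0 - algebraMap k K (p 0)) +
        algebraMap k K c * (scale d P 1 - algebraMap k K (p 1)) := by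
  have h1 : scale d (shv (algebraMap k K c) P) 0 = d ^ 1 * (P 0 + algebraMap k K c * P 1) := rfl
  have h2 : shv c p 0 = p 0 + c * p 1 := rfl
  have h3 : scale d P 0 = d ^ 1 * P 0 := rfl
  have h4 : scale d P 1 = d ^ 1 * P 1 := rfl
  rw [h1, h2, h3, h4, map_add, map_mul]
  ring

private theorem vanishes_shv {K : Type*} [Field K] [Algebra k K] (v : Place k K) (c : k) {x y : K}
    (hx : v.Vanishes x) (hy : v.Vanishes y) : v.Vanishes (x + algebraMap k K c * y) :=
  hx.add v (hy.mul' v (v.const_mem c))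

private theorem isValue_shv {v : Place k (Om k)} (c : k) {P : Fin 4 → Om k} {p : Fin 4 → k}
    (h : IsValue v P p) : IsValue v (shv (algebraMap k (Om k) c) P) (shv c p) := by
  obtain ⟨d, hd⟩ := h
  refine ⟨d, fun i => ?_⟩
  match i with
  | 0 =>
    rw [scale_shv]
    exact vanishes_shv v c (hd 0) (hd 1)
  | 1 => exact hd 1
  | 2 => exact hd 2
  | 3 => exact hd 3

private theorem gal_shv' {K : Type*} [Field K] (g : K → K) (hadd : ∀ x y, g (x + y) = g x + g y)
    (hmul : ∀ x y, g (x * y) = g x * g y) {c : K} (hc : g c = c) (P : Fin 4 → K) :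
    shv c (g ∘ P) = g ∘ shv c P := by
  funext i
  match i with
  | 0 =>
    change g (P 0) + c * g (P 1) = g (P 0 + c * P 1)
    rw [hadd, hmul, hc]
  | 1 => rfl
  | 2 => rfl
  | 3 => rfl

private theorem gal_shv (g : Om k ≃ₐ[RatFunc k] Om k) (c : k) (P : Fin 4 → Om k) :
    shv (algebraMap k (Om k) c) (g ∘ P) = g ∘ shv (algebraMap k (Om k) c) P := by
  refine gal_shv' g (map_add g) (map_mul g) ?_ P
  rw [IsScalarTower.algebraMap_apply k (RatFunc k) (Om k), g.commutes]

theorem ratEq_shv (c : k) {A B : MvPolynomial (Fin 2) k}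
    {z : (Fin 4 → k) × (Fin 4 → k) →₀ ℚ} (h : z ∈ ratEq A B) :
    z.mapDomain (Prod.map (shv c) (shv c)) ∈ ratEq (shf c A) (shf c B) := by
  have key : ratEq A B ≤ (ratEq (shf c A) (shf c B)).comap
      (Finsupp.lmapDomain ℚ ℚ (Prod.map (shv c) (shv c))) := by
    unfold ratEq
    rw [Submodule.span_le]
    rintro z ⟨n, P, Q, a, b, v, w, p, q, p', q', hOn, hG, hv, hw, hp, hp', rfl⟩
    refine Submodule.subset_span ⟨n, fun i => shv (algebraMap k (Om k) c) (P i),
      fun i => shv (algebraMap k (Om k) c) (Q i), a, b, v, w, fun i => shv c (p i),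
      fun i => shv c (q i), fun i => shv c (p' i), fun i => shv c (q' i),
      fun i => ⟨onX_shv c (hOn i).1, onX_shv c (hOn i).2⟩, fun g => ?_, hv, hw,
      fun i => ⟨shv_ne _ (hp i).1, shv_ne _ (hp i).2.1, isValue_shv c (hp i).2.2.1,
        isValue_shv c (hp i).2.2.2⟩,
      fun i => ⟨shv_ne _ (hp' i).1, shv_ne _ (hp' i).2.1, isValue_shv c (hp' i).2.2.1,
        isValue_shv c (hp' i).2.2.2⟩, ?_⟩
    · obtain ⟨r, hr⟩ := hG g
      refine ⟨r, fun i => ⟨?_, ?_⟩⟩
      · have h1 := gal_shv g c (P i)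
        rw [← (hr i).1] at h1
        exact h1
      · have h1 := gal_shv g c (Q i)
        rw [← (hr i).2] at h1
        exact h1
    · rw [map_sum]
      refine Finset.sum_congr rfl fun i _ => ?_
      rw [map_sub, Finsupp.lmapDomain_apply, Finsupp.lmapDomain_apply, Finsupp.mapDomain_single,
        Finsupp.mapDomain_single]
      rfl
  exact key h

end Pool.Agent.VK3
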