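import Pool.Agent.VK3.AlgInt

/-!
# The Jacobian fibration: lines of two slopes
-/

set_option autoImplicit false

noncomputable section

namespace Pool.Agent.VK3

open Pool.Agent.ZCyc Polynomial

universe u

variable {K : Type*} [Field K] [CharZero K]

private lemma slopeNe {As Bs At Z Xi u n : K} (hn0 : n ≠ 0) (hn : n ^ 3 = u ^ 2)
    (hZ : u ^ 2 * (4 * As ^ 3 + 27 * Bs ^ 2) = Z) (hD : Dst As Bs At Z Xi ≠ 0) :
    n * Xi ≠ n ^ 2 * As + At := by
  intro h
  have h1 := dett_dvd (Xi := Xi) (At := At) hn hZ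
  rw [show n * Xi - n ^ 2 * As - At = 0 by rw [h]; ring, zero_mul, mul_zero] at h1
  have h2 : (2 : K) * n ^ 3 ≠ 0 := mul_ne_zero two_ne_zero (pow_ne_zero _ hn0)
  exact hD ((mul_eq_zero.mp h1).resolve_left h2)

omit [CharZero K] in
/-- third point on a line -/
private lemma third {As Bs At Bt n s m x w : K} (hs : s ^ 3 = n ^ 3)
    (hF : (s * x + m) ^ 3 + At * (s * x + m) + Bt = n ^ 3 * (x ^ 3 + As * x + Bs))
    (hw : 3 * s ^ 2 * m * (x + w) = -(3 * s * m ^ 2 + s * At - n ^ 3 * As)) :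
    (s * w + m) ^ 3 + At * (s * w + m) + Bt = n ^ 3 * (w ^ 3 + As * w + Bs) := by
  linear_combination hF + (w - x) * hw + (w ^ 3 - x ^ 3) * hs

omit [CharZero K] in
private lemma E1 {As At Xi n z x m w : K} (hz : z ^ 2 + z + 1 = 0)
    (hXi : n * Xi = 3 * (n ^ 2 * x ^ 2 + n * x * (z * n * x + m) + (z * n * x + m) ^ 2) +
      n ^ 2 * As + At)
    (hw : 3 * n * m * (x + w) = -(3 * z ^ 2 * m ^ 2 + z ^ 2 * At - z * n ^ 2 * As)) :
    n * Xi = 3 * z * m * (z * n * w + m - n * w) + z * At + z ^ 2 * n ^ 2 * As := by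
  grind

private lemma E2 {As At Xi n z m m' w x' : K} (hz : z ^ 2 + z + 1 = 0)
    (hm' : m' = z * n * w + m - n * w)
    (h1 : n * Xi = 3 * z * m * m' + z * At + z ^ 2 * n ^ 2 * As)
    (hw : 3 * n * m' * (x' + w) = -(3 * m' ^ 2 + At - n ^ 2 * As)) :
    (z * n) * Xi = 3 * ((z * n) ^ 2 * x' ^ 2 + (z * n) * x' * (n * x' + m') + (n * x' + m') ^ 2) +
      (z * n) ^ 2 * As + At := by
  grind

omit [CharZero K] in
private lemma E3 {As At Xi Th u n z m m' w x x' : K} (hz : z ^ 2 + z + 1 = 0) (hn0 : n ≠ 0)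
    (hm' : m' = z * n * w + m - n * w)
    (h1 : n * Xi = 3 * z * m * m' + z * At + z ^ 2 * n ^ 2 * As)
    (hw0 : 3 * n * m * (x + w) = -(3 * z ^ 2 * m ^ 2 + z ^ 2 * At - z * n ^ 2 * As))
    (hw : 3 * n * m' * (x' + w) = -(3 * m' ^ 2 + At - n ^ 2 * As))
    (hTh : n ^ 2 * Th = 3 * u * ((n * x + (z * n * x + m)) * Xi + n * As * (z * n * x + m) +
      At * x)) :
    (z * n) ^ 2 * Th = 3 * u * (((z * n) * x' + (n * x' + m')) * Xi +
      (z * n) * As * (n * x' + m') + At * x') := by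
  have g1 : (n * x + (z * n * x + m)) * Xi + n * As * (z * n * x + m) + At * x =
      m * (Xi + n * As) - 3 * m * m' * x := by
    linear_combination x * (n * Xi - (z - 1) * (3 * m * m' + At + z * n ^ 2 * As)) * hz -
      x * z ^ 2 * h1
  have g2 : ((z * n) * x' + (n * x' + m')) * Xi + (z * n) * As * (n * x' + m') + At * x' =
      m' * (Xi + z * n * As) - 3 * m * m' * x' := by
    linear_combination x' * (n * Xi - (z - 1) * (3 * m * m' + At + z * n ^ 2 * As)) * hz -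
      x' * z ^ 2 * h1
  have key : z ^ 2 * (m * (Xi + n * As) - 3 * m * m' * x) =
      m' * (Xi + z * n * As) - 3 * m * m' * x' := by
    apply mul_left_cancel₀ hn0
    have e1 : n * (z ^ 2 * (m * (Xi + n * As) - 3 * m * m' * x)) =
        z ^ 2 * m * (3 * z * m * m' + z * At + z ^ 2 * n ^ 2 * As) + z ^ 2 * m * n ^ 2 * As +
        z ^ 2 * m' * (3 * n * m * w + (3 * z ^ 2 * m ^ 2 + z ^ 2 * At - z * n ^ 2 * As)) := by
      linear_combination z ^ 2 * m * h1 - z ^ 2 * m' * hw0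
    have e2 : n * (m' * (Xi + z * n * As) - 3 * m * m' * x') =
        m' * (3 * z * m * m' + z * At + z ^ 2 * n ^ 2 * As) + m' * z * n ^ 2 * As +
        m * (3 * n * m' * w + (3 * m' ^ 2 + At - n ^ 2 * As)) := by
      linear_combination m' * h1 - m * hw
    rw [e1, e2]
    have z3 : z ^ 3 = 1 := by linear_combination (z - 1) * hz
    have z4 : z ^ 4 = z := by linear_combination z * z3
    have z2 : z ^ 2 = - z - 1 := by linear_combination hz
    ring_nf
    simp only [z3, z4]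
    rw [z2]
    rw [hm']
    ring_nf
    simp only [z3, z2]
    ring_nf
  rw [g2, ← key, ← g1]
  linear_combination z ^ 2 * hTh

/-- Let `v` and `v'` be the lifts for the cube roots `n` and `n' = z n`. The line of slope `n'`
through `v` and the line of slope `n` through `v'` meet the curve in the same further point (with
first coordinate `w`). -/
theorem lift_slopes {As Bs At Bt Z Xi Th u n x₁ x₂ x₁' x₂' z : K} (hz : z ^ 2 + z + 1 = 0)
    (hL : Lift As Bs At Bt Z Xi Th u n x₁ x₂) (hL' : Lift As Bs At Bt Z Xi Th u (z * n) x₁' x₂')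
    (hD : Dst As Bs At Z Xi ≠ 0) :
    x₂ - z * n * x₁ ≠ 0 ∧ x₂' - n * x₁' ≠ 0 ∧ ∃ w : K,
      3 * (z * n) ^ 2 * (x₂ - z * n * x₁) * (x₁ + w) =
        -(3 * (z * n) * (x₂ - z * n * x₁) ^ 2 + z * n * At - (z * n) ^ 3 * As) ∧
      3 * n ^ 2 * (x₂' - n * x₁') * (x₁' + w) =
        -(3 * n * (x₂' - n * x₁') ^ 2 + n * At - n ^ 3 * As) ∧
      z * n * w + (x₂ - z * n * x₁) = n * w + (x₂' - n * x₁') := by
  have z3 : z ^ 3 = 1 := by linear_combination (z - 1) * hz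
  have hz0 : z ≠ 0 := by
    rintro rfl
    norm_num at hz
  have hn0 := hL.hn0
  have hn := hL.hn
  have hn3 : (z * n) ^ 3 = n ^ 3 := by rw [mul_pow, z3, one_mul]
  have hn9 : (z ^ 2 * n) ^ 3 = u ^ 2 := by
    rw [← hn]; linear_combination (z ^ 3 + 1) * n ^ 3 * z3
  obtain ⟨m, hm⟩ : ∃ m, m = x₂ - z * n * x₁ := ⟨_, rfl⟩
  have hx₂ : x₂ = z * n * x₁ + m := by rw [hm]; ring
  have hm0 : m ≠ 0 := by
    intro h
    refine slopeNe hn0 hn hL.hZ hD ?_
    have h1 := hL.hXi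
    rw [hx₂, h] at h1
    linear_combination h1 + 3 * n ^ 2 * x₁ ^ 2 * hz
  have h3 : (3 : K) ≠ 0 := by norm_num
  obtain ⟨w, hw⟩ : ∃ w, 3 * (z * n) ^ 2 * m * (x₁ + w) =
      -(3 * (z * n) * m ^ 2 + z * n * At - (z * n) ^ 3 * As) := by
    refine ⟨-(3 * (z * n) * m ^ 2 + z * n * At - (z * n) ^ 3 * As) /
      (3 * (z * n) ^ 2 * m) - x₁, ?_⟩
    field_simp
    ring
  have hw0 : 3 * n * m * (x₁ + w) = -(3 * z ^ 2 * m ^ 2 + z ^ 2 * At - z * n ^ 2 * As) := by
    apply mul_left_cancel₀ hn0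
    have h4 : z * (3 * (z * n) ^ 2 * m * (x₁ + w)) =
        z * -(3 * (z * n) * m ^ 2 + z * n * At - (z * n) ^ 3 * As) := by rw [hw]
    linear_combination h4 + (- 3 * n ^ 2 * m * (x₁ + w) + z * n ^ 3 * As) * z3
  obtain ⟨m', hm'⟩ : ∃ m', m' = z * n * w + m - n * w := ⟨_, rfl⟩
  have hXi : n * Xi = 3 * z * m * m' + z * At + z ^ 2 * n ^ 2 * As := by
    rw [hm']
    refine E1 hz ?_ hw0
    have h1 := hL.hXi
    rw [hx₂] at h1
    exact h1
  have hm'0 : m' ≠ 0 := by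
    intro h
    refine slopeNe (n := z ^ 2 * n) (mul_ne_zero (pow_ne_zero _ hz0) hn0) hn9 hL.hZ hD ?_
    rw [h] at hXi
    linear_combination z ^ 2 * hXi + At * z3
  obtain ⟨y, hy⟩ : ∃ y, 3 * n * m' * (y + w) = -(3 * m' ^ 2 + At - n ^ 2 * As) := by
    refine ⟨-(3 * m' ^ 2 + At - n ^ 2 * As) / (3 * n * m') - w, ?_⟩
    field_simp
    ring
  have hF0 : (z * n * x₁ + m) ^ 3 + At * (z * n * x₁ + m) + Bt =
      n ^ 3 * (x₁ ^ 3 + As * x₁ + Bs) := by
    have h1 := hL.hF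
    rw [hx₂, ← hn] at h1
    exact h1
  have hFw : (z * n * w + m) ^ 3 + At * (z * n * w + m) + Bt = n ^ 3 * (w ^ 3 + As * w + Bs) := by
    refine third hn3 hF0 ?_
    rw [hw, hn3]
  have hFy : (n * y + m') ^ 3 + At * (n * y + m') + Bt = n ^ 3 * (y ^ 3 + As * y + Bs) := by
    refine third (x := w) rfl ?_ ?_
    · rw [show n * w + m' = z * n * w + m by rw [hm']; ring]
      exact hFw
    · linear_combination n * hy
  have hL'' : Lift As Bs At Bt Z Xi Th u (z * n) y (n * y + m') := by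
    refine ⟨hL'.hn0, hL'.hn, hL.hZ, by rw [hFy, hn], ?_, ?_⟩
    · exact E2 hz hm' hXi hy
    · refine E3 hz hn0 hm' hXi hw0 hy ?_
      have h1 := hL.hTh
      rw [hx₂] at h1
      exact h1
  obtain ⟨h5, h6⟩ := Lift.unique hL' hL'' hD
  have h7 : x₂' - n * x₁' = m' := by rw [h5, h6]; ring
  rw [← hm, h7]
  refine ⟨hm0, hm'0, w, hw, ?_, ?_⟩
  · rw [h5]; linear_combination n * hy
  · rw [hm']; ring

end Pool.Agent.VK3
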