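import Pool.Agent.VK3.AlgInt

/-!
# The Jacobian fibration: lines and the inverse
-/

set_option autoImplicit false

noncomputable section

namespace Pool.Agent.VK3

open Pool.Agent.ZCyc Polynomial

universe u

variable {K : Type*} [Field K] [CharZero K]

/-- Let `v⁻ = (y₁, y₂)` be the lift of `(Z, Xi, -Th)` for the cube root `n` and `v'` the lift of
`(Z, Xi, Th)` for the cube root `z n`. Then `v⁻` is the further point on the line of slope `z ² n`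
through `v'`. -/
theorem lift_neg {As Bs At Bt Z Xi Th u n y₁ y₂ x₁' x₂' z : K} (hz : z ^ 2 + z + 1 = 0)
    (hL : Lift As Bs At Bt Z Xi (-Th) u n y₁ y₂)
    (hL' : Lift As Bs At Bt Z Xi Th u (z * n) x₁' x₂') (hD : Dst As Bs At Z Xi ≠ 0) :
    x₂' - z ^ 2 * n * x₁' ≠ 0 ∧
      3 * (z ^ 2 * n) ^ 2 * (x₂' - z ^ 2 * n * x₁') * (x₁' + y₁) =
        -(3 * (z ^ 2 * n) * (x₂' - z ^ 2 * n * x₁') ^ 2 + z ^ 2 * n * At - (z ^ 2 * n) ^ 3 * As) ∧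
      z ^ 2 * n * y₁ + (x₂' - z ^ 2 * n * x₁') = y₂ := by
  have hn0 := hL.hn0
  have hu : u ≠ 0 := by
    rintro rfl
    have h := hL.hn
    rw [zero_pow two_ne_zero] at h
    exact pow_ne_zero _ hn0 h
  have hz0 : z ≠ 0 := by
    rintro rfl
    norm_num at hz
  have hz1 : 1 - z ≠ 0 := by
    intro h
    have h1 : (3 : K) = 0 := by linear_combination hz + (z + 2) * h
    exact three_ne_zero h1
  have hd := dett_ne (At := At) (Xi := Xi) hL.hn0 hL.hn hL.hZ hD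
  have hd' := dett_ne (At := At) (Xi := Xi) hL'.hn0 hL'.hn hL'.hZ hD
  have e1 : dett As At Xi n = 2 * (n * Xi - z * n ^ 2 * As - z ^ 2 * At) *
      (n * Xi - z ^ 2 * n ^ 2 * As - z * At) := by
    unfold dett
    linear_combination (
      -2 * As ^ 2 * n ^ 4 * z - 2 * As * At * n ^ 2 * z ^ 2 + 2 * As ^ 2 * n ^ 4 + 2 * As
      * At * n ^ 2 * z + 2 * As * Xi * n ^ 3 - 2 * As * At * n ^ 2 + 2 * At * Xi * n - 2 *
      At ^ 2 * z + 2 * At ^ 2) * hz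
  have e2 : dett As At Xi (z * n) = 2 * z ^ 2 * (n * Xi - n ^ 2 * As - At) *
      (n * Xi - z ^ 2 * n ^ 2 * As - z * At) := by
    unfold dett
    linear_combination (
      2 * As * Xi * n ^ 3 * z ^ 2 - 2 * As * At * n ^ 2 * z ^ 2 + 2 * At * Xi * n * z - 2
      * At ^ 2 * z + 2 * At ^ 2) * hz
  have hF1 : n * Xi - z * n ^ 2 * As - z ^ 2 * At ≠ 0 := by
    intro h
    rw [e1, h] at hd
    exact hd (by ring)
  have hF2 : n * Xi - z ^ 2 * n ^ 2 * As - z * At ≠ 0 := by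
    intro h
    rw [e1, h] at hd
    exact hd (by ring)
  have hF0 : n * Xi - n ^ 2 * As - At ≠ 0 := by
    intro h
    rw [e2, h] at hd'
    exact hd' (by ring)
  -- `v⁻`
  have h1 : 6 * u * (n * Xi - z ^ 2 * n ^ 2 * As - z * At) * (y₂ - z ^ 2 * n * y₁) =
      -(n ^ 3 * Th * (1 - z ^ 2)) - 9 * u * z * (n ^ 3 * Bs - Bt) := by
    apply mul_left_cancel₀ hF1
    have c1 := hL.cramer₁
    have c2 := hL.cramer₂
    unfold dett at c1 c2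
    linear_combination c2 - z ^ 2 * n * c1 + (
      -6 * As ^ 2 * n ^ 5 * u * y₁ * z ^ 3 - 6 * As * At * n ^ 3 * u * y₁ * z ^ 4 + 6 * As
      ^ 2 * n ^ 5 * u * y₁ * z ^ 2 + 6 * As * At * n ^ 3 * u * y₁ * z ^ 3 + 6 * As * Xi *
      n ^ 4 * u * y₁ * z ^ 2 - 6 * As * At * n ^ 3 * u * y₁ * z ^ 2 + 6 * As ^ 2 * n ^ 4 *
      u * y₂ * z + 6 * As * At * n ^ 2 * u * y₂ * z ^ 2 + As * Th * n ^ 5 * z - 6 * As ^ 2
      * n ^ 4 * u * y₂ + 6 * At * Xi * n ^ 2 * u * y₁ * z ^ 2 - 6 * At ^ 2 * n * u * y₁ *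
      z ^ 3 - 6 * As * At * n ^ 2 * u * y₂ * z - 2 * As * Th * n ^ 5 - 6 * As * Xi * n ^ 3
      * u * y₂ - 9 * At * Bs * n ^ 3 * u * z + At * Th * n ^ 3 * z ^ 2 + 6 * At ^ 2 * n *
      u * y₁ * z ^ 2 + 9 * Bs * Xi * n ^ 4 * u + 6 * As * At * n ^ 2 * u * y₂ + 9 * At *
      Bs * n ^ 3 * u - At * Th * n ^ 3 * z + At * Th * n ^ 3 - 6 * At * Xi * n * u * y₂ +
      6 * At ^ 2 * u * y₂ * z + 9 * At * Bt * u * z - 6 * At ^ 2 * u * y₂ - 9 * Bt * Xi *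
      n * u - 9 * At * Bt * u) * hz
  -- `v'`
  have h2 : 6 * u * (n * Xi - z ^ 2 * n ^ 2 * As - z * At) * (x₂' - z ^ 2 * n * x₁') =
      -(n ^ 3 * Th * (1 - z ^ 2)) - 9 * u * z * (n ^ 3 * Bs - Bt) := by
    apply mul_left_cancel₀ (mul_ne_zero (pow_ne_zero 2 hz0) hF0)
    have c1 := hL'.cramer₁
    have c2 := hL'.cramer₂
    unfold dett at c1 c2
    linear_combination c2 - z ^ 2 * n * c1 + (
      9 * As * Bs * n ^ 5 * u * z ^ 4 + 6 * As * Xi * n ^ 4 * u * x₁' * z ^ 4 - 6 * As *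
      At * n ^ 3 * u * x₁' * z ^ 4 - 9 * As * Bs * n ^ 5 * u * z ^ 3 + As * Th * n ^ 5 * z
      ^ 4 + As * Th * n ^ 5 * z ^ 3 + 9 * Bs * Xi * n ^ 4 * u * z ^ 3 - As * Th * n ^ 5 *
      z ^ 2 - 6 * As * Xi * n ^ 3 * u * x₂' * z ^ 2 + 6 * At * Xi * n ^ 2 * u * x₁' * z ^
      3 - Th * Xi * n ^ 4 * z ^ 3 + 6 * As * At * n ^ 2 * u * x₂' * z ^ 2 - 6 * At ^ 2 * n
      * u * x₁' * z ^ 3 + Th * Xi * n ^ 4 * z ^ 2 - At * Th * n ^ 3 * z ^ 2 + 6 * At ^ 2 *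
      n * u * x₁' * z ^ 2 - 6 * At * Xi * n * u * x₂' * z + 6 * At ^ 2 * u * x₂' * z - 9 *
      Bt * Xi * n * u * z + 9 * At * Bt * u * z - 6 * At ^ 2 * u * x₂' - 9 * At * Bt * u) * hz
  have h3 : y₂ - z ^ 2 * n * y₁ = x₂' - z ^ 2 * n * x₁' := by
    apply mul_left_cancel₀ (mul_ne_zero (mul_ne_zero (by norm_num : (6 : K) ≠ 0) hu) hF2)
    rw [h1, h2]
  have hy : y₂ = z ^ 2 * n * y₁ + (x₂' - z ^ 2 * n * x₁') := by
    rw [← h3]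
    ring
  refine ⟨?_, ?_, hy.symm⟩
  · intro hm
    apply hF1
    apply mul_left_cancel₀ hz0
    have h4 := hL'.hXi
    linear_combination h4 + (3 * x₂' + 3 * z * n * x₁' + 3 * z ^ 2 * n * x₁') * hm + (
      3 * n ^ 2 * x₁' ^ 2 * z ^ 2 - At * z + At) * hz
  · have h4 := hL'.hXi
    have h5 := hL.hXi
    rw [hy] at h5
    apply mul_left_cancel₀ hz1
    linear_combination (-(z ^ 2 * n)) * (h4 - z * h5) + (
      -3 * n ^ 3 * x₁' * y₁ * z ^ 5 + 3 * n ^ 3 * x₁' ^ 2 * z ^ 5 + 3 * n ^ 3 * y₁ ^ 2 * z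
      ^ 5 + As * n ^ 3 * z ^ 5 - 3 * n ^ 3 * x₁' ^ 2 * z ^ 4 - 3 * n ^ 3 * y₁ ^ 2 * z ^ 4
      - 2 * As * n ^ 3 * z ^ 4 + 3 * n ^ 3 * y₁ ^ 2 * z ^ 3 + As * n ^ 3 * z ^ 3 - 3 * n ^
      2 * x₁' * x₂' * z ^ 3 + 3 * n ^ 2 * x₂' * y₁ * z ^ 3) * hz

end Pool.Agent.VK3
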