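import Pool.Agent.VK3.Defs2

/-!
# The Jacobian fibration: the zeros of Dst
-/

set_option autoImplicit false

noncomputable section

namespace Pool.Agent.VK3

open Pool.Agent.ZCyc Polynomial

universe u

variable {K : Type*} [Field K] [CharZero K]

/-- If `Xi = n' As + At / n'` with `n' = z n`, the line of slope `z ² n` through the lift
`(x₁, x₂)` meets the curve further in a point (with first coordinate `w`) on the line
`x₂ = n x₁`. -/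
theorem lift_degenerate {As Bs At Bt Z Xi Th u n x₁ x₂ z : K} (hz : z ^ 2 + z + 1 = 0)
    (hL : Lift As Bs At Bt Z Xi Th u n x₁ x₂) (hX : z * n * Xi = (z * n) ^ 2 * As + At)
    (hm : x₂ - z ^ 2 * n * x₁ ≠ 0) : ∃ w : K,
      3 * (z ^ 2 * n) ^ 2 * (x₂ - z ^ 2 * n * x₁) * (x₁ + w) =
        -(3 * (z ^ 2 * n) * (x₂ - z ^ 2 * n * x₁) ^ 2 + z ^ 2 * n * At - (z ^ 2 * n) ^ 3 * As) ∧
      z ^ 2 * n * w + (x₂ - z ^ 2 * n * x₁) = n * w := by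
  have hn0 := hL.hn0
  have hXi := hL.hXi
  have hc : (1 : K) - z ^ 2 ≠ 0 := by
    intro h
    have h1 : z = -2 := by linear_combination hz + h
    rw [h1] at h
    norm_num at h
  have hnc0 : n * (1 - z ^ 2) ≠ 0 := mul_ne_zero hn0 hc
  obtain ⟨w, hw⟩ : ∃ w : K, n * (1 - z ^ 2) * w = x₂ - z ^ 2 * n * x₁ :=
    ⟨(x₂ - z ^ 2 * n * x₁) / (n * (1 - z ^ 2)), mul_div_cancel₀ _ hnc0⟩
  refine ⟨w, ?_, ?_⟩
  · apply mul_left_cancel₀ hc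
    linear_combination (3 * z ^ 4 * n * (x₂ - z ^ 2 * n * x₁)) * hw +
      ((1 + z) * z ^ 2 * n) * (z * hXi - hX) +
      (As * n ^ 3 * z ^ 6 - As * n ^ 3 * z ^ 5 - As * n ^ 3 * z ^ 4 + As * n ^ 3 * z ^ 3 +
        3 * x₁ ^ 2 * n ^ 3 * z ^ 6 - 3 * x₁ ^ 2 * n ^ 3 * z ^ 5 + 3 * x₁ ^ 2 * n ^ 3 * z ^ 3 -
        3 * x₁ * x₂ * n ^ 2 * z ^ 4 + 3 * x₁ * x₂ * n ^ 2 * z ^ 3 + 3 * x₂ ^ 2 * n * z ^ 2) * hz
  · linear_combination -hw

end Pool.Agent.VK3
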