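import Pool.Agent.VK3.AlgInt

/-!
# The Jacobian fibration: existence of lifts
-/

set_option autoImplicit false

noncomputable section

namespace Pool.Agent.VK3

open Pool.Agent.ZCyc Polynomial

universe u

variable {K : Type*} [Field K] [CharZero K]

/-- Define `x₁` and `x₂` by Cramer's rule and check the equations with `Wd`. -/
theorem exists_lift {As Bs At Bt Z Xi Th u n : K} (hW : Wd As Bs At Bt Z Xi Th)
    (hD : Dst As Bs At Z Xi ≠ 0) (hn0 : n ≠ 0) (hn : n ^ 3 = u ^ 2)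
    (hZ : u ^ 2 * (4 * As ^ 3 + 27 * Bs ^ 2) = Z) :
    ∃ x₁ x₂, Lift As Bs At Bt Z Xi Th u n x₁ x₂ := by
  have hu0 : u ≠ 0 := by
    rintro rfl
    have h : n ^ 3 = 0 := by rw [hn]; ring
    exact hn0 (pow_eq_zero_iff (by norm_num) |>.1 h)
  have hDs0 : 4 * As ^ 3 + 27 * Bs ^ 2 ≠ 0 := by
    intro h
    apply hD
    unfold Dst
    rw [← hZ, h]
    ring
  obtain ⟨a, rfl⟩ : ∃ a, At = n ^ 2 * a := ⟨At / n ^ 2, by field_simp⟩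
  obtain ⟨b, rfl⟩ : ∃ b, Bt = n ^ 3 * b := ⟨Bt / n ^ 3, by field_simp⟩
  obtain ⟨ξ, rfl⟩ : ∃ ξ, Xi = n * ξ := ⟨Xi / n, by field_simp⟩
  obtain ⟨H, rfl⟩ : ∃ H, Th = u * H := ⟨Th / u, by field_simp⟩
  subst hZ
  have hW' : H ^ 2 + 27 * (Bs - b) ^ 2 =
      4 * (ξ ^ 3 - As ^ 3 - a ^ 3 - 3 * As * a * ξ) := by
    have h1 : u ^ 4 * (4 * As ^ 3 + 27 * Bs ^ 2) * ((H ^ 2 + 27 * (Bs - b) ^ 2) -
        4 * (ξ ^ 3 - As ^ 3 - a ^ 3 - 3 * As * a * ξ)) = 0 := by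
      unfold Wd at hW
      linear_combination hW + ((4 * ξ ^ 3 - 12 * As * a * ξ + 54 * Bs * b) * u ^ 2 *
        (4 * As ^ 3 + 27 * Bs ^ 2) - (n ^ 3 + u ^ 2) * (4 * As ^ 3 + 27 * Bs ^ 2) *
        (4 * a ^ 3 + 27 * b ^ 2)) * hn
    have h2 := (mul_eq_zero.1 h1).resolve_left (mul_ne_zero (pow_ne_zero _ hu0) hDs0)
    linear_combination h2
  obtain ⟨Δ, hΔ⟩ : ∃ Δ, Δ = 2 * (ξ ^ 2 + ξ * (As + a) + As ^ 2 - As * a + a ^ 2) := ⟨_, rfl⟩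
  have hΔ0 : Δ ≠ 0 := by
    rintro rfl
    apply hD
    unfold Dst
    linear_combination (-(4 * As ^ 3 + 27 * Bs ^ 2) ^ 2 * u ^ 4 * (ξ - As - a) / 2) * hΔ +
      (4 * As ^ 3 + 27 * Bs ^ 2) ^ 2 * (u ^ 2 * (ξ ^ 3 - 3 * As * a * ξ) -
        (n ^ 3 + u ^ 2) * a ^ 3) * hn
  obtain ⟨x, hx⟩ : ∃ x, x * Δ = H / 3 * (ξ - As + 2 * a) - (ξ + As) * (3 * (Bs - b)) :=
    ⟨_, div_mul_cancel₀ _ hΔ0⟩
  obtain ⟨y, hy⟩ : ∃ y, y * Δ = (ξ + a) * (3 * (Bs - b)) + (ξ + 2 * As - a) * (H / 3) :=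
    ⟨_, div_mul_cancel₀ _ hΔ0⟩
  have e1 : x * (ξ + a) + y * (ξ + As) = H / 3 := by
    apply mul_right_cancel₀ hΔ0
    linear_combination (ξ + a) * hx + (ξ + As) * hy - H / 3 * hΔ
  have e2 : -(x * (ξ + 2 * As - a)) + y * (ξ - As + 2 * a) = 3 * (Bs - b) := by
    apply mul_right_cancel₀ hΔ0
    linear_combination (-(ξ + 2 * As - a)) * hx + (ξ - As + 2 * a) * hy - 3 * (Bs - b) * hΔ
  have e3 : 3 * (x ^ 2 + x * y + y ^ 2) + As + a = ξ := by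
    have h1 : Δ ^ 2 * (3 * (x ^ 2 + x * y + y ^ 2) + As + a - ξ) = 0 := by
      linear_combination (3 * (x * Δ + y * Δ) + 3 * (H / 3 * (ξ - As + 2 * a) -
          (ξ + As) * (3 * (Bs - b)))) * hx +
        (3 * (y * Δ) + 3 * ((ξ + a) * (3 * (Bs - b)) + (ξ + 2 * As - a) * (H / 3)) +
          3 * (H / 3 * (ξ - As + 2 * a) - (ξ + As) * (3 * (Bs - b)))) * hy +
        (Δ * (As + a - ξ) + 2 * (As + a - ξ) * (ξ ^ 2 + ξ * (As + a) + As ^ 2 - As * a + a ^ 2)) *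
          hΔ + (ξ ^ 2 + ξ * (As + a) + As ^ 2 - As * a + a ^ 2) * hW'
    have h2 := (mul_eq_zero.1 h1).resolve_left (pow_ne_zero _ hΔ0)
    linear_combination h2
  refine ⟨x, n * y, hn0, hn, rfl, ?_, ?_, ?_⟩
  · linear_combination (x ^ 3 + As * x + Bs) * hn + n ^ 3 / 3 * e2 + n ^ 3 * (y - x) / 3 * e3
  · linear_combination (-n ^ 2) * e3
  · linear_combination (-3 * u * n ^ 2) * e1

end Pool.Agent.VK3
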