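import Pool.Agent.VK3.Defs2

/-!
# The Jacobian fibration: Cramers rule
-/

set_option autoImplicit false

noncomputable section

namespace Pool.Agent.VK3

open Pool.Agent.ZCyc Polynomial

universe u

variable {K : Type*} [Field K] [CharZero K]

/-- the determinant of the linear system for a lift -/
def dett (As At Xi n : K) : K :=
  2 * (n ^ 2 * Xi ^ 2 + (n ^ 2 * As + At) * n * Xi + n ^ 4 * As ^ 2 - n ^ 2 * As * At + At ^ 2)

/-- `dett` is a factor of `Dst` -/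
theorem dett_dvd {As Bs At Z Xi u n : K} (hn : n ^ 3 = u ^ 2)
    (hZ : u ^ 2 * (4 * As ^ 3 + 27 * Bs ^ 2) = Z) :
    2 * n ^ 3 * Dst As Bs At Z Xi = u ^ 2 * (4 * As ^ 3 + 27 * Bs ^ 2) ^ 2 *
      ((n * Xi - n ^ 2 * As - At) * dett As At Xi n) := by
  subst hZ
  unfold Dst dett
  linear_combination
    2 * (4 * As ^ 3 + 27 * Bs ^ 2) ^ 2 * (n ^ 3 * u ^ 2 * As ^ 3 - At ^ 3) * hn

theorem dett_ne {As Bs At Z Xi u n : K} (hn0 : n ≠ 0) (hn : n ^ 3 = u ^ 2)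
    (hZ : u ^ 2 * (4 * As ^ 3 + 27 * Bs ^ 2) = Z) (hD : Dst As Bs At Z Xi ≠ 0) :
    dett As At Xi n ≠ 0 := by
  intro h
  have h1 := dett_dvd (At := At) (Xi := Xi) hn hZ
  rw [h, mul_zero, mul_zero] at h1
  exact mul_ne_zero (mul_ne_zero two_ne_zero (pow_ne_zero _ hn0)) hD h1

private lemma Lift.lin {As Bs At Bt Z Xi Th u n x₁ x₂ : K}
    (hL : Lift As Bs At Bt Z Xi Th u n x₁ x₂) :
    x₂ * (n * Xi - n ^ 2 * As + 2 * At) - n * x₁ * (n * Xi + 2 * n ^ 2 * As - At) =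
      3 * (n ^ 3 * Bs - Bt) := by
  linear_combination (x₂ - n * x₁) * hL.hXi + 3 * hL.hF -
    3 * (x₁ ^ 3 + As * x₁ + Bs) * hL.hn

/-- Cramer's rule for `x₁`. (With `A' = At / n ²`, `B' = Bt / n ³`, `ξ = Xi / n`, `H = Th / u`,
`x = x₁`, `y = x₂ / n` the equations of a lift imply `x (ξ + A') + y (ξ + As) = H / 3` and
`-x (ξ + 2 As - A') + y (ξ - As + 2 A') = 3 (Bs - B')`.) -/
theorem Lift.cramer₁ {As Bs At Bt Z Xi Th u n x₁ x₂ : K}
    (hL : Lift As Bs At Bt Z Xi Th u n x₁ x₂) :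
    3 * u * x₁ * dett As At Xi n = n ^ 2 * Th * (n * Xi - n ^ 2 * As + 2 * At) -
      9 * u * (Xi + n * As) * (n ^ 3 * Bs - Bt) := by
  unfold dett
  linear_combination (-(n * Xi - n ^ 2 * As + 2 * At)) * hL.hTh -
    3 * u * (Xi + n * As) * hL.lin

/-- Cramer's rule for `x₂` -/
theorem Lift.cramer₂ {As Bs At Bt Z Xi Th u n x₁ x₂ : K}
    (hL : Lift As Bs At Bt Z Xi Th u n x₁ x₂) :
    3 * u * x₂ * dett As At Xi n = n ^ 3 * Th * (n * Xi + 2 * n ^ 2 * As - At) +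
      9 * u * (n * Xi + At) * (n ^ 3 * Bs - Bt) := by
  unfold dett
  linear_combination (-(n * (n * Xi + 2 * n ^ 2 * As - At))) * hL.hTh +
    3 * u * (n * Xi + At) * hL.lin

theorem Lift.unique {As Bs At Bt Z Xi Th u n x₁ x₂ x₁' x₂' : K}
    (hL : Lift As Bs At Bt Z Xi Th u n x₁ x₂) (hL' : Lift As Bs At Bt Z Xi Th u n x₁' x₂')
    (hD : Dst As Bs At Z Xi ≠ 0) : x₁ = x₁' ∧ x₂ = x₂' := by
  have hd := dett_ne (At := At) (Xi := Xi) hL.hn0 hL.hn hL.hZ hD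
  have hu : u ≠ 0 := by
    rintro rfl
    have h := hL.hn
    rw [zero_pow two_ne_zero] at h
    exact pow_ne_zero _ hL.hn0 h
  have h3 : 3 * u * dett As At Xi n ≠ 0 := mul_ne_zero (mul_ne_zero three_ne_zero hu) hd
  constructor
  · apply mul_left_cancel₀ h3
    linear_combination hL.cramer₁ - hL'.cramer₁
  · apply mul_left_cancel₀ h3
    linear_combination hL.cramer₂ - hL'.cramer₂

end Pool.Agent.VK3
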