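import Pool.Agent.VK3.Defs2

/-!
# The Jacobian fibration: equations
-/

set_option autoImplicit false

noncomputable section

namespace Pool.Agent.VK3

open Pool.Agent.ZCyc Polynomial

universe u

variable {K : Type*} [Field K] [CharZero K]

private lemma Lift.par {As Bs At Bt Z Xi Th u n x₁ x₂ : K}
    (hL : Lift As Bs At Bt Z Xi Th u n x₁ x₂) : ∃ τ : K, τ ≠ 0 ∧ n = τ ^ 2 ∧ u = τ ^ 3 ∧
      At = τ ^ 2 * Xi - 3 * (τ ^ 4 * x₁ ^ 2 + τ ^ 2 * x₁ * x₂ + x₂ ^ 2) - τ ^ 4 * As ∧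
      Bt = τ ^ 6 * (x₁ ^ 3 + As * x₁ + Bs) - x₂ ^ 3 - At * x₂ ∧
      τ * Th = 3 * ((τ ^ 2 * x₁ + x₂) * Xi + τ ^ 2 * As * x₂ + At * x₁) ∧
      Z = τ ^ 6 * (4 * As ^ 3 + 27 * Bs ^ 2) := by
  have hn0 := hL.hn0
  have hu0 : u ≠ 0 := by
    rintro rfl
    have := hL.hn
    rw [zero_pow two_ne_zero] at this
    exact hn0 (pow_eq_zero_iff (three_ne_zero) |>.1 this)
  have h1 : n = (u / n) ^ 2 := by
    rw [div_pow, ← hL.hn]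
    field_simp
  have h2 : u = (u / n) ^ 3 := by
    rw [div_pow, hL.hn]
    field_simp
  have ht0 : u / n ≠ 0 := div_ne_zero hu0 hn0
  generalize u / n = τ at h1 h2 ht0
  subst h1 h2
  refine ⟨τ, ht0, rfl, rfl, ?_, ?_, ?_, ?_⟩
  · linear_combination (-1 : K) * hL.hXi
  · linear_combination hL.hF
  · have h3 : τ ^ 3 ≠ 0 := pow_ne_zero 3 ht0
    apply mul_left_cancel₀ h3
    linear_combination hL.hTh
  · linear_combination (-1 : K) * hL.hZ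

theorem Lift.wd {As Bs At Bt Z Xi Th u n x₁ x₂ : K}
    (hL : Lift As Bs At Bt Z Xi Th u n x₁ x₂) : Wd As Bs At Bt Z Xi Th := by
  obtain ⟨τ, ht, rfl, rfl, hAt, hBt, hTh, hZ⟩ := hL.par
  unfold Wd
  have hT : τ ^ 2 * Th ^ 2 =
      9 * ((τ ^ 2 * x₁ + x₂) * Xi + τ ^ 2 * As * x₂ + At * x₁) ^ 2 := by
    rw [← mul_pow, hTh]
    ring
  have h1 : Z ^ 2 - (4 * Xi ^ 3 - 12 * As * At * Xi + 54 * Bs * Bt - Th ^ 2) * Z +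
    (4 * As ^ 3 + 27 * Bs ^ 2) * (4 * At ^ 3 + 27 * Bt ^ 2) =
      (4 * As ^ 3 + 27 * Bs ^ 2) * (τ ^ 12 * (4 * As ^ 3 + 27 * Bs ^ 2) -
        τ ^ 6 * (4 * Xi ^ 3 - 12 * As * At * Xi + 54 * Bs * Bt) +
        τ ^ 4 * (9 * ((τ ^ 2 * x₁ + x₂) * Xi + τ ^ 2 * As * x₂ + At * x₁) ^ 2) +
        (4 * At ^ 3 + 27 * Bt ^ 2)) := by
    rw [hZ, ← hT]
    ring
  rw [h1]
  apply mul_eq_zero_of_right
  rw [hBt, hAt]
  ring

/-- `n₁`, `n₂`, `n₃` are the three cube roots of `u ²` -/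
theorem Lift.dst {As Bs At Bt Z Xi Th u n x₁ x₂ : K}
    (hL : Lift As Bs At Bt Z Xi Th u n x₁ x₂) {z : K} (hz : z ^ 2 + z + 1 = 0) :
    n ^ 3 * Dst As Bs At Z Xi = u ^ 2 * (4 * As ^ 3 + 27 * Bs ^ 2) ^ 2 *
      ((n * Xi - n ^ 2 * As - At) * (z * n * Xi - (z * n) ^ 2 * As - At) *
        (z ^ 2 * n * Xi - (z ^ 2 * n) ^ 2 * As - At)) := by
  have h1 : (z * n * Xi - (z * n) ^ 2 * As - At) * (z ^ 2 * n * Xi - (z ^ 2 * n) ^ 2 * As - At) =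
      (n * Xi) ^ 2 + (n ^ 2 * As) ^ 2 + At ^ 2 + (n * Xi) * (n ^ 2 * As) + n * Xi * At -
        n ^ 2 * As * At := by
    linear_combination ((n * Xi) ^ 2 * (z - 1) - (n * Xi) * (n ^ 2 * As) * (z ^ 3 - z + 1) +
      (n ^ 2 * As) ^ 2 * (z - 1) * (z ^ 3 + 1) - (n * Xi) * At +
        (n ^ 2 * As) * At * (z ^ 2 - z + 1)) * hz
  rw [mul_assoc (n * Xi - n ^ 2 * As - At), h1, Dst, ← hL.hZ, ← hL.hn]
  ring

/-- `Xi - n As - At / n = (3 / n) (x₂ - z n x₁) (x₂ - z ² n x₁)` -/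
theorem Lift.xi {As Bs At Bt Z Xi Th u n x₁ x₂ : K}
    (hL : Lift As Bs At Bt Z Xi Th u n x₁ x₂) {z : K} (hz : z ^ 2 + z + 1 = 0) :
    n * Xi - n ^ 2 * As - At = 3 * ((x₂ - z * n * x₁) * (x₂ - z ^ 2 * n * x₁)) := by
  linear_combination hL.hXi + (3 * n * x₁ * x₂ - 3 * n ^ 2 * x₁ ^ 2 * (z - 1)) * hz

/-- exchange of the two factors -/
theorem Lift.swap {As Bs At Bt Z Xi Th u n x₁ x₂ : K}
    (hL : Lift As Bs At Bt Z Xi Th u n x₁ x₂) (hs : 4 * As ^ 3 + 27 * Bs ^ 2 ≠ 0) :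
    Lift At Bt As Bs ((4 * As ^ 3 + 27 * Bs ^ 2) * (4 * At ^ 3 + 27 * Bt ^ 2) / Z) Xi Th
      (1 / u) (1 / n) x₂ x₁ := by
  obtain ⟨τ, ht, rfl, rfl, hAt, hBt, hTh, hZ⟩ := hL.par
  refine ⟨one_div_ne_zero (pow_ne_zero _ ht), ?_, ?_, ?_, ?_, ?_⟩
  · field_simp
  · rw [hZ]
    field_simp
  · rw [hBt]
    field_simp
    ring
  · have := hL.hXi
    field_simp
    linear_combination this
  · have h3 : Th = 3 * ((τ ^ 2 * x₁ + x₂) * Xi + τ ^ 2 * As * x₂ + At * x₁) / τ := by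
      rw [← hTh]
      field_simp
    rw [h3]
    field_simp
    ring

/-- change of the sign of `u` -/
theorem Lift.neg {As Bs At Bt Z Xi Th u n x₁ x₂ : K}
    (hL : Lift As Bs At Bt Z Xi Th u n x₁ x₂) :
    Lift As Bs At Bt Z Xi (-Th) (-u) n x₁ x₂ := by
  refine ⟨hL.hn0, ?_, ?_, ?_, hL.hXi, ?_⟩
  · rw [neg_sq]; exact hL.hn
  · rw [neg_sq]; exact hL.hZ
  · rw [neg_sq]; exact hL.hF
  · linear_combination (-1 : K) * hL.hTh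

theorem Wd.kappa {As Bs At Bt Z Xi Th : K} (hW : Wd As Bs At Bt Z Xi Th) (hZ : Z ≠ 0)
    (hs : 4 * As ^ 3 + 27 * Bs ^ 2 ≠ 0) (ht : 4 * At ^ 3 + 27 * Bt ^ 2 ≠ 0) :
    Wd As Bs At Bt ((4 * As ^ 3 + 27 * Bs ^ 2) * (4 * At ^ 3 + 27 * Bt ^ 2) / Z) Xi Th ∧
      Z + (4 * As ^ 3 + 27 * Bs ^ 2) * (4 * At ^ 3 + 27 * Bt ^ 2) / Z =
        4 * Xi ^ 3 - 12 * As * At * Xi + 54 * Bs * Bt - Th ^ 2 ∧
      (Dst As Bs At ((4 * As ^ 3 + 27 * Bs ^ 2) * (4 * At ^ 3 + 27 * Bt ^ 2) / Z) Xi = 0 ↔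
        Dst At Bt As Z Xi = 0) := by
  unfold Wd at hW ⊢
  refine ⟨?_, ?_, ?_⟩
  · generalize 4 * Xi ^ 3 - 12 * As * At * Xi + 54 * Bs * Bt - Th ^ 2 = G at hW ⊢
    generalize (4 * As ^ 3 + 27 * Bs ^ 2) * (4 * At ^ 3 + 27 * Bt ^ 2) = P at hW ⊢
    field_simp
    linear_combination P * hW
  · generalize 4 * Xi ^ 3 - 12 * As * At * Xi + 54 * Bs * Bt - Th ^ 2 = G at hW ⊢
    generalize (4 * As ^ 3 + 27 * Bs ^ 2) * (4 * At ^ 3 + 27 * Bt ^ 2) = P at hW ⊢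
    field_simp
    linear_combination hW
  · have h1 : Dst As Bs At ((4 * As ^ 3 + 27 * Bs ^ 2) * (4 * At ^ 3 + 27 * Bt ^ 2) / Z) Xi =
        (4 * As ^ 3 + 27 * Bs ^ 2) ^ 2 / Z ^ 2 * Dst At Bt As Z Xi := by
      unfold Dst
      generalize 4 * As ^ 3 + 27 * Bs ^ 2 = P at hs ⊢
      generalize 4 * At ^ 3 + 27 * Bt ^ 2 = Q at ht ⊢
      field_simp
      ring
    rw [h1]
    have h2 : (4 * As ^ 3 + 27 * Bs ^ 2) ^ 2 / Z ^ 2 ≠ 0 :=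
      div_ne_zero (pow_ne_zero _ hs) (pow_ne_zero _ hZ)
    rw [mul_eq_zero]
    exact ⟨fun h => h.resolve_left h2, Or.inr⟩

end Pool.Agent.VK3
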