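import Pool.Agent.VK3.Defs2

/-!
# Symmetric functions of two roots
-/

set_option autoImplicit false

noncomputable section

namespace Pool.Agent.VK3

open Pool.Agent.ZCyc Polynomial

universe u

variable {k : Type u} [Field k] [IsAlgClosed k]

private theorem aeval_eq (c : k[X]) {K : Type*} [Field K] [Algebra k K] (s : K) :
    aeval s c = algebraMap k K c.leadingCoeff *
      (c.roots.map fun δ => s - algebraMap k K δ).prod := by
  have h := (IsAlgClosed.splits c).eq_prod_roots
  have h2 : aeval s c = aeval s (C c.leadingCoeff * (c.roots.map fun a => X - C a).prod) := by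
    rw [← h]
  rw [h2, map_mul, aeval_C, map_multiset_prod, Multiset.map_map]
  congr 3
  funext δ
  simp

theorem aeval_mul_aeval (c : k[X]) {K : Type*} [Field K] [Algebra k K] (s t : K) :
    aeval s c * aeval t c = Sy c (s + t) (s * t) := by
  rw [aeval_eq c s, aeval_eq c t]
  unfold Sy
  rw [map_pow, mul_mul_mul_comm, ← Multiset.prod_map_mul, pow_two]
  congr 3
  funext δ
  rw [map_pow]
  ring

theorem Sy_map (c : k[X]) {R S : Type*} [CommRing R] [Algebra k R] [CommRing S] [Algebra k S]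
    (f : R →ₐ[k] S) (e₁ e₂ : R) : f (Sy c e₁ e₂) = Sy c (f e₁) (f e₂) := by
  unfold Sy
  rw [map_mul, f.commutes, map_multiset_prod, Multiset.map_map]
  congr 3
  funext δ
  simp

theorem Sy_natDegree (c : k[X]) {R : Type*} [CommRing R] [Algebra k R] {E₁ E₂ : R[X]}
    (h1 : E₁.natDegree ≤ 1) (h2 : E₂.natDegree ≤ 1) :
    (Sy c E₁ E₂).natDegree ≤ c.natDegree := by
  unfold Sy
  have hC : ∀ x : k, algebraMap k R[X] x = C (algebraMap k R x) := fun x => rfl
  rw [hC]
  refine (natDegree_C_mul_le _ _).trans ?_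
  refine le_trans ?_ (Polynomial.card_roots' c)
  refine (Polynomial.natDegree_multiset_prod_le _).trans ?_
  rw [Multiset.map_map]
  refine (Multiset.sum_le_card_nsmul _ 1 ?_).trans ?_
  · intro x hx
    rw [Multiset.mem_map] at hx
    obtain ⟨δ, _, rfl⟩ := hx
    simp only [Function.comp]
    rw [hC, hC]
    refine (natDegree_add_le _ _).trans (max_le ?_ ((natDegree_C _).le.trans (Nat.zero_le 1)))
    refine (natDegree_sub_le _ _).trans (max_le h2 ?_)
    exact (natDegree_C_mul_le _ _).trans h1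
  · simp

private theorem exists_root_aux {p : k[X]} (hp : ¬ p = C (p.eval 0)) : ∃ τ, p.eval τ = 0 := by
  have h : p.degree ≠ 0 := by
    intro h0
    apply hp
    have := eq_C_of_degree_eq_zero h0
    rw [coeff_zero_eq_eval_zero] at this
    exact this
  obtain ⟨τ, hτ⟩ := IsAlgClosed.exists_root p h
  exact ⟨τ, hτ⟩

/-- if `c` has two different roots and `(E₁, E₂)` is not constant, then the product vanishes
somewhere -/
theorem exists_root_Sy (c : k[X]) (hc : c ≠ 0) {δ₁ δ₂ : k} (hδ : δ₁ ≠ δ₂) (h1 : c.eval δ₁ = 0)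
    (h2 : c.eval δ₂ = 0) {E₁ E₂ : k[X]} (hE₁ : E₁.natDegree ≤ 1) (hE₂ : E₂.natDegree ≤ 1)
    (hE : ¬ (E₁ = C (E₁.eval 0) ∧ E₂ = C (E₂.eval 0))) :
    ∃ τ δ : k, c.eval δ = 0 ∧ δ ^ 2 - E₁.eval τ * δ + E₂.eval τ = 0 := by
  by_contra hcon
  push Not at hcon
  have key : ∀ δ, c.eval δ = 0 →
      (C (δ ^ 2) - E₁ * C δ + E₂) = C ((C (δ ^ 2) - E₁ * C δ + E₂).eval 0) := by
    intro δ hδ
    by_contra h
    obtain ⟨τ, hτ⟩ := exists_root_aux h
    apply hcon τ δ hδ
    simpa using hτ
  have k1 := key δ₁ h1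
  have k2 := key δ₂ h2
  simp only [eval_add, eval_sub, eval_mul, eval_C] at k1 k2
  simp only [C_add, C_sub, C_mul] at k1 k2
  have hne : C (δ₁ - δ₂) ≠ (0 : k[X]) := by
    rw [Ne, C_eq_zero]
    exact sub_ne_zero.2 hδ
  have e1 : E₁ = C (E₁.eval 0) := by
    apply mul_right_cancel₀ hne
    rw [C_sub]
    linear_combination k2 - k1
  apply hE
  refine ⟨e1, ?_⟩
  linear_combination k1 + C δ₁ * e1

end Pool.Agent.VK3
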