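import Pool.Agent.VK3.Value

/-!
# Lines through the origin
-/

set_option autoImplicit false

noncomputable section

namespace Pool.Agent.VK3

open Pool.Agent.ZCyc Polynomial

universe u

variable {k : Type u} [Field k] [IsAlgClosed k] [CharZero k] {A B : MvPolynomial (Fin 2) k}
  {a b : k[X]}

omit [IsAlgClosed k] [CharZero k] in
private lemma inv_vanishes {v : Place k (Om k)} {X : Om k} (hX : X ∉ v.ring) :
    v.At X⁻¹ 0 := by
  rw [Place.at_zero_iff, Place.vanishes_iff_or]
  exact Or.inr (by rwa [inv_inv])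

/-- The two roots of a quadratic polynomial whose leading coefficient vanishes at `v`. -/
theorem roots_degenerate {v : Place k (Om k)} {α β γ X₁ X₂ : Om k} {β₀ γ₀ : k}
    (hα0 : α ≠ 0) (hα : v.At α 0) (hβ : v.At β β₀) (hγ : v.At γ γ₀) (hβ₀ : β₀ ≠ 0)
    (h1 : α * (X₁ + X₂) = -β) (h2 : α * (X₁ * X₂) = γ) :
    (X₁ ∉ v.ring ∧ v.At X₂ (-γ₀ / β₀)) ∨ (X₂ ∉ v.ring ∧ v.At X₁ (-γ₀ / β₀)) := by
  have key : ∀ {X Y : Om k}, X ∉ v.ring → Y ∈ v.ring → α * (X + Y) = -β → α * (X * Y) = γ →
      v.At Y (-γ₀ / β₀) := by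
    intro X Y _ hY e1 e2
    obtain ⟨c, hc⟩ := DCI57.exists_at v hY
    have h3 : v.At (α * X) (-β₀) := by
      have h4 : v.At (-β - α * Y) (-β₀ - 0 * c) := hβ.neg.sub (hα.mul hc)
      rw [zero_mul, sub_zero] at h4
      convert h4 using 1
      rw [← e1]
      ring
    have h5 : α * X ≠ 0 := by
      intro h
      rw [h] at h3
      exact hβ₀ (neg_eq_zero.1 (h3.unique (by simpa using Place.at_const (v := v) (0 : k))))
    have h6 : Y = γ / (α * X) := by
      rw [eq_div_iff h5, ← e2]
      ring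
    rw [h6, show -γ₀ / β₀ = γ₀ / (-β₀) by rw [div_neg, neg_div]]
    exact hγ.div h3 (neg_ne_zero.2 hβ₀)
  by_cases hX₁ : X₁ ∈ v.ring
  · by_cases hX₂ : X₂ ∈ v.ring
    · exfalso
      obtain ⟨c₁, hc₁⟩ := DCI57.exists_at v hX₁
      obtain ⟨c₂, hc₂⟩ := DCI57.exists_at v hX₂
      have h3 : v.At (-β) (0 * (c₁ + c₂)) := h1 ▸ hα.mul (hc₁.add hc₂)
      have h4 := h3.unique hβ.neg
      rw [zero_mul] at h4
      exact hβ₀ (neg_eq_zero.1 h4.symm)
    · right
      exact ⟨hX₂, key hX₂ hX₁ (by rw [add_comm, h1]) (by rw [mul_comm X₂, h2])⟩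
  · by_cases hX₂ : X₂ ∈ v.ring
    · left
      exact ⟨hX₁, key hX₁ hX₂ h1 h2⟩
    · exfalso
      have hX₁0 : X₁ ≠ 0 := by
        rintro rfl
        exact hX₁ v.ring.zero_mem
      have hX₂0 : X₂ ≠ 0 := by
        rintro rfl
        exact hX₂ v.ring.zero_mem
      have h3 : v.At (γ * (X₂⁻¹ + X₁⁻¹)) (γ₀ * (0 + 0)) :=
        hγ.mul ((inv_vanishes hX₂).add (inv_vanishes hX₁))
      have h4 : γ * (X₂⁻¹ + X₁⁻¹) = -β := by
        rw [← h1, ← h2]
        field_simp
      rw [h4, add_zero, mul_zero] at h3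
      have h5 := h3.unique hβ.neg
      exact hβ₀ (neg_eq_zero.1 h5.symm)

omit [IsAlgClosed k] [CharZero k] in
private lemma tt_ne (c : k) : tt k ≠ algebraMap k (Om k) c := by
  intro h
  rw [tt, IsScalarTower.algebraMap_apply k (RatFunc k) (Om k)] at h
  have h1 := (algebraMap (RatFunc k) (Om k)).injective h
  rw [RatFunc.algebraMap_eq_C, ← RatFunc.algebraMap_X, ← RatFunc.algebraMap_C] at h1
  exact Polynomial.X_ne_C c (RatFunc.algebraMap_injective k h1)

omit [IsAlgClosed k] [CharZero k] in
private lemma ff_map (s : k) (X : Om k) :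
    ff a b (algebraMap k (Om k) s) X =
      X ^ 3 + algebraMap k (Om k) (aeval s a) * X + algebraMap k (Om k) (aeval s b) := by
  rw [ff, aeval_algebraMap_apply, aeval_algebraMap_apply]

/-- The line `x₂ = n x₁` meets `F : f_t(x₂) = u ² f_s(x₁)` in one finite point (move the line
`x₂ = n x₁ + m` from `m = 0` to infinity) or it is contained in `F` (move the point along the
line to infinity). -/
theorem line0 (h : Deh A B a b) {s t u n x₁ : k} (hn0 : n ≠ 0) (hn : n ^ 3 = u ^ 2)
    (hF : ff a b t (n * x₁) = u ^ 2 * ff a b s x₁) :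
    cl5 A B a b s t u x₁ (n * x₁) = 0 := by
  -- the line in coordinates
  have hlin : (n * aeval t a - n ^ 3 * aeval s a) * x₁ + (aeval t b - n ^ 3 * aeval s b) = 0 := by
    simp only [ff] at hF
    linear_combination hF + (x₁ ^ 3 + aeval s a * x₁ + aeval s b) * hn * (-1)
  -- the function `m`
  obtain ⟨m, hm⟩ : ∃ m : Om k, m = (1 - tt k) / tt k := ⟨_, rfl⟩
  have ht0 : tt k ≠ 0 := by simpa using tt_ne (0 : k)
  have ht1 : 1 - tt k ≠ 0 := by
    intro h1
    exact tt_ne (1 : k) (by rw [map_one]; exact (sub_eq_zero.1 h1).symm)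
  have hm0 : m ≠ 0 := by
    rw [hm]
    exact div_ne_zero ht1 ht0
  have hm1 : ∀ v : Place k (Om k), v.At (tt k) 1 → v.At m 0 := by
    intro v hv
    have h1 : v.At (algebraMap k (Om k) 1 - tt k) (1 - 1) := (Place.at_const 1).sub hv
    have h2 := h1.div hv one_ne_zero
    rw [hm]
    simpa using h2
  have hm2 : ∀ v : Place k (Om k), v.At (tt k) 0 → v.At m⁻¹ 0 := by
    intro v hv
    have h1 : v.At (algebraMap k (Om k) 1 - tt k) (1 - 0) := (Place.at_const 1).sub hv
    have h2 := hv.div h1 (by simp)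
    rw [hm, inv_div]
    simpa using h2
  have hsq : ∀ X : Om k, ∃ Y : Om k, Y ^ 2 = ff a b (algebraMap k (Om k) s) X := fun X =>
    IsAlgClosed.exists_pow_nat_eq _ (by norm_num)
  have hn' : algebraMap k (Om k) n ^ 3 = algebraMap k (Om k) u ^ 2 := by
    rw [← map_pow, hn, map_pow]
  have hn0' : algebraMap k (Om k) n ≠ 0 := by simpa using hn0
  by_cases hβ₀ : n * aeval t a - n ^ 3 * aeval s a = 0
  · -- the line is contained in `F`
    have hγ₀ : aeval t b - n ^ 3 * aeval s b = 0 := by
      rw [hβ₀, zero_mul, zero_add] at hlin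
      exact hlin
    obtain ⟨X, hX⟩ : ∃ X : Om k, X = algebraMap k (Om k) x₁ + m := ⟨_, rfl⟩
    obtain ⟨Y, hY⟩ := hsq X
    have hβ₁ := congrArg (algebraMap k (Om k)) hβ₀
    have hγ₁ := congrArg (algebraMap k (Om k)) hγ₀
    simp only [map_sub, map_mul, map_pow, map_zero] at hβ₁ hγ₁
    have hFX : ff a b (algebraMap k (Om k) t) (algebraMap k (Om k) n * X) =
        algebraMap k (Om k) u ^ 2 * ff a b (algebraMap k (Om k) s) X := by
      rw [ff_map, ff_map]
      linear_combination X * hβ₁ + hγ₁ + (X ^ 3 + algebraMap k (Om k) (aeval s a) * X +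
        algebraMap k (Om k) (aeval s b)) * hn'
    have hB := bridgeCL h (I := Unit) (fun _ => some (algebraMap k (Om k) s, X, Y))
      (fun _ => some (algebraMap k (Om k) t, algebraMap k (Om k) n * X,
        algebraMap k (Om k) u * Y)) (fun _ => hY)
      (fun _ => by
        change (algebraMap k (Om k) u * Y) ^ 2 = _
        rw [hFX, mul_pow, hY]) 0 1 0 (cl5 A B a b s t u x₁ (n * x₁)) ?_ ?_
    · exact hB.symm
    · intro v hv
      have hXr : X ∉ v.ring := by
        intro hXr
        have h1 : m ∈ v.ring := by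
          have := sub_mem hXr (v.const_mem x₁)
          rw [hX] at this
          simpa using this
        obtain ⟨c, hc⟩ := DCI57.exists_at v h1
        have h2 : v.At (m * m⁻¹) (c * 0) := hc.mul (hm2 v hv)
        rw [mul_inv_cancel₀ hm0, mul_zero] at h2
        have h3 := h2.unique (by simpa using Place.at_const (v := v) (1 : k))
        exact zero_ne_one h3
      obtain ⟨p, q, hp, hq, hpq⟩ := value_inf (A := A) (B := B) hY hFX (Place.at_const (v := v) s)
        (Place.at_const (v := v) t) hXr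
      exact ⟨fun _ => p, fun _ => q, fun _ => hp, fun _ => hq, by simpa using hpq⟩
    · intro v hv
      have hX1 : v.At X x₁ := by
        have := (Place.at_const (v := v) x₁).add (hm1 v hv)
        rw [hX]
        simpa using this
      obtain ⟨p, q, hp, hq, hpq⟩ := value_fin (A := A) (B := B) hY (Place.at_const (v := v) s)
        (Place.at_const (v := v) t) (Place.at_const (v := v) u) hX1
        ((Place.at_const (v := v) n).mul hX1)
      exact ⟨fun _ => p, fun _ => q, fun _ => hp, fun _ => hq, by simpa using hpq⟩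
  · -- the line moves to infinity
    obtain ⟨α, hα⟩ : ∃ α : Om k, α = 3 * algebraMap k (Om k) n ^ 2 * m := ⟨_, rfl⟩
    obtain ⟨β, hβ⟩ : ∃ β : Om k, β = 3 * algebraMap k (Om k) n * m ^ 2 +
      algebraMap k (Om k) (n * aeval t a - n ^ 3 * aeval s a) := ⟨_, rfl⟩
    obtain ⟨γ, hγ⟩ : ∃ γ : Om k, γ = m ^ 3 + algebraMap k (Om k) (aeval t a) * m +
      algebraMap k (Om k) (aeval t b - n ^ 3 * aeval s b) := ⟨_, rfl⟩
    have hα0 : α ≠ 0 := by
      rw [hα]
      exact mul_ne_zero (mul_ne_zero (by norm_num) (pow_ne_zero 2 hn0')) hm0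
    obtain ⟨z, hz⟩ := IsAlgClosed.exists_eq_mul_self ((β / α) ^ 2 - 4 * (γ / α))
    obtain ⟨X₁, hX₁⟩ : ∃ X₁ : Om k, X₁ = (-(β / α) + z) / 2 := ⟨_, rfl⟩
    obtain ⟨X₂, hX₂⟩ : ∃ X₂ : Om k, X₂ = (-(β / α) - z) / 2 := ⟨_, rfl⟩
    have e1 : α * (X₁ + X₂) = -β := by
      rw [hX₁, hX₂]
      field_simp
      ring
    have e2 : α * (X₁ * X₂) = γ := by
      have h1 : X₁ * X₂ = γ / α := by
        rw [hX₁, hX₂]
        linear_combination (1 / 4) * hz
      rw [h1]
      field_simp
    have q1 : α * X₁ ^ 2 + β * X₁ + γ = 0 := by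
      linear_combination X₁ * e1 - e2
    have q2 : α * X₂ ^ 2 + β * X₂ + γ = 0 := by
      linear_combination X₂ * e1 - e2
    have hFX : ∀ X : Om k, α * X ^ 2 + β * X + γ = 0 →
        ff a b (algebraMap k (Om k) t) (algebraMap k (Om k) n * X + m) =
          algebraMap k (Om k) u ^ 2 * ff a b (algebraMap k (Om k) s) X := by
      intro X hX
      rw [hα, hβ, hγ] at hX
      simp only [map_sub, map_mul, map_pow] at hX
      rw [ff_map, ff_map]
      linear_combination hX + (X ^ 3 + algebraMap k (Om k) (aeval s a) * X +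
        algebraMap k (Om k) (aeval s b)) * hn'
    have hinf : ∀ v : Place k (Om k), v.At (tt k) 0 → ∀ X : Om k, α * X ^ 2 + β * X + γ = 0 →
        X ∉ v.ring := by
      intro v hv X hX hXr
      obtain ⟨c, hc⟩ := DCI57.exists_at v hXr
      have hi := hm2 v hv
      have h1 : v.At (algebraMap k (Om k) (3 * n ^ 2) * (X ^ 2 * m⁻¹ ^ 2) +
          algebraMap k (Om k) (3 * n) * (X * m⁻¹) +
          algebraMap k (Om k) (n * aeval t a - n ^ 3 * aeval s a) * (X * m⁻¹ ^ 3) +
          algebraMap k (Om k) 1 + algebraMap k (Om k) (aeval t a) * m⁻¹ ^ 2 +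
          algebraMap k (Om k) (aeval t b - n ^ 3 * aeval s b) * m⁻¹ ^ 3)
          (3 * n ^ 2 * (c ^ 2 * 0 ^ 2) + 3 * n * (c * 0) +
            (n * aeval t a - n ^ 3 * aeval s a) * (c * 0 ^ 3) + 1 + aeval t a * 0 ^ 2 +
            (aeval t b - n ^ 3 * aeval s b) * 0 ^ 3) :=
        ((((((Place.at_const _).mul ((hc.pow 2).mul (hi.pow 2))).add
          ((Place.at_const _).mul (hc.mul hi))).add
          ((Place.at_const _).mul (hc.mul (hi.pow 3)))).add (Place.at_const _)).add
          ((Place.at_const _).mul (hi.pow 2))).add ((Place.at_const _).mul (hi.pow 3))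
      have h2 : algebraMap k (Om k) (3 * n ^ 2) * (X ^ 2 * m⁻¹ ^ 2) +
          algebraMap k (Om k) (3 * n) * (X * m⁻¹) +
          algebraMap k (Om k) (n * aeval t a - n ^ 3 * aeval s a) * (X * m⁻¹ ^ 3) +
          algebraMap k (Om k) 1 + algebraMap k (Om k) (aeval t a) * m⁻¹ ^ 2 +
          algebraMap k (Om k) (aeval t b - n ^ 3 * aeval s b) * m⁻¹ ^ 3 = 0 := by
        have h3 : algebraMap k (Om k) (3 * n ^ 2) * (X ^ 2 * m⁻¹ ^ 2) +
          algebraMap k (Om k) (3 * n) * (X * m⁻¹) +
          algebraMap k (Om k) (n * aeval t a - n ^ 3 * aeval s a) * (X * m⁻¹ ^ 3) +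
          algebraMap k (Om k) 1 + algebraMap k (Om k) (aeval t a) * m⁻¹ ^ 2 +
          algebraMap k (Om k) (aeval t b - n ^ 3 * aeval s b) * m⁻¹ ^ 3 =
            (α * X ^ 2 + β * X + γ) / m ^ 3 := by
          rw [hα, hβ, hγ]
          have h4 : algebraMap k (Om k) (3 * n ^ 2) = 3 * algebraMap k (Om k) n ^ 2 := by
            rw [map_mul, map_pow, map_ofNat]
          have h5 : algebraMap k (Om k) (3 * n) = 3 * algebraMap k (Om k) n := by
            rw [map_mul, map_ofNat]
          rw [h4, h5, map_one]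
          field_simp
          ring
        rw [h3, hX, zero_div]
      rw [h2] at h1
      have h3 := h1.unique (by simpa using Place.at_const (v := v) (0 : k))
      simp at h3
    obtain ⟨Y₁, hY₁⟩ := hsq X₁
    obtain ⟨Y₂, hY₂⟩ := hsq X₂
    have hB := bridgeCL h (I := Fin 2) ![some (algebraMap k (Om k) s, X₁, Y₁),
        some (algebraMap k (Om k) s, X₂, Y₂)]
      ![some (algebraMap k (Om k) t, algebraMap k (Om k) n * X₁ + m, algebraMap k (Om k) u * Y₁),
        some (algebraMap k (Om k) t, algebraMap k (Om k) n * X₂ + m, algebraMap k (Om k) u * Y₂)]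
      (by
        intro i
        fin_cases i
        · exact hY₁
        · exact hY₂)
      (by
        intro i
        fin_cases i
        · change (algebraMap k (Om k) u * Y₁) ^ 2 = _
          rw [hFX X₁ q1, mul_pow, hY₁]
        · change (algebraMap k (Om k) u * Y₂) ^ 2 = _
          rw [hFX X₂ q2, mul_pow, hY₂]) 0 1 0 (cl5 A B a b s t u x₁ (n * x₁)) ?_ ?_
    · exact hB.symm
    · intro v hv
      obtain ⟨p, q, hp, hq, hpq⟩ := value_inf (A := A) (B := B) hY₁ (hFX X₁ q1)
        (Place.at_const (v := v) s) (Place.at_const (v := v) t) (hinf v hv X₁ q1)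
      obtain ⟨p', q', hp', hq', hpq'⟩ := value_inf (A := A) (B := B) hY₂ (hFX X₂ q2)
        (Place.at_const (v := v) s) (Place.at_const (v := v) t) (hinf v hv X₂ q2)
      refine ⟨![p, p'], ![q, q'], ?_, ?_, ?_⟩
      · intro i
        fin_cases i
        · exact hp
        · exact hp'
      · intro i
        fin_cases i
        · exact hq
        · exact hq'
      · rw [Fin.sum_univ_two]
        simp [hpq, hpq']
    · intro v hv
      have hmv := hm1 v hv
      have hαv : v.At α 0 := by
        have h1 := (Place.at_const (v := v) (3 * n ^ 2)).mul hmv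
        rw [mul_zero, map_mul, map_pow, map_ofNat] at h1
        rw [hα]
        exact h1
      have hβv : v.At β (n * aeval t a - n ^ 3 * aeval s a) := by
        have h1 := ((Place.at_const (v := v) (3 * n)).mul (hmv.pow 2)).add
          (Place.at_const (v := v) (n * aeval t a - n ^ 3 * aeval s a))
        rw [zero_pow two_ne_zero, mul_zero, zero_add, map_mul, map_ofNat] at h1
        rw [hβ]
        exact h1
      have hγv : v.At γ (aeval t b - n ^ 3 * aeval s b) := by
        have h1 := ((hmv.pow 3).add ((Place.at_const (v := v) (aeval t a)).mul hmv)).add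
          (Place.at_const (v := v) (aeval t b - n ^ 3 * aeval s b))
        rw [zero_pow three_ne_zero, mul_zero, zero_add, zero_add] at h1
        rw [hγ]
        exact h1
      have hx : -(aeval t b - n ^ 3 * aeval s b) / (n * aeval t a - n ^ 3 * aeval s a) = x₁ := by
        rw [div_eq_iff hβ₀]
        linear_combination -hlin
      have hdeg := roots_degenerate hα0 hαv hβv hγv hβ₀ e1 e2
      rw [hx] at hdeg
      have hfin : ∀ {X Y : Om k}, v.At X x₁ → Y ^ 2 = ff a b (algebraMap k (Om k) s) X →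
          ∃ p q : Pnt k, Val v (some (algebraMap k (Om k) s, X, Y)) p ∧
            Val v (some (algebraMap k (Om k) t, algebraMap k (Om k) n * X + m,
              algebraMap k (Om k) u * Y)) q ∧
            CL A B p q = cl5 A B a b s t u x₁ (n * x₁) := by
        intro X Y hX hY
        have h1 := ((Place.at_const (v := v) n).mul hX).add hmv
        rw [add_zero] at h1
        exact value_fin hY (Place.at_const s) (Place.at_const t) (Place.at_const u) hX h1
      rcases hdeg with ⟨hX₁r, hX₂v⟩ | ⟨hX₂r, hX₁v⟩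
      · obtain ⟨p, q, hp, hq, hpq⟩ := value_inf (A := A) (B := B) hY₁ (hFX X₁ q1)
          (Place.at_const (v := v) s) (Place.at_const (v := v) t) hX₁r
        obtain ⟨p', q', hp', hq', hpq'⟩ := hfin hX₂v hY₂
        refine ⟨![p, p'], ![q, q'], ?_, ?_, ?_⟩
        · intro i
          fin_cases i
          · exact hp
          · exact hp'
        · intro i
          fin_cases i
          · exact hq
          · exact hq'
        · rw [Fin.sum_univ_two]
          simp [hpq, hpq']
      · obtain ⟨p, q, hp, hq, hpq⟩ := hfin hX₁v hY₁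
        obtain ⟨p', q', hp', hq', hpq'⟩ := value_inf (A := A) (B := B) hY₂ (hFX X₂ q2)
          (Place.at_const (v := v) s) (Place.at_const (v := v) t) hX₂r
        refine ⟨![p, p'], ![q, q'], ?_, ?_, ?_⟩
        · intro i
          fin_cases i
          · exact hp
          · exact hp'
        · intro i
          fin_cases i
          · exact hq
          · exact hq'
        · rw [Fin.sum_univ_two]
          simp [hpq, hpq']

end Pool.Agent.VK3
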