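import Pool.Agent.VK3.Val

/-!
# Specialisation of points
-/

set_option autoImplicit false

noncomputable section

namespace Pool.Agent.VK3

open Pool.Agent.ZCyc Polynomial

universe u

variable {k : Type u} [Field k] [IsAlgClosed k] [CharZero k] {A B : MvPolynomial (Fin 2) k}
  {a b : k[X]}

omit [IsAlgClosed k] [CharZero k] in
private theorem bridge_transc : Transcendental k (tt k) := by
  unfold tt
  rw [transcendental_algebraMap_iff (algebraMap (RatFunc k) (Om k)).injective]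
  exact RatFunc.transcendental_X

omit [IsAlgClosed k] [CharZero k] in
private theorem bridge_fix (g : Om k ≃ₐ[RatFunc k] Om k) (c : k) :
    g (algebraMap k (Om k) c) = algebraMap k (Om k) c := by
  rw [IsScalarTower.algebraMap_apply k (RatFunc k) (Om k)]
  exact g.commutes _

omit [IsAlgClosed k] [CharZero k] in
private theorem bridge_onX (g : Om k ≃ₐ[RatFunc k] Om k) {w : Fin 4 → Om k} (h : OnX A B w) :
    OnX A B (fun j => g (w j)) := by
  obtain ⟨h0, h1⟩ := h
  refine ⟨fun h2 => h0 ?_, ?_⟩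
  · funext j
    exact (map_eq_zero_iff g g.injective).1 (congrFun h2 j)
  · have key : ∀ C : MvPolynomial (Fin 2) k, g (MvPolynomial.aeval ![w 0, w 1] C) =
        MvPolynomial.aeval ![g (w 0), g (w 1)] C := by
      intro C
      have e1 : g (MvPolynomial.aeval ![w 0, w 1] C) =
          ((g.restrictScalars k).toAlgHom.comp (MvPolynomial.aeval ![w 0, w 1])) C := rfl
      rw [e1]
      congr 1
      refine MvPolynomial.algHom_ext fun j => ?_
      fin_cases j
      · simp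
      · simp
    have h2 := congrArg g h1
    rw [map_add, map_add, map_mul, map_pow, map_pow, key, key] at h2
    exact h2

omit [IsAlgClosed k] [CharZero k] in
private theorem bridge_isValue (v : Place k (Om k)) (g : Om k ≃ₐ[RatFunc k] Om k)
    {w : Fin 4 → Om k} {p : Fin 4 → k}
    (h : IsValue (v.map (g.restrictScalars k).symm) w p) : IsValue v (fun j => g (w j)) p := by
  obtain ⟨c, hc⟩ := h
  refine ⟨g c, fun j => ?_⟩
  have h1 := hc j
  have h2 : (v.map (g.restrictScalars k).symm).At (scale c w j) (p j) := h1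
  rw [Place.at_map] at h2
  have e : (g.restrictScalars k).symm.symm (scale c w j) = scale (g c) (fun j => g (w j)) j := by
    show g (scale c w j) = _
    unfold scale
    rw [map_mul, map_pow]
  rw [e] at h2
  exact h2

omit [IsAlgClosed k] [CharZero k] in
private theorem bridge_at (v : Place k (Om k)) (g : Om k ≃ₐ[RatFunc k] Om k) {c : k}
    (h : v.At (tt k) c) : (v.map (g.restrictScalars k).symm).At (tt k) c := by
  rw [Place.at_map]
  have e : (g.restrictScalars k).symm.symm (tt k) = tt k := by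
    show g (tt k) = _
    exact g.commutes _
  rw [e]
  exact h

/-- compare `Pool.Agent.FBB.Bridge`: take a finite Galois extension `L` of `k(t)` in `Om k` which
contains all coordinates, the families are `τ (P i, Q i)`, `τ ∈ Gal(L / k(t))` -/
theorem bridge (h : Deh A B a b) {I : Type} [Fintype I] (w : I → ℚ) (P Q : I → Pnt (Om k))
    (hP : ∀ i, On a b (P i)) (hQ : ∀ i, On a b (Q i)) (c₀ c₁ : k) (C₀ C₁ : V A B)
    (h₀ : ∀ v : Place k (Om k), v.At (tt k) c₀ → ∃ p q : I → Pnt k, (∀ i, Val v (P i) (p i)) ∧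
      (∀ i, Val v (Q i) (q i)) ∧ ∑ i, w i • c2 A B (p i) (q i) = C₀)
    (h₁ : ∀ v : Place k (Om k), v.At (tt k) c₁ → ∃ p q : I → Pnt k, (∀ i, Val v (P i) (p i)) ∧
      (∀ i, Val v (Q i) (q i)) ∧ ∑ i, w i • c2 A B (p i) (q i) = C₁) :
    C₀ = C₁ := by
  classical
  let S : Set (Om k) := Set.range (fun x : I × Fin 4 => vec (P x.1) x.2) ∪
    Set.range (fun x : I × Fin 4 => vec (Q x.1) x.2)
  let L1 : IntermediateField (RatFunc k) (Om k) := IntermediateField.adjoin (RatFunc k) S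
  have hfd : FiniteDimensional (RatFunc k) L1 := by
    have : Finite S := ((Set.finite_range _).union (Set.finite_range _)).to_subtype
    exact IntermediateField.finiteDimensional_adjoin fun z _ =>
      Algebra.IsIntegral.isIntegral z
  let L : IntermediateField (RatFunc k) (Om k) :=
    IntermediateField.normalClosure (RatFunc k) L1 (Om k)
  have hLF : L1 ≤ L := IntermediateField.le_normalClosure L1
  have hPL : ∀ i j, vec (P i) j ∈ L := fun i j =>
    hLF (IntermediateField.subset_adjoin (RatFunc k) S (Or.inl ⟨(i, j), rfl⟩))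
  have hQL : ∀ i j, vec (Q i) j ∈ L := fun i j =>
    hLF (IntermediateField.subset_adjoin (RatFunc k) S (Or.inr ⟨(i, j), rfl⟩))
  have : Normal (RatFunc k) L := normalClosure.normal (RatFunc k) L1 (Om k)
  have : FiniteDimensional (RatFunc k) L :=
    normalClosure.is_finiteDimensional (RatFunc k) L1 (Om k)
  obtain ⟨n, ⟨e⟩⟩ := Finite.exists_equiv_fin (L ≃ₐ[RatFunc k] L)
  let σ : Fin n → (Om k ≃ₐ[RatFunc k] Om k) := fun i => (e.symm i).liftNormal (Om k)
  have hσ : ∀ i (x : Om k) (hx : x ∈ L), σ i x = ((e.symm i ⟨x, hx⟩ : L) : Om k) :=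
    fun i x hx => AlgEquiv.liftNormal_commutes (e.symm i) (Om k) ⟨x, hx⟩
  -- the family is stable
  have hstab : ∀ g : Om k ≃ₐ[RatFunc k] Om k, ∃ r : Equiv.Perm (Fin n), ∀ i, ∀ x ∈ L,
      σ (r i) x = g (σ i x) := by
    intro g
    refine ⟨(e.symm.trans (Equiv.mulLeft (AlgEquiv.restrictNormal g L))).trans e, fun i x hx => ?_⟩
    rw [hσ _ x hx, hσ _ x hx]
    have h2 : e.symm (((e.symm.trans (Equiv.mulLeft (AlgEquiv.restrictNormal g L))).trans e) i) =
        AlgEquiv.restrictNormal g L * e.symm i := by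
      simp
    rw [h2, AlgEquiv.mul_apply]
    exact AlgEquiv.restrictNormal_commutes g L _
  obtain ⟨v₀, hv₀⟩ := exists_place (bridge_transc (k := k)) c₀
  obtain ⟨v₁, hv₁⟩ := exists_place (bridge_transc (k := k)) c₁
  have k₀ := fun i : Fin n => h₀ _ (bridge_at v₀ (σ i) hv₀)
  have k₁ := fun i : Fin n => h₁ _ (bridge_at v₁ (σ i) hv₁)
  choose p₀ q₀ hp₀ hq₀ hC₀ using k₀
  choose p₁ q₁ hp₁ hq₁ hC₁ using k₁
  have hval : ∀ (v : Place k (Om k)) (g : Om k ≃ₐ[RatFunc k] Om k) (R : Pnt (Om k)) (r : Pnt k),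
      On a b R → Val (v.map (g.restrictScalars k).symm) R r →
      vec r ≠ 0 ∧ IsValue v (fun j => g (vec R j)) (vec r) := by
    intro v g R r hR hv
    obtain ⟨-, h2, h3⟩ := Val.isValue h hR hv
    exact ⟨h2, bridge_isValue v g h3⟩
  have hmem : ∀ i : I, ∑ τ : Fin n, (Finsupp.single (vec (p₀ τ i), vec (q₀ τ i)) (1 : ℚ) -
      Finsupp.single (vec (p₁ τ i), vec (q₁ τ i)) 1) ∈ ratEq A B := by
    intro i
    apply Submodule.subset_span
    refine ⟨n, fun τ j => σ τ (vec (P i) j), fun τ j => σ τ (vec (Q i) j), c₀, c₁, v₀, v₁,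
      fun τ => vec (p₀ τ i), fun τ => vec (q₀ τ i), fun τ => vec (p₁ τ i), fun τ => vec (q₁ τ i),
      fun τ => ⟨bridge_onX _ ((h.onX _).2 (hP i)), bridge_onX _ ((h.onX _).2 (hQ i))⟩,
      fun g => ?_, hv₀, hv₁, fun τ => ?_, fun τ => ?_, rfl⟩
    · obtain ⟨r, hr⟩ := hstab g
      exact ⟨r, fun τ => ⟨funext fun j => hr τ _ (hPL i j), funext fun j => hr τ _ (hQL i j)⟩⟩
    · obtain ⟨h2, h3⟩ := hval v₀ (σ τ) (P i) (p₀ τ i) (hP i) (hp₀ τ i)
      obtain ⟨h4, h5⟩ := hval v₀ (σ τ) (Q i) (q₀ τ i) (hQ i) (hq₀ τ i)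
      exact ⟨h2, h4, h3, h5⟩
    · obtain ⟨h2, h3⟩ := hval v₁ (σ τ) (P i) (p₁ τ i) (hP i) (hp₁ τ i)
      obtain ⟨h4, h5⟩ := hval v₁ (σ τ) (Q i) (q₁ τ i) (hQ i) (hq₁ τ i)
      exact ⟨h2, h4, h3, h5⟩
  have hsum : ∀ i : I, ∑ τ : Fin n, c2 A B (p₀ τ i) (q₀ τ i) =
      ∑ τ : Fin n, c2 A B (p₁ τ i) (q₁ τ i) := by
    intro i
    have h2 := (Submodule.Quotient.mk_eq_zero (ratEq A B)).2 (hmem i)
    have h3 := map_sum (ratEq A B).mkQ (fun τ : Fin n =>
      (Finsupp.single (vec (p₀ τ i), vec (q₀ τ i)) (1 : ℚ) -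
      Finsupp.single (vec (p₁ τ i), vec (q₁ τ i)) 1)) Finset.univ
    rw [Submodule.mkQ_apply, h2] at h3
    rw [← sub_eq_zero, ← Finset.sum_sub_distrib]
    refine Eq.trans (Finset.sum_congr rfl fun τ _ => ?_) h3.symm
    rw [map_sub]
    rfl
  have hn : (n : ℚ) ≠ 0 := by
    have : 0 < n := by
      rw [← Fintype.card_fin n, ← Fintype.card_congr e]
      exact Fintype.card_pos
    exact_mod_cast this.ne'
  have hfin : (n : ℚ) • C₀ = (n : ℚ) • C₁ := by
    have e₀ : ∑ τ : Fin n, ∑ i, w i • c2 A B (p₀ τ i) (q₀ τ i) = (n : ℚ) • C₀ := by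
      rw [Finset.sum_congr rfl fun τ _ => hC₀ τ, Finset.sum_const, Finset.card_univ,
        Fintype.card_fin, Nat.cast_smul_eq_nsmul]
    have e₁ : ∑ τ : Fin n, ∑ i, w i • c2 A B (p₁ τ i) (q₁ τ i) = (n : ℚ) • C₁ := by
      rw [Finset.sum_congr rfl fun τ _ => hC₁ τ, Finset.sum_const, Finset.card_univ,
        Fintype.card_fin, Nat.cast_smul_eq_nsmul]
    have hc : ∀ p q : Fin n → I → Pnt k, ∑ τ : Fin n, ∑ i, w i • c2 A B (p τ i) (q τ i) =
        ∑ i, w i • ∑ τ : Fin n, c2 A B (p τ i) (q τ i) := by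
      intro p q
      rw [Finset.sum_comm]
      exact Finset.sum_congr rfl fun i _ => Finset.smul_sum.symm
    rw [← e₀, ← e₁, hc, hc]
    exact Finset.sum_congr rfl fun i _ => by rw [hsum i]
  have h2 := congrArg (fun z => (n : ℚ)⁻¹ • z) hfin
  simpa [smul_smul, inv_mul_cancel₀ hn] using h2

end Pool.Agent.VK3
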