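import Pool.Agent.VK3.Bridge

/-!
# The classes CL
-/

set_option autoImplicit false

noncomputable section

namespace Pool.Agent.VK3

open Pool.Agent.ZCyc Polynomial

universe u

variable {k : Type u} [Field k] {A B : MvPolynomial (Fin 2) k} {a b : k[X]}

private theorem ng_ng' {K : Type*} [Field K] (p : Pnt K) : ng (ng p) = p := by
  rcases p with _ | ⟨s, x, y⟩
  · rfl
  · simp only [ng, neg_neg]

theorem CL_swap (p q : Pnt k) : CL A B q p = -CL A B p q := by
  unfold CL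
  abel

theorem CL_ng_left (p q : Pnt k) : CL A B (ng p) q = -CL A B p q := by
  unfold CL
  rw [ng_ng']
  abel

theorem CL_ng_right (p q : Pnt k) : CL A B p (ng q) = -CL A B p q := by
  unfold CL
  rw [ng_ng']
  abel

private theorem CL_of_ng {p : Pnt k} (h : ng p = p) (q : Pnt k) : CL A B p q = 0 := by
  unfold CL
  rw [h]
  abel

theorem CL_none_left (q : Pnt k) : CL A B none q = 0 := CL_of_ng rfl q

theorem CL_none_right (p : Pnt k) : CL A B p none = 0 := by
  rw [CL_swap, CL_none_left, neg_zero]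

theorem CL_y_left (s x : k) (q : Pnt k) : CL A B (some (s, x, 0)) q = 0 :=
  CL_of_ng (by simp only [ng, neg_zero]) q

theorem CL_y_right (s x : k) (p : Pnt k) : CL A B p (some (s, x, 0)) = 0 := by
  rw [CL_swap, CL_y_left, neg_zero]

variable [IsAlgClosed k]

theorem cl5_eq_CL {s t u x₁ x₂ y : k} (hy : y ^ 2 = ff a b s x₁) :
    cl5 A B a b s t u x₁ x₂ = CL A B (some (s, x₁, y)) (some (t, x₂, u * y)) := by
  unfold cl5
  have h1 : sq (ff a b s x₁) ^ 2 = y ^ 2 := by rw [sq_sq, hy]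
  rcases sq_eq_sq_iff_eq_or_eq_neg.1 h1 with h2 | h2
  · rw [h2]
  · rw [h2]
    have h3 : (some (s, x₁, -y) : Pnt k) = ng (some (s, x₁, y)) := rfl
    have h4 : (some (t, x₂, u * -y) : Pnt k) = ng (some (t, x₂, u * y)) := by
      simp only [ng, mul_neg]
    rw [h3, h4, CL_ng_left, CL_ng_right, neg_neg]

theorem cl5_neg (s t u x₁ x₂ : k) :
    cl5 A B a b s t (-u) x₁ x₂ = -cl5 A B a b s t u x₁ x₂ := by
  unfold cl5
  have h4 : (some (t, x₂, -u * sq (ff a b s x₁)) : Pnt k) =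
      ng (some (t, x₂, u * sq (ff a b s x₁))) := by
    simp only [ng, neg_mul]
  rw [h4, CL_ng_right]

theorem cl5_swap {s t u x₁ x₂ : k} (hu : u ≠ 0) (hF : ff a b t x₂ = u ^ 2 * ff a b s x₁) :
    cl5 A B a b t s (1 / u) x₂ x₁ = -cl5 A B a b s t u x₁ x₂ := by
  have h1 : (u * sq (ff a b s x₁)) ^ 2 = ff a b t x₂ := by
    rw [mul_pow, sq_sq, hF]
  rw [cl5_eq_CL h1, CL_swap]
  have h2 : 1 / u * (u * sq (ff a b s x₁)) = sq (ff a b s x₁) := by
    rw [← mul_assoc, one_div, inv_mul_cancel₀ hu, one_mul]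
  rw [h2]
  rfl

variable [CharZero k]

/-- the point `p` or the point `-p` -/
private def ngb {K : Type*} [Field K] (e : Bool) (p : Pnt K) : Pnt K := if e then ng p else p

private def sgb (e : Bool) : ℚ := if e then -1 else 1

private def fst' {K : Type*} [Field K] (p q : Pnt K) (e : Bool × Bool × Bool) : Pnt K :=
  if e.2.2 then ngb e.2.1 q else ngb e.1 p

private def snd' {K : Type*} [Field K] (p q : Pnt K) (e : Bool × Bool × Bool) : Pnt K :=
  if e.2.2 then ngb e.1 p else ngb e.2.1 q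

omit [IsAlgClosed k] [CharZero k] in
private theorem CL_eq_sum (p q : Pnt k) : ∑ e : Bool × Bool × Bool,
    (sgb e.1 * sgb e.2.1 * sgb e.2.2) • c2 A B (fst' p q e) (snd' p q e) = CL A B p q := by
  rw [Fintype.sum_prod_type]
  simp only [Fintype.sum_prod_type, Fintype.sum_bool, sgb, fst', snd', ngb, if_true, if_false,
    Bool.false_eq_true, mul_one, mul_neg, neg_smul, one_smul, neg_neg, CL]
  abel

omit [IsAlgClosed k] [CharZero k] in
private theorem On_ng {K : Type*} [Field K] [Algebra k K] {P : Pnt K} (h : On a b P) :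
    On a b (ng P) := by
  rcases P with _ | ⟨s, x, y⟩
  · trivial
  · have h' : y ^ 2 = ff a b s x := h
    change (-y) ^ 2 = ff a b s x
    rw [neg_sq, h']

omit [IsAlgClosed k] [CharZero k] in
private theorem Val_ng {v : Place k (Om k)} {P : Pnt (Om k)} {p : Pnt k} (h : Val v P p) :
    Val v (ng P) (ng p) := by
  rcases P with _ | ⟨s, x, y⟩ <;> rcases p with _ | ⟨s', x', y'⟩
  · trivial
  · exact h
  · exact h
  · exact ⟨h.1, h.2.1, h.2.2.neg⟩

omit [IsAlgClosed k] [CharZero k] in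
private theorem On_ngb {K : Type*} [Field K] [Algebra k K] {P : Pnt K} (h : On a b P) (e : Bool) :
    On a b (ngb e P) := by
  cases e
  · exact h
  · exact On_ng h

omit [IsAlgClosed k] [CharZero k] in
private theorem Val_ngb {v : Place k (Om k)} {P : Pnt (Om k)} {p : Pnt k} (h : Val v P p)
    (e : Bool) : Val v (ngb e P) (ngb e p) := by
  cases e
  · exact h
  · exact Val_ng h

omit [IsAlgClosed k] [CharZero k] in
private theorem sum_aux {I : Type} [Fintype I] {v : Place k (Om k)} {P Q : I → Pnt (Om k)}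
    {p q : I → Pnt k} (hp : ∀ i, Val v (P i) (p i)) (hq : ∀ i, Val v (Q i) (q i)) {C : V A B}
    (hC : ∑ i, CL A B (p i) (q i) = C) :
    ∃ p' q' : I × Bool × Bool × Bool → Pnt k,
      (∀ i, Val v (fst' (P i.1) (Q i.1) i.2) (p' i)) ∧
      (∀ i, Val v (snd' (P i.1) (Q i.1) i.2) (q' i)) ∧
      ∑ i : I × Bool × Bool × Bool, (sgb i.2.1 * sgb i.2.2.1 * sgb i.2.2.2) •
        c2 A B (p' i) (q' i) = C := by
  refine ⟨fun i => fst' (p i.1) (q i.1) i.2, fun i => snd' (p i.1) (q i.1) i.2, ?_, ?_, ?_⟩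
  · rintro ⟨i, e1, e2, e3⟩
    cases e3
    · exact Val_ngb (hp i) e1
    · exact Val_ngb (hq i) e2
  · rintro ⟨i, e1, e2, e3⟩
    cases e3
    · exact Val_ngb (hq i) e2
    · exact Val_ngb (hp i) e1
  · rw [Fintype.sum_prod_type, ← hC]
    exact Finset.sum_congr rfl fun i _ => CL_eq_sum (p i) (q i)

theorem bridgeCL (h : Deh A B a b) {I : Type} [Fintype I] (P Q : I → Pnt (Om k))
    (hP : ∀ i, On a b (P i)) (hQ : ∀ i, On a b (Q i)) (c₀ c₁ : k) (C₀ C₁ : V A B)
    (h₀ : ∀ v : Place k (Om k), v.At (tt k) c₀ → ∃ p q : I → Pnt k, (∀ i, Val v (P i) (p i)) ∧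
      (∀ i, Val v (Q i) (q i)) ∧ ∑ i, CL A B (p i) (q i) = C₀)
    (h₁ : ∀ v : Place k (Om k), v.At (tt k) c₁ → ∃ p q : I → Pnt k, (∀ i, Val v (P i) (p i)) ∧
      (∀ i, Val v (Q i) (q i)) ∧ ∑ i, CL A B (p i) (q i) = C₁) :
    C₀ = C₁ := by
  refine bridge h (fun i : I × Bool × Bool × Bool => sgb i.2.1 * sgb i.2.2.1 * sgb i.2.2.2)
    (fun i => fst' (P i.1) (Q i.1) i.2) (fun i => snd' (P i.1) (Q i.1) i.2) ?_ ?_ c₀ c₁ C₀ C₁ ?_ ?_
  · rintro ⟨i, e1, e2, e3⟩
    cases e3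
    · exact On_ngb (hP i) e1
    · exact On_ngb (hQ i) e2
  · rintro ⟨i, e1, e2, e3⟩
    cases e3
    · exact On_ngb (hQ i) e2
    · exact On_ngb (hP i) e1
  · intro v hv
    obtain ⟨p, q, hp, hq, hC⟩ := h₀ v hv
    exact sum_aux hp hq hC
  · intro v hv
    obtain ⟨p, q, hp, hq, hC⟩ := h₁ v hv
    exact sum_aux hp hq hC

end Pool.Agent.VK3
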