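import Pool.Agent.VK3.Transfer

/-!
# Singular Jacobian
-/

set_option autoImplicit false

noncomputable section

namespace Pool.Agent.VK3

open Pool.Agent.ZCyc Polynomial

universe u

variable {k : Type u} [Field k] [IsAlgClosed k] [CharZero k] {A B : MvPolynomial (Fin 2) k}
  {a b : k[X]}

omit [IsAlgClosed k] [CharZero k] in
private lemma degen_transc : Transcendental k (tt k) := by
  have h1 : Transcendental k (RatFunc.X : RatFunc k) := RatFunc.transcendental_X
  unfold tt
  exact (transcendental_algebraMap_iff (algebraMap (RatFunc k) (Om k)).injective).2 h1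

omit [IsAlgClosed k] [CharZero k] in
private lemma degen_aeval (p : k[X]) (s : k) :
    aeval (algebraMap k (Om k) s) p = algebraMap k (Om k) (aeval s p) := by
  rw [aeval_algebraMap_apply]

omit [IsAlgClosed k] [CharZero k] in
private lemma degen_tt0 {v : Place k (Om k)} (hv : v.At (tt k) 0) : (1 - tt k) / tt k ∉ v.ring := by
  intro hmem
  have htt : tt k ≠ 0 := by
    intro h0
    apply degen_transc (k := k)
    rw [h0]
    exact isAlgebraic_zero
  have h1 : v.Vanishes (tt k * ((1 - tt k) / tt k)) :=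
    Place.Vanishes.mul v (Place.at_zero_iff.1 hv) hmem
  rw [mul_div_cancel₀ _ htt] at h1
  have h2 : v.Vanishes ((1 - tt k) + tt k) := Place.Vanishes.add v h1 (Place.at_zero_iff.1 hv)
  rw [sub_add_cancel] at h2
  apply v.const_unit (one_ne_zero (α := k))
  rw [map_one]
  exact h2

omit [IsAlgClosed k] [CharZero k] in
private lemma degen_tt1 {v : Place k (Om k)} (hv : v.At (tt k) 1) :
    v.At ((1 - tt k) / tt k) 0 := by
  have h1 : v.At (1 - tt k) 0 := by
    have h2 := (Place.at_const (v := v) (1 : k)).sub hv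
    rw [map_one, sub_self] at h2
    exact h2
  have h2 := h1.div hv one_ne_zero
  rwa [zero_div] at h2

omit [IsAlgClosed k] [CharZero k] in
/-- integrality -/
private lemma degen_ring (v : Place k (Om k)) {x : Om k} {c d f : k} (hc : c ≠ 0)
    (hx : algebraMap k (Om k) c * x ^ 3 = algebraMap k (Om k) d * x + algebraMap k (Om k) f) :
    x ∈ v.ring := by
  by_contra hcon
  have h1 : v.Vanishes x⁻¹ := by
    rw [v.vanishes_iff_or, inv_inv]
    exact Or.inr hcon
  have h2 : x ≠ 0 := by
    rintro h0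
    rw [h0] at hcon
    exact hcon (zero_mem _)
  have h3 : algebraMap k (Om k) c =
      x⁻¹ ^ 2 * algebraMap k (Om k) d + x⁻¹ ^ 3 * algebraMap k (Om k) f := by
    field_simp
    linear_combination hx
  apply v.const_unit hc
  rw [h3]
  exact Place.Vanishes.add v (Place.Vanishes.mul v (h1.pow v two_ne_zero) (v.const_mem _))
    (Place.Vanishes.mul v (h1.pow v three_ne_zero) (v.const_mem _))

/-- The curve `Th ² = 4 (Xi - Xi₁) ² (Xi + 2 Xi₁)` is parametrised by `Xi = m ² - 2 Xi₁`,
`Th = 2 m (m ² - 3 Xi₁)`. Move `m` to infinity: `m = m₀ + (1 - t) / t`. -/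
theorem psi_degen (h : Deh A B a b) {s t Z Xi Th Xi₁ : k} (hs : dsc a b s ≠ 0)
    (ht : dsc a b t ≠ 0) (hZ : Z ≠ 0)
    (hW : Wd (aeval s a) (aeval s b) (aeval t a) (aeval t b) Z Xi Th)
    (h1 : Xi₁ ^ 2 = aeval s a * aeval t a)
    (h2 : 54 * aeval s b * aeval t b - (Z + dsc a b s * dsc a b t / Z) = 8 * Xi₁ ^ 3) :
    psi A B a b s t Z Xi Th = 0 := by
  -- the relation
  have h3 : Z ^ 2 + dsc a b s * dsc a b t = (54 * aeval s b * aeval t b - 8 * Xi₁ ^ 3) * Z := by
    field_simp at h2
    linear_combination -h2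
  have h4 : Th ^ 2 = 4 * (Xi - Xi₁) ^ 2 * (Xi + 2 * Xi₁) := by
    have hW' := hW
    have h3' := h3
    unfold Wd at hW'
    unfold dsc at h3'
    have h5 : Z * (Th ^ 2 - 4 * (Xi - Xi₁) ^ 2 * (Xi + 2 * Xi₁)) = 0 := by
      linear_combination hW' - h3' + 12 * Xi * Z * h1
    rcases mul_eq_zero.1 h5 with h6 | h6
    · exact absurd h6 hZ
    · exact sub_eq_zero.1 h6
  obtain ⟨m, hm, hTh⟩ : ∃ m : k, m ^ 2 = Xi + 2 * Xi₁ ∧ Th = 2 * m * (Xi - Xi₁) := by
    obtain ⟨m, hm⟩ := IsAlgClosed.exists_pow_nat_eq (Xi + 2 * Xi₁) (n := 2) (by norm_num)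
    have h5 : (Th - 2 * m * (Xi - Xi₁)) * (Th + 2 * m * (Xi - Xi₁)) = 0 := by
      linear_combination h4 - 4 * (Xi - Xi₁) ^ 2 * hm
    rcases mul_eq_zero.1 h5 with h6 | h6
    · exact ⟨m, hm, by linear_combination h6⟩
    · exact ⟨-m, by linear_combination hm, by linear_combination h6⟩
  -- the family
  set e := algebraMap k (Om k) with he
  set M : Om k := e m + (1 - tt k) / tt k with hM
  set XI : Om k := M ^ 2 - 2 * e Xi₁ with hXI
  set TH : Om k := 2 * M * (M ^ 2 - 3 * e Xi₁) with hTH
  have hdsc : ∀ x : k, dsc a b (e x) = e (dsc a b x) := by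
    intro x
    unfold dsc
    rw [he, degen_aeval, degen_aeval]
    simp only [map_add, map_mul, map_pow, map_ofNat]
  have hne : ∀ x : k, x ≠ 0 → e x ≠ 0 := fun x hx => by
    rwa [Ne, map_eq_zero_iff _ (algebraMap k (Om k)).injective]
  have h1' : e Xi₁ ^ 2 = e (aeval s a) * e (aeval t a) := by
    rw [← map_pow, h1, map_mul]
  have h3' : e Z ^ 2 + e (dsc a b s) * e (dsc a b t) =
      (54 * e (aeval s b) * e (aeval t b) - 8 * e Xi₁ ^ 3) * e Z := by
    have h5 := congrArg e h3
    simpa only [map_add, map_sub, map_mul, map_pow, map_ofNat] using h5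
  have hW' : Wd (aeval (e s) a) (aeval (e s) b) (aeval (e t) a) (aeval (e t) b) (e Z) XI TH := by
    unfold Wd
    have h5 := hdsc s
    have h6 := hdsc t
    unfold dsc at h5 h6
    rw [h5, h6, he, degen_aeval, degen_aeval, degen_aeval, degen_aeval, ← he]
    unfold dsc at h3'
    linear_combination h3' - 12 * XI * e Z * h1'
  have hpole : ∀ v : Place k (Om k), v.At (tt k) 0 → XI ∉ v.ring := by
    intro v hv hmem
    have h5 : M ^ 2 ∈ v.ring := by
      have h6 := add_mem hmem (mul_mem (v.const_mem 2) (v.const_mem Xi₁))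
      rw [map_ofNat] at h6
      have h7 : XI + 2 * algebraMap k (Om k) Xi₁ = M ^ 2 := by
        rw [hXI]
        ring
      rwa [h7] at h6
    have h6 : M ∈ v.ring := by
      by_contra hcon
      have h7 : v.Vanishes M⁻¹ := by
        rw [v.vanishes_iff_or, inv_inv]
        exact Or.inr hcon
      have h8 : v.Vanishes ((M⁻¹) ^ 2 * M ^ 2) :=
        Place.Vanishes.mul v (h7.pow v two_ne_zero) h5
      have h9 : M ≠ 0 := by
        rintro h0
        rw [h0] at hcon
        exact hcon (zero_mem _)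
      rw [← mul_pow, inv_mul_cancel₀ h9, one_pow] at h8
      apply v.const_unit (one_ne_zero (α := k))
      rw [map_one]
      exact h8
    apply degen_tt0 hv
    have h7 := sub_mem h6 (v.const_mem m)
    have h8 : M - algebraMap k (Om k) m = (1 - tt k) / tt k := by
      rw [hM]
      ring
    rwa [h8] at h7
  have hDst : Dst (aeval (e s) a) (aeval (e s) b) (aeval (e t) a) (e Z) XI ≠ 0 := by
    intro h0
    obtain ⟨v, hv⟩ := exists_place (degen_transc (k := k)) (0 : k)
    apply hpole v hv
    refine degen_ring v (c := Z * dsc a b s) (d := 3 * Z * dsc a b s * aeval s a * aeval t a)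
      (f := Z ^ 2 * aeval s a ^ 3 + dsc a b s ^ 2 * aeval t a ^ 3) (mul_ne_zero hZ hs) ?_
    have h5 := hdsc s
    unfold dsc at h5
    unfold Dst at h0
    rw [h5, he, degen_aeval, degen_aeval, ← he] at h0
    rw [← he]
    unfold dsc
    simp only [map_add, map_mul, map_pow, map_ofNat] at h0 ⊢
    linear_combination h0
  have key := transfer h (I := Unit) (fun _ => e s) (fun _ => e t) (fun _ => e Z) (fun _ => XI)
    (fun _ => TH) (fun _ => hW') (fun _ => by rw [hdsc]; exact hne _ hs) (fun _ => hne _ hZ)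
    (fun _ => hDst) 0 1 0 (psi A B a b s t Z Xi Th) ?_ ?_
  · exact key.symm
  · intro v hv
    refine ⟨fun _ => 0, fun _ => ?_, by simp⟩
    exact PV.inf s t (Place.at_const s) (Place.at_const t)
      (Or.inr (Or.inr (Or.inr (Or.inr (Or.inl (hpole v hv))))))
  · intro v hv
    refine ⟨fun _ => psi A B a b s t Z Xi Th, fun _ => ?_, by simp⟩
    have hMa : v.At M m := by
      have h5 := (Place.at_const (v := v) m).add (degen_tt1 hv)
      rwa [add_zero] at h5
    have h2a : v.At (2 : Om k) 2 := by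
      have h5 := Place.at_const (v := v) (2 : k)
      rwa [map_ofNat] at h5
    have h3a : v.At (3 : Om k) 3 := by
      have h5 := Place.at_const (v := v) (3 : k)
      rwa [map_ofNat] at h5
    refine PV.fin s t Z Xi Th (Place.at_const s) (Place.at_const t) (Place.at_const Z) ?_ ?_ hZ hs ht
    · have h5 := (hMa.pow 2).sub (h2a.mul (Place.at_const Xi₁))
      have h6 : m ^ 2 - 2 * Xi₁ = Xi := by linear_combination hm
      rwa [h6] at h5
    · have h5 := (h2a.mul hMa).mul ((hMa.pow 2).sub (h3a.mul (Place.at_const Xi₁)))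
      have h6 : 2 * m * (m ^ 2 - 3 * Xi₁) = Th := by
        rw [hTh]
        linear_combination 2 * m * hm
      rwa [h6] at h5

end Pool.Agent.VK3
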