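import Pool.Agent.VK3.Kappa
import Pool.Agent.VK3.Degen
import Pool.Agent.VK3.Sym
import Pool.Agent.VK3.Conic
import Pool.Agent.VK3.PolyPt

/-!
# Rational curves along which s and t are constant
-/

set_option autoImplicit false

noncomputable section

namespace Pool.Agent.VK3

open Pool.Agent.ZCyc Polynomial

universe u

variable {k : Type u} [Field k] [IsAlgClosed k] [CharZero k] {A B : MvPolynomial (Fin 2) k}
  {a b : k[X]}

omit [CharZero k] in
private lemma caseII_Sy (c : k[X]) (s t : k) :
    Sy c (C (s + t) : k[X]) (C (s * t)) = C (aeval s c * aeval t c) := by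
  have h1 := Sy_map c (CAlgHom (R := k) (A := k)) (s + t) (s * t)
  rw [← aeval_mul_aeval c s t] at h1
  exact h1.symm

omit [IsAlgClosed k] [CharZero k] in
private lemma caseII_dsc (s : k) : aeval s (4 * a ^ 3 + 27 * b ^ 2 : k[X]) = dsc a b s := by
  unfold dsc
  simp only [map_add, map_mul, map_pow, map_ofNat]

omit [IsAlgClosed k] [CharZero k] in
private lemma caseII_dsc_map (s : k) :
    dsc a b (algebraMap k (Om k) s) = algebraMap k (Om k) (dsc a b s) := by
  unfold dsc
  rw [aeval_algebraMap_apply, aeval_algebraMap_apply]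
  simp only [map_add, map_mul, map_pow, map_ofNat]

omit [IsAlgClosed k] [CharZero k] in
private lemma caseII_transcendental : Transcendental k (tt k) := by
  unfold tt
  rw [transcendental_algebraMap_iff (algebraMap (RatFunc k) (Om k)).injective]
  exact RatFunc.transcendental_X

omit [IsAlgClosed k] [CharZero k] in
private lemma caseII_two (w : V A B) (h : w + w = 0) : w = 0 := by
  have h1 : (2 : ℚ) • w = 0 := by rw [two_smul, h]
  rcases smul_eq_zero.1 h1 with h2 | h2
  · norm_num at h2
  · exact h2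

/-- If `q` is a square, `poly_const`, `poly_point` and `psi_degen`. Otherwise `conic'` and
`transfer`: the values are `psi Z` and `psi Z' = -psi Z` (`psi_kappa`). -/
theorem psi_caseII (h : Deh A B a b) {s t Z Xi Th : k} (hs : dsc a b s ≠ 0) (ht : dsc a b t ≠ 0)
    (hZ : Z ≠ 0) (hW : Wd (aeval s a) (aeval s b) (aeval t a) (aeval t b) Z Xi Th)
    (hD : Dst (aeval s a) (aeval s b) (aeval t a) Z Xi ≠ 0)
    (hD' : Dst (aeval t a) (aeval t b) (aeval s a) Z Xi ≠ 0)
    {E₁ E₂ X' Y' q g : k[X]} (hE₁ : E₁.natDegree ≤ 1) (hE₂ : E₂.natDegree ≤ 1)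
    (hq : q.natDegree ≤ 2) (h1 : E₁.eval 0 = s + t) (h2 : E₂.eval 0 = s * t)
    (h3 : X'.eval 0 = Xi) (h4 : Y'.eval 0 = Th) (h5 : q.eval 0 = 1)
    (h6 : g.eval 0 = Z - dsc a b s * dsc a b t / Z)
    (h7 : (4 * X' ^ 3 - 12 * Sy a E₁ E₂ * X' + 54 * Sy b E₁ E₂ - Y' ^ 2) ^ 2 -
      4 * Sy (4 * a ^ 3 + 27 * b ^ 2) E₁ E₂ = q * g ^ 2)
    (hE : E₁ = C (s + t) ∧ E₂ = C (s * t)) (hXY : ¬ (X' = C Xi ∧ Y' = C Th)) :
    psi A B a b s t Z Xi Th = 0 := by
  rw [hE.1, hE.2, caseII_Sy, caseII_Sy, caseII_Sy, caseII_dsc, caseII_dsc] at h7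
  have hd0 : dsc a b s * dsc a b t ≠ 0 := mul_ne_zero hs ht
  -- the value of `G`
  have hG : 4 * Xi ^ 3 - 12 * (aeval s a * aeval t a) * Xi + 54 * (aeval s b * aeval t b) - Th ^ 2 =
      Z + dsc a b s * dsc a b t / Z := by
    have hW' := hW
    unfold Wd at hW'
    have hd : dsc a b s * dsc a b t / Z * Z = dsc a b s * dsc a b t := div_mul_cancel₀ _ hZ
    apply mul_right_cancel₀ hZ
    rw [add_mul, hd]
    unfold dsc
    linear_combination -hW'
  by_cases hns : ∃ p : k[X], q = p ^ 2
  · obtain ⟨p, rfl⟩ := hns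
    have h8 : (4 * X' ^ 3 - 12 * C (aeval s a * aeval t a) * X' + 54 * C (aeval s b * aeval t b) -
        Y' ^ 2) ^ 2 - 4 * C (dsc a b s * dsc a b t) = (p * g) ^ 2 := by
      rw [h7]
      ring
    obtain ⟨h9, -⟩ := poly_const hd0 h8
    have h10 : (4 * X' ^ 3 - 12 * C (aeval s a * aeval t a) * X' +
        54 * C (aeval s b * aeval t b) - Y' ^ 2).eval 0 = Z + dsc a b s * dsc a b t / Z := by
      rw [← hG]
      simp only [eval_sub, eval_add, eval_mul, eval_pow, eval_C, h3, h4, eval_ofNat]
    rw [h10] at h9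
    have h11 : Y' ^ 2 = 4 * X' ^ 3 - C (12 * (aeval s a * aeval t a)) * X' +
        C (54 * (aeval s b * aeval t b) - (Z + dsc a b s * dsc a b t / Z)) := by
      have e1 : (C (12 * (aeval s a * aeval t a)) : k[X]) = 12 * C (aeval s a * aeval t a) := by
        rw [C_mul]
        rfl
      have e2 : (C (54 * (aeval s b * aeval t b) - (Z + dsc a b s * dsc a b t / Z)) : k[X]) =
          54 * C (aeval s b * aeval t b) - C (Z + dsc a b s * dsc a b t / Z) := by
        rw [C_sub, C_mul]
        rfl
      rw [e1, e2]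
      linear_combination -h9
    obtain ⟨x, hx1, hx2⟩ := poly_point h11 (by rwa [h3, h4])
    refine psi_degen h hs ht hZ hW hx1 ?_
    rw [← hx2]
    ring
  · obtain ⟨τ, r, c₀, c₁, hr, hc0, hc1⟩ := conic' q hq h5 hns
    set sO : Om k := algebraMap k (Om k) s with hsO
    set tO : Om k := algebraMap k (Om k) t with htO
    have hAs : aeval sO a = algebraMap k (Om k) (aeval s a) := aeval_algebraMap_apply _ _ _
    have hBs : aeval sO b = algebraMap k (Om k) (aeval s b) := aeval_algebraMap_apply _ _ _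
    have hAt : aeval tO a = algebraMap k (Om k) (aeval t a) := aeval_algebraMap_apply _ _ _
    have hBt : aeval tO b = algebraMap k (Om k) (aeval t b) := aeval_algebraMap_apply _ _ _
    have hDs : dsc a b sO = algebraMap k (Om k) (dsc a b s) := caseII_dsc_map s
    have hDt : dsc a b tO = algebraMap k (Om k) (dsc a b t) := caseII_dsc_map t
    set G1 : Om k := 4 * aeval τ X' ^ 3 - 12 * (aeval sO a * aeval tO a) * aeval τ X' +
      54 * (aeval sO b * aeval tO b) - aeval τ Y' ^ 2 with hG1
    set T : Om k := r * aeval τ g with hT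
    have hGT : G1 ^ 2 - 4 * (dsc a b sO * dsc a b tO) = T ^ 2 := by
      have h8 := congrArg (aeval τ) h7
      simp only [map_sub, map_add, map_mul, map_pow, map_ofNat, aeval_C] at h8
      rw [hT, mul_pow, hr, ← h8, hG1, hDs, hDt, hAs, hAt, hBs, hBt]
    set Zf : Om k := (G1 + T) / 2 with hZf
    have hWf : Wd (aeval sO a) (aeval sO b) (aeval tO a) (aeval tO b) Zf (aeval τ X')
        (aeval τ Y') := by
      unfold Wd
      have e1 : 4 * aeval τ X' ^ 3 - 12 * aeval sO a * aeval tO a * aeval τ X' +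
          54 * aeval sO b * aeval tO b - aeval τ Y' ^ 2 = G1 := by
        rw [hG1]
        ring
      have e2 : (4 * aeval sO a ^ 3 + 27 * aeval sO b ^ 2) *
          (4 * aeval tO a ^ 3 + 27 * aeval tO b ^ 2) = dsc a b sO * dsc a b tO := rfl
      rw [e1, e2, hZf]
      linear_combination -(1 / 4 : Om k) * hGT
    have hDs0 : dsc a b sO ≠ 0 := by
      rw [hDs]
      exact (_root_.map_ne_zero _).2 hs
    have hDt0 : dsc a b tO ≠ 0 := by
      rw [hDt]
      exact (_root_.map_ne_zero _).2 ht
    have hZf0 : Zf ≠ 0 := by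
      intro h0
      rw [h0] at hWf
      have hWf' : (0 : Om k) ^ 2 - (4 * aeval τ X' ^ 3 - 12 * aeval sO a * aeval tO a * aeval τ X' +
        54 * aeval sO b * aeval tO b - aeval τ Y' ^ 2) * 0 + dsc a b sO * dsc a b tO = 0 := hWf
      apply mul_ne_zero hDs0 hDt0
      linear_combination hWf'
    -- the values at a place
    have hval : ∀ v : Place k (Om k), v.At τ 0 → v.At (aeval τ X') Xi ∧ v.At (aeval τ Y') Th ∧
        v.At G1 (Z + dsc a b s * dsc a b t / Z) ∧
        v.At (aeval τ g) (Z - dsc a b s * dsc a b t / Z) := by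
      intro v hv
      have e1 : v.At (aeval τ X') Xi := by
        rw [← h3]
        exact hv.aeval X'
      have e2 : v.At (aeval τ Y') Th := by
        rw [← h4]
        exact hv.aeval Y'
      refine ⟨e1, e2, ?_, ?_⟩
      · rw [← hG, hG1, hAs, hAt, hBs, hBt]
        have e3 := (((Place.at_const (v := v) (4 : k)).mul (e1.pow 3)).sub
          (((Place.at_const (v := v) (12 : k)).mul ((Place.at_const (v := v) (aeval s a)).mul
            (Place.at_const (v := v) (aeval t a)))).mul e1)).add
          ((Place.at_const (v := v) (54 : k)).mul ((Place.at_const (v := v) (aeval s b)).mul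
            (Place.at_const (v := v) (aeval t b))))
        have e4 := e3.sub (e2.pow 2)
        simpa only [map_ofNat] using e4
      · rw [← h6]
        exact hv.aeval g
    have hhalf : ∀ v : Place k (Om k), ∀ z : k, v.At (G1 + T) (2 * z) → v.At Zf z := by
      intro v z hz
      have e1 := hz.div (Place.at_const (v := v) (2 : k)) two_ne_zero
      rw [map_ofNat, mul_div_cancel_left₀ _ (two_ne_zero : (2 : k) ≠ 0)] at e1
      exact e1
    have hZ0 : ∀ v : Place k (Om k), v.At (tt k) c₀ → v.At Zf Z := by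
      intro v hv
      obtain ⟨e1, e2⟩ := hc0 v hv
      obtain ⟨-, -, e3, e4⟩ := hval v e1
      apply hhalf
      have e5 := e3.add (e2.mul e4)
      convert e5 using 1
      ring
    have hZ1 : ∀ v : Place k (Om k), v.At (tt k) c₁ →
        v.At Zf (dsc a b s * dsc a b t / Z) := by
      intro v hv
      obtain ⟨e1, e2⟩ := hc1 v hv
      obtain ⟨-, -, e3, e4⟩ := hval v e1
      apply hhalf
      have e5 := e3.add (e2.mul e4)
      convert e5 using 1
      ring
    have hDf : Dst (aeval sO a) (aeval sO b) (aeval tO a) Zf (aeval τ X') ≠ 0 := by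
      intro h0
      obtain ⟨v, hv⟩ := exists_place (F := Om k) caseII_transcendental c₀
      have e1 := hZ0 v hv
      obtain ⟨e2, -, -, -⟩ := hval v (hc0 v hv).1
      apply hD
      have e3 : v.At (Dst (aeval sO a) (aeval sO b) (aeval tO a) Zf (aeval τ X'))
          (Dst (aeval s a) (aeval s b) (aeval t a) Z Xi) := by
        rw [hAs, hAt, hBs]
        unfold Dst
        have eD : v.At (4 * algebraMap k (Om k) (aeval s a) ^ 3 +
            27 * algebraMap k (Om k) (aeval s b) ^ 2)
            (4 * aeval s a ^ 3 + 27 * aeval s b ^ 2) := by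
          have := Place.at_const (v := v) (4 * aeval s a ^ 3 + 27 * aeval s b ^ 2)
          simpa only [map_add, map_mul, map_pow, map_ofNat] using this
        have eA := Place.at_const (v := v) (aeval s a)
        have eA' := Place.at_const (v := v) (aeval t a)
        have e3' := (((e1.mul eD).mul ((e2.pow 3).sub
          ((((Place.at_const (v := v) (3 : k)).mul eA).mul eA').mul e2))).sub
          ((e1.pow 2).mul (eA.pow 3))).sub ((eD.pow 2).mul (eA'.pow 3))
        simpa only [map_ofNat] using e3'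
      have e4 : v.At (0 : Om k) 0 := by
        simpa using Place.at_const (v := v) (0 : k)
      rw [h0] at e3
      exact e3.unique e4
    have hZ' : dsc a b s * dsc a b t / Z ≠ 0 := div_ne_zero hd0 hZ
    have key := transfer h (I := Unit) (fun _ => sO) (fun _ => tO) (fun _ => Zf)
      (fun _ => aeval τ X') (fun _ => aeval τ Y') (fun _ => hWf) (fun _ => hDs0) (fun _ => hZf0)
      (fun _ => hDf) c₀ c₁ (psi A B a b s t Z Xi Th)
      (psi A B a b s t (dsc a b s * dsc a b t / Z) Xi Th)
      (fun v hv => ⟨fun _ => psi A B a b s t Z Xi Th, fun _ =>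
        PV.fin s t Z Xi Th (Place.at_const s) (Place.at_const t) (hZ0 v hv)
          (hval v (hc0 v hv).1).1 (hval v (hc0 v hv).1).2.1 hZ hs ht, by simp⟩)
      (fun v hv => ⟨fun _ => psi A B a b s t (dsc a b s * dsc a b t / Z) Xi Th, fun _ =>
        PV.fin s t (dsc a b s * dsc a b t / Z) Xi Th (Place.at_const s) (Place.at_const t)
          (hZ1 v hv) (hval v (hc1 v hv).1).1 (hval v (hc1 v hv).1).2.1 hZ' hs ht, by simp⟩)
    have hk := psi_kappa h hs ht hZ hW
    rw [← key] at hk
    exact caseII_two _ hk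

end Pool.Agent.VK3
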