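import Pool.Agent.VK3.Sym
import Pool.Agent.ZIso.Krull

/-!
# Rational curves through a point
-/

set_option autoImplicit false

noncomputable section

namespace Pool.Agent.VK3

open Pool.Agent.ZCyc Polynomial

universe u

variable {k : Type u} [Field k] [IsAlgClosed k] [CharZero k]

/-- The polynomial with constant coefficient `c` and the other coefficients `v`. -/
private def kp {R : Type*} [CommRing R] (c : R) (n : ℕ) (v : Fin n → R) : R[X] :=
  C c + ∑ i : Fin n, C (v i) * X ^ (i.val + 1)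

private theorem kp_natDegree {R : Type*} [CommRing R] (c : R) (n : ℕ) (v : Fin n → R) :
    (kp c n v).natDegree ≤ n := by
  unfold kp
  refine natDegree_add_le_of_degree_le (by simp) ?_
  refine natDegree_sum_le_of_forall_le _ _ fun i _ => ?_
  exact (natDegree_C_mul_X_pow_le _ _).trans i.2

private theorem kp_eval {R : Type*} [CommRing R] (c : R) (n : ℕ) (v : Fin n → R) :
    (kp c n v).eval 0 = c := by
  unfold kp
  rw [eval_add, eval_C, eval_finsetSum]
  simp

private theorem kp_map {R S : Type*} [CommRing R] [CommRing S] (f : R →+* S) (c : R) (n : ℕ)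
    (v : Fin n → R) : (kp c n v).map f = kp (f c) n fun i => f (v i) := by
  unfold kp
  rw [Polynomial.map_add, Polynomial.map_sum, map_C]
  simp

private theorem kp_zero {R : Type*} [CommRing R] (c : R) (n : ℕ) : kp c n 0 = C c := by
  unfold kp
  simp

private theorem kp_const {R : Type*} [CommRing R] {c c' : R} {n : ℕ} {v : Fin n → R}
    (h : kp c n v = C c') : v = 0 := by
  funext i
  have h1 := congrArg (fun p => p.coeff (i.val + 1)) h
  simp only [kp, coeff_add, coeff_C_succ, finsetSum_coeff, coeff_C_mul, coeff_X_pow] at h1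
  rw [zero_add, Finset.sum_eq_single i] at h1
  · simpa using h1
  · intro j _ hj
    rw [if_neg, mul_zero]
    intro h2
    exact hj (Fin.ext (by omega))
  · intro h2
    exact absurd (Finset.mem_univ _) h2

/-- The difference of both sides of the equation. -/
private def PH (a b d : k[X]) {R : Type*} [CommRing R] [Algebra k R] (E₁ E₂ X' Y' q g : R) : R :=
  (4 * X' ^ 3 - 12 * Sy a E₁ E₂ * X' + 54 * Sy b E₁ E₂ - Y' ^ 2) ^ 2 - 4 * Sy d E₁ E₂ - q * g ^ 2

omit [CharZero k] in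
private theorem PH_map (a b d : k[X]) {R S : Type*} [CommRing R] [Algebra k R] [CommRing S]
    [Algebra k S] (f : R →ₐ[k] S) (E₁ E₂ X' Y' q g : R) : f (PH a b d E₁ E₂ X' Y' q g) =
      PH a b d (f E₁) (f E₂) (f X') (f Y') (f q) (f g) := by
  unfold PH
  simp only [map_sub, map_pow, map_add, map_mul, Sy_map, map_ofNat]

omit [IsAlgClosed k] [CharZero k] in
private theorem natDegree_mul_le' {p q : k[X]} {m n : ℕ} (hp : p.natDegree ≤ m)
    (hq : q.natDegree ≤ n) : (p * q).natDegree ≤ m + n :=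
  natDegree_mul_le.trans (Nat.add_le_add hp hq)

omit [IsAlgClosed k] [CharZero k] in
private theorem natDegree_pow_le' {p : k[X]} {m : ℕ} (hp : p.natDegree ≤ m) (n : ℕ) :
    (p ^ n).natDegree ≤ n * m :=
  natDegree_pow_le.trans (Nat.mul_le_mul_left _ hp)

omit [CharZero k] in
private theorem PH_natDegree {a b d : k[X]} (ha : a.natDegree ≤ 8) (hb : b.natDegree ≤ 12)
    (hd : d.natDegree ≤ 24) {E₁ E₂ X' Y' q g : k[X]} (h1 : E₁.natDegree ≤ 1)
    (h2 : E₂.natDegree ≤ 1) (h3 : X'.natDegree ≤ 4) (h4 : Y'.natDegree ≤ 6) (h5 : q.natDegree ≤ 2)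
    (h6 : g.natDegree ≤ 11) : (PH a b d E₁ E₂ X' Y' q g).natDegree ≤ 24 := by
  have sa := (Sy_natDegree a h1 h2).trans ha
  have sb := (Sy_natDegree b h1 h2).trans hb
  have sd := (Sy_natDegree d h1 h2).trans hd
  have c4 : (4 : k[X]).natDegree ≤ 0 := (natDegree_ofNat 4).le
  have c12 : (12 : k[X]).natDegree ≤ 0 := (natDegree_ofNat 12).le
  have c54 : (54 : k[X]).natDegree ≤ 0 := (natDegree_ofNat 54).le
  have t1 : (4 * X' ^ 3).natDegree ≤ 12 := by
    simpa using natDegree_mul_le' c4 (natDegree_pow_le' h3 3)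
  have t2 : (12 * Sy a E₁ E₂ * X').natDegree ≤ 12 := by
    simpa using natDegree_mul_le' (natDegree_mul_le' c12 sa) h3
  have t3 : (54 * Sy b E₁ E₂).natDegree ≤ 12 := by
    simpa using natDegree_mul_le' c54 sb
  have t4 : (Y' ^ 2).natDegree ≤ 12 := by
    simpa using natDegree_pow_le' h4 2
  have t5 : (4 * X' ^ 3 - 12 * Sy a E₁ E₂ * X' + 54 * Sy b E₁ E₂ - Y' ^ 2).natDegree ≤ 12 :=
    natDegree_sub_le_of_le (natDegree_add_le_of_le (natDegree_sub_le_of_le t1 t2) t3) t4 |>.trans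
      (by simp)
  have t6 : ((4 * X' ^ 3 - 12 * Sy a E₁ E₂ * X' + 54 * Sy b E₁ E₂ - Y' ^ 2) ^ 2).natDegree ≤
      24 := by
    simpa using natDegree_pow_le' t5 2
  have t7 : (4 * Sy d E₁ E₂).natDegree ≤ 24 := by
    simpa using natDegree_mul_le' c4 sd
  have t8 : (q * g ^ 2).natDegree ≤ 24 := by
    simpa using natDegree_mul_le' h5 (natDegree_pow_le' h6 2)
  unfold PH
  exact (natDegree_sub_le_of_le (natDegree_sub_le_of_le t6 t7) t8).trans (by simp)

/-- 25 unknown coefficients (2 + 4 + 6 + 2 + 11) and 24 equations, `ZIso.exists_ne_zero` -/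
theorem krull {a b d : k[X]} (ha : a.natDegree ≤ 8) (hb : b.natDegree ≤ 12)
    (hd : d.natDegree ≤ 24) {e₁ e₂ Xi Th T : k} (hT : T ≠ 0)
    (h : T ^ 2 = (4 * Xi ^ 3 - 12 * Sy a e₁ e₂ * Xi + 54 * Sy b e₁ e₂ - Th ^ 2) ^ 2 -
      4 * Sy d e₁ e₂) :
    ∃ E₁ E₂ X' Y' q g : k[X], E₁.natDegree ≤ 1 ∧ E₂.natDegree ≤ 1 ∧ q.natDegree ≤ 2 ∧
      E₁.eval 0 = e₁ ∧ E₂.eval 0 = e₂ ∧ X'.eval 0 = Xi ∧ Y'.eval 0 = Th ∧ q.eval 0 = 1 ∧
      g.eval 0 = T ∧
      (4 * X' ^ 3 - 12 * Sy a E₁ E₂ * X' + 54 * Sy b E₁ E₂ - Y' ^ 2) ^ 2 - 4 * Sy d E₁ E₂ =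
        q * g ^ 2 ∧
      ¬ (E₁ = C e₁ ∧ E₂ = C e₂ ∧ X' = C Xi ∧ Y' = C Th) := by
  classical
  let ι : Type := (Fin 1 ⊕ Fin 1) ⊕ (Fin 4 ⊕ Fin 6) ⊕ (Fin 2 ⊕ Fin 11)
  let R := MvPolynomial ι k
  let e1 : R[X] := kp (MvPolynomial.C e₁) 1 fun i => MvPolynomial.X (Sum.inl (Sum.inl i))
  let e2 : R[X] := kp (MvPolynomial.C e₂) 1 fun i => MvPolynomial.X (Sum.inl (Sum.inr i))
  let x1 : R[X] := kp (MvPolynomial.C Xi) 4 fun i => MvPolynomial.X (Sum.inr (Sum.inl (Sum.inl i)))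
  let y1 : R[X] := kp (MvPolynomial.C Th) 6 fun i => MvPolynomial.X (Sum.inr (Sum.inl (Sum.inr i)))
  let q1 : R[X] := kp (MvPolynomial.C 1) 2 fun i => MvPolynomial.X (Sum.inr (Sum.inr (Sum.inl i)))
  let g1 : R[X] := kp (MvPolynomial.C T) 11 fun i => MvPolynomial.X (Sum.inr (Sum.inr (Sum.inr i)))
  let F : R[X] := PH a b d e1 e2 x1 y1 q1 g1
  -- the values of the general polynomial
  have hPH0 : PH a b d e₁ e₂ Xi Th 1 T = 0 := by
    unfold PH
    rw [← h]
    ring
  have key : ∀ x : ι → k, F.map (MvPolynomial.aeval x : R →ₐ[k] k).toRingHom =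
      PH a b d (kp e₁ 1 fun i => x (Sum.inl (Sum.inl i))) (kp e₂ 1 fun i => x (Sum.inl (Sum.inr i)))
        (kp Xi 4 fun i => x (Sum.inr (Sum.inl (Sum.inl i))))
        (kp Th 6 fun i => x (Sum.inr (Sum.inl (Sum.inr i))))
        (kp 1 2 fun i => x (Sum.inr (Sum.inr (Sum.inl i))))
        (kp T 11 fun i => x (Sum.inr (Sum.inr (Sum.inr i)))) := by
    intro x
    have h1 := PH_map a b d (Polynomial.mapAlgHom (MvPolynomial.aeval x : R →ₐ[k] k))
      e1 e2 x1 y1 q1 g1
    have h2 : ∀ (c : k) (n : ℕ) (v : Fin n → ι), (kp (MvPolynomial.C c : R) n fun i =>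
        MvPolynomial.X (v i)).map (MvPolynomial.aeval x : R →ₐ[k] k).toRingHom =
        kp c n fun i => x (v i) := by
      intro c n v
      rw [kp_map]
      simp
    have h3 : ∀ p : R[X], Polynomial.mapAlgHom (MvPolynomial.aeval x : R →ₐ[k] k) p =
        p.map (MvPolynomial.aeval x : R →ₐ[k] k).toRingHom := fun p => rfl
    rw [h3, h3, h3, h3, h3, h3, h3] at h1
    rw [show F = PH a b d e1 e2 x1 y1 q1 g1 from rfl, h1]
    simp only [e1, e2, x1, y1, q1, g1, h2]
  obtain ⟨x, hx0, hx⟩ := Pool.Agent.ZIso.exists_ne_zero (K := k) (ι := ι) (κ := Fin 24)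
    (by simp [ι]) (fun j => F.coeff (j.val + 1)) (fun j => by
      have h1 := congrArg (fun p => p.coeff (j.val + 1)) (key 0)
      simp only [coeff_map] at h1
      have h2 : ∀ (c : k) (n : ℕ), (kp c n fun _ => (0 : ι → k) (Sum.inl (Sum.inl 0))) = C c := by
        intro c n
        exact kp_zero c n
      have h3 : (MvPolynomial.aeval (0 : ι → k) : R →ₐ[k] k).toRingHom (F.coeff (j.val + 1)) =
          MvPolynomial.eval (0 : ι → k) (F.coeff (j.val + 1)) := by
        show MvPolynomial.aeval (0 : ι → k) (F.coeff (j.val + 1)) = _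
        rw [MvPolynomial.aeval_eq_eval]
      rw [← h3, h1]
      have h4 := PH_map a b d (Algebra.ofId k k[X]) e₁ e₂ Xi Th 1 T
      rw [hPH0, map_zero] at h4
      have h5 : ∀ c : k, Algebra.ofId k k[X] c = C c := fun c => rfl
      have h6 : PH a b d (kp e₁ 1 fun _ => (0 : k)) (kp e₂ 1 fun _ => 0) (kp Xi 4 fun _ => 0)
          (kp Th 6 fun _ => 0) (kp 1 2 fun _ => 0) (kp T 11 fun _ => 0) = (0 : k[X]) := by
        have h7 : ∀ (c : k) (n : ℕ), (kp c n fun _ => (0 : k)) = C c := fun c n => kp_zero c n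
        rw [h7, h7, h7, h7, h7, h7, h4]
        simp only [h5]
      show (PH a b d (kp e₁ 1 fun _ => (0 : k)) (kp e₂ 1 fun _ => 0) (kp Xi 4 fun _ => 0)
          (kp Th 6 fun _ => 0) (kp 1 2 fun _ => 0) (kp T 11 fun _ => 0)).coeff (j.val + 1) = 0
      rw [h6, coeff_zero])
  set E₁ : k[X] := kp e₁ 1 fun i => x (Sum.inl (Sum.inl i)) with hE₁
  set E₂ : k[X] := kp e₂ 1 fun i => x (Sum.inl (Sum.inr i)) with hE₂
  set X' : k[X] := kp Xi 4 fun i => x (Sum.inr (Sum.inl (Sum.inl i))) with hX'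
  set Y' : k[X] := kp Th 6 fun i => x (Sum.inr (Sum.inl (Sum.inr i))) with hY'
  set q : k[X] := kp 1 2 fun i => x (Sum.inr (Sum.inr (Sum.inl i))) with hq
  set g : k[X] := kp T 11 fun i => x (Sum.inr (Sum.inr (Sum.inr i))) with hg
  have hG : PH a b d E₁ E₂ X' Y' q g = 0 := by
    have hdeg : (PH a b d E₁ E₂ X' Y' q g).natDegree ≤ 24 :=
      PH_natDegree ha hb hd (kp_natDegree _ _ _) (kp_natDegree _ _ _) (kp_natDegree _ _ _)
        (kp_natDegree _ _ _) (kp_natDegree _ _ _) (kp_natDegree _ _ _)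
    have hcoef : ∀ j < 24, (PH a b d E₁ E₂ X' Y' q g).coeff (j + 1) = 0 := by
      intro j hj
      have h1 := hx ⟨j, hj⟩
      rw [← key x, coeff_map]
      show MvPolynomial.aeval x (F.coeff (j + 1)) = 0
      rw [MvPolynomial.aeval_eq_eval]
      exact h1
    have hzero : (PH a b d E₁ E₂ X' Y' q g).eval 0 = 0 := by
      have h1 := PH_map a b d (Polynomial.aeval (0 : k)) E₁ E₂ X' Y' q g
      simp only [coe_aeval_eq_eval] at h1
      rw [h1, kp_eval, kp_eval, kp_eval, kp_eval, kp_eval, kp_eval]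
      exact hPH0
    ext n
    rw [coeff_zero]
    rcases n with _ | n
    · rw [coeff_zero_eq_eval_zero]
      exact hzero
    · by_cases hn : n < 24
      · exact hcoef n hn
      · exact coeff_eq_zero_of_natDegree_lt (by omega)
  refine ⟨E₁, E₂, X', Y', q, g, kp_natDegree _ _ _, kp_natDegree _ _ _, kp_natDegree _ _ _,
    kp_eval _ _ _, kp_eval _ _ _, kp_eval _ _ _, kp_eval _ _ _, kp_eval _ _ _, kp_eval _ _ _,
    sub_eq_zero.1 hG, ?_⟩
  rintro ⟨h1, h2, h3, h4⟩
  -- the product `q * g ^ 2` is the constant `T ^ 2`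
  have h5 : q * g ^ 2 = C (T ^ 2) := by
    have h6 : PH a b d E₁ E₂ X' Y' q g = PH a b d (C e₁) (C e₂) (C Xi) (C Th) q g := by
      rw [h1, h2, h3, h4]
    have h7 := PH_map a b d (Algebra.ofId k k[X]) e₁ e₂ Xi Th 1 T
    rw [hPH0, map_zero] at h7
    have h8 : ∀ c : k, Algebra.ofId k k[X] c = C c := fun c => rfl
    simp only [h8] at h7
    rw [hG] at h6
    unfold PH at h6 h7
    rw [C_pow]
    rw [map_one] at h7
    linear_combination h6 - h7
  have hT2 : T ^ 2 ≠ 0 := pow_ne_zero 2 hT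
  have h6 : q * g ^ 2 ≠ 0 := by
    rw [h5]
    exact C_ne_zero.2 hT2
  have hq0 : q ≠ 0 := fun h => h6 (by rw [h, zero_mul])
  have hg0 : g ≠ 0 := fun h => h6 (by rw [h]; ring)
  have h7 : q.natDegree + 2 * g.natDegree = 0 := by
    have h8 := congrArg natDegree h5
    rw [natDegree_mul hq0 (pow_ne_zero 2 hg0), natDegree_pow, natDegree_C] at h8
    exact h8
  have h8 : q = C (q.coeff 0) := eq_C_of_natDegree_eq_zero (by omega)
  have h9 : g = C (g.coeff 0) := eq_C_of_natDegree_eq_zero (by omega)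
  apply hx0
  have k1 := kp_const h1
  have k2 := kp_const h2
  have k3 := kp_const h3
  have k4 := kp_const h4
  have k5 := kp_const (hq ▸ h8)
  have k6 := kp_const (hg ▸ h9)
  funext i
  rcases i with (i | i) | (i | i) | (i | i)
  · exact congrFun k1 i
  · exact congrFun k2 i
  · exact congrFun k3 i
  · exact congrFun k4 i
  · exact congrFun k5 i
  · exact congrFun k6 i

end Pool.Agent.VK3
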