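import Pool.Agent.VK3.CLBasic

/-!
# Singular fibres
-/

set_option autoImplicit false

noncomputable section

namespace Pool.Agent.VK3

open Pool.Agent.ZCyc Polynomial

universe u

variable {k : Type u} [Field k] [IsAlgClosed k] [CharZero k] {A B : MvPolynomial (Fin 2) k}
  {a b : k[X]}

/-- the constant point -/
private def cpt {k : Type u} [Field k] : Pnt k → Pnt (Om k)
  | none => none
  | some (s, x, y) =>
      some (algebraMap k (Om k) s, algebraMap k (Om k) x, algebraMap k (Om k) y)

omit [IsAlgClosed k] [CharZero k] in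
private theorem ff_const (s x : k) :
    ff a b (algebraMap k (Om k) s) (algebraMap k (Om k) x) =
      algebraMap k (Om k) (ff a b s x) := by
  unfold ff
  rw [aeval_algebraMap_apply, aeval_algebraMap_apply, map_add, map_add, map_mul, map_pow]

omit [IsAlgClosed k] [CharZero k] in
private theorem On_cpt {r : Pnt k} (hr : On a b r) : On a b (cpt r) := by
  rcases r with _ | ⟨s, x, y⟩
  · trivial
  · have h : y ^ 2 = ff a b s x := hr
    change (algebraMap k (Om k) y) ^ 2 = ff a b (algebraMap k (Om k) s) (algebraMap k (Om k) x)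
    rw [ff_const, ← map_pow, h]

omit [IsAlgClosed k] [CharZero k] in
private theorem Val_cpt (v : Place k (Om k)) (r : Pnt k) : Val v (cpt r) r := by
  rcases r with _ | ⟨s, x, y⟩
  · trivial
  · exact ⟨Place.at_const s, Place.at_const x, Place.at_const y⟩

omit [IsAlgClosed k] in
/-- the double root -/
private theorem exists_double {s : k} (hs : dsc a b s = 0) :
    ∃ α : k, aeval s a = -3 * α ^ 2 ∧ aeval s b = 2 * α ^ 3 := by
  unfold dsc at hs
  generalize aeval s a = p at hs ⊢
  generalize aeval s b = q at hs ⊢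
  by_cases hp : p = 0
  · refine ⟨0, by simp [hp], ?_⟩
    rw [hp] at hs
    have hq : q ^ 2 = 0 := by
      have h27 : (27 : k) ≠ 0 := by norm_num
      have : (27 : k) * q ^ 2 = 0 := by linear_combination hs
      exact (mul_eq_zero.1 this).resolve_left h27
    rw [pow_eq_zero_iff (by norm_num)] at hq
    rw [hq]
    ring
  · refine ⟨-3 * q / (2 * p), ?_, ?_⟩
    · have h2 : (2 : k) ≠ 0 := by norm_num
      field_simp
      linear_combination hs
    · have h2 : (2 : k) ≠ 0 := by norm_num
      field_simp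
      linear_combination q * hs

/-- the family of points on the singular fibre -/
private def fam (s α l : k) : Pnt (Om k) :=
  some (algebraMap k (Om k) s,
    (algebraMap k (Om k) l * (1 - 2 * tt k)) ^ 2 - algebraMap k (Om k) (2 * α),
    (algebraMap k (Om k) l * (1 - 2 * tt k)) *
      ((algebraMap k (Om k) l * (1 - 2 * tt k)) ^ 2 - algebraMap k (Om k) (3 * α)))

omit [IsAlgClosed k] [CharZero k] in
private theorem On_fam {s α l : k} (ha : aeval s a = -3 * α ^ 2) (hb : aeval s b = 2 * α ^ 3) :
    On a b (fam s α l) := by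
  change _ ^ 2 = ff a b _ _
  unfold ff
  rw [aeval_algebraMap_apply, aeval_algebraMap_apply, ha, hb]
  simp only [map_mul, map_pow, map_neg, map_ofNat]
  ring

omit [IsAlgClosed k] [CharZero k] in
private theorem Val_fam {v : Place k (Om k)} {s α l c : k} (hv : v.At (tt k) c) :
    Val v (fam s α l) (some (s, (l * (1 - 2 * c)) ^ 2 - 2 * α,
      (l * (1 - 2 * c)) * ((l * (1 - 2 * c)) ^ 2 - 3 * α))) := by
  have h2 : v.At (2 * tt k) (2 * c) := by
    have h := (Place.at_const (v := v) (2 : k)).mul hv
    simpa only [map_ofNat] using h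
  have h1 : v.At (1 - 2 * tt k) (1 - 2 * c) := by
    have h := (Place.at_const (v := v) (1 : k)).sub h2
    simpa only [map_one] using h
  have hl : v.At (algebraMap k (Om k) l * (1 - 2 * tt k)) (l * (1 - 2 * c)) :=
    (Place.at_const l).mul h1
  exact ⟨Place.at_const s, (hl.pow 2).sub (Place.at_const _),
    hl.mul ((hl.pow 2).sub (Place.at_const _))⟩

omit [IsAlgClosed k] [CharZero k] in
private theorem exists_par {s α x y : k} (ha : aeval s a = -3 * α ^ 2)
    (hb : aeval s b = 2 * α ^ 3) (hP : y ^ 2 = ff a b s x) :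
    y = 0 ∨ ∃ l : k, x = l ^ 2 - 2 * α ∧ y = l * (l ^ 2 - 3 * α) := by
  unfold ff at hP
  rw [ha, hb] at hP
  have h1 : y ^ 2 = (x - α) ^ 2 * (x + 2 * α) := by linear_combination hP
  by_cases hx : x = α
  · left
    rw [hx, sub_self] at h1
    have : y ^ 2 = 0 := by linear_combination h1
    exact (pow_eq_zero_iff (by norm_num)).1 this
  · right
    have hx' : x - α ≠ 0 := sub_ne_zero.2 hx
    have h2 : (y / (x - α)) ^ 2 = x + 2 * α := by
      rw [div_pow, h1]
      field_simp
    refine ⟨y / (x - α), by rw [h2]; ring, ?_⟩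
    rw [h2]
    field_simp
    ring

/-- the fibre is `y ² = (x - α) ² (x + 2 α)`, parametrised by `x = l ² - 2 α`,
`y = l (l ² - 3 α)`; move `l` to `-l` -/
theorem sing_left (h : Deh A B a b) {s x y : k} (hs : dsc a b s = 0) (hP : y ^ 2 = ff a b s x)
    {r : Pnt k} (hr : On a b r) :
    c2 A B (some (s, x, y)) r = c2 A B (some (s, x, -y)) r := by
  obtain ⟨α, ha, hb⟩ := exists_double hs
  rcases exists_par ha hb hP with h0 | ⟨l, hx, hy⟩
  · rw [h0, neg_zero]
  · refine bridge h (I := Unit) (fun _ => 1) (fun _ => fam s α l) (fun _ => cpt r)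
      (fun _ => On_fam ha hb) (fun _ => On_cpt hr) 0 1 _ _ ?_ ?_
    · intro v hv
      refine ⟨fun _ => some (s, x, y), fun _ => r, fun _ => ?_, fun _ => Val_cpt v r, ?_⟩
      · have h1 := Val_fam (s := s) (α := α) (l := l) hv
        simp only [mul_zero, sub_zero, mul_one] at h1
        rw [hx, hy]
        exact h1
      · simp
    · intro v hv
      refine ⟨fun _ => some (s, x, -y), fun _ => r, fun _ => ?_, fun _ => Val_cpt v r, ?_⟩
      · have h1 := Val_fam (s := s) (α := α) (l := l) hv
        have e1 : (l * (1 - 2 * 1)) ^ 2 - 2 * α = x := by rw [hx]; ring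
        have e2 : (l * (1 - 2 * 1)) * ((l * (1 - 2 * 1)) ^ 2 - 3 * α) = -y := by rw [hy]; ring
        rw [e1, e2] at h1
        exact h1
      · simp

theorem sing_right (h : Deh A B a b) {s x y : k} (hs : dsc a b s = 0) (hP : y ^ 2 = ff a b s x)
    {r : Pnt k} (hr : On a b r) :
    c2 A B r (some (s, x, y)) = c2 A B r (some (s, x, -y)) := by
  obtain ⟨α, ha, hb⟩ := exists_double hs
  rcases exists_par ha hb hP with h0 | ⟨l, hx, hy⟩
  · rw [h0, neg_zero]
  · refine bridge h (I := Unit) (fun _ => 1) (fun _ => cpt r) (fun _ => fam s α l)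
      (fun _ => On_cpt hr) (fun _ => On_fam ha hb) 0 1 _ _ ?_ ?_
    · intro v hv
      refine ⟨fun _ => r, fun _ => some (s, x, y), fun _ => Val_cpt v r, fun _ => ?_, ?_⟩
      · have h1 := Val_fam (s := s) (α := α) (l := l) hv
        simp only [mul_zero, sub_zero, mul_one] at h1
        rw [hx, hy]
        exact h1
      · simp
    · intro v hv
      refine ⟨fun _ => r, fun _ => some (s, x, -y), fun _ => Val_cpt v r, fun _ => ?_, ?_⟩
      · have h1 := Val_fam (s := s) (α := α) (l := l) hv
        have e1 : (l * (1 - 2 * 1)) ^ 2 - 2 * α = x := by rw [hx]; ring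
        have e2 : (l * (1 - 2 * 1)) * ((l * (1 - 2 * 1)) ^ 2 - 3 * α) = -y := by rw [hy]; ring
        rw [e1, e2] at h1
        exact h1
      · simp

omit [IsAlgClosed k] [CharZero k] in
private theorem On_ng' {P : Pnt k} (h : On a b P) : On a b (ng P) := by
  rcases P with _ | ⟨s, x, y⟩
  · trivial
  · have h' : y ^ 2 = ff a b s x := h
    change (-y) ^ 2 = ff a b s x
    rw [neg_sq, h']

theorem CL_sing (h : Deh A B a b) {s x y : k} (hs : dsc a b s = 0) (hP : y ^ 2 = ff a b s x)
    {r : Pnt k} (hr : On a b r) :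
    CL A B (some (s, x, y)) r = 0 ∧ CL A B r (some (s, x, y)) = 0 := by
  have key : CL A B (some (s, x, y)) r = 0 := by
    unfold CL
    have e : (ng (some (s, x, y)) : Pnt k) = some (s, x, -y) := rfl
    rw [e, ← sing_left h hs hP hr, ← sing_left h hs hP (On_ng' hr), ← sing_right h hs hP hr,
      ← sing_right h hs hP (On_ng' hr)]
    abel
  exact ⟨key, by rw [CL_swap, key, neg_zero]⟩

end Pool.Agent.VK3
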