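import Pool.Agent.VK3.CaseI
import Pool.Agent.VK3.CaseII
import Pool.Agent.VK3.Krull
import Pool.Agent.VK3.Sing

/-!
# The vanishing of CL
-/

set_option autoImplicit false

noncomputable section

namespace Pool.Agent.VK3

open Pool.Agent.ZCyc Polynomial

universe u

variable {k : Type u} [Field k] [IsAlgClosed k] [CharZero k] {A B : MvPolynomial (Fin 2) k}
  {a b : k[X]}

omit [IsAlgClosed k] [CharZero k] in
private lemma hom_natDegree {F : MvPolynomial (Fin 2) k} {n : ℕ} (hF : F.IsHomogeneous n) :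
    (MvPolynomial.aeval ![(1 : k[X]), X] F).natDegree ≤ n := by
  rw [MvPolynomial.aeval_def, MvPolynomial.eval₂_eq']
  apply natDegree_sum_le_of_forall_le
  intro d hd
  have h1 : d 0 + d 1 = n := by
    have := hF (MvPolynomial.mem_support_iff.1 hd)
    rw [Finsupp.weight_apply, Finsupp.sum_fintype _ _ (by simp)] at this
    simpa [Fin.sum_univ_two] using this
  rw [Fin.prod_univ_two]
  have h2 : (algebraMap k k[X]) (MvPolynomial.coeff d F) *
      ((![(1 : k[X]), X] : Fin 2 → k[X]) 0 ^ d 0 * (![(1 : k[X]), X] : Fin 2 → k[X]) 1 ^ d 1) =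
      C (MvPolynomial.coeff d F) * X ^ (d 1) := by
    simp
  rw [h2]
  exact (natDegree_C_mul_X_pow_le _ _).trans (by omega)

theorem psi_all (h : Deh A B a b) {δ₁ δ₂ : k} (hδ : δ₁ ≠ δ₂) (hδ₁ : dsc a b δ₁ = 0)
    (hδ₂ : dsc a b δ₂ = 0) {s t Z Xi Th : k} (hs : dsc a b s ≠ 0) (ht : dsc a b t ≠ 0)
    (hZ : Z ≠ 0) (hW : Wd (aeval s a) (aeval s b) (aeval t a) (aeval t b) Z Xi Th) :
    psi A B a b s t Z Xi Th = 0 := by
  have hkap := psi_kappa h hs ht hZ hW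
  obtain ⟨hW', hsum, hiff⟩ := hW.kappa hZ hs ht
  change Z + dsc a b s * dsc a b t / Z = _ at hsum
  change Dst _ _ _ (dsc a b s * dsc a b t / Z) _ = 0 ↔ _ at hiff
  by_cases hD : Dst (aeval s a) (aeval s b) (aeval t a) Z Xi = 0
  · exact psi_zero h hs hD
  by_cases hD' : Dst (aeval t a) (aeval t b) (aeval s a) Z Xi = 0
  · have h1 := psi_zero (A := A) (B := B) (t := t) (Th := Th) h hs (hiff.2 hD')
    rw [h1, add_zero] at hkap
    exact hkap
  by_cases hT : Z - dsc a b s * dsc a b t / Z = 0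
  · rw [← sub_eq_zero.1 hT, ← two_smul ℚ] at hkap
    exact (smul_eq_zero.1 hkap).resolve_left (by norm_num)
  have hda : a.natDegree ≤ 8 := by
    rw [h.ha]; exact hom_natDegree h.hA
  have hdb : b.natDegree ≤ 12 := by
    rw [h.hb]; exact hom_natDegree h.hB
  have hdd : (4 * a ^ 3 + 27 * b ^ 2).natDegree ≤ 24 := by
    have e4 : ((4 : k[X])).natDegree = 0 := natDegree_ofNat 4
    have e27 : ((27 : k[X])).natDegree = 0 := natDegree_ofNat 27
    apply natDegree_add_le_of_degree_le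
    · refine (natDegree_mul_le).trans ?_
      rw [e4, zero_add]
      exact (natDegree_pow_le).trans (by omega)
    · refine (natDegree_mul_le).trans ?_
      rw [e27, zero_add]
      exact (natDegree_pow_le).trans (by omega)
  have hSa : Sy a (s + t) (s * t) = aeval s a * aeval t a := (aeval_mul_aeval a s t).symm
  have hSb : Sy b (s + t) (s * t) = aeval s b * aeval t b := (aeval_mul_aeval b s t).symm
  have hSd : Sy (4 * a ^ 3 + 27 * b ^ 2) (s + t) (s * t) = dsc a b s * dsc a b t := by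
    rw [← aeval_mul_aeval]
    simp [dsc]
  have hkr : (Z - dsc a b s * dsc a b t / Z) ^ 2 =
      (4 * Xi ^ 3 - 12 * Sy a (s + t) (s * t) * Xi + 54 * Sy b (s + t) (s * t) - Th ^ 2) ^ 2 -
      4 * Sy (4 * a ^ 3 + 27 * b ^ 2) (s + t) (s * t) := by
    rw [hSa, hSb, hSd]
    have : 4 * Xi ^ 3 - 12 * (aeval s a * aeval t a) * Xi + 54 * (aeval s b * aeval t b) - Th ^ 2 =
        Z + dsc a b s * dsc a b t / Z := by rw [hsum]; ring
    rw [this]
    field_simp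
    ring
  obtain ⟨E₁, E₂, X', Y', q, g, hE₁, hE₂, hq, h1, h2, h3, h4, h5, h6, h7, h8⟩ :=
    krull hda hdb hdd hT hkr
  by_cases hE : E₁ = C (s + t) ∧ E₂ = C (s * t)
  · refine psi_caseII h hs ht hZ hW hD hD' hE₁ hE₂ hq h1 h2 h3 h4 h5 h6 h7 hE ?_
    rintro ⟨h9, h10⟩
    exact h8 ⟨hE.1, hE.2, h9, h10⟩
  · exact psi_caseI h hs ht hZ hW hD hD' hE₁ hE₂ hq h1 h2 h3 h4 h5 h6 h7 hδ hδ₁ hδ₂ hE

theorem CL_zero (h : Deh A B a b) {δ₁ δ₂ : k} (hδ : δ₁ ≠ δ₂) (hδ₁ : dsc a b δ₁ = 0)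
    (hδ₂ : dsc a b δ₂ = 0) {p q : Pnt k} (hp : On a b p) (hq : On a b q) :
    CL A B p q = 0 := by
  rcases p with _ | ⟨s, x₁, y₁⟩
  · exact CL_none_left q
  rcases q with _ | ⟨t, x₂, y₂⟩
  · exact CL_none_right _
  by_cases hy₁ : y₁ = 0
  · rw [hy₁]; exact CL_y_left _ _ _
  by_cases hy₂ : y₂ = 0
  · rw [hy₂]; exact CL_y_right _ _ _
  by_cases hs : dsc a b s = 0
  · exact (CL_sing h hs hp hq).1
  by_cases ht : dsc a b t = 0
  · exact (CL_sing h ht hq hp).2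
  have hp' : y₁ ^ 2 = ff a b s x₁ := hp
  have hq' : y₂ ^ 2 = ff a b t x₂ := hq
  obtain ⟨u, hu⟩ : ∃ u : k, u = y₂ / y₁ := ⟨_, rfl⟩
  have hu0 : u ≠ 0 := by rw [hu]; exact div_ne_zero hy₂ hy₁
  have huy : u * y₁ = y₂ := by rw [hu]; field_simp
  obtain ⟨n, hn⟩ := IsAlgClosed.exists_pow_nat_eq (u ^ 2) (n := 3) (by norm_num)
  have hn0 : n ≠ 0 := by
    rintro rfl
    apply hu0
    have : u ^ 2 = 0 := by rw [← hn]; ring
    exact pow_eq_zero_iff (two_ne_zero) |>.1 this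
  set Xi : k := (3 * (n ^ 2 * x₁ ^ 2 + n * x₁ * x₂ + x₂ ^ 2) + n ^ 2 * aeval s a + aeval t a) / n
    with hXi
  set Th : k := 3 * u * ((n * x₁ + x₂) * Xi + n * aeval s a * x₂ + aeval t a * x₁) / n ^ 2
    with hTh
  have hL : Lft a b s t (u ^ 2 * dsc a b s) Xi Th u n x₁ x₂ := by
    refine ⟨hn0, hn, rfl, ?_, ?_, ?_⟩
    · change ff a b t x₂ = u ^ 2 * ff a b s x₁
      rw [← hp', ← hq', ← huy]
      ring
    · rw [hXi]; field_simp
    · rw [hTh]; field_simp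
  have h1 := psi_eq (A := A) (B := B) h hL hs
  rw [psi_all h hδ hδ₁ hδ₂ hs ht (mul_ne_zero (pow_ne_zero _ hu0) hs) hL.wd,
    cl5_eq_CL hp', huy] at h1
  exact h1.symm

end Pool.Agent.VK3
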