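import Pool.Agent.VK3.Kappa
import Pool.Agent.VK3.Sym
import Pool.Agent.VK3.Conic

/-!
# Rational curves along which s and t move
-/

set_option autoImplicit false

noncomputable section

namespace Pool.Agent.VK3

open Pool.Agent.ZCyc Polynomial

universe u

variable {k : Type u} [Field k] [IsAlgClosed k] [CharZero k] {A B : MvPolynomial (Fin 2) k}
  {a b : k[X]}

omit [IsAlgClosed k] [CharZero k] in
private lemma ci_tt_transc : Transcendental k (tt k) := by
  have h0 : Transcendental k (RatFunc.X : RatFunc k) := RatFunc.transcendental_X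
  intro hcon
  apply h0
  have h2 : IsAlgebraic k (algebraMap (RatFunc k) (Om k) RatFunc.X) ↔
      IsAlgebraic k (RatFunc.X : RatFunc k) :=
    isAlgebraic_algebraMap_iff (algebraMap (RatFunc k) (Om k)).injective
  exact h2.1 hcon

omit [IsAlgClosed k] [CharZero k] in
/-- the roots of a monic quadratic polynomial over the ring are in the ring -/
private lemma ci_mem {v : Place k (Om k)} {G D z : Om k} (hG : G ∈ v.ring) (hD : D ∈ v.ring)
    (h : z ^ 2 - G * z + D = 0) : z ∈ v.ring := by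
  by_cases hz : z = 0
  · rw [hz]
    exact zero_mem _
  rcases v.ring.mem_or_inv_mem z with h1 | h1
  · exact h1
  · have h2 : z = G - D * z⁻¹ := by
      field_simp
      linear_combination h
    rw [h2]
    exact sub_mem hG (mul_mem hD h1)

omit [IsAlgClosed k] [CharZero k] in
private lemma ci_ne {v : Place k (Om k)} {f : Om k} {c : k} (h : v.At f c) (hc : c ≠ 0) :
    f ≠ 0 := by
  rintro rfl
  apply hc
  have h1 := Place.at_const (v := v) (0 : k)
  rw [map_zero] at h1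
  exact h.unique h1

omit [IsAlgClosed k] [CharZero k] in
private lemma ci_nat (v : Place k (Om k)) (n : ℕ) : v.At (n : Om k) (n : k) := by
  have h := Place.at_const (v := v) (n : k)
  rwa [map_natCast] at h

omit [IsAlgClosed k] [CharZero k] in
private lemma ci_dsc (a b : k[X]) {K : Type*} [Field K] [Algebra k K] (z : K) :
    aeval z (4 * a ^ 3 + 27 * b ^ 2) = dsc a b z := by
  simp only [map_add, map_mul, map_pow, map_ofNat, dsc]

/-- the values for `(s, t)` and `(t, s)` are equal -/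
private lemma ci_symm (h : Deh A B a b) {s t Z Xi Th : k} (hs : dsc a b s ≠ 0)
    (ht : dsc a b t ≠ 0) (hZ : Z ≠ 0)
    (hW : Wd (aeval s a) (aeval s b) (aeval t a) (aeval t b) Z Xi Th) :
    psi A B a b t s Z Xi Th = psi A B a b s t Z Xi Th := by
  have hZ' : dsc a b s * dsc a b t / Z ≠ 0 := div_ne_zero (mul_ne_zero hs ht) hZ
  have h1 := psi_swap h (Xi := Xi) (Th := Th) hs ht hZ'
  have h2 : dsc a b s * dsc a b t / (dsc a b s * dsc a b t / Z) = Z := by
    field_simp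
  rw [h2] at h1
  have h3 := psi_kappa h hs ht hZ hW
  rw [h1]
  exact (eq_neg_of_add_eq_zero_left h3).symm

/-- `exists_root_Sy` gives `τ₁` (which is not `0`), use `conic` and `transfer` with
`s + t = E₁(τ)`, `s t = E₂(τ)`, `Xi = X'(τ)`, `Th = Y'(τ)`, `T = r g(τ)`, `Z = (G + T) / 2`. At the
places above `c₀` the value is `psi s t Z` or `psi t s Z`, which are equal by `psi_kappa` and
`psi_swap`. -/
theorem psi_caseI (h : Deh A B a b) {s t Z Xi Th : k} (hs : dsc a b s ≠ 0) (ht : dsc a b t ≠ 0)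
    (hZ : Z ≠ 0) (hW : Wd (aeval s a) (aeval s b) (aeval t a) (aeval t b) Z Xi Th)
    (hD : Dst (aeval s a) (aeval s b) (aeval t a) Z Xi ≠ 0)
    (hD' : Dst (aeval t a) (aeval t b) (aeval s a) Z Xi ≠ 0)
    {E₁ E₂ X' Y' q g : k[X]} (hE₁ : E₁.natDegree ≤ 1) (hE₂ : E₂.natDegree ≤ 1)
    (hq : q.natDegree ≤ 2) (h1 : E₁.eval 0 = s + t) (h2 : E₂.eval 0 = s * t)
    (h3 : X'.eval 0 = Xi) (h4 : Y'.eval 0 = Th) (h5 : q.eval 0 = 1)
    (h6 : g.eval 0 = Z - dsc a b s * dsc a b t / Z)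
    (h7 : (4 * X' ^ 3 - 12 * Sy a E₁ E₂ * X' + 54 * Sy b E₁ E₂ - Y' ^ 2) ^ 2 -
      4 * Sy (4 * a ^ 3 + 27 * b ^ 2) E₁ E₂ = q * g ^ 2)
    {δ₁ δ₂ : k} (hδ : δ₁ ≠ δ₂) (hδ₁ : dsc a b δ₁ = 0) (hδ₂ : dsc a b δ₂ = 0)
    (hE : ¬ (E₁ = C (s + t) ∧ E₂ = C (s * t))) :
    psi A B a b s t Z Xi Th = 0 := by
  set d : k[X] := 4 * a ^ 3 + 27 * b ^ 2 with hd
  have hd0 : d ≠ 0 := by
    intro h0
    apply hs
    rw [← ci_dsc a b s, ← hd, h0, map_zero]
  have hroot : ∀ δ, dsc a b δ = 0 → d.eval δ = 0 := by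
    intro δ h0
    rw [← ci_dsc a b δ, ← hd, coe_aeval_eq_eval] at h0
    exact h0
  obtain ⟨τ₁, δ, hδ0, hτδ⟩ := exists_root_Sy d hd0 hδ (hroot δ₁ hδ₁) (hroot δ₂ hδ₂) hE₁ hE₂
    (by rw [h1, h2]; exact hE)
  have hδ0' : dsc a b δ = 0 := by
    rw [← ci_dsc a b δ, ← hd, coe_aeval_eq_eval]
    exact hδ0
  have hτ₁ : τ₁ ≠ 0 := by
    intro h0
    rw [h0, h1, h2] at hτδ
    have h3 : (δ - s) * (δ - t) = 0 := by linear_combination hτδ
    rcases mul_eq_zero.1 h3 with h4 | h4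
    · rw [sub_eq_zero.1 h4] at hδ0'
      exact hs hδ0'
    · rw [sub_eq_zero.1 h4] at hδ0'
      exact ht hδ0'
  obtain ⟨τ, r, c₀, c₁, hr, hc₀, hc₁⟩ := conic q hq h5 τ₁ hτ₁
  -- the point `(S, T)`
  obtain ⟨S, hS⟩ : ∃ S : Om k, S ^ 2 - aeval τ E₁ * S + aeval τ E₂ = 0 := by
    have hmon : ((X : (Om k)[X]) ^ 2 - C (aeval τ E₁) * X + C (aeval τ E₂)).degree = 2 := by
      compute_degree!
    obtain ⟨z, hz⟩ := IsAlgClosed.exists_root
      ((X : (Om k)[X]) ^ 2 - C (aeval τ E₁) * X + C (aeval τ E₂)) (by rw [hmon]; norm_num)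
    refine ⟨z, ?_⟩
    have := hz
    rw [IsRoot.def] at this
    simpa using this
  obtain ⟨T, hT⟩ : ∃ T : Om k, T = aeval τ E₁ - S := ⟨_, rfl⟩
  have hST : S + T = aeval τ E₁ := by rw [hT]; ring
  have hSTm : S * T = aeval τ E₂ := by rw [hT]; linear_combination -hS
  have hSy : ∀ c : k[X], aeval τ (Sy c E₁ E₂) = aeval S c * aeval T c := by
    intro c
    rw [aeval_mul_aeval, Sy_map, hST, hSTm]
  have hSy0 : ∀ c : k[X], aeval (0 : k) (Sy c E₁ E₂) = aeval s c * aeval t c := by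
    intro c
    rw [aeval_mul_aeval, Sy_map, coe_aeval_eq_eval, h1, h2]
  -- the function `G`
  obtain ⟨Gp, hGp⟩ : ∃ Gp : k[X], Gp = 4 * X' ^ 3 - 12 * Sy a E₁ E₂ * X' + 54 * Sy b E₁ E₂ -
    Y' ^ 2 := ⟨_, rfl⟩
  rw [← hGp] at h7
  have hG : aeval τ Gp = 4 * (aeval τ X') ^ 3 - 12 * (aeval S a * aeval T a) * aeval τ X' +
      54 * (aeval S b * aeval T b) - (aeval τ Y') ^ 2 := by
    rw [hGp]
    simp only [map_sub, map_add, map_mul, map_pow, map_ofNat, hSy]
  have hG0 : aeval (0 : k) Gp = 4 * Xi ^ 3 - 12 * (aeval s a * aeval t a) * Xi +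
      54 * (aeval s b * aeval t b) - Th ^ 2 := by
    rw [hGp]
    simp only [map_sub, map_add, map_mul, map_pow, map_ofNat, hSy0]
    rw [coe_aeval_eq_eval, h3, h4]
  have hZZ : aeval (0 : k) Gp = Z + dsc a b s * dsc a b t / Z := by
    rw [hG0]
    field_simp
    unfold Wd at hW
    unfold dsc
    linear_combination -hW
  have hT2 : (aeval τ Gp) ^ 2 - 4 * (dsc a b S * dsc a b T) = r ^ 2 * (aeval τ g) ^ 2 := by
    have h8 := congrArg (aeval τ) h7
    simp only [map_sub, map_mul, map_pow, map_ofNat, hSy] at h8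
    rw [ci_dsc, ci_dsc] at h8
    rw [hr]
    linear_combination h8
  obtain ⟨Z₀, hZ₀⟩ : ∃ Z₀ : Om k, Z₀ = (aeval τ Gp + r * aeval τ g) / 2 := ⟨_, rfl⟩
  have hquad : Z₀ ^ 2 - aeval τ Gp * Z₀ + dsc a b S * dsc a b T = 0 := by
    rw [hZ₀]
    field_simp
    linear_combination -hT2
  -- values above `c₀`
  have key : ∀ v : Place k (Om k), v.At (tt k) c₀ →
      ((v.At S s ∧ v.At T t) ∨ (v.At S t ∧ v.At T s)) ∧ v.At (aeval τ X') Xi ∧
        v.At (aeval τ Y') Th ∧ v.At Z₀ Z := by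
    intro v hv
    obtain ⟨hτv, hrv⟩ := hc₀ v hv
    have hev : ∀ p : k[X], v.At (aeval τ p) (p.eval 0) := by
      intro p
      have := hτv.aeval p
      simpa using this
    have hE1v := hev E₁
    have hE2v := hev E₂
    rw [h1] at hE1v
    rw [h2] at hE2v
    obtain ⟨s₁, hs₁⟩ := DCI57.exists_at v (ci_mem hE1v.mem hE2v.mem hS)
    have ht₁ : v.At T (s + t - s₁) := by
      rw [hT]
      exact hE1v.sub hs₁
    have h9 : s₁ * (s + t - s₁) = s * t := by
      have h10 := hs₁.mul ht₁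
      rw [hSTm] at h10
      exact h10.unique hE2v
    have hst : (v.At S s ∧ v.At T t) ∨ (v.At S t ∧ v.At T s) := by
      have h10 : (s₁ - s) * (s₁ - t) = 0 := by linear_combination -h9
      rcases mul_eq_zero.1 h10 with h11 | h11
      · have h12 := sub_eq_zero.1 h11
        rw [h12] at hs₁ ht₁
        rw [add_sub_cancel_left] at ht₁
        exact Or.inl ⟨hs₁, ht₁⟩
      · have h12 := sub_eq_zero.1 h11
        rw [h12] at hs₁ ht₁
        rw [add_sub_cancel_right] at ht₁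
        exact Or.inr ⟨hs₁, ht₁⟩
    have hXv := hev X'
    rw [h3] at hXv
    have hYv := hev Y'
    rw [h4] at hYv
    refine ⟨hst, hXv, hYv, ?_⟩
    have hGv := hev Gp
    rw [← coe_aeval_eq_eval, hZZ] at hGv
    have hgv := hev g
    rw [h6] at hgv
    have h2v := ci_nat v 2
    have h20 : ((2 : ℕ) : k) ≠ 0 := by
      rw [Nat.cast_ne_zero]
      norm_num
    have h13 := (hGv.add (hrv.mul hgv)).div h2v h20
    rw [hZ₀]
    have e1 : (Z + dsc a b s * dsc a b t / Z + 1 * (Z - dsc a b s * dsc a b t / Z)) /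
        ((2 : ℕ) : k) = Z := by
      push_cast
      ring
    have e2 : ((2 : ℕ) : Om k) = 2 := by norm_num
    rw [e1, e2] at h13
    exact h13
  have hdv : ∀ (v : Place k (Om k)) (f : Om k) (c : k), v.At f c →
      v.At (dsc a b f) (dsc a b c) := by
    intro v f c hf
    rw [← ci_dsc, ← ci_dsc]
    have := hf.aeval (4 * a ^ 3 + 27 * b ^ 2)
    rw [coe_aeval_eq_eval]
    exact this
  have hDv : ∀ (v : Place k (Om k)) (f f' : Om k) (c c' : k), v.At f c → v.At f' c' →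
      v.At (aeval τ X') Xi → v.At Z₀ Z →
      v.At (Dst (aeval f a) (aeval f b) (aeval f' a) Z₀ (aeval τ X'))
        (Dst (aeval c a) (aeval c b) (aeval c' a) Z Xi) := by
    intro v f f' c c' hf hf' hX hZv
    have hfa : v.At (aeval f a) (aeval c a) := by
      rw [coe_aeval_eq_eval]
      exact hf.aeval a
    have hfb : v.At (aeval f b) (aeval c b) := by
      rw [coe_aeval_eq_eval]
      exact hf.aeval b
    have hfa' : v.At (aeval f' a) (aeval c' a) := by
      rw [coe_aeval_eq_eval]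
      exact hf'.aeval a
    have n4 := ci_nat v 4
    have n27 := ci_nat v 27
    have n3 := ci_nat v 3
    have hDD := (n4.mul (hfa.pow 3)).add (n27.mul (hfb.pow 2))
    have h14 := (((hZv.mul hDD).mul ((hX.pow 3).sub (((n3.mul hfa).mul hfa').mul hX))).sub
      ((hZv.pow 2).mul (hfa.pow 3))).sub ((hDD.pow 2).mul (hfa'.pow 3))
    have m4 : ((4 : ℕ) : Om k) = 4 := by norm_num
    have m27 : ((27 : ℕ) : Om k) = 27 := by norm_num
    have m3 : ((3 : ℕ) : Om k) = 3 := by norm_num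
    have l4 : ((4 : ℕ) : k) = 4 := by norm_num
    have l27 : ((27 : ℕ) : k) = 27 := by norm_num
    have l3 : ((3 : ℕ) : k) = 3 := by norm_num
    rw [m4, m27, m3, l4, l27, l3] at h14
    unfold Dst
    exact h14
  obtain ⟨v₀, hv₀⟩ := exists_place (ci_tt_transc (k := k)) c₀
  obtain ⟨hst₀, hX₀, hY₀, hZv₀⟩ := key v₀ hv₀
  have hne : dsc a b S ≠ 0 ∧ Dst (aeval S a) (aeval S b) (aeval T a) Z₀ (aeval τ X') ≠ 0 := by
    rcases hst₀ with ⟨h15, h16⟩ | ⟨h15, h16⟩
    · exact ⟨ci_ne (hdv v₀ _ _ h15) hs, ci_ne (hDv v₀ _ _ _ _ h15 h16 hX₀ hZv₀) hD⟩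
    · exact ⟨ci_ne (hdv v₀ _ _ h15) ht, ci_ne (hDv v₀ _ _ _ _ h15 h16 hX₀ hZv₀) hD'⟩
  have hZ₀ne : Z₀ ≠ 0 := ci_ne hZv₀ hZ
  refine transfer h (I := Unit) (fun _ => S) (fun _ => T) (fun _ => Z₀) (fun _ => aeval τ X')
    (fun _ => aeval τ Y') (fun _ => ?_) (fun _ => hne.1) (fun _ => hZ₀ne) (fun _ => hne.2)
    c₀ c₁ _ 0 ?_ ?_
  · unfold Wd
    have h17 := hquad
    rw [hG] at h17
    unfold dsc at h17
    linear_combination h17
  · intro v hv
    obtain ⟨hst, hX, hY, hZv⟩ := key v hv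
    rcases hst with ⟨h15, h16⟩ | ⟨h15, h16⟩
    · exact ⟨fun _ => psi A B a b s t Z Xi Th,
        fun _ => PV.fin s t Z Xi Th h15 h16 hZv hX hY hZ hs ht, by simp⟩
    · exact ⟨fun _ => psi A B a b t s Z Xi Th,
        fun _ => PV.fin t s Z Xi Th h15 h16 hZv hX hY hZ ht hs, by
          simpa using ci_symm h hs ht hZ hW⟩
  · intro v hv
    have hτv := hc₁ v hv
    have hE1v := hτv.aeval E₁
    have hE2v := hτv.aeval E₂
    obtain ⟨s₁, hs₁⟩ := DCI57.exists_at v (ci_mem hE1v.mem hE2v.mem hS)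
    have ht₁ : v.At T (E₁.eval τ₁ - s₁) := by
      rw [hT]
      exact hE1v.sub hs₁
    have h9 : s₁ * (E₁.eval τ₁ - s₁) = E₂.eval τ₁ := by
      have h10 := hs₁.mul ht₁
      rw [hSTm] at h10
      exact h10.unique hE2v
    refine ⟨fun _ => 0, fun _ => PV.inf s₁ (E₁.eval τ₁ - s₁) hs₁ ht₁ ?_, by simp⟩
    have h10 : (δ - s₁) * (δ - (E₁.eval τ₁ - s₁)) = 0 := by
      linear_combination hτδ + h9
    rcases mul_eq_zero.1 h10 with h11 | h11
    · left
      rw [← sub_eq_zero.1 h11]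
      exact hδ0'
    · right; left
      rw [← sub_eq_zero.1 h11]
      exact hδ0'

end Pool.Agent.VK3
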