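import Pool.Agent.ZCyc.Defs

/-!
# Zero-cycles on the self-product of an elliptic K3 surface: definitions

Let `k` be an algebraically closed field of characteristic `0`, and let `A` and `B` be binary forms
of degrees `8` and `12` over `k`. We consider the surface `X : y ² = x ³ + A(s₀, s₁) x + B(s₀, s₁)` in
the weighted projective space `ℙ(1, 1, 4, 6)` with coordinates `(s₀ : s₁ : x : y)`. The projection
to the line with coordinates `(s₀ : s₁)` is an elliptic fibration; the zero section is contracted
to the point `(0 : 0 : 1 : 1)`.
-/

set_option autoImplicit false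

noncomputable section

namespace Pool.Agent.VK3

open Pool.Agent.ZCyc

universe u

/-- The weights of the coordinates `s₀`, `s₁`, `x`, `y`. -/
def wt : Fin 4 → ℕ := ![1, 1, 4, 6]

/-- Multiplication of a vector of homogeneous coordinates by `c`. The vectors `w` and `scale c w`
(`c ≠ 0`) are coordinates of the same point of `ℙ(1, 1, 4, 6)`. -/
def scale {K : Type*} [Field K] (c : K) (w : Fin 4 → K) : Fin 4 → K := fun i => c ^ wt i * w i

/-- The vector `w` is not zero, and the point of `ℙ(1, 1, 4, 6)` with coordinates `w` lies on the
surface `X : y ² = x ³ + A(s₀, s₁) x + B(s₀, s₁)`. -/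
def OnX {k : Type u} [Field k] (A B : MvPolynomial (Fin 2) k) {K : Type*} [Field K] [Algebra k K]
    (w : Fin 4 → K) : Prop :=
  w ≠ 0 ∧ w 3 ^ 2 =
    w 2 ^ 3 + MvPolynomial.aeval ![w 0, w 1] A * w 2 + MvPolynomial.aeval ![w 0, w 1] B

/-- The algebraic closure of the field `k(t)`. -/
abbrev Om (k : Type u) [Field k] : Type u := AlgebraicClosure (RatFunc k)

/-- The variable `t`. -/
def tt (k : Type u) [Field k] : Om k := algebraMap (RatFunc k) (Om k) RatFunc.X

/-- The point of `ℙ(1, 1, 4, 6)` with coordinates `P` in the algebraic closure of `k(t)` specialises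
at the place `v` to the point with coordinates `p` in `k`: a multiple of `P` is congruent to `p`
modulo the maximal ideal of `v`. -/
def IsValue {k : Type u} [Field k] (v : Place k (Om k)) (P : Fin 4 → Om k) (p : Fin 4 → k) : Prop :=
  ∃ c : Om k, ∀ i, v.Vanishes (scale c P i - algebraMap k (Om k) (p i))

/-- The zero-cycles on `X × X` (finite formal combinations of pairs of vectors of homogeneous
coordinates) which are rationally equivalent to zero, with rational coefficients.

Let `(P i, Q i)`, `i < n`, be a finite family of points of `X × X` with coordinates in the algebraic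
closure of `k(t)` which is stable under the Galois group of `k(t)`. This is the same as an effective
zero-cycle on `X × X` over the field `k(t)`, or a family of effective zero-cycles parametrised by the
line, flat over the line. Its member at the point `t = a` is the sum of the specialisations
`(p i, q i)` of the points of the family at any place `v` above `a`. The space of zero-cycles
rationally equivalent to zero is spanned by the differences between the members of such families
at two points `a` and `b` of the line (Fulton, Intersection theory, Proposition 1.6). (The constant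
families show that it contains the differences of two vectors of coordinates of the same point.) -/
def ratEq {k : Type u} [Field k] (A B : MvPolynomial (Fin 2) k) :
    Submodule ℚ ((Fin 4 → k) × (Fin 4 → k) →₀ ℚ) :=
  Submodule.span ℚ {z | ∃ (n : ℕ) (P Q : Fin n → Fin 4 → Om k) (a b : k) (v w : Place k (Om k))
    (p q p' q' : Fin n → Fin 4 → k),
    (∀ i, OnX A B (P i) ∧ OnX A B (Q i)) ∧
    (∀ g : Om k ≃ₐ[RatFunc k] Om k, ∃ r : Equiv.Perm (Fin n), ∀ i,
      P (r i) = g ∘ P i ∧ Q (r i) = g ∘ Q i) ∧
    v.Vanishes (tt k - algebraMap k (Om k) a) ∧ w.Vanishes (tt k - algebraMap k (Om k) b) ∧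
    (∀ i, p i ≠ 0 ∧ q i ≠ 0 ∧ IsValue v (P i) (p i) ∧ IsValue v (Q i) (q i)) ∧
    (∀ i, p' i ≠ 0 ∧ q' i ≠ 0 ∧ IsValue w (P i) (p' i) ∧ IsValue w (Q i) (q' i)) ∧
    z = ∑ i, (Finsupp.single (p i, q i) 1 - Finsupp.single (p' i, q' i) 1)}

/-- The exterior product of two zero-cycles. -/
def prod {k : Type u} (y z : (Fin 4 → k) →₀ ℚ) : (Fin 4 → k) × (Fin 4 → k) →₀ ℚ :=
  y.sum fun p r => z.sum fun q r' => Finsupp.single (p, q) (r * r')

end Pool.Agent.VK3
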