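import Pool.Agent.VK3.Defs
import Pool.Agent.ZCyc.Places
import Pool.Agent.DCI57.At

/-!
# Auxiliary definitions

Let `a = A(1, s)`, `b = B(1, s)` (`Deh`). The affine points `(1, s, x, y)` of `X` are written as
`some (s, x, y)`, the point `(0, 0, 1, 1)` is `none`.
-/

set_option autoImplicit false

noncomputable section

namespace Pool.Agent.VK3

open Pool.Agent.ZCyc Polynomial

universe u

/-- `a` and `b` are the polynomials `A(1, s)` and `B(1, s)` -/
structure Deh {k : Type u} [Field k] (A B : MvPolynomial (Fin 2) k) (a b : k[X]) : Prop where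
  hA : A.IsHomogeneous 8
  hB : B.IsHomogeneous 12
  ha : a = MvPolynomial.aeval ![(1 : k[X]), X] A
  hb : b = MvPolynomial.aeval ![(1 : k[X]), X] B

/-- affine points and the zero section -/
abbrev Pnt (K : Type*) := Option (K × K × K)

/-- homogeneous coordinates -/
def vec {K : Type*} [Field K] : Pnt K → Fin 4 → K
  | none => ![0, 0, 1, 1]
  | some (s, x, y) => ![1, s, x, y]

/-- the inverse on the fibres -/
def ng {K : Type*} [Field K] : Pnt K → Pnt K
  | none => none
  | some (s, x, y) => some (s, x, -y)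

section

variable {k : Type u} [Field k] (a b : k[X]) {K : Type*} [Field K] [Algebra k K]

/-- the cubic polynomial `x ³ + a(s) x + b(s)` -/
def ff (s x : K) : K := x ^ 3 + aeval s a * x + aeval s b

/-- `4 a(s) ³ + 27 b(s) ²` -/
def dsc (s : K) : K := 4 * aeval s a ^ 3 + 27 * aeval s b ^ 2

/-- the point lies on the surface -/
def On : Pnt K → Prop
  | none => True
  | some (s, x, y) => y ^ 2 = ff a b s x

end

/-- the value of the point `P` at `v` is `p` -/
def Val {k : Type u} [Field k] (v : Place k (Om k)) : Pnt (Om k) → Pnt k → Prop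
  | none, none => True
  | none, some _ => False
  | some (s, x, _), none => s ∈ v.ring ∧ x ∉ v.ring
  | some (s, x, y), some (s', x', y') => v.At s s' ∧ v.At x x' ∧ v.At y y'

section

variable {k : Type u} [Field k] (A B : MvPolynomial (Fin 2) k)

/-- zero-cycles on `X × X` modulo rational equivalence -/
abbrev V : Type u := ((Fin 4 → k) × (Fin 4 → k) →₀ ℚ) ⧸ ratEq A B

/-- the class of a pair of vectors -/
def cv (w w' : Fin 4 → k) : V A B := Submodule.Quotient.mk (Finsupp.single (w, w') 1)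

/-- the class of a pair of points -/
def c2 (p q : Pnt k) : V A B := cv A B (vec p) (vec q)

/-- `{p} × {q} - {q} × {p}`, where `{p} = [p] - [-p]` -/
def CL (p q : Pnt k) : V A B :=
  (c2 A B p q - c2 A B (ng p) q - c2 A B p (ng q) + c2 A B (ng p) (ng q)) -
    (c2 A B q p - c2 A B (ng q) p - c2 A B q (ng p) + c2 A B (ng q) (ng p))

variable [IsAlgClosed k] (a b : k[X])

/-- a square root -/
def sq (c : k) : k := Classical.choose (IsAlgClosed.exists_pow_nat_eq c (n := 2) (by norm_num))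

lemma sq_sq (c : k) : sq c ^ 2 = c :=
  Classical.choose_spec (IsAlgClosed.exists_pow_nat_eq c (n := 2) (by norm_num))

/-- the class `CL` of the pair `(s, x₁, y₁)`, `(t, x₂, u y₁)`, where `y₁` is a square root of
`f_s(x₁)` -/
def cl5 (s t u x₁ x₂ : k) : V A B :=
  CL A B (some (s, x₁, sq (ff a b s x₁))) (some (t, x₂, u * sq (ff a b s x₁)))

end

section alg

variable {K : Type*} [Field K]

/-- `(u, n, x₁, x₂)` is a lift of the point `(Z, Xi, Th)` of the Jacobian fibration -/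
structure Lift (As Bs At Bt Z Xi Th u n x₁ x₂ : K) : Prop where
  hn0 : n ≠ 0
  hn : n ^ 3 = u ^ 2
  hZ : u ^ 2 * (4 * As ^ 3 + 27 * Bs ^ 2) = Z
  hF : x₂ ^ 3 + At * x₂ + Bt = u ^ 2 * (x₁ ^ 3 + As * x₁ + Bs)
  hXi : n * Xi = 3 * (n ^ 2 * x₁ ^ 2 + n * x₁ * x₂ + x₂ ^ 2) + n ^ 2 * As + At
  hTh : n ^ 2 * Th = 3 * u * ((n * x₁ + x₂) * Xi + n * As * x₂ + At * x₁)

/-- the equation of the Jacobian fibration -/
def Wd (As Bs At Bt Z Xi Th : K) : Prop :=
  Z ^ 2 - (4 * Xi ^ 3 - 12 * As * At * Xi + 54 * Bs * Bt - Th ^ 2) * Z +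
    (4 * As ^ 3 + 27 * Bs ^ 2) * (4 * At ^ 3 + 27 * Bt ^ 2) = 0

/-- the function `u ² D_s ² ∏ (Xi - n As - At / n)`, the product over the cube roots `n` of `u ²`,
if `Z = u ² D_s` -/
def Dst (As Bs At Z Xi : K) : K :=
  Z * (4 * As ^ 3 + 27 * Bs ^ 2) * (Xi ^ 3 - 3 * As * At * Xi) - Z ^ 2 * As ^ 3 -
    (4 * As ^ 3 + 27 * Bs ^ 2) ^ 2 * At ^ 3

end alg

section

variable {k : Type u} [Field k] [IsAlgClosed k] (A B : MvPolynomial (Fin 2) k) (a b : k[X])

/-- `(u, n, x₁, x₂)` is a lift of the point `(s, t, Z, Xi, Th)` -/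
abbrev Lft {K : Type*} [Field K] [Algebra k K] (s t Z Xi Th u n x₁ x₂ : K) : Prop :=
  Lift (aeval s a) (aeval s b) (aeval t a) (aeval t b) Z Xi Th u n x₁ x₂

open Classical in
/-- the class of the lifts of the point `(s, t, Z, Xi, Th)` -/
def psi (s t Z Xi Th : k) : V A B :=
  if h : ∃ w : k × k × k × k, Lft a b s t Z Xi Th w.1 w.2.1 w.2.2.1 w.2.2.2 then
    cl5 A B a b s t h.choose.1 h.choose.2.2.1 h.choose.2.2.2 else 0

/-- the value of the function `psi` at the place `v` -/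
inductive PV (v : Place k (Om k)) (s t Z Xi Th : Om k) : V A B → Prop
  | fin (s' t' Z' Xi' Th' : k) : v.At s s' → v.At t t' → v.At Z Z' → v.At Xi Xi' → v.At Th Th' →
      Z' ≠ 0 → dsc a b s' ≠ 0 → dsc a b t' ≠ 0 →
      PV v s t Z Xi Th (psi A B a b s' t' Z' Xi' Th')
  | inf (s' t' : k) : v.At s s' → v.At t t' → (dsc a b s' = 0 ∨ dsc a b t' = 0 ∨ v.At Z 0 ∨
      Z ∉ v.ring ∨ Xi ∉ v.ring ∨ Th ∉ v.ring) → PV v s t Z Xi Th 0

/-- the polynomial with `a(s) a(t) = Sy a (s + t) (s t)` -/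
def Sy (c : k[X]) {R : Type*} [CommRing R] [Algebra k R] (e₁ e₂ : R) : R :=
  algebraMap k R (c.leadingCoeff ^ 2) *
    (c.roots.map fun δ => e₂ - algebraMap k R δ * e₁ + algebraMap k R (δ ^ 2)).prod

end

end Pool.Agent.VK3
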