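import Pool.Agent.VK3.PolyPt

/-!
# The discriminant has two different zeros
-/

set_option autoImplicit false

noncomputable section

namespace Pool.Agent.VK3

open Pool.Agent.ZCyc Polynomial

universe u

variable {k : Type u} [Field k] [IsAlgClosed k] [CharZero k]

omit [IsAlgClosed k] [CharZero k] in
/-- values of forms at multiples of a vector -/
private theorem tz_eval_hom {F : MvPolynomial (Fin 2) k} {m : ℕ} (hF : F.IsHomogeneous m) (c : k)
    (v : Fin 2 → k) :
    MvPolynomial.eval (fun i => c * v i) F = c ^ m * MvPolynomial.eval v F := by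
  rw [MvPolynomial.eval_eq, MvPolynomial.eval_eq, Finset.mul_sum]
  refine Finset.sum_congr rfl fun d hd => ?_
  have h2 : ∏ i ∈ d.support, c ^ d i = c ^ m := by
    rw [Finset.prod_pow_eq_pow_sum, ← hF.degree_eq_sum_deg_support hd]
  simp only [mul_pow, Finset.prod_mul_distrib, h2]
  ring

/-- the restriction of a form to the line `γ + s α` -/
private def tz_line (γ α : Fin 2 → k) (F : MvPolynomial (Fin 2) k) : k[X] :=
  MvPolynomial.aeval (fun i => C (γ i) + C (α i) * X) F

omit [IsAlgClosed k] [CharZero k] in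
private theorem tz_line_eval (γ α : Fin 2 → k) (F : MvPolynomial (Fin 2) k) (s : k) :
    (tz_line γ α F).eval s = MvPolynomial.eval (fun i => γ i + s * α i) F := by
  unfold tz_line
  rw [← Polynomial.coe_aeval_eq_eval, MvPolynomial.comp_aeval_apply, MvPolynomial.aeval_eq_eval]
  congr 2
  funext i
  rw [map_add, map_mul, Polynomial.aeval_C, Polynomial.aeval_C, Polynomial.aeval_X,
    Algebra.algebraMap_self, RingHom.id_apply, RingHom.id_apply, mul_comm]

omit [CharZero k] in
/-- forms which are constant on the line `γ + s α` -/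
private theorem tz_const {F : MvPolynomial (Fin 2) k} {m : ℕ} (hF : F.IsHomogeneous m)
    {γ α : Fin 2 → k} (hαγ : α 0 * γ 1 ≠ α 1 * γ 0)
    (h : tz_line γ α F = C ((tz_line γ α F).eval 0)) :
    F = MvPolynomial.C (MvPolynomial.eval γ F) *
      (MvPolynomial.C (α 0 * γ 1 - α 1 * γ 0)⁻¹ *
        (MvPolynomial.C (α 0) * MvPolynomial.X 1 - MvPolynomial.C (α 1) * MvPolynomial.X 0)) ^ m := by
  set D : k := α 0 * γ 1 - α 1 * γ 0 with hD
  have hD0 : D ≠ 0 := sub_ne_zero.2 hαγ
  have h1 : ∀ s : k, MvPolynomial.eval (fun i => γ i + s * α i) F = MvPolynomial.eval γ F := by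
    intro s
    rw [← tz_line_eval, h, Polynomial.eval_C, tz_line_eval]
    congr 2
    funext i
    simp
  -- the identity for `u ≠ 0`
  have h2 : ∀ w t : k, MvPolynomial.eval (fun i => w * γ i + t * α i) F =
      w ^ m * MvPolynomial.eval γ F := by
    intro w t
    have h3 : ∀ w : k, w ≠ 0 → MvPolynomial.eval (fun i => w * γ i + t * α i) F =
        w ^ m * MvPolynomial.eval γ F := by
      intro w hw
      have h4 : (fun i => w * γ i + t * α i) = fun i => w * (γ i + t / w * α i) := by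
        funext i
        field_simp
      rw [h4, tz_eval_hom hF, h1]
    -- polynomial identity in `w`
    have h5 : (MvPolynomial.aeval (fun i => X * C (γ i) + C (t * α i)) F : k[X]) =
        X ^ m * C (MvPolynomial.eval γ F) := by
      refine Polynomial.eq_of_infinite_eval_eq _ _ ?_
      refine (Set.finite_singleton (0 : k)).infinite_compl.mono fun w hw => ?_
      have hw0 : w ≠ 0 := hw
      show Polynomial.eval w _ = Polynomial.eval w _
      rw [← Polynomial.coe_aeval_eq_eval, MvPolynomial.comp_aeval_apply,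
        MvPolynomial.aeval_eq_eval]
      simp only [map_add, map_mul, Polynomial.aeval_X, Polynomial.aeval_C, map_pow,
        Algebra.algebraMap_self, RingHom.id_apply]
      rw [← h3 w hw0]
    have h6 := congrArg (Polynomial.eval w) h5
    rw [← Polynomial.coe_aeval_eq_eval, MvPolynomial.comp_aeval_apply,
        MvPolynomial.aeval_eq_eval] at h6
    simp only [map_add, map_mul, Polynomial.aeval_X, Polynomial.aeval_C, map_pow,
        Algebra.algebraMap_self, RingHom.id_apply] at h6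
    rw [← h6]
  refine MvPolynomial.funext fun v => ?_
  have h7 : v = fun i => (D⁻¹ * (α 0 * v 1 - α 1 * v 0)) * γ i +
      (D⁻¹ * (v 0 * γ 1 - v 1 * γ 0)) * α i := by
    funext i
    fin_cases i
    · simp only [Fin.zero_eta, Fin.isValue]
      field_simp
      rw [hD]
      ring
    · simp only [Fin.mk_one, Fin.isValue]
      field_simp
      rw [hD]
      ring
  have h8 : MvPolynomial.eval v F =
      (D⁻¹ * (α 0 * v 1 - α 1 * v 0)) ^ m * MvPolynomial.eval γ F := by
    conv_lhs => rw [h7]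
    rw [h2]
  rw [h8]
  simp only [map_mul, map_pow, map_sub, MvPolynomial.eval_C, MvPolynomial.eval_X]
  ring

/-- a form of positive degree has a nontrivial zero -/
private theorem tz_zero {F : MvPolynomial (Fin 2) k} {m : ℕ} (hF : F.IsHomogeneous m)
    (hm : 0 < m) : ∃ α : Fin 2 → k, (∃ i, α i ≠ 0) ∧ MvPolynomial.eval α F = 0 := by
  by_cases h : ∃ s, (tz_line ![1, 0] ![0, 1] F).eval s = 0
  · obtain ⟨s, hs⟩ := h
    rw [tz_line_eval] at hs
    refine ⟨_, ⟨0, ?_⟩, hs⟩
    simp
  · have h1 : (tz_line ![1, 0] ![0, 1] F).degree ≤ 0 := by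
      by_contra h2
      have h2' : 0 < (tz_line ![1, 0] ![0, 1] F).degree := not_le.1 h2
      obtain ⟨s, hs⟩ := IsAlgClosed.exists_root (tz_line ![1, 0] ![0, 1] F) h2'.ne'
      exact h ⟨s, hs⟩
    have h3 := Polynomial.eq_C_of_degree_le_zero h1
    have h4 : tz_line ![1, 0] ![0, 1] F = C ((tz_line ![1, 0] ![0, 1] F).eval 0) := by
      conv_lhs => rw [h3]
      rw [Polynomial.coeff_zero_eq_eval_zero]
    have h5 := tz_const hF (γ := ![1, 0]) (α := ![0, 1]) (by simp) h4
    refine ⟨![0, 1], ⟨1, by simp⟩, ?_⟩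
    rw [h5]
    simp [hm.ne']

/-- If all zeros of the discriminant are proportional to `α`, the polynomials `A(γ + s α)` and
`B(γ + s α)` in `s` are constant by `poly_disc`, so that `A` and `B` are divisible by the powers
`l ⁸`, `l ¹²` of a linear form. -/
theorem two_zeros {A B : MvPolynomial (Fin 2) k} (hA : A.IsHomogeneous 8)
    (hB : B.IsHomogeneous 12) (hΔ : 4 * A ^ 3 + 27 * B ^ 2 ≠ 0)
    (hmin : ∀ l : MvPolynomial (Fin 2) k, l.IsHomogeneous 1 → l ^ 4 ∣ A → l ^ 6 ∣ B → l = 0) :
    ∃ α β : Fin 2 → k, α 0 * β 1 ≠ α 1 * β 0 ∧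
      MvPolynomial.eval α (4 * A ^ 3 + 27 * B ^ 2) = 0 ∧
      MvPolynomial.eval β (4 * A ^ 3 + 27 * B ^ 2) = 0 := by
  have hhom : (4 * A ^ 3 + 27 * B ^ 2).IsHomogeneous 24 := by
    have h1 : (4 * A ^ 3).IsHomogeneous 24 := by
      have h2 := (hA.pow 3).C_mul (4 : k)
      rwa [map_ofNat] at h2
    have h3 : (27 * B ^ 2).IsHomogeneous 24 := by
      have h2 := (hB.pow 2).C_mul (27 : k)
      rwa [map_ofNat] at h2
    exact h1.add h3
  obtain ⟨α, ⟨i, hi⟩, hα⟩ := tz_zero hhom (by norm_num)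
  by_contra hcon
  have hcon' : ∀ β : Fin 2 → k, α 0 * β 1 ≠ α 1 * β 0 →
      MvPolynomial.eval β (4 * A ^ 3 + 27 * B ^ 2) ≠ 0 :=
    fun β h1 h2 => hcon ⟨α, β, h1, hα, h2⟩
  obtain ⟨γ, hγ⟩ : ∃ γ : Fin 2 → k, α 0 * γ 1 ≠ α 1 * γ 0 := by
    fin_cases i
    · exact ⟨![0, 1], by simpa using hi⟩
    · exact ⟨![1, 0], by simpa using fun h => hi h.symm⟩
  have hind : ∀ s : k, α 0 * (γ 1 + s * α 1) ≠ α 1 * (γ 0 + s * α 0) := by
    intro s h
    apply hγ
    linear_combination h
  -- the discriminant is constant on the line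
  have hne : ∀ s, (tz_line γ α (4 * A ^ 3 + 27 * B ^ 2)).eval s ≠ 0 := by
    intro s
    rw [tz_line_eval]
    exact hcon' _ (hind s)
  have hdeg : (tz_line γ α (4 * A ^ 3 + 27 * B ^ 2)).degree ≤ 0 := by
    by_contra h2
    obtain ⟨s, hs⟩ := IsAlgClosed.exists_root _ (not_le.1 h2).ne'
    exact hne s hs
  have hC := Polynomial.eq_C_of_degree_le_zero hdeg
  set c : k := (tz_line γ α (4 * A ^ 3 + 27 * B ^ 2)).coeff 0 with hc
  have hc0 : c ≠ 0 := by
    have h1 := hne 0
    rwa [hC, Polynomial.eval_C] at h1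
  have hAB : 4 * (tz_line γ α A) ^ 3 + 27 * (tz_line γ α B) ^ 2 = C c := by
    rw [← hC]
    simp [tz_line]
  obtain ⟨h1, h2⟩ := poly_disc hc0 hAB
  have h3 := tz_const hA hγ h1
  have h4 := tz_const hB hγ h2
  set l : MvPolynomial (Fin 2) k := MvPolynomial.C (α 0 * γ 1 - α 1 * γ 0)⁻¹ *
        (MvPolynomial.C (α 0) * MvPolynomial.X 1 - MvPolynomial.C (α 1) * MvPolynomial.X 0) with hl
  have hlh : l.IsHomogeneous 1 := by
    refine MvPolynomial.IsHomogeneous.C_mul ?_ _
    exact (MvPolynomial.isHomogeneous_C_mul_X _ _).sub (MvPolynomial.isHomogeneous_C_mul_X _ _)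
  have h5 : l = 0 := by
    refine hmin l hlh ?_ ?_
    · rw [h3]
      exact Dvd.dvd.mul_left (pow_dvd_pow _ (by norm_num)) _
    · rw [h4]
      exact Dvd.dvd.mul_left (pow_dvd_pow _ (by norm_num)) _
  have h6 : MvPolynomial.eval γ l = 1 := by
    rw [hl]
    simp only [map_mul, map_sub, MvPolynomial.eval_C, MvPolynomial.eval_X]
    exact inv_mul_cancel₀ (sub_ne_zero.2 hγ)
  rw [h5] at h6
  simp at h6

end Pool.Agent.VK3
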