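import Pool.Agent.VK3.Transfer

/-!
# The involution kappa
-/

set_option autoImplicit false

noncomputable section

namespace Pool.Agent.VK3

open Pool.Agent.ZCyc Polynomial

universe u

variable {k : Type u} [Field k] [IsAlgClosed k] [CharZero k] {A B : MvPolynomial (Fin 2) k}
  {a b : k[X]}

omit [IsAlgClosed k] [CharZero k] in
private lemma kap_tt_transc : Transcendental k (tt k) := by
  have h0 : Transcendental k (RatFunc.X : RatFunc k) := RatFunc.transcendental_X
  intro hcon
  apply h0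
  have h2 : IsAlgebraic k (algebraMap (RatFunc k) (Om k) RatFunc.X) ↔
      IsAlgebraic k (RatFunc.X : RatFunc k) :=
    isAlgebraic_algebraMap_iff (algebraMap (RatFunc k) (Om k)).injective
  exact h2.1 hcon

omit [IsAlgClosed k] [CharZero k] in
private lemma kap_inv_not_mem {v : Place k (Om k)} {f : Om k} (hf : v.At f 0) (hf0 : f ≠ 0) :
    f⁻¹ ∉ v.ring := by
  rw [Place.at_zero_iff, v.vanishes_iff_or] at hf
  rcases hf with hf | hf
  · exact absurd hf hf0
  · exact hf

omit [IsAlgClosed k] [CharZero k] in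
/-- the roots of a monic quadratic polynomial over the ring are in the ring -/
private lemma kap_mem {v : Place k (Om k)} {G D z : Om k} (hG : G ∈ v.ring) (hD : D ∈ v.ring)
    (h : z ^ 2 - G * z + D = 0) : z ∈ v.ring := by
  by_cases hz : z = 0
  · rw [hz]
    exact zero_mem _
  rcases v.ring.mem_or_inv_mem z with h1 | h1
  · exact h1
  · have h2 : z = G - D * z⁻¹ := by
      field_simp
      linear_combination h
    rw [h2]
    exact sub_mem hG (mul_mem hD h1)

/-- `Z` and `Z' = D_s D_t / Z` are the roots of `Z ² - G Z + D_s D_t`,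
`G = 4 Xi ³ - 12 a(s) a(t) Xi + 54 b(s) b(t) - Th ²`. Keep `s`, `t`, `Xi` fixed and move `Th` to
infinity: `Th = Th₀ + (1 - t) / t` (family with the two members `Z₁`, `Z₂`). -/
theorem psi_kappa (h : Deh A B a b) {s t Z Xi Th : k} (hs : dsc a b s ≠ 0) (ht : dsc a b t ≠ 0)
    (hZ : Z ≠ 0)
    (hW : Wd (aeval s a) (aeval s b) (aeval t a) (aeval t b) Z Xi Th) :
    psi A B a b s t Z Xi Th + psi A B a b s t (dsc a b s * dsc a b t / Z) Xi Th = 0 := by
  set Z' : k := dsc a b s * dsc a b t / Z with hZ'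
  by_cases hDD : Dst (aeval s a) (aeval s b) (aeval t a) Z Xi = 0 ∧
      Dst (aeval s a) (aeval s b) (aeval t a) Z' Xi = 0
  · rw [psi_zero h hs hDD.1, psi_zero h hs hDD.2, add_zero]
  -- the product and the sum of `Z` and `Z'`
  have hprod : Z * Z' = dsc a b s * dsc a b t := by
    rw [hZ']
    field_simp
  set G₀ : k := 4 * Xi ^ 3 - 12 * aeval s a * aeval t a * Xi +
    54 * aeval s b * aeval t b - Th ^ 2 with hG₀'
  have hsum : Z + Z' = G₀ := by
    have h1 : Z * (Z + Z') = Z * G₀ := by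
      rw [hG₀', mul_add, hprod]
      unfold dsc
      unfold Wd at hW
      linear_combination hW
    exact mul_left_cancel₀ hZ h1
  -- the family
  let ι : k →+* Om k := algebraMap k (Om k)
  have hι : Function.Injective ι := (algebraMap k (Om k)).injective
  have htt : tt k ≠ 0 := by
    intro h0
    apply kap_tt_transc (k := k)
    rw [h0]
    exact isAlgebraic_zero
  set H : Om k := ι Th + ((tt k)⁻¹ - 1) with hH
  set G : Om k := ι (G₀ + Th ^ 2) - H ^ 2 with hG
  obtain ⟨Z₁, hZ₁⟩ : ∃ Z₁ : Om k, Z₁ ^ 2 - G * Z₁ + ι (Z * Z') = 0 := by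
    have hmon : ((X : (Om k)[X]) ^ 2 - C G * X + C (ι (Z * Z'))).degree = 2 := by
      compute_degree!
    obtain ⟨r, hr⟩ := IsAlgClosed.exists_root ((X : (Om k)[X]) ^ 2 - C G * X + C (ι (Z * Z')))
      (by rw [hmon]; norm_num)
    refine ⟨r, ?_⟩
    have := hr
    rw [IsRoot.def] at this
    simpa using this
  set Z₂ : Om k := G - Z₁ with hZ₂
  have hZ₂' : Z₂ ^ 2 - G * Z₂ + ι (Z * Z') = 0 := by
    rw [hZ₂]
    linear_combination hZ₁
  have h12 : Z₁ * Z₂ = ι (Z * Z') := by
    rw [hZ₂]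
    linear_combination -hZ₁
  have hZZ : Z * Z' ≠ 0 := by
    rw [hprod]
    exact mul_ne_zero hs ht
  have hZZ' : ι (Z * Z') ≠ 0 := by
    intro h0
    exact hZZ (hι (by rw [h0, map_zero]))
  have hne1 : Z₁ ≠ 0 := by
    intro h0
    rw [h0, zero_mul] at h12
    exact hZZ' h12.symm
  have hne2 : Z₂ ≠ 0 := by
    intro h0
    rw [h0, mul_zero] at h12
    exact hZZ' h12.symm
  -- aeval at constants
  have hev : ∀ (c : k) (p : k[X]), aeval (ι c) p = ι (aeval c p) := fun c p =>
    Polynomial.aeval_algebraMap_apply (Om k) c p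
  have hdsc : ∀ c : k, dsc a b (ι c) = ι (dsc a b c) := by
    intro c
    unfold dsc
    rw [hev, hev]
    simp only [map_add, map_mul, map_pow, map_ofNat]
  have hGG : G = 4 * (ι Xi) ^ 3 - 12 * ι (aeval s a) * ι (aeval t a) * ι Xi +
      54 * ι (aeval s b) * ι (aeval t b) - H ^ 2 := by
    rw [hG, hG₀']
    simp only [map_add, map_mul, map_pow, map_sub, map_ofNat]
    ring
  have hWd : ∀ z : Om k, z ^ 2 - G * z + ι (Z * Z') = 0 →
      Wd (aeval (ι s) a) (aeval (ι s) b) (aeval (ι t) a) (aeval (ι t) b) z (ι Xi) H := by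
    intro z hz
    unfold Wd
    have h1 := hdsc s
    have h2 := hdsc t
    unfold dsc at h1 h2
    rw [h1, h2, ← map_mul]
    change z ^ 2 - _ * z + ι (dsc a b s * dsc a b t) = 0
    rw [← hprod, hev, hev, hev, hev, ← hGG]
    exact hz
  -- `Dst` does not vanish
  have htrans : ∀ z z' : Om k, z + z' = G → z * z' = ι (Z * Z') → z ≠ 0 → ¬ IsAlgebraic k z := by
    intro z z' h1 h2 hz0 halg
    apply kap_tt_transc (k := k)
    have halg' : IsAlgebraic k z' := by
      have h3 : z' = ι (Z * Z') * z⁻¹ := by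
        rw [← h2]
        field_simp
      rw [h3]
      exact (isAlgebraic_algebraMap (Z * Z')).mul halg.inv
    have h4 : IsAlgebraic k (H ^ 2) := by
      have h5 : H ^ 2 = ι (G₀ + Th ^ 2) - (z + z') := by
        rw [h1, hG]
        ring
      rw [h5]
      exact (isAlgebraic_algebraMap (G₀ + Th ^ 2)).sub (halg.add halg')
    have h5 : IsAlgebraic k H := IsAlgebraic.of_pow (by norm_num) h4
    have h6 : IsAlgebraic k ((tt k)⁻¹) := by
      have h7 : (tt k)⁻¹ = H - ι Th + 1 := by
        rw [hH]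
        ring
      rw [h7]
      exact (h5.sub (isAlgebraic_algebraMap Th)).add isAlgebraic_one
    have h7 := h6.inv
    rwa [inv_inv] at h7
  have hDst : ∀ z : Om k, ¬ IsAlgebraic k z →
      Dst (aeval (ι s) a) (aeval (ι s) b) (aeval (ι t) a) z (ι Xi) ≠ 0 := by
    intro z hz h0
    apply hz
    set c₁ : k := (4 * aeval s a ^ 3 + 27 * aeval s b ^ 2) *
      (Xi ^ 3 - 3 * aeval s a * aeval t a * Xi) with hc₁
    set c₂ : k := aeval s a ^ 3 with hc₂
    set c₃ : k := (4 * aeval s a ^ 3 + 27 * aeval s b ^ 2) ^ 2 * aeval t a ^ 3 with hc₃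
    set R : k[X] := C c₁ * X - C c₂ * X ^ 2 - C c₃ with hR
    have hRk : ∀ w : k, R.eval w = Dst (aeval s a) (aeval s b) (aeval t a) w Xi := by
      intro w
      rw [hR, hc₁, hc₂, hc₃]
      unfold Dst
      simp only [eval_sub, eval_mul, eval_C, eval_X, eval_pow]
      ring
    refine ⟨R, ?_, ?_⟩
    · intro hR0
      apply hDD
      rw [← hRk, ← hRk, hR0]
      simp
    · have h2 : aeval z R = Dst (aeval (ι s) a) (aeval (ι s) b) (aeval (ι t) a) z (ι Xi) := by
        rw [hev, hev, hev, hR, hc₁, hc₂, hc₃]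
        unfold Dst
        simp only [map_sub, map_mul, aeval_C, aeval_X, map_pow, map_add, map_ofNat]
        have hιr : ι = algebraMap k (Om k) := rfl
        rw [hιr]
        ring
      rw [h2, h0]
  have hna1 : ¬ IsAlgebraic k Z₁ := htrans Z₁ Z₂ (by rw [hZ₂]; ring) h12 hne1
  have hna2 : ¬ IsAlgebraic k Z₂ := htrans Z₂ Z₁ (by rw [hZ₂]; ring) (by rw [mul_comm]; exact h12)
    hne2
  -- transfer
  symm
  refine transfer h (I := Fin 2) (fun _ => ι s) (fun _ => ι t) ![Z₁, Z₂] (fun _ => ι Xi)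
    (fun _ => H) ?_ ?_ ?_ ?_ 0 1 0 _ ?_ ?_
  · intro i
    fin_cases i
    · exact hWd Z₁ hZ₁
    · exact hWd Z₂ hZ₂'
  · intro i
    rw [hdsc]
    intro h0
    exact hs (hι (by rw [h0, map_zero]))
  · intro i
    fin_cases i
    · exact hne1
    · exact hne2
  · intro i
    fin_cases i
    · exact hDst Z₁ hna1
    · exact hDst Z₂ hna2
  · -- above `0`
    intro v hv
    refine ⟨fun _ => 0, ?_, by simp⟩
    intro i
    refine PV.inf s t (Place.at_const s) (Place.at_const t) ?_
    right; right; right; right; right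
    intro hmem
    apply kap_inv_not_mem hv htt
    have h1 : (tt k)⁻¹ = H - ι Th + ι 1 := by
      rw [hH, map_one]
      ring
    rw [h1]
    exact add_mem (sub_mem hmem (v.const_mem Th)) (v.const_mem 1)
  · -- above `1`
    intro v hv
    have hHv : v.At H Th := by
      have h1 := (Place.at_const (v := v) Th).add ((hv.inv one_ne_zero).sub
        (Place.at_const (v := v) (1 : k)))
      rw [inv_one, sub_self, add_zero, map_one] at h1
      exact h1
    have hGv : v.At G G₀ := by
      have h1 := (Place.at_const (v := v) (G₀ + Th ^ 2)).sub (hHv.pow 2)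
      rw [add_sub_cancel_right] at h1
      exact h1
    have hm1 : Z₁ ∈ v.ring := kap_mem hGv.mem (v.const_mem _) hZ₁
    obtain ⟨z₁, hz₁⟩ := DCI57.exists_at v hm1
    have hz₂ : v.At Z₂ (G₀ - z₁) := hGv.sub hz₁
    have hq : z₁ * (G₀ - z₁) = Z * Z' := by
      have h1 := hz₁.mul hz₂
      rw [h12] at h1
      exact h1.unique (Place.at_const (Z * Z'))
    have hz : z₁ = Z ∨ z₁ = Z' := by
      have h1 : (z₁ - Z) * (z₁ - Z') = 0 := by
        rw [← hsum] at hq
        linear_combination -hq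
      rcases mul_eq_zero.1 h1 with h2 | h2
      · left; exact sub_eq_zero.1 h2
      · right; exact sub_eq_zero.1 h2
    have hZne : Z' ≠ 0 := right_ne_zero_of_mul hZZ
    have key : ∀ z₁ z₂ : k, v.At Z₁ z₁ → v.At Z₂ z₂ → z₁ ≠ 0 → z₂ ≠ 0 →
        ∃ C : Fin 2 → V A B, (∀ i, PV A B a b v (ι s) (ι t) ((![Z₁, Z₂] : Fin 2 → Om k) i)
          (ι Xi) H (C i)) ∧
          ∑ i, C i = psi A B a b s t z₁ Xi Th + psi A B a b s t z₂ Xi Th := by
      intro z₁ z₂ h1 h2 h3 h4
      refine ⟨![psi A B a b s t z₁ Xi Th, psi A B a b s t z₂ Xi Th], ?_, ?_⟩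
      · intro i
        fin_cases i
        · exact PV.fin s t z₁ Xi Th (Place.at_const s) (Place.at_const t) h1
            (Place.at_const Xi) hHv h3 hs ht
        · exact PV.fin s t z₂ Xi Th (Place.at_const s) (Place.at_const t) h2
            (Place.at_const Xi) hHv h4 hs ht
      · rw [Fin.sum_univ_two]
        rfl
    rcases hz with h1 | h1
    · have h2 : G₀ - z₁ = Z' := by rw [h1, ← hsum]; ring
      rw [h1] at hz₁
      rw [h2] at hz₂
      exact key Z Z' hz₁ hz₂ hZ hZne
    · have h2 : G₀ - z₁ = Z := by rw [h1, ← hsum]; ring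
      rw [h1] at hz₁
      rw [h2] at hz₂
      obtain ⟨C, hC1, hC2⟩ := key Z' Z hz₁ hz₂ hZne hZ
      exact ⟨C, hC1, by rw [hC2, add_comm]⟩

end Pool.Agent.VK3
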