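import Pool.Agent.VK3.Value

/-!
# Lines of slope n
-/

set_option autoImplicit false

noncomputable section

namespace Pool.Agent.VK3

open Pool.Agent.ZCyc Polynomial

universe u

section aux

variable {k : Type u} [Field k]

private lemma line_tt_ne (c : k) : tt k ≠ algebraMap k (Om k) c := by
  intro h
  have h1 : (RatFunc.X : RatFunc k) = RatFunc.C c := by
    have h2 : algebraMap (RatFunc k) (Om k) RatFunc.X =
        algebraMap (RatFunc k) (Om k) (RatFunc.C c) := by
      have h3 : algebraMap k (Om k) c = algebraMap (RatFunc k) (Om k) (algebraMap k (RatFunc k) c) :=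
        IsScalarTower.algebraMap_apply _ _ _ _
      rw [RatFunc.algebraMap_eq_C] at h3
      rw [← h3]
      exact h
    exact (algebraMap (RatFunc k) (Om k)).injective h2
  have h4 : Transcendental k (RatFunc.X : RatFunc k) := RatFunc.transcendental_X
  apply h4
  rw [h1, ← RatFunc.algebraMap_eq_C]
  exact isAlgebraic_algebraMap c

private lemma line_inv_at {v : Place k (Om k)} {X : Om k} (hX : X ∉ v.ring) : v.At X⁻¹ 0 := by
  rw [Place.at_zero_iff, v.vanishes_iff_or]
  right
  rwa [inv_inv]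

private lemma line_ne_zero {v : Place k (Om k)} {X : Om k} (hX : X ∉ v.ring) : X ≠ 0 := by
  rintro rfl
  exact hX (zero_mem _)

private lemma line_at_zero (v : Place k (Om k)) : v.At 0 0 := by
  simpa using Place.at_const (v := v) (0 : k)

private lemma line_inf_aux [IsAlgClosed k] {v : Place k (Om k)} {M X e n c₁ c₂ c₀ : Om k}
    {e' n' c₁' c₂' c₀' : k} (hM : M ∉ v.ring) (he : v.At e e') (hn : v.At n n')
    (h1 : v.At c₁ c₁') (h2 : v.At c₂ c₂') (h0 : v.At c₀ c₀')
    (heq : e * n ^ 2 * M * X ^ 2 + (e * n * M ^ 2 + c₁) * X + (M ^ 3 + c₂ * M + c₀) = 0) :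
    X ∉ v.ring := by
  intro hX
  obtain ⟨x, hx⟩ := DCI57.exists_at v hX
  have hN := line_inv_at hM
  have hM0 := line_ne_zero hM
  have e1 : e * n ^ 2 * M⁻¹ ^ 2 * X ^ 2 + (e * n * M⁻¹ + c₁ * M⁻¹ ^ 3) * X +
      (1 + c₂ * M⁻¹ ^ 2 + c₀ * M⁻¹ ^ 3) = 0 := by
    field_simp
    linear_combination heq
  have e2 := ((((he.mul (hn.pow 2)).mul (hN.pow 2)).mul (hx.pow 2)).add
    ((((he.mul hn).mul hN).add (h1.mul (hN.pow 3))).mul hx)).add
    (((Place.at_const (v := v) 1).add (h2.mul (hN.pow 2))).add (h0.mul (hN.pow 3)))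
  rw [map_one, e1] at e2
  have e3 := e2.unique (line_at_zero v)
  simp at e3

private lemma line_fin_aux {v : Place k (Om k)} {α β γ X : Om k} {α' β' γ' : k}
    (hα : v.At α α') (hβ : v.At β β') (hγ : v.At γ γ') (hα' : α' ≠ 0)
    (heq : α * X ^ 2 + β * X + γ = 0) : X ∈ v.ring := by
  by_contra hX
  have hN := line_inv_at hX
  have h0 := line_ne_zero hX
  have e1 : α + β * X⁻¹ + γ * X⁻¹ ^ 2 = 0 := by
    field_simp
    linear_combination heq
  have e2 := (hα.add (hβ.mul hN)).add (hγ.mul (hN.pow 2))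
  rw [e1] at e2
  have e3 := e2.unique (line_at_zero v)
  apply hα'
  simpa using e3

private lemma line_roots {K : Type*} [Field K] [IsAlgClosed K] {α : K} (β γ : K) (hα : α ≠ 0) :
    ∃ X₁ X₂ : K, α * (X₁ + X₂) = -β ∧ α * (X₁ * X₂) = γ := by
  obtain ⟨z, hz⟩ := IsAlgClosed.exists_root (C α * X ^ 2 + C β * X + C γ : K[X])
    (by rw [Polynomial.degree_quadratic hα]; norm_num)
  have hz' : α * z ^ 2 + β * z + γ = 0 := by
    have := hz
    simp only [Polynomial.IsRoot, eval_add, eval_mul, eval_C, eval_pow, eval_X] at this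
    exact this
  refine ⟨z, -β / α - z, ?_, ?_⟩
  · field_simp
    ring
  · have h1 : α * (-β / α - z) = -β - α * z := by
      field_simp
    linear_combination z * h1 - hz'

private lemma line_M_ne (m : k) : algebraMap k (Om k) m + (1 - tt k) / tt k ≠ 0 := by
  have hT0 : tt k ≠ 0 := by
    have := line_tt_ne (k := k) 0
    rwa [map_zero] at this
  intro hM
  have h1 : tt k * algebraMap k (Om k) (m - 1) = -1 := by
    have h2 : tt k * (algebraMap k (Om k) m + (1 - tt k) / tt k) = 0 := by rw [hM, mul_zero]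
    rw [mul_add, mul_div_cancel₀ _ hT0] at h2
    rw [map_sub, map_one]
    linear_combination h2
  have h5 : m - 1 ≠ 0 := by
    intro h6
    rw [h6, map_zero, mul_zero] at h1
    have : (1 : Om k) = 0 := by linear_combination h1
    exact one_ne_zero this
  apply line_tt_ne (k := k) (-(m - 1)⁻¹)
  have h7 : algebraMap k (Om k) (m - 1) ≠ 0 := by
    rw [Ne, map_eq_zero]
    exact h5
  rw [map_neg, map_inv₀]
  field_simp
  linear_combination h1

end aux

variable {k : Type u} [Field k] [IsAlgClosed k] [CharZero k] {A B : MvPolynomial (Fin 2) k}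
  {a b : k[X]}

/-- Let `m = x₂ - n x₁ ≠ 0`. The line `x₂ = n x₁ + m` meets the curve
`F : f_t(x₂) = u ² f_s(x₁)` in the points whose first coordinates are the roots of
`3 n ² m x ² + (3 n m ² + n a(t) - n ³ a(s)) x + (m ³ + a(t) m + b(t) - n ³ b(s))`, and `w` is the
second root. Move the line to infinity: `m = m₀ + (1 - t) / t`. -/
theorem line (h : Deh A B a b) {s t u n x₁ x₂ w : k} (hn0 : n ≠ 0) (hn : n ^ 3 = u ^ 2)
    (hF : ff a b t x₂ = u ^ 2 * ff a b s x₁) (hm : x₂ - n * x₁ ≠ 0)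
    (hw : 3 * n ^ 2 * (x₂ - n * x₁) * (x₁ + w) =
      -(3 * n * (x₂ - n * x₁) ^ 2 + n * aeval t a - n ^ 3 * aeval s a)) :
    cl5 A B a b s t u x₁ x₂ + cl5 A B a b s t u w (n * w + (x₂ - n * x₁)) = 0 := by
  -- constants
  obtain ⟨m₀, hm₀⟩ : ∃ m₀ : k, m₀ = x₂ - n * x₁ := ⟨_, rfl⟩
  have hx2 : x₂ = n * x₁ + m₀ := by rw [hm₀]; ring
  rw [← hm₀] at hm hw ⊢
  subst hx2
  have h3 : (3 : k) ≠ 0 := by norm_num
  -- the product of the roots
  have hprod : 3 * n ^ 2 * m₀ * (x₁ * w) =
      m₀ ^ 3 + aeval t a * m₀ + aeval t b - n ^ 3 * aeval s b := by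
    have hF' : (n * x₁ + m₀) ^ 3 + aeval t a * (n * x₁ + m₀) + aeval t b =
        n ^ 3 * (x₁ ^ 3 + aeval s a * x₁ + aeval s b) := by
      rw [hn]; exact hF
    linear_combination x₁ * hw - hF'
  have hφA : ∀ c : k, aeval (algebraMap k (Om k) c) a = algebraMap k (Om k) (aeval c a) := fun c =>
    Polynomial.aeval_algebraMap_apply (Om k) c a
  have hφB : ∀ c : k, aeval (algebraMap k (Om k) c) b = algebraMap k (Om k) (aeval c b) := fun c =>
    Polynomial.aeval_algebraMap_apply (Om k) c b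
  obtain ⟨φ, hφ⟩ : ∃ φ : k →+* Om k, φ = algebraMap k (Om k) := ⟨_, rfl⟩
  have hat : ∀ (v : Place k (Om k)) (c : k), v.At (φ c) c := by
    intro v c
    rw [hφ]
    exact Place.at_const c
  rw [← hφ] at hφA hφB
  -- the parameter
  obtain ⟨M, hM⟩ : ∃ M : Om k, M = φ m₀ + (1 - tt k) / tt k := ⟨_, rfl⟩
  have hM0 : M ≠ 0 := by
    rw [hM, hφ]
    exact line_M_ne m₀
  have hφn : φ n ≠ 0 := by rw [Ne, map_eq_zero]; exact hn0
  have hφ3 : φ 3 ≠ 0 := by rw [Ne, map_eq_zero]; exact h3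
  -- the quadratic polynomial
  obtain ⟨X₁, X₂, hsum, hpr⟩ := line_roots (α := φ 3 * φ n ^ 2 * M)
    (φ 3 * φ n * M ^ 2 + φ (n * aeval t a - n ^ 3 * aeval s a))
    (M ^ 3 + φ (aeval t a) * M + φ (aeval t b - n ^ 3 * aeval s b))
    (mul_ne_zero (mul_ne_zero hφ3 (pow_ne_zero 2 hφn)) hM0)
  have hX : ∀ i : Fin 2, φ 3 * φ n ^ 2 * M * (![X₁, X₂] i) ^ 2 +
      (φ 3 * φ n * M ^ 2 + φ (n * aeval t a - n ^ 3 * aeval s a)) * (![X₁, X₂] i) +
      (M ^ 3 + φ (aeval t a) * M + φ (aeval t b - n ^ 3 * aeval s b)) = 0 := by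
    intro i
    fin_cases i
    · simp only [Fin.zero_eta, Matrix.cons_val_zero]
      linear_combination X₁ * hsum - hpr
    · simp only [Fin.mk_one, Matrix.cons_val_one, Matrix.cons_val_fin_one]
      linear_combination X₂ * hsum - hpr
  have hFX : ∀ i : Fin 2, ff a b (φ t) (φ n * ![X₁, X₂] i + M) =
      φ u ^ 2 * ff a b (φ s) (![X₁, X₂] i) := by
    intro i
    have h1 := hX i
    have h2 : φ u ^ 2 = φ n ^ 3 := by rw [← map_pow, ← map_pow, hn]
    have h4 : φ 3 = 3 := map_ofNat φ 3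
    unfold ff
    rw [hφA, hφA, hφB, hφB, h2]
    rw [map_sub, map_sub, map_mul, map_mul, map_mul, map_pow, h4] at h1
    linear_combination h1
  have hY : ∀ i : Fin 2, ∃ y : Om k, y ^ 2 = ff a b (φ s) (![X₁, X₂] i) := by
    intro i
    exact IsAlgClosed.exists_pow_nat_eq _ (by norm_num)
  choose Y hY using hY
  have hbr := bridgeCL h (I := Fin 2) (fun i => some (φ s, ![X₁, X₂] i, Y i))
    (fun i => some (φ t, φ n * ![X₁, X₂] i + M, φ u * Y i)) (fun i => hY i)
    (fun i => by
      show (φ u * Y i) ^ 2 = ff a b (φ t) (φ n * ![X₁, X₂] i + M)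
      rw [hFX, mul_pow, hY])
    0 1 0 (cl5 A B a b s t u x₁ (n * x₁ + m₀) + cl5 A B a b s t u w (n * w + m₀)) ?_ ?_
  · exact hbr.symm
  · -- above `0`
    intro v hv
    have hMr : M ∉ v.ring := by
      intro hMr
      have h1 : (1 - tt k) / tt k ∈ v.ring := by
        have : (1 - tt k) / tt k = M - φ m₀ := by rw [hM]; ring
        rw [this]
        exact sub_mem hMr (hat v m₀).mem
      have hT0 : tt k ≠ 0 := by
        have := line_tt_ne (k := k) 0
        rwa [map_zero] at this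
      obtain ⟨c, hc⟩ := DCI57.exists_at v h1
      have h2 := hv.mul hc
      rw [mul_div_cancel₀ _ hT0] at h2
      have h3 := (Place.at_const (v := v) (1 : k)).sub hv
      rw [map_one] at h3
      have h4 := h2.unique h3
      simp at h4
    have hval : ∀ i : Fin 2, ∃ p q : Pnt k, Val v (some (φ s, ![X₁, X₂] i, Y i)) p ∧
        Val v (some (φ t, φ n * ![X₁, X₂] i + M, φ u * Y i)) q ∧ CL A B p q = 0 := by
      intro i
      exact value_inf (hY i) (hFX i) (hat v s) (hat v t)
        (line_inf_aux hMr (hat v 3) (hat v n) (hat v _) (hat v _) (hat v _) (hX i))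
    choose p q hp hq hpq using hval
    exact ⟨p, q, hp, hq, by simp [hpq]⟩
  · -- above `1`
    intro v hv
    have hMv : v.At M m₀ := by
      have h1 := (hat v m₀).add (((Place.at_const (v := v) (1 : k)).sub hv).div hv one_ne_zero)
      rw [map_one, ← hM] at h1
      simpa using h1
    have hα := ((hat v 3).mul ((hat v n).pow 2)).mul hMv
    have hβ := (((hat v 3).mul (hat v n)).mul (hMv.pow 2)).add
      (hat v (n * aeval t a - n ^ 3 * aeval s a))
    have hγ := ((hMv.pow 3).add ((hat v (aeval t a)).mul hMv)).add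
      (hat v (aeval t b - n ^ 3 * aeval s b))
    have hα' : 3 * n ^ 2 * m₀ ≠ 0 := mul_ne_zero (mul_ne_zero h3 (pow_ne_zero 2 hn0)) hm
    obtain ⟨c₁, hc₁⟩ := DCI57.exists_at v (line_fin_aux hα hβ hγ hα' (hX 0))
    obtain ⟨c₂, hc₂⟩ := DCI57.exists_at v (line_fin_aux hα hβ hγ hα' (hX 1))
    simp only [Matrix.cons_val_zero, Matrix.cons_val_one, Matrix.cons_val_fin_one] at hc₁ hc₂
    have hs := (hα.mul (hc₁.add hc₂)).unique (hsum ▸ hβ.neg)
    have hp := (hα.mul (hc₁.mul hc₂)).unique (hpr ▸ hγ)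
    have hs' : c₁ + c₂ = x₁ + w := by
      apply mul_left_cancel₀ hα'
      linear_combination hs - hw
    have hp' : c₁ * c₂ = x₁ * w := by
      apply mul_left_cancel₀ hα'
      linear_combination hp - hprod
    obtain ⟨p₁, q₁, hp₁, hq₁, hpq₁⟩ := value_fin (A := A) (B := B) (hY 0) (hat v s) (hat v t)
      (hat v u) hc₁ (((hat v n).mul hc₁).add hMv)
    obtain ⟨p₂, q₂, hp₂, hq₂, hpq₂⟩ := value_fin (A := A) (B := B) (hY 1) (hat v s) (hat v t)
      (hat v u) hc₂ (((hat v n).mul hc₂).add hMv)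
    refine ⟨![p₁, p₂], ![q₁, q₂], ?_, ?_, ?_⟩
    · intro i
      fin_cases i
      · exact hp₁
      · exact hp₂
    · intro i
      fin_cases i
      · exact hq₁
      · exact hq₂
    · rw [Fin.sum_univ_two]
      simp only [Matrix.cons_val_zero, Matrix.cons_val_one, Matrix.cons_val_fin_one]
      rw [hpq₁, hpq₂]
      have hz : (c₁ - x₁) * (c₁ - w) = 0 := by
        linear_combination c₁ * hs' - hp'
      rcases mul_eq_zero.1 hz with h1 | h1
      · have e1 : c₁ = x₁ := sub_eq_zero.1 h1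
        have e2 : c₂ = w := by
          rw [e1] at hs'
          exact add_left_cancel hs'
        rw [e1, e2]
      · have e1 : c₁ = w := sub_eq_zero.1 h1
        have e2 : c₂ = x₁ := by
          rw [e1] at hs'
          linear_combination hs'
        rw [e1, e2, add_comm]

end Pool.Agent.VK3
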