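import Pool.Agent.VK3.Val
import Pool.Agent.VK3.Shear

/-!
# Change of homogeneous coordinates
-/

set_option autoImplicit false

noncomputable section

namespace Pool.Agent.VK3

open Pool.Agent.ZCyc Polynomial

universe u

variable {k : Type u} [Field k]

/-- the inverse on the fibres -/
def ngv (w : Fin 4 → k) : Fin 4 → k := ![w 0, w 1, w 2, -w 3]

private theorem aeval_scale {K : Type*} [Field K] [Algebra k K] {A : MvPolynomial (Fin 2) k}
    {n : ℕ} (hA : A.IsHomogeneous n) (c x y : K) :
    MvPolynomial.aeval ![c * x, c * y] A = c ^ n * MvPolynomial.aeval ![x, y] A := by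
  rw [MvPolynomial.aeval_def, MvPolynomial.aeval_def, MvPolynomial.eval₂_eq',
    MvPolynomial.eval₂_eq', Finset.mul_sum]
  refine Finset.sum_congr rfl fun d hd => ?_
  have h1 : d.degree = n := by
    have := hA (MvPolynomial.mem_support_iff.1 hd)
    rw [Finsupp.degree_eq_weight_one]
    exact this
  have h2 : d 0 + d 1 = n := by
    rw [← h1, Finsupp.degree_eq_sum, Fin.sum_univ_two]
  simp only [Fin.prod_univ_two, Matrix.cons_val_zero, Matrix.cons_val_one, mul_pow]
  rw [← h2, pow_add]
  ring

private theorem aeval_zero2 {K : Type*} [Field K] [Algebra k K] {A : MvPolynomial (Fin 2) k}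
    {n : ℕ} (hn : n ≠ 0) (hA : A.IsHomogeneous n) :
    MvPolynomial.aeval ![(0 : K), 0] A = 0 := by
  have h := aeval_scale hA (0 : K) 0 0
  rw [zero_pow hn, zero_mul] at h
  simpa using h

private theorem sc {K : Type*} [Field K] (c : K) (w : Fin 4 → K) :
    scale c w = ![c * w 0, c * w 1, c ^ 4 * w 2, c ^ 6 * w 3] := by
  funext i
  fin_cases i <;> simp [scale, wt]

private theorem sc0 {K : Type*} [Field K] (c : K) (w : Fin 4 → K) : scale c w 0 = c * w 0 := by
  simp [scale, wt]

private theorem sc1 {K : Type*} [Field K] (c : K) (w : Fin 4 → K) : scale c w 1 = c * w 1 := by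
  simp [scale, wt]

private theorem sc2 {K : Type*} [Field K] (c : K) (w : Fin 4 → K) :
    scale c w 2 = c ^ 4 * w 2 := by
  simp [scale, wt]

private theorem sc3 {K : Type*} [Field K] (c : K) (w : Fin 4 → K) :
    scale c w 3 = c ^ 6 * w 3 := by
  simp [scale, wt]

private theorem scale_ne {K : Type*} [Field K] {c : K} (hc : c ≠ 0) {w : Fin 4 → K} (h : w ≠ 0) :
    scale c w ≠ 0 := by
  intro h0
  apply h
  funext i
  have := congrFun h0 i
  simpa [scale, hc] using this

theorem onX_scale {A B : MvPolynomial (Fin 2) k} (hA : A.IsHomogeneous 8)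
    (hB : B.IsHomogeneous 12) {w : Fin 4 → k} {c : k} (hc : c ≠ 0) (h : OnX A B w) :
    OnX A B (scale c w) := by
  refine ⟨scale_ne hc h.1, ?_⟩
  rw [sc0, sc1, sc2, sc3, aeval_scale hA, aeval_scale hB]
  linear_combination c ^ 12 * h.2

private theorem onX_const {A B : MvPolynomial (Fin 2) k} {w : Fin 4 → k} (h : OnX A B w)
    (K : Type*) [Field K] [Algebra k K] : OnX A B (fun i => algebraMap k K (w i)) := by
  refine ⟨?_, ?_⟩
  · intro h0
    apply h.1
    funext i
    have := congrFun h0 i
    exact (algebraMap k K).injective (by simpa using this)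
  · have e : ∀ P : MvPolynomial (Fin 2) k,
        MvPolynomial.aeval ![algebraMap k K (w 0), algebraMap k K (w 1)] P =
          algebraMap k K (MvPolynomial.aeval ![w 0, w 1] P) := by
      intro P
      rw [← MvPolynomial.aeval_algebraMap_apply]
      congr 1
      congr 1
      funext i
      fin_cases i <;> rfl
    have h2 := congrArg (algebraMap k K) h.2
    simp only [map_add, map_mul, map_pow] at h2
    rw [e A, e B]
    exact h2

private theorem tt_transc : Transcendental k (tt k) := by
  unfold tt
  rw [transcendental_algebraMap_iff (algebraMap (RatFunc k) (Om k)).injective]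
  exact RatFunc.transcendental_X

theorem cv_scale [IsAlgClosed k] [CharZero k] {A B : MvPolynomial (Fin 2) k}
    {w w' : Fin 4 → k} (h : OnX A B w) (h' : OnX A B w') {c c' : k} (hc : c ≠ 0) (hc' : c' ≠ 0) :
    cv A B (scale c w) (scale c' w') = cv A B w w' := by
  unfold cv
  rw [Submodule.Quotient.eq]
  obtain ⟨v, hv⟩ := exists_place (tt_transc (k := k)) (0 : k)
  apply Submodule.subset_span
  have hval : ∀ (d : k) (z : Fin 4 → k),
      IsValue v (fun i => algebraMap k (Om k) (z i)) (scale d z) := by
    intro d z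
    refine ⟨algebraMap k (Om k) d, fun i => ?_⟩
    have : scale (algebraMap k (Om k) d) (fun i => algebraMap k (Om k) (z i)) i -
        algebraMap k (Om k) (scale d z i) = 0 := by
      simp [scale]
    rw [this]
    exact v.vanishes_zero
  have hone : ∀ z : Fin 4 → k, scale 1 z = z := by
    intro z
    funext i
    simp [scale]
  have hg : ∀ (g : Om k ≃ₐ[RatFunc k] Om k) (z : Fin 4 → k),
      (fun i => algebraMap k (Om k) (z i)) = g ∘ fun i => algebraMap k (Om k) (z i) := by
    intro g z
    funext i
    simp only [Function.comp]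
    rw [IsScalarTower.algebraMap_apply k (RatFunc k) (Om k), g.commutes]
  refine ⟨1, fun _ i => algebraMap k (Om k) (w i), fun _ i => algebraMap k (Om k) (w' i), 0, 0,
    v, v, fun _ => scale c w, fun _ => scale c' w', fun _ => w, fun _ => w', ?_, ?_, hv, hv, ?_,
    ?_, ?_⟩
  · exact fun _ => ⟨onX_const h _, onX_const h' _⟩
  · intro g
    exact ⟨Equiv.refl _, fun i => ⟨hg g w, hg g w'⟩⟩
  · exact fun _ => ⟨scale_ne hc h.1, scale_ne hc' h'.1, hval c w, hval c' w'⟩
  · refine fun _ => ⟨h.1, h'.1, ?_, ?_⟩
    · have := hval 1 w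
      rwa [hone] at this
    · have := hval 1 w'
      rwa [hone] at this
  · simp

/-- a point with `w₀ ≠ 0` or `w₀ = w₁ = 0` -/
theorem exists_pnt [IsAlgClosed k] {A B : MvPolynomial (Fin 2) k} {a b : k[X]}
    (h : Deh A B a b) {w : Fin 4 → k} (hw : OnX A B w) (h0 : w 0 ≠ 0 ∨ (w 0 = 0 ∧ w 1 = 0)) :
    ∃ (p : Pnt k) (c c' : k), c ≠ 0 ∧ c' ≠ 0 ∧ On a b p ∧ scale c (vec p) = w ∧
      scale c' (vec (ng p)) = ngv w := by
  rcases h0 with h0 | ⟨h0, h1⟩
  · have hv : vec (some (w 1 / w 0, w 2 / w 0 ^ 4, w 3 / w 0 ^ 6)) = scale (w 0)⁻¹ w := by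
      funext i
      fin_cases i
      · simp [vec, sc0, h0]
      · simp [vec, sc1]
        ring
      · simp [vec, sc2]
        ring
      · simp [vec, sc3]
        ring
    refine ⟨some (w 1 / w 0, w 2 / w 0 ^ 4, w 3 / w 0 ^ 6), w 0, w 0, h0, h0, ?_, ?_, ?_⟩
    · rw [← h.onX, hv]
      exact onX_scale h.hA h.hB (inv_ne_zero h0) hw
    · funext i
      fin_cases i
      · simp [vec, sc0]
      · simp [vec, sc1]
        field_simp
      · simp [vec, sc2]
        field_simp
      · simp [vec, sc3]
        field_simp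
    · funext i
      fin_cases i
      · simp [vec, ng, ngv, sc0]
      · simp [vec, ng, ngv, sc1]
        field_simp
      · simp [vec, ng, ngv, sc2]
        field_simp
      · simp [vec, ng, ngv, sc3]
        field_simp
  · have e : w 3 ^ 2 = w 2 ^ 3 := by
      have := hw.2
      rw [h0, h1, aeval_zero2 (by norm_num) h.hA, aeval_zero2 (by norm_num) h.hB] at this
      simpa using this
    have h2 : w 2 ≠ 0 := by
      intro h2
      rw [h2] at e
      have h3 : w 3 = 0 := by simpa using e
      apply hw.1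
      funext i
      fin_cases i
      · exact h0
      · exact h1
      · exact h2
      · exact h3
    have h3 : w 3 ≠ 0 := by
      intro h3
      rw [h3] at e
      apply h2
      have : w 2 ^ 3 = 0 := by rw [← e]; ring
      exact pow_eq_zero_iff (by norm_num) |>.1 this
    have hr : (w 3 / w 2) ^ 2 = w 2 := by
      rw [div_pow, e]
      field_simp
    have hr3 : (w 3 / w 2) ^ 3 = w 3 := by
      rw [pow_succ, hr]
      field_simp
    obtain ⟨c, hc⟩ := IsAlgClosed.exists_pow_nat_eq (w 3 / w 2) (n := 2) (by norm_num)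
    obtain ⟨c', hc'⟩ := IsAlgClosed.exists_pow_nat_eq (-(w 3 / w 2)) (n := 2) (by norm_num)
    have hc4 : c ^ 4 = w 2 := by
      rw [← hr, ← hc]
      ring
    have hc6 : c ^ 6 = w 3 := by
      rw [← hr3, ← hc]
      ring
    have hc4' : c' ^ 4 = w 2 := by
      have : c' ^ 4 = (c' ^ 2) ^ 2 := by ring
      rw [this, hc', neg_sq, hr]
    have hc6' : c' ^ 6 = -w 3 := by
      have : c' ^ 6 = (c' ^ 2) ^ 3 := by ring
      rw [this, hc', Odd.neg_pow (by decide), hr3]
    refine ⟨none, c, c', ?_, ?_, trivial, ?_, ?_⟩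
    · rintro rfl
      apply h2
      rw [← hc4]
      ring
    · rintro rfl
      apply h2
      rw [← hc4']
      ring
    · funext i
      fin_cases i
      · simp [vec, sc0, h0]
      · simp [vec, sc1, h1]
      · simp [vec, sc2, hc4]
      · simp [vec, sc3, hc6]
    · funext i
      fin_cases i
      · simp [vec, ng, ngv, sc0, h0]
      · simp [vec, ng, ngv, sc1, h1]
      · simp [vec, ng, ngv, sc2, hc4']
      · simp [vec, ng, ngv, sc3, hc6']

end Pool.Agent.VK3
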