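import Pool.Agent.VK3.Defs

/-!
# Zero-cycles on products of elliptic K3 surfaces: definitions

An elliptic K3 surface with section is given by its minimal Weierstrass equation
`y ² = x ³ + A(s₀, s₁) x + B(s₀, s₁)` (`EK3`). We consider products `X 0 × ⋯ × X (m - 1)` of such
surfaces, their zero-cycles, and the morphisms between such products whose components are constant
or a factor followed by `± 1`, where `-1` is the inverse on the fibres, `y ↦ -y`.
-/

set_option autoImplicit false

noncomputable section

namespace Pool.Agent.VK3

open Pool.Agent.ZCyc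

universe u

/-- An elliptic K3 surface with section, given by a minimal Weierstrass equation: `A` and `B` are
binary forms of degrees `8` and `12`, the discriminant is not zero, and there is no linear form
`l ≠ 0` with `l ⁴ ∣ A` and `l ⁶ ∣ B`. -/
structure EK3 (k : Type u) [Field k] where
  /-- the coefficient of `x` -/
  A : MvPolynomial (Fin 2) k
  /-- the constant coefficient -/
  B : MvPolynomial (Fin 2) k
  homA : A.IsHomogeneous 8
  homB : B.IsHomogeneous 12
  disc : 4 * A ^ 3 + 27 * B ^ 2 ≠ 0
  minimal : ∀ l : MvPolynomial (Fin 2) k, l.IsHomogeneous 1 → l ^ 4 ∣ A → l ^ 6 ∣ B → l = 0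

/-- Vectors of homogeneous coordinates in `ℙ(1, 1, 4, 6)` for all of the `m` factors. -/
abbrev Pts (m : ℕ) (K : Type*) : Type _ := Fin m → Fin 4 → K

variable {k : Type u} [Field k] {m m' : ℕ}

/-- `x` is a point of the product of the surfaces `X i`. -/
def OnP (X : Fin m → EK3 k) {K : Type*} [Field K] [Algebra k K] (x : Pts m K) : Prop :=
  ∀ i, OnX (X i).A (X i).B (x i)

/-- The zero-cycles on `X 0 × ⋯ × X (m - 1)` (finite formal combinations of vectors of homogeneous
coordinates) which are rationally equivalent to zero, with rational coefficients.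

Let `P a`, `a < n`, be a finite family of points of the product with coordinates in the algebraic
closure of `k(t)` which is stable under the Galois group of `k(t)`. This is the same as an effective
zero-cycle on the product over the field `k(t)`, or a family of effective zero-cycles parametrised
by the line, flat over the line. Its member at the point `t = c` is the sum of the specialisations
`p a` of the points of the family at any place `v` above `c`. The space of zero-cycles rationally
equivalent to zero is spanned by the differences between the members of such families at two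
points `c` and `c'` of the line (Fulton, Intersection theory, Proposition 1.6). (The constant
families show that it contains the differences of two vectors of coordinates of the same point.) -/
def ratEqP (X : Fin m → EK3 k) : Submodule ℚ (Pts m k →₀ ℚ) :=
  Submodule.span ℚ {z | ∃ (n : ℕ) (P : Fin n → Pts m (Om k)) (c c' : k) (v v' : Place k (Om k))
    (p p' : Fin n → Pts m k),
    (∀ a, OnP X (P a)) ∧
    (∀ g : Om k ≃ₐ[RatFunc k] Om k, ∃ r : Equiv.Perm (Fin n), ∀ a i, P (r a) i = g ∘ P a i) ∧
    v.Vanishes (tt k - algebraMap k (Om k) c) ∧ v'.Vanishes (tt k - algebraMap k (Om k) c') ∧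
    (∀ a i, p a i ≠ 0 ∧ IsValue v (P a i) (p a i)) ∧
    (∀ a i, p' a i ≠ 0 ∧ IsValue v' (P a i) (p' a i)) ∧
    z = ∑ a, (Finsupp.single (p a) 1 - Finsupp.single (p' a) 1)}

/-- A morphism from `X 0 × ⋯ × X (m - 1)` to the surface `Y`: a constant (a point of `Y`), or the
factor with number `i` (if it is equal to `Y`) followed by `ε = ± 1`. -/
inductive Comp (X : Fin m → EK3 k) (Y : EK3 k) : Type u
  | const (w : Fin 4 → k) (hw : OnX Y.A Y.B w) : Comp X Y
  | fac (i : Fin m) (h : X i = Y) (ε : ℤˣ) : Comp X Y

/-- The morphisms between products of elliptic K3 surfaces with such components: projections,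
diagonals, permutations, constants, `± 1`, and everything composed from them. -/
abbrev Mor (X : Fin m → EK3 k) (Y : Fin m' → EK3 k) : Type u := ∀ j, Comp X (Y j)

variable {X : Fin m → EK3 k} {Y : Fin m' → EK3 k}

/-- The value of the component at a point. -/
def Comp.app {Z : EK3 k} (f : Comp X Z) (x : Pts m k) : Fin 4 → k :=
  match f with
  | .const w _ => w
  | .fac i _ ε => ![x i 0, x i 1, x i 2, ((ε : ℤ) : k) * x i 3]

/-- The value of the morphism at a point. -/
def Mor.app (f : Mor X Y) (x : Pts m k) : Pts m' k := fun j => (f j).app x

/-- The push-forward of zero-cycles by a combination of morphisms (a correspondence). -/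
def pushM (γ : Mor X Y →₀ ℚ) : (Pts m k →₀ ℚ) →ₗ[ℚ] (Pts m' k →₀ ℚ) :=
  γ.sum fun f c => c • Finsupp.lmapDomain ℚ ℚ f.app

/-- The number of the factor of a non-constant component. -/
def Comp.src {Z : EK3 k} : Comp X Z → Option (Fin m)
  | .const _ _ => none
  | .fac i _ _ => some i

/-- The sign of a component. -/
def Comp.sgn {Z : EK3 k} : Comp X Z → ℤ
  | .const _ _ => 0
  | .fac _ _ ε => ε

open Classical in
/-- Let `ω_i` be the holomorphic 2-form on the factor `X i`. The holomorphic `2 l`-forms on the
product have the basis `ω_I`, the product of the `ω_i` for `i ∈ I`, where `I` is a set of `l`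
factors. This is the coefficient of `ω_I` in the pull-back of `ω_J` by the morphism `f`: it is the
product of the signs of the components in `J`, if `f` induces a bijection from `J` to `I`, and `0`
otherwise (a constant component gives `0`, and so do two components with the same factor `i`,
since `ω_i ∧ ω_i = 0`; moreover `(-1)^* ω_i = -ω_i`). -/
def pullCoef (f : Mor X Y) (I : Finset (Fin m)) (J : Finset (Fin m')) : ℤ :=
  if (∀ j ∈ J, ∃ i ∈ I, (f j).src = some i) ∧ ∀ i ∈ I, ∃! j, j ∈ J ∧ (f j).src = some i then
    ∏ j ∈ J, (f j).sgn else 0

/-- The correspondence `γ` acts as zero on the holomorphic `ν`-forms (there are none for odd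
`ν`). -/
def KillsForms (γ : Mor X Y →₀ ℚ) (ν : ℕ) : Prop :=
  ∀ (I : Finset (Fin m)) (J : Finset (Fin m')), ν = 2 * I.card → ν = 2 * J.card →
    (γ.sum fun f c => c * (pullCoef f I J : ℚ)) = 0

/-- The product of the differences `[x i] - [y i]` for `i ∈ I` and of the points `x i` for
`i ∉ I`. -/
def cyc (I : Finset (Fin m)) (x y : Pts m k) : Pts m k →₀ ℚ :=
  ∑ S ∈ I.powerset, Finsupp.single (fun i => if i ∈ S then y i else x i) ((-1) ^ S.card)

/-- The filtration: the zero-cycles on the product which are generated by the products of zero-cycles
on the factors at least `ν / 2` of which are of degree zero. -/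
def Fil (X : Fin m → EK3 k) (ν : ℕ) : Submodule ℚ (Pts m k →₀ ℚ) :=
  Submodule.span ℚ {z | ∃ (I : Finset (Fin m)) (x y : Pts m k), OnP X x ∧ OnP X y ∧
    ν ≤ 2 * I.card ∧ z = cyc I x y} ⊔ ratEqP X

end Pool.Agent.VK3
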