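import Pool.Agent.VK3.CLBasic

/-!
# The pencil of degree two on the fibres
-/

set_option autoImplicit false

noncomputable section

namespace Pool.Agent.VK3

open Pool.Agent.ZCyc Polynomial

universe u

variable {k : Type u} [Field k] [IsAlgClosed k] [CharZero k] {A B : MvPolynomial (Fin 2) k}
  {a b : k[X]}

/-- constant points -/
private def pcPnt : Pnt k → Pnt (Om k)
  | none => none
  | some (s, x, y) => some (algebraMap k (Om k) s, algebraMap k (Om k) x, algebraMap k (Om k) y)

omit [IsAlgClosed k] [CharZero k] in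
private theorem pc_on {r : Pnt k} (hr : On a b r) : On a b (pcPnt r) := by
  rcases r with _ | ⟨s, x, y⟩
  · trivial
  · have h : y ^ 2 = x ^ 3 + aeval s a * x + aeval s b := hr
    show algebraMap k (Om k) y ^ 2 = algebraMap k (Om k) x ^ 3 +
      aeval (algebraMap k (Om k) s) a * algebraMap k (Om k) x + aeval (algebraMap k (Om k) s) b
    rw [aeval_algebraMap_apply, aeval_algebraMap_apply, ← map_pow, ← map_pow, ← map_mul, ← map_add,
      ← map_add, h]

omit [IsAlgClosed k] [CharZero k] in
private theorem pc_val (v : Place k (Om k)) (r : Pnt k) : Val v (pcPnt r) r := by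
  rcases r with _ | ⟨s, x, y⟩
  · trivial
  · exact ⟨Place.at_const s, Place.at_const x, Place.at_const y⟩

omit [IsAlgClosed k] [CharZero k] in
private theorem pc_at1 {v : Place k (Om k)} (hv : v.At (tt k) 1) (x : k) :
    v.At (algebraMap k (Om k) x + (1 - tt k) / tt k) x := by
  have h1 : v.At (1 : Om k) 1 := by
    have := Place.at_const (v := v) (1 : k)
    rwa [map_one] at this
  have h2 := (Place.at_const (v := v) x).add ((h1.sub hv).div hv one_ne_zero)
  simpa using h2

omit [IsAlgClosed k] [CharZero k] in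
private theorem pc_at0 {v : Place k (Om k)} (hv : v.At (tt k) 0) (x : k) :
    algebraMap k (Om k) x + (1 - tt k) / tt k ∉ v.ring := by
  intro h
  have ht : tt k ≠ 0 := by
    unfold tt
    rw [Ne, map_eq_zero]
    exact RatFunc.X_ne_zero
  have h1 : (1 - tt k) / tt k ∈ v.ring := by
    have := sub_mem h (v.const_mem x)
    simpa using this
  have h2 : (1 : Om k) - tt k ∈ v.ring.nonunits := by
    have h3 := Place.Vanishes.mul v (Place.at_zero_iff.1 hv) h1
    have h4 : tt k * ((1 - tt k) / tt k) = 1 - tt k := by field_simp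
    rwa [h4] at h3
  have h5 : v.Vanishes ((1 : Om k) - tt k) := h2
  have h6 := h5.add v (Place.at_zero_iff.1 hv)
  rw [sub_add_cancel] at h6
  have h7 := v.const_unit (c := (1 : k)) one_ne_zero
  rw [map_one] at h7
  exact h7 h6

/-- the values of the two points of the pencil -/
private theorem pc_one {v : Place k (Om k)} (hv : v.At (tt k) 1) {s x y : k} {Y : Om k}
    (hP : y ^ 2 = ff a b s x)
    (hY : Y ^ 2 = ff a b (algebraMap k (Om k) s) (algebraMap k (Om k) x + (1 - tt k) / tt k)) :
    ∃ y' : k, (y' = y ∨ y' = -y) ∧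
      Val v (some (algebraMap k (Om k) s, algebraMap k (Om k) x + (1 - tt k) / tt k, Y))
        (some (s, x, y')) ∧
      Val v (some (algebraMap k (Om k) s, algebraMap k (Om k) x + (1 - tt k) / tt k, -Y))
        (some (s, x, -y')) := by
  have hX := pc_at1 hv x
  rcases exists_val (a := a) (b := b) hY (Place.at_const (v := v) s) with ⟨h, -⟩ | ⟨x', y', h1, h2, -, h4⟩
  · exact absurd hX.mem h
  · have hx : x' = x := h1.unique hX
    subst hx
    refine ⟨y', ?_, ⟨Place.at_const s, hX, h2⟩, ⟨Place.at_const s, hX, h2.neg⟩⟩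
    rw [← hP] at h4
    exact sq_eq_sq_iff_eq_or_eq_neg.1 h4

omit [IsAlgClosed k] [CharZero k] in
private theorem pc_zero {v : Place k (Om k)} (hv : v.At (tt k) 0) (s x : k) (Y : Om k) :
    Val v (some (algebraMap k (Om k) s, algebraMap k (Om k) x + (1 - tt k) / tt k, Y)) none :=
  ⟨v.const_mem s, pc_at0 hv x⟩

/-- move `x` to infinity -/
theorem pencil_left (h : Deh A B a b) {s x y : k} (hP : y ^ 2 = ff a b s x) {r : Pnt k}
    (hr : On a b r) :
    c2 A B (some (s, x, y)) r + c2 A B (some (s, x, -y)) r = (2 : ℚ) • c2 A B none r := by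
  obtain ⟨Y, hY⟩ := IsAlgClosed.exists_pow_nat_eq
    (ff a b (algebraMap k (Om k) s) (algebraMap k (Om k) x + (1 - tt k) / tt k)) (n := 2)
    (by norm_num)
  refine bridge h (I := Fin 2) (fun _ => 1)
    ![some (algebraMap k (Om k) s, algebraMap k (Om k) x + (1 - tt k) / tt k, Y),
      some (algebraMap k (Om k) s, algebraMap k (Om k) x + (1 - tt k) / tt k, -Y)]
    (fun _ => pcPnt r) ?_ (fun _ => pc_on hr) 1 0 _ _ ?_ ?_
  · rw [Fin.forall_fin_two]
    refine ⟨hY, ?_⟩
    show (-Y) ^ 2 = _
    rw [neg_sq]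
    exact hY
  · intro v hv
    obtain ⟨y', hy', h1, h2⟩ := pc_one hv hP hY
    refine ⟨![some (s, x, y'), some (s, x, -y')], fun _ => r, ?_, fun _ => pc_val v r, ?_⟩
    · rw [Fin.forall_fin_two]
      exact ⟨h1, h2⟩
    · rw [Fin.sum_univ_two]
      simp only [one_smul, Matrix.cons_val_zero, Matrix.cons_val_one]
      rcases hy' with rfl | rfl
      · rfl
      · rw [neg_neg, add_comm]
  · intro v hv
    refine ⟨fun _ => none, fun _ => r, ?_, fun _ => pc_val v r, ?_⟩
    · rw [Fin.forall_fin_two]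
      exact ⟨pc_zero hv s x Y, pc_zero hv s x (-Y)⟩
    · rw [Fin.sum_univ_two]
      simp only [one_smul]
      rw [two_smul]

theorem pencil_right (h : Deh A B a b) {s x y : k} (hP : y ^ 2 = ff a b s x) {r : Pnt k}
    (hr : On a b r) :
    c2 A B r (some (s, x, y)) + c2 A B r (some (s, x, -y)) = (2 : ℚ) • c2 A B r none := by
  obtain ⟨Y, hY⟩ := IsAlgClosed.exists_pow_nat_eq
    (ff a b (algebraMap k (Om k) s) (algebraMap k (Om k) x + (1 - tt k) / tt k)) (n := 2)
    (by norm_num)
  refine bridge h (I := Fin 2) (fun _ => 1) (fun _ => pcPnt r)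
    ![some (algebraMap k (Om k) s, algebraMap k (Om k) x + (1 - tt k) / tt k, Y),
      some (algebraMap k (Om k) s, algebraMap k (Om k) x + (1 - tt k) / tt k, -Y)]
    (fun _ => pc_on hr) ?_ 1 0 _ _ ?_ ?_
  · rw [Fin.forall_fin_two]
    refine ⟨hY, ?_⟩
    show (-Y) ^ 2 = _
    rw [neg_sq]
    exact hY
  · intro v hv
    obtain ⟨y', hy', h1, h2⟩ := pc_one hv hP hY
    refine ⟨fun _ => r, ![some (s, x, y'), some (s, x, -y')], fun _ => pc_val v r, ?_, ?_⟩
    · rw [Fin.forall_fin_two]
      exact ⟨h1, h2⟩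
    · rw [Fin.sum_univ_two]
      simp only [one_smul, Matrix.cons_val_zero, Matrix.cons_val_one]
      rcases hy' with rfl | rfl
      · rfl
      · rw [neg_neg, add_comm]
  · intro v hv
    refine ⟨fun _ => r, fun _ => none, fun _ => pc_val v r, ?_, ?_⟩
    · rw [Fin.forall_fin_two]
      exact ⟨pc_zero hv s x Y, pc_zero hv s x (-Y)⟩
    · rw [Fin.sum_univ_two]
      simp only [one_smul]
      rw [two_smul]

end Pool.Agent.VK3
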