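import Pool.Agent.VK3.CLZero
import Pool.Agent.VK3.Pencil
import Pool.Agent.VK3.Norm

/-!
# All pairs of points
-/

set_option autoImplicit false

noncomputable section

namespace Pool.Agent.VK3

open Pool.Agent.ZCyc Polynomial

universe u

variable {k : Type u} [Field k] [IsAlgClosed k] [CharZero k] {A B : MvPolynomial (Fin 2) k}

/-- the class `{p} × o - o × {p}` -/
def DD (A B : MvPolynomial (Fin 2) k) (w : Fin 4 → k) : V A B :=
  cv A B w (vec none) - cv A B (ngv w) (vec none) - cv A B (vec none) w +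
    cv A B (vec none) (ngv w)

private lemma pr_on_ng {a b : k[X]} {p : Pnt k} (h : On a b p) : On a b (ng p) := by
  match p, h with
  | none, _ => trivial
  | some (s, x, y), h =>
    show (-y) ^ 2 = ff a b s x
    rw [neg_sq]
    exact h

private lemma pr_left {a b : k[X]} (h : Deh A B a b) {p r : Pnt k} (hp : On a b p)
    (hr : On a b r) : c2 A B p r + c2 A B (ng p) r = (2 : ℚ) • c2 A B none r := by
  match p, hp with
  | none, _ =>
    show c2 A B none r + c2 A B none r = _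
    module
  | some (s, x, y), hp => exact pencil_left h hp hr

private lemma pr_right {a b : k[X]} (h : Deh A B a b) {p r : Pnt k} (hp : On a b p)
    (hr : On a b r) : c2 A B r p + c2 A B r (ng p) = (2 : ℚ) • c2 A B r none := by
  match p, hp with
  | none, _ =>
    show c2 A B r none + c2 A B r none = _
    module
  | some (s, x, y), hp => exact pencil_right h hp hr

private lemma pr_onX {a b : k[X]} (h : Deh A B a b) {p : Pnt k} (hp : On a b p) :
    OnX A B (vec p) := (h.onX p).2 hp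

private lemma pr_ngv {a b : k[X]} (h : Deh A B a b) (p : Pnt k) :
    ∃ c : k, c ≠ 0 ∧ ngv (vec p) = scale c (vec (ng p)) := by
  match p with
  | none =>
    obtain ⟨i, hi⟩ := IsAlgClosed.exists_pow_nat_eq (-1 : k) (n := 2) (by norm_num)
    refine ⟨i, ?_, ?_⟩
    · rintro rfl
      norm_num at hi
    · have h4 : i ^ 4 = 1 := by
        have : i ^ 4 = (i ^ 2) ^ 2 := by ring
        rw [this, hi]
        norm_num
      have h6 : i ^ 6 = -1 := by
        have : i ^ 6 = (i ^ 2) ^ 3 := by ring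
        rw [this, hi]
        norm_num
      funext j
      fin_cases j <;> simp [ngv, vec, ng, scale, wt, h4, h6]
  | some (s, x, y) =>
    refine ⟨1, one_ne_zero, ?_⟩
    funext j
    fin_cases j <;> simp [ngv, vec, ng, scale, wt]

private lemma pr_DD {a b : k[X]} (h : Deh A B a b) {p : Pnt k} (hp : On a b p) :
    DD A B (vec p) = c2 A B p none - c2 A B (ng p) none - c2 A B none p + c2 A B none (ng p) := by
  obtain ⟨c, hc, hcp⟩ := pr_ngv h p
  have hO : On a b (none : Pnt k) := trivial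
  have h1 : ∀ w : Fin 4 → k, scale 1 w = w := fun w => by
    funext j
    simp [scale]
  have e1 : cv A B (ngv (vec p)) (vec none) = c2 A B (ng p) none := by
    have := cv_scale (pr_onX h (pr_on_ng hp)) (pr_onX h hO) hc (one_ne_zero (α := k))
    rw [h1, ← hcp] at this
    exact this
  have e2 : cv A B (vec none) (ngv (vec p)) = c2 A B none (ng p) := by
    have := cv_scale (pr_onX h hO) (pr_onX h (pr_on_ng hp)) (one_ne_zero (α := k)) hc
    rw [h1, ← hcp] at this
    exact this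
  unfold DD
  rw [e1, e2]
  rfl

theorem pair_aff {a b : k[X]} (h : Deh A B a b) {δ₁ δ₂ : k} (hδ : δ₁ ≠ δ₂)
    (hδ₁ : dsc a b δ₁ = 0) (hδ₂ : dsc a b δ₂ = 0) {p q : Pnt k} (hp : On a b p)
    (hq : On a b q) :
    (2 : ℚ) • (cv A B (vec p) (vec q) - cv A B (vec q) (vec p)) =
      DD A B (vec p) - DD A B (vec q) := by
  have hO : On a b (none : Pnt k) := trivial
  have hp' := pr_on_ng hp
  have hq' := pr_on_ng hq
  rw [pr_DD h hp, pr_DD h hq]
  have h0 := CL_zero h hδ hδ₁ hδ₂ hp hq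
  unfold CL at h0
  have l1 := pr_left h hp hq
  have l2 := pr_left h hp hq'
  have l3 := pr_left h hq hp
  have l4 := pr_left h hq hp'
  have r1 := pr_right h hq hp
  have r2 := pr_right h hp hq
  have r3 := pr_right h hq hO
  have r4 := pr_right h hp hO
  have l5 := pr_left h hp hO
  have l6 := pr_left h hq hO
  show (2 : ℚ) • (c2 A B p q - c2 A B q p) = _
  generalize c2 A B p q = x1 at *
  generalize c2 A B (ng p) q = x2 at *
  generalize c2 A B p (ng q) = x3 at *
  generalize c2 A B (ng p) (ng q) = x4 at *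
  generalize c2 A B q p = y1 at *
  generalize c2 A B (ng q) p = y2 at *
  generalize c2 A B q (ng p) = y3 at *
  generalize c2 A B (ng q) (ng p) = y4 at *
  generalize c2 A B none q = u1 at *
  generalize c2 A B none (ng q) = u2 at *
  generalize c2 A B none p = u3 at *
  generalize c2 A B none (ng p) = u4 at *
  generalize c2 A B p none = v1 at *
  generalize c2 A B (ng p) none = v2 at *
  generalize c2 A B q none = v3 at *
  generalize c2 A B (ng q) none = v4 at *
  generalize c2 A B none none = o at *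
  have e2 : x2 = (2 : ℚ) • u1 - x1 := eq_sub_of_add_eq' l1
  have e4 : x4 = (2 : ℚ) • u2 - x3 := eq_sub_of_add_eq' l2
  have e3 : x3 = (2 : ℚ) • v1 - x1 := eq_sub_of_add_eq' r1
  have f2 : y2 = (2 : ℚ) • u3 - y1 := eq_sub_of_add_eq' l3
  have f4 : y4 = (2 : ℚ) • u4 - y3 := eq_sub_of_add_eq' l4
  have f3 : y3 = (2 : ℚ) • v3 - y1 := eq_sub_of_add_eq' r2
  have g2 : u2 = (2 : ℚ) • o - u1 := eq_sub_of_add_eq' r3
  have g4 : u4 = (2 : ℚ) • o - u3 := eq_sub_of_add_eq' r4
  have k2 : v2 = (2 : ℚ) • o - v1 := eq_sub_of_add_eq' l5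
  have k4 : v4 = (2 : ℚ) • o - v3 := eq_sub_of_add_eq' l6
  rw [e4, e2, e3, f4, f2, f3, g2, g4] at h0
  rw [k2, k4, g4, g2]
  have h1 : (2 : ℚ) • (x1 - y1) - (v1 - ((2 : ℚ) • o - v1) - u3 + ((2 : ℚ) • o - u3) -
      (v3 - ((2 : ℚ) • o - v3) - u1 + ((2 : ℚ) • o - u1))) = (1 / 2 : ℚ) •
      (x1 - ((2 : ℚ) • u1 - x1) - ((2 : ℚ) • v1 - x1) +
            ((2 : ℚ) • ((2 : ℚ) • o - u1) - ((2 : ℚ) • v1 - x1)) -
          (y1 - ((2 : ℚ) • u3 - y1) - ((2 : ℚ) • v3 - y1) +
            ((2 : ℚ) • ((2 : ℚ) • o - u3) - ((2 : ℚ) • v3 - y1)))) := by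
    module
  rw [← sub_eq_zero, h1, h0, smul_zero]

private lemma pr_eval_smul {A : MvPolynomial (Fin 2) k} {n : ℕ} (hA : A.IsHomogeneous n) (c : k)
    (x : Fin 2 → k) : MvPolynomial.eval (fun i => c * x i) A = c ^ n * MvPolynomial.eval x A := by
  rw [MvPolynomial.eval_eq, MvPolynomial.eval_eq, Finset.mul_sum]
  refine Finset.sum_congr rfl fun d hd => ?_
  have hdn : ∑ i ∈ d.support, d i = n := by
    have := hA (MvPolynomial.mem_support_iff.1 hd)
    rw [Finsupp.weight_apply] at this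
    simpa [Finsupp.sum] using this
  simp only [mul_pow, Finset.prod_mul_distrib]
  rw [Finset.prod_pow_eq_pow_sum, hdn]
  ring

private lemma pr_ne {c v₀ v₁ : k} (hc : c ≠ -v₀ / v₁) (hv : v₀ ≠ 0 ∨ v₁ ≠ 0) :
    v₀ + c * v₁ ≠ 0 := by
  intro h
  by_cases h1 : v₁ = 0
  · rw [h1, mul_zero, add_zero] at h
    rcases hv with h2 | h2
    · exact h2 h
    · exact h2 h1
  · apply hc
    rw [eq_div_iff h1]
    linear_combination h

/-- the cycle whose class is the difference of the two sides -/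
private def prZ (w w' : Fin 4 → k) : (Fin 4 → k) × (Fin 4 → k) →₀ ℚ :=
  (2 : ℚ) • (Finsupp.single (w, w') 1 - Finsupp.single (w', w) 1) -
    ((Finsupp.single (w, vec none) 1 - Finsupp.single (ngv w, vec none) 1 -
      Finsupp.single (vec none, w) 1 + Finsupp.single (vec none, ngv w) 1) -
    (Finsupp.single (w', vec none) 1 - Finsupp.single (ngv w', vec none) 1 -
      Finsupp.single (vec none, w') 1 + Finsupp.single (vec none, ngv w') 1))

private lemma prZ_mem {A B : MvPolynomial (Fin 2) k} (w w' : Fin 4 → k) :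
    prZ w w' ∈ ratEq A B ↔
      (2 : ℚ) • (cv A B w w' - cv A B w' w) = DD A B w - DD A B w' := by
  rw [← Submodule.Quotient.mk_eq_zero, prZ, Submodule.Quotient.mk_sub, sub_eq_zero]
  rfl

private lemma pr_shv_none (c : k) : shv c (vec none) = vec none := by
  funext j
  fin_cases j <;> simp [shv, vec]

private lemma pr_shv_ngv (c : k) (w : Fin 4 → k) : shv c (ngv w) = ngv (shv c w) := by
  funext j
  fin_cases j <;> simp [shv, ngv]

private lemma prZ_map (c : k) (w w' : Fin 4 → k) :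
    (prZ w w').mapDomain (Prod.map (shv c) (shv c)) = prZ (shv c w) (shv c w') := by
  unfold prZ
  simp only [sub_eq_add_neg, Finsupp.mapDomain_add, Finsupp.mapDomain_smul,
    ← Finsupp.single_neg, Finsupp.mapDomain_single, Prod.map_apply, neg_add,
    pr_shv_none, pr_shv_ngv]

/-- after a change of the coordinates of the line -/
theorem pair (hA : A.IsHomogeneous 8) (hB : B.IsHomogeneous 12)
    (hΔ : ∃ α β : Fin 2 → k, α 0 * β 1 ≠ α 1 * β 0 ∧
      MvPolynomial.eval α (4 * A ^ 3 + 27 * B ^ 2) = 0 ∧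
      MvPolynomial.eval β (4 * A ^ 3 + 27 * B ^ 2) = 0)
    {w w' : Fin 4 → k} (hw : OnX A B w) (hw' : OnX A B w') :
    (2 : ℚ) • (cv A B w w' - cv A B w' w) = DD A B w - DD A B w' := by
  classical
  obtain ⟨α, β, hαβ, hα, hβ⟩ := hΔ
  obtain ⟨c, hc⟩ := Infinite.exists_notMem_finset
    ({-w 0 / w 1, -w' 0 / w' 1, -α 0 / α 1, -β 0 / β 1} : Finset k)
  simp only [Finset.mem_insert, Finset.mem_singleton, not_or] at hc
  obtain ⟨hc1, hc2, hc3, hc4⟩ := hc
  have hα0 : α 0 + c * α 1 ≠ 0 := pr_ne hc3 (by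
    by_contra h
    push Not at h
    apply hαβ
    rw [h.1, h.2, zero_mul, zero_mul])
  have hβ0 : β 0 + c * β 1 ≠ 0 := pr_ne hc4 (by
    by_contra h
    push Not at h
    apply hαβ
    rw [h.1, h.2, mul_zero, mul_zero])
  set A' := shf c A with hA'
  set B' := shf c B with hB'
  set a : k[X] := MvPolynomial.aeval ![(1 : k[X]), X] A' with ha
  set b : k[X] := MvPolynomial.aeval ![(1 : k[X]), X] B' with hb
  have hD : Deh A' B' a b := ⟨shf_hom hA, shf_hom hB, rfl, rfl⟩
  have hroot : ∀ γ : Fin 2 → k, γ 0 + c * γ 1 ≠ 0 →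
      MvPolynomial.eval γ (4 * A ^ 3 + 27 * B ^ 2) = 0 →
      dsc a b (γ 1 / (γ 0 + c * γ 1)) = 0 := by
    intro γ hγ h0
    have key : ∀ F : MvPolynomial (Fin 2) k, ∀ n, F.IsHomogeneous n →
        MvPolynomial.aeval ![(1 : k), γ 1 / (γ 0 + c * γ 1)] (shf c F) =
          (1 / (γ 0 + c * γ 1)) ^ n * MvPolynomial.eval γ F := by
      intro F n hF
      have h1 := shf_aeval (K := k) c F (1 / (γ 0 + c * γ 1) * γ 0) (1 / (γ 0 + c * γ 1) * γ 1)
      have h2 : 1 / (γ 0 + c * γ 1) * γ 0 + algebraMap k k c * (1 / (γ 0 + c * γ 1) * γ 1) = 1 := by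
        rw [Algebra.algebraMap_self, RingHom.id_apply]
        field_simp
      rw [h2] at h1
      have h3 : γ 1 / (γ 0 + c * γ 1) = 1 / (γ 0 + c * γ 1) * γ 1 := by ring
      have h4 : (![1 / (γ 0 + c * γ 1) * γ 0, 1 / (γ 0 + c * γ 1) * γ 1] : Fin 2 → k) =
          fun i => 1 / (γ 0 + c * γ 1) * γ i := by
        funext i
        fin_cases i <;> simp
      rw [h3, h1, ← pr_eval_smul hF, MvPolynomial.aeval_eq_eval, h4]
    unfold dsc
    rw [← hD.evalA, ← hD.evalB, key A 8 hA, key B 12 hB]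
    simp only [map_add, map_mul, map_pow] at h0
    have h4 : MvPolynomial.eval γ (4 : MvPolynomial (Fin 2) k) = 4 := by simp
    have h27 : MvPolynomial.eval γ (27 : MvPolynomial (Fin 2) k) = 27 := by simp
    rw [h4, h27] at h0
    linear_combination (1 / (γ 0 + c * γ 1)) ^ 24 * h0
  have hδ : α 1 / (α 0 + c * α 1) ≠ β 1 / (β 0 + c * β 1) := by
    intro h
    rw [div_eq_div_iff hα0 hβ0] at h
    apply hαβ
    linear_combination -h
  have hP : ∀ v : Fin 4 → k, OnX A B v → c ≠ -v 0 / v 1 →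
      ∃ (p : Pnt k) (d d' : k), d ≠ 0 ∧ d' ≠ 0 ∧ On a b p ∧ scale d (vec p) = shv c v ∧
        scale d' (vec (ng p)) = ngv (shv c v) := by
    intro v hv hcv
    have h1 : OnX A' B' (shv c v) := onX_shv c hv
    refine exists_pnt hD h1 ?_
    by_cases h2 : v 0 ≠ 0 ∨ v 1 ≠ 0
    · left
      show v 0 + c * v 1 ≠ 0
      exact pr_ne hcv h2
    · right
      push Not at h2
      refine ⟨?_, ?_⟩
      · show v 0 + c * v 1 = 0
        rw [h2.1, h2.2, mul_zero, add_zero]
      · exact h2.2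
  obtain ⟨p, d, d', hd, hd', hp, hdp, hdp'⟩ := hP w hw hc1
  obtain ⟨q, e, e', he, he', hq, heq, heq'⟩ := hP w' hw' hc2
  have hO : On a b (none : Pnt k) := trivial
  have h1 : ∀ w : Fin 4 → k, scale 1 w = w := fun w => by
    funext j
    simp [scale]
  have hDD : ∀ {v : Fin 4 → k} {p : Pnt k} {d d' : k}, d ≠ 0 → d' ≠ 0 → On a b p →
      scale d (vec p) = shv c v → scale d' (vec (ng p)) = ngv (shv c v) →
      DD A' B' (vec p) = DD A' B' (shv c v) := by
    intro v p d d' hd hd' hp h2 h3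
    rw [pr_DD hD hp]
    unfold DD
    have e1 := cv_scale (pr_onX hD hp) (pr_onX hD hO) hd (one_ne_zero (α := k))
    have e2 := cv_scale (pr_onX hD (pr_on_ng hp)) (pr_onX hD hO) hd' (one_ne_zero (α := k))
    have e3 := cv_scale (pr_onX hD hO) (pr_onX hD hp) (one_ne_zero (α := k)) hd
    have e4 := cv_scale (pr_onX hD hO) (pr_onX hD (pr_on_ng hp)) (one_ne_zero (α := k)) hd'
    rw [h1, h2] at e1
    rw [h1, h3] at e2
    rw [h1, h2] at e3
    rw [h1, h3] at e4
    rw [e1, e2, e3, e4]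
    rfl
  have h2 := pair_aff hD hδ (hroot α hα0 hα) (hroot β hβ0 hβ) hp hq
  rw [hDD hd hd' hp hdp hdp', hDD he he' hq heq heq',
    ← cv_scale (pr_onX hD hp) (pr_onX hD hq) hd he,
    ← cv_scale (pr_onX hD hq) (pr_onX hD hp) he hd, hdp, heq, ← prZ_mem] at h2
  have h3 := ratEq_shv (-c) h2
  rw [prZ_map, shv_shv, shv_shv, hA', hB', shf_shf, shf_shf, prZ_mem] at h3
  exact h3

end Pool.Agent.VK3
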