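import Pool.Agent.VK3.PDefs
import Pool.Agent.VK3.Pair
import Pool.Agent.VK3.TwoZeros

/-!
# Products of elliptic K3 surfaces: auxiliary definitions
-/

set_option autoImplicit false

noncomputable section

namespace Pool.Agent.VK3

open Pool.Agent.ZCyc Polynomial

universe u

variable {k : Type u} [Field k] {m m' : ℕ}

/-- zero-cycles on the product modulo rational equivalence -/
abbrev VP (X : Fin m → EK3 k) : Type u := (Pts m k →₀ ℚ) ⧸ ratEqP X

/-- the class of a point -/
def clP (X : Fin m → EK3 k) (x : Pts m k) : VP X := Submodule.Quotient.mk (Finsupp.single x 1)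

/-- the point `O` -/
def oo : Fin 4 → k := ![0, 0, 1, 1]

/-- the class of the product of the `{x i} = [x i] - [-x i]`, `i ∈ I`, and of the points `O` for
`i ∉ I` -/
def eP (X : Fin m → EK3 k) (I : Finset (Fin m)) (x : Pts m k) : VP X :=
  ∑ S ∈ I.powerset, ((-1 : ℚ) ^ S.card) •
    clP X (fun i => if i ∈ S then ngv (x i) else if i ∈ I then x i else oo)

/-- the value of a component without the sign -/
def Comp.base {X : Fin m → EK3 k} {Z : EK3 k} (f : Comp X Z) (x : Pts m k) : Fin 4 → k :=
  match f with
  | .const w _ => w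
  | .fac i _ _ => x i

/-- the value of a morphism without the signs -/
def Mor.base {X : Fin m → EK3 k} {Y : Fin m' → EK3 k} (f : Mor X Y) (x : Pts m k) : Pts m' k :=
  fun j => (f j).base x

/-- the span of the classes `eP I x` with `ν ≤ 2 |I|` -/
def FV (X : Fin m → EK3 k) (ν : ℕ) : Submodule ℚ (VP X) :=
  Submodule.span ℚ {e | ∃ (I : Finset (Fin m)) (x : Pts m k), OnP X x ∧ ν ≤ 2 * I.card ∧
    e = eP X I x}

end Pool.Agent.VK3
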