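import Pool.Agent.VK3.PIns
import Pool.Agent.VK3.PGen

/-!
# Products of elliptic K3 surfaces: the classes eP
-/

set_option autoImplicit false

noncomputable section

namespace Pool.Agent.VK3

open Pool.Agent.ZCyc Polynomial

universe u

variable {k : Type u} [Field k] [IsAlgClosed k] [CharZero k] {m : ℕ} {X : Fin m → EK3 k}

omit [IsAlgClosed k] [CharZero k] in
private lemma pe_ngv_ngv (w : Fin 4 → k) : ngv (ngv w) = w := by
  funext i
  fin_cases i <;> simp [ngv]

/-- the vector of the term `S` of `eP` -/
private def pev (I S : Finset (Fin m)) (x : Pts m k) : Pts m k :=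
  fun i => if i ∈ S then ngv (x i) else if i ∈ I then x i else oo

omit [IsAlgClosed k] [CharZero k] in
private lemma eP_eq (I : Finset (Fin m)) (x : Pts m k) :
    eP X I x = ∑ S ∈ I.powerset, ((-1 : ℚ) ^ S.card) • clP X (pev I S x) := rfl

private lemma pev_onP {I S : Finset (Fin m)} {x : Pts m k} (hx : OnP X x) :
    OnP X (pev I S x) := by
  intro i
  unfold pev
  split_ifs
  · exact onX_ngv (hx i)
  · exact hx i
  · exact onX_oo _

theorem eP_congr (I : Finset (Fin m)) {x y : Pts m k} (h : ∀ i ∈ I, x i = y i) :
    eP X I x = eP X I y := by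
  rw [eP_eq, eP_eq]
  refine Finset.sum_congr rfl fun S hS => ?_
  have hS' := Finset.mem_powerset.mp hS
  have : pev I S x = pev I S y := by
    funext i
    unfold pev
    by_cases h1 : i ∈ S
    · simp only [h1, if_true, h i (hS' h1)]
    · by_cases h2 : i ∈ I
      · simp only [h1, h2, if_true, if_false, h i h2]
      · simp only [h1, h2, if_false]
  rw [this]

omit [IsAlgClosed k] [CharZero k] in
private lemma sum_split {V : Type*} [AddCommGroup V] [Module ℚ V] {I : Finset (Fin m)}
    {i : Fin m} (hi : i ∈ I) (f : Finset (Fin m) → V) :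
    ∑ S ∈ I.powerset, f S = ∑ S ∈ (I.erase i).powerset, (f S + f (insert i S)) := by
  conv_lhs => rw [← Finset.insert_erase hi]
  rw [Finset.sum_powerset_insert (Finset.notMem_erase i I), Finset.sum_add_distrib]

theorem eP_ngv {I : Finset (Fin m)} (x : Pts m k) {i : Fin m} (hi : i ∈ I) :
    eP X I (Function.update x i (ngv (x i))) = -eP X I x := by
  rw [eP_eq, eP_eq, sum_split hi, sum_split hi, ← Finset.sum_neg_distrib]
  refine Finset.sum_congr rfl fun S hS => ?_
  have hS' := Finset.mem_powerset.mp hS
  have hiS : i ∉ S := fun h => Finset.notMem_erase i I (hS' h)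
  have e1 : pev I S (Function.update x i (ngv (x i))) = pev I (insert i S) x := by
    funext l
    unfold pev
    by_cases hl : l = i
    · subst hl
      simp [hiS, hi]
    · simp [hl]
  have e2 : pev I (insert i S) (Function.update x i (ngv (x i))) = pev I S x := by
    funext l
    unfold pev
    by_cases hl : l = i
    · subst hl
      simp [hiS, hi, pe_ngv_ngv]
    · simp [hl, Function.update_of_ne hl]
  rw [e1, e2, Finset.card_insert_of_notMem hiS, pow_succ]
  module

private lemma eP_oo_aux {I : Finset (Fin m)} {x : Pts m k} (hx : OnP X x) {i : Fin m}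
    (hi : i ∈ I) :
    eP X I (Function.update x i (ngv oo)) = eP X I (Function.update x i oo) := by
  rw [eP_eq, eP_eq]
  refine Finset.sum_congr rfl fun S hS => ?_
  congr 1
  have hy : OnP X (pev I S x) := pev_onP hx
  by_cases hiS : i ∈ S
  · have e1 : pev I S (Function.update x i (ngv oo)) =
        Function.update (pev I S x) i oo := by
      funext l
      by_cases hl : l = i
      · subst hl
        simp [pev, hiS, pe_ngv_ngv]
      · simp [pev, Function.update_of_ne hl]
    have e2 : pev I S (Function.update x i oo) =
        Function.update (pev I S x) i (ngv oo) := by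
      funext l
      by_cases hl : l = i
      · subst hl
        simp [pev, hiS]
      · simp [pev, Function.update_of_ne hl]
    rw [e1, e2, clP_oo hy]
  · have e1 : pev I S (Function.update x i (ngv oo)) =
        Function.update (pev I S x) i (ngv oo) := by
      funext l
      by_cases hl : l = i
      · subst hl
        simp [pev, hiS, hi]
      · simp [pev, Function.update_of_ne hl]
    have e2 : pev I S (Function.update x i oo) =
        Function.update (pev I S x) i oo := by
      funext l
      by_cases hl : l = i
      · subst hl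
        simp [pev, hiS, hi]
      · simp [pev, Function.update_of_ne hl]
    rw [e1, e2, clP_oo hy]

omit [IsAlgClosed k] [CharZero k] in
private lemma eq_zero_of_eq_neg {v : VP X} (h : v = -v) : v = 0 := by
  have h2 : (2 : ℚ) • v = 0 := by
    rw [two_smul]
    nth_rewrite 2 [h]
    exact add_neg_cancel v
  have := (smul_eq_zero.mp h2).resolve_left (by norm_num)
  exact this

theorem eP_oo {I : Finset (Fin m)} {x : Pts m k} (hx : OnP X x) {i : Fin m} (hi : i ∈ I)
    (h : x i = oo ∨ x i = ngv oo) : eP X I x = 0 := by
  apply eq_zero_of_eq_neg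
  have h1 := eP_ngv (X := X) x hi
  have h2 := eP_oo_aux (X := X) hx hi
  rcases h with h | h
  · rw [h, h2] at h1
    have e : Function.update x i oo = x := by rw [← h]; exact Function.update_eq_self i x
    rw [e] at h1
    exact h1
  · rw [h, pe_ngv_ngv, ← h2] at h1
    have e : Function.update x i (ngv oo) = x := by rw [← h]; exact Function.update_eq_self i x
    rw [e] at h1
    exact h1

/-- the mixed vector: `J` is the set of the factors which have been treated -/
private def pem (J I S : Finset (Fin m)) (x : Pts m k) : Pts m k :=
  fun i => if i ∈ S then ngv (x i) else if i ∈ I then x i else if i ∈ J then oo else x i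

private lemma pem_onP {J I S : Finset (Fin m)} {x : Pts m k} (hx : OnP X x) :
    OnP X (pem J I S x) := by
  intro i
  unfold pem
  split_ifs
  · exact onX_ngv (hx i)
  · exact hx i
  · exact onX_oo _
  · exact hx i

private lemma clP_mixed {x : Pts m k} (hx : OnP X x) (J : Finset (Fin m)) :
    clP X x = ∑ I ∈ J.powerset, ((1 / 2 : ℚ) ^ I.card) •
      ∑ S ∈ I.powerset, ((-1 : ℚ) ^ S.card) • clP X (pem J I S x) := by
  induction J using Finset.induction_on with
  | empty =>
    have e : pem ∅ ∅ ∅ x = x := by
      funext l
      simp [pem]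
    simp [e]
  | insert j J hj ih =>
    rw [Finset.sum_powerset_insert hj, ← Finset.sum_add_distrib, ih]
    refine Finset.sum_congr rfl fun I hI => ?_
    have hI' := Finset.mem_powerset.mp hI
    have hjI : j ∉ I := fun h => hj (hI' h)
    rw [Finset.sum_powerset_insert hjI, ← Finset.sum_add_distrib,
      Finset.card_insert_of_notMem hjI, pow_succ, mul_smul, ← smul_add]
    congr 1
    rw [Finset.smul_sum, ← Finset.sum_add_distrib]
    refine Finset.sum_congr rfl fun S hS => ?_
    have hS' := Finset.mem_powerset.mp hS
    have hjS : j ∉ S := fun h => hjI (hS' h)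
    have e1 : pem (insert j J) I S x = Function.update (pem J I S x) j oo := by
      funext l
      by_cases hl : l = j
      · subst hl
        simp [pem, hjS, hjI]
      · simp [pem, hl, Function.update_of_ne hl]
    have e2 : pem (insert j J) (insert j I) S x = pem J I S x := by
      funext l
      by_cases hl : l = j
      · subst hl
        simp [pem, hjS, hjI, hj]
      · simp [pem, hl]
    have e3 : pem (insert j J) (insert j I) (insert j S) x =
        Function.update (pem J I S x) j (ngv ((pem J I S x) j)) := by
      funext l
      by_cases hl : l = j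
      · subst hl
        simp [pem, hjS, hjI, hj]
      · simp [pem, hl, Function.update_of_ne hl]
    have hp := clP_pencil (X := X) (pem_onP (J := J) (I := I) (S := S) hx) j
    rw [e1, e2, e3, Finset.card_insert_of_notMem hjS, pow_succ]
    have hp' : clP X (Function.update (pem J I S x) j oo) =
        (1 / 2 : ℚ) • (clP X (pem J I S x) +
          clP X (Function.update (pem J I S x) j (ngv (pem J I S x j)))) := by
      rw [hp, smul_smul]; norm_num
    rw [hp']
    module

/-- `[x i] = [O] + {x i} / 2` in every factor -/
theorem clP_eq_sum {x : Pts m k} (hx : OnP X x) :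
    clP X x = ∑ I : Finset (Fin m), ((1 / 2 : ℚ) ^ I.card) • eP X I x := by
  have h := clP_mixed (X := X) hx Finset.univ
  rw [h, Finset.powerset_univ]
  refine Finset.sum_congr rfl fun I _ => ?_
  congr 1
  rw [eP_eq]
  refine Finset.sum_congr rfl fun S _ => ?_
  congr 2
  funext l
  simp [pem, pev]

/-- exchange of two factors -/
theorem eP_swap {I : Finset (Fin m)} {x : Pts m k} (hx : OnP X x) {i j : Fin m} (hi : i ∈ I)
    (hj : j ∈ I) (h : X i = X j) : eP X I (x ∘ Equiv.swap i j) = eP X I x := by
  by_cases hij : i = j
  · subst hij
    simp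
  have hj' : j ∈ I.erase i := Finset.mem_erase.mpr ⟨fun e => hij e.symm, hj⟩
  rw [eP_eq, eP_eq, sum_split hi, sum_split hi, sum_split hj', sum_split hj']
  refine Finset.sum_congr rfl fun S hS => ?_
  have hS' := Finset.mem_powerset.mp hS
  have hjS : j ∉ S := fun h => Finset.notMem_erase j _ (hS' h)
  have hiS : i ∉ S := fun h => Finset.notMem_erase i I (Finset.mem_of_mem_erase (hS' h))
  have hiS2 : i ∉ insert j S := by
    simp [hij, hiS]
  have hji : j ≠ i := fun e => hij e.symm
  set y := pev I S x with hy
  have hyi : y i = x i := by simp [hy, pev, hiS, hi]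
  have hyj : y j = x j := by simp [hy, pev, hjS, hj]
  have hyP : OnP X y := pev_onP hx
  have hsw : ∀ l, l ≠ i → l ≠ j → Equiv.swap i j l = l := fun l h1 h2 =>
    Equiv.swap_apply_of_ne_of_ne h1 h2
  have a1 : pev I (insert i S) x = Function.update y i (ngv (y i)) := by
    funext l
    by_cases hl : l = i
    · subst hl; simp [pev, hyi]
    · simp [hy, pev, hl, Function.update_of_ne hl]
  have a2 : pev I (insert j S) x = Function.update y j (ngv (y j)) := by
    funext l
    by_cases hl : l = j
    · subst hl; simp [pev, hyj]
    · simp [hy, pev, hl, Function.update_of_ne hl]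
  have a3 : pev I (insert i (insert j S)) x =
      Function.update (Function.update y i (ngv (y i))) j (ngv (y j)) := by
    funext l
    by_cases hl : l = j
    · subst hl; simp [pev, hyj]
    · by_cases hl2 : l = i
      · subst hl2; simp [pev, hyi, Function.update_of_ne hl]
      · simp [hy, pev, hl, hl2, Function.update_of_ne hl, Function.update_of_ne hl2]
  have b0 : pev I S (x ∘ Equiv.swap i j) = y ∘ Equiv.swap i j := by
    funext l
    by_cases hl : l = i
    · subst hl; simp [pev, hiS, hi, hyj]
    · by_cases hl2 : l = j
      · subst hl2; simp [pev, hjS, hj, hyi]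
      · simp [hy, pev, hsw l hl hl2]
  have b1 : pev I (insert i S) (x ∘ Equiv.swap i j) =
      Function.update (y ∘ Equiv.swap i j) i (ngv (y j)) := by
    funext l
    by_cases hl : l = i
    · subst hl; simp [pev, hyj]
    · by_cases hl2 : l = j
      · subst hl2; simp [pev, hjS, hj, hyi, hl, Function.update_of_ne hl]
      · simp [hy, pev, hl, hsw l hl hl2, Function.update_of_ne hl]
  have b2 : pev I (insert j S) (x ∘ Equiv.swap i j) =
      Function.update (y ∘ Equiv.swap i j) j (ngv (y i)) := by
    funext l
    by_cases hl : l = j
    · subst hl; simp [pev, hyi]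
    · by_cases hl2 : l = i
      · subst hl2; simp [pev, hiS, hi, hyj, hl, Function.update_of_ne hl]
      · simp [hy, pev, hl, hsw l hl2 hl, Function.update_of_ne hl]
  have b3 : pev I (insert i (insert j S)) (x ∘ Equiv.swap i j) =
      Function.update (Function.update (y ∘ Equiv.swap i j) i (ngv (y j))) j (ngv (y i)) := by
    funext l
    by_cases hl : l = j
    · subst hl; simp [pev, hyi]
    · by_cases hl2 : l = i
      · subst hl2; simp [pev, hyj, Function.update_of_ne hl]
      · simp [hy, pev, hl, hl2, hsw l hl2 hl, Function.update_of_ne hl,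
          Function.update_of_ne hl2]
  have hc := clP_swap (X := X) hyP hij h
  rw [a1, a2, a3, b0, b1, b2, b3, Finset.card_insert_of_notMem hjS,
    Finset.card_insert_of_notMem hiS, Finset.card_insert_of_notMem hiS2,
    Finset.card_insert_of_notMem hjS, pow_succ _ (S.card + 1), pow_succ]
  have e1 : ∀ (c : ℚ) (p q r s : VP X),
      c • p + (c * -1) • q + ((c * -1) • r + (c * -1 * -1) • s) = c • (p - q - r + s) := by
    intro c p q r s; module
  have e2 : ∀ (c : ℚ) (p q r s : VP X),
      c • p + (c * -1) • r + ((c * -1) • q + (c * -1 * -1) • s) = c • (p - q - r + s) := by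
    intro c p q r s; module
  first
    | rw [e1, e1, hc]
    | rw [e2, e2, hc]

/-- permutation of equal factors -/
theorem eP_perm {I : Finset (Fin m)} {x : Pts m k} (hx : OnP X x) (π : Equiv.Perm (Fin m))
    (hπ : ∀ i, X (π i) = X i) (hI : ∀ i, i ∉ I → π i = i) :
    eP X I (x ∘ π) = eP X I x := by
  suffices H : ∀ (n : ℕ) (π : Equiv.Perm (Fin m)), π.support.card = n →
      (∀ i, X (π i) = X i) → (∀ i, i ∉ I → π i = i) → ∀ x : Pts m k, OnP X x →
      eP X I (x ∘ π) = eP X I x from H _ π rfl hπ hI x hx
  intro n
  induction n using Nat.strong_induction_on with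
  | _ n ih =>
    intro π hn hπ hI x hx
    by_cases h1 : ∀ i, π i = i
    · have : x ∘ π = x := by funext l; simp [h1 l]
      rw [this]
    · push Not at h1
      obtain ⟨i, hi⟩ := h1
      have hiI : i ∈ I := by
        by_contra h
        exact hi (hI i h)
      have hjI : π i ∈ I := by
        by_contra h
        exact hi (π.injective (hI _ h))
      set σ := Equiv.swap i (π i) * π with hσ
      have hcard : σ.support.card < π.support.card := Equiv.Perm.card_support_swap_mul hi
      have hX : X i = X (π i) := (hπ i).symm
      have hsX : ∀ l, X (Equiv.swap i (π i) l) = X l := by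
        intro l
        by_cases hl : l = i
        · subst hl; simp [hX]
        · by_cases hl2 : l = π i
          · rw [hl2]; simp [hX]
          · rw [Equiv.swap_apply_of_ne_of_ne hl hl2]
      have hσX : ∀ l, X (σ l) = X l := by
        intro l
        rw [hσ, Equiv.Perm.mul_apply, hsX, hπ]
      have hσI : ∀ l, l ∉ I → σ l = l := by
        intro l hl
        rw [hσ, Equiv.Perm.mul_apply, hI l hl]
        exact Equiv.swap_apply_of_ne_of_ne (fun e => hl (e ▸ hiI)) (fun e => hl (e ▸ hjI))
      have hxs : OnP X (x ∘ Equiv.swap i (π i)) := by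
        intro l
        have := hx (Equiv.swap i (π i) l)
        rw [hsX] at this
        exact this
      have e : x ∘ π = (x ∘ Equiv.swap i (π i)) ∘ σ := by
        funext l
        simp [hσ]
      rw [e, ih _ (hn ▸ hcard) σ rfl hσX hσI _ hxs, eP_swap hx hiI hjI hX]

end Pool.Agent.VK3
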