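import Pool.Agent.VK3.PDefs2

/-!
# Products of elliptic K3 surfaces: relations from one or two factors
-/

set_option autoImplicit false
set_option linter.unusedSectionVars false

noncomputable section

namespace Pool.Agent.VK3

open Pool.Agent.ZCyc Polynomial

universe u

variable {k : Type u} [Field k] [IsAlgClosed k] [CharZero k] {m : ℕ} {X : Fin m → EK3 k}

omit [IsAlgClosed k] [CharZero k] in
private theorem pi_onX_const {A B : MvPolynomial (Fin 2) k} {w : Fin 4 → k} (h : OnX A B w)
    (K : Type*) [Field K] [Algebra k K] : OnX A B (fun i => algebraMap k K (w i)) := by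
  refine ⟨?_, ?_⟩
  · intro h0
    apply h.1
    funext i
    have := congrFun h0 i
    exact (algebraMap k K).injective (by simpa using this)
  · have e : ∀ P : MvPolynomial (Fin 2) k,
        MvPolynomial.aeval ![algebraMap k K (w 0), algebraMap k K (w 1)] P =
          algebraMap k K (MvPolynomial.aeval ![w 0, w 1] P) := by
      intro P
      rw [← MvPolynomial.aeval_algebraMap_apply]
      congr 1
      congr 1
      funext i
      fin_cases i <;> rfl
    have h2 := congrArg (algebraMap k K) h.2
    simp only [map_add, map_mul, map_pow] at h2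
    rw [e A, e B]
    exact h2

omit [IsAlgClosed k] [CharZero k] in
private theorem pi_val (v : Place k (Om k)) (w : Fin 4 → k) :
    IsValue v (fun e => algebraMap k (Om k) (w e)) w := by
  refine ⟨1, fun i => ?_⟩
  have : scale 1 (fun e => algebraMap k (Om k) (w e)) i - algebraMap k (Om k) (w i) = 0 := by
    simp [scale]
  rw [this]
  exact v.vanishes_zero

omit [IsAlgClosed k] [CharZero k] in
private theorem pi_gal (g : Om k ≃ₐ[RatFunc k] Om k) (w : Fin 4 → k) :
    (fun e => algebraMap k (Om k) (w e)) = g ∘ fun e => algebraMap k (Om k) (w e) := by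
  funext i
  simp only [Function.comp]
  rw [IsScalarTower.algebraMap_apply k (RatFunc k) (Om k), g.commutes]

/-- the constant point -/
private def pi_cst (x : Pts m k) : Pts m (Om k) := fun l e => algebraMap k (Om k) (x l e)

/-- the other coordinates are constant -/
theorem ins2_mem {x : Pts m k} (hx : OnP X x) {i j : Fin m} (hij : i ≠ j) (h : X i = X j)
    {z : (Fin 4 → k) × (Fin 4 → k) →₀ ℚ} (hz : z ∈ ratEq (X i).A (X i).B) :
    z.mapDomain (fun w => Function.update (Function.update x i w.1) j w.2) ∈ ratEqP X := by
  have key : ratEq (X i).A (X i).B ≤ (ratEqP X).comap (Finsupp.lmapDomain ℚ ℚ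
      (fun w : (Fin 4 → k) × (Fin 4 → k) =>
        Function.update (Function.update x i w.1) j w.2)) := by
    unfold ratEq
    rw [Submodule.span_le]
    rintro z ⟨n, P, Q, a, b, v, w, p, q, p', q', hOn, hG, hv, hw, hp, hp', rfl⟩
    refine Submodule.subset_span ⟨n,
      fun t => Function.update (Function.update (pi_cst x) i (P t)) j (Q t), a, b, v, w,
      fun t => Function.update (Function.update x i (p t)) j (q t),
      fun t => Function.update (Function.update x i (p' t)) j (q' t),
      fun t l => ?_, fun g => ?_, hv, hw, fun t l => ?_, fun t l => ?_, ?_⟩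
    · beta_reduce
      by_cases h1 : l = j
      · subst h1
        rw [Function.update_self, ← h]
        exact (hOn t).2
      · rw [Function.update_of_ne h1]
        by_cases h2 : l = i
        · subst h2
          rw [Function.update_self]
          exact (hOn t).1
        · rw [Function.update_of_ne h2]
          exact pi_onX_const (hx l) _
    · obtain ⟨r, hr⟩ := hG g
      refine ⟨r, fun t l => ?_⟩
      beta_reduce
      by_cases h1 : l = j
      · subst h1
        rw [Function.update_self, Function.update_self]
        exact (hr t).2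
      · rw [Function.update_of_ne h1, Function.update_of_ne h1]
        by_cases h2 : l = i
        · subst h2
          rw [Function.update_self, Function.update_self]
          exact (hr t).1
        · rw [Function.update_of_ne h2, Function.update_of_ne h2]
          exact pi_gal g (x l)
    · beta_reduce
      by_cases h1 : l = j
      · subst h1
        rw [Function.update_self, Function.update_self]
        exact ⟨(hp t).2.1, (hp t).2.2.2⟩
      · rw [Function.update_of_ne h1, Function.update_of_ne h1]
        by_cases h2 : l = i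
        · subst h2
          rw [Function.update_self, Function.update_self]
          exact ⟨(hp t).1, (hp t).2.2.1⟩
        · rw [Function.update_of_ne h2, Function.update_of_ne h2]
          exact ⟨(hx l).1, pi_val v (x l)⟩
    · beta_reduce
      by_cases h1 : l = j
      · subst h1
        rw [Function.update_self, Function.update_self]
        exact ⟨(hp' t).2.1, (hp' t).2.2.2⟩
      · rw [Function.update_of_ne h1, Function.update_of_ne h1]
        by_cases h2 : l = i
        · subst h2
          rw [Function.update_self, Function.update_self]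
          exact ⟨(hp' t).1, (hp' t).2.2.1⟩
        · rw [Function.update_of_ne h2, Function.update_of_ne h2]
          exact ⟨(hx l).1, pi_val w (x l)⟩
    · rw [map_sum]
      refine Finset.sum_congr rfl fun t _ => ?_
      rw [map_sub, Finsupp.lmapDomain_apply, Finsupp.lmapDomain_apply, Finsupp.mapDomain_single,
        Finsupp.mapDomain_single]
  exact key hz

/-- forget the second point, the other coordinates are constant -/
theorem ins1_mem {x : Pts m k} (hx : OnP X x) (i : Fin m)
    {z : (Fin 4 → k) × (Fin 4 → k) →₀ ℚ} (hz : z ∈ ratEq (X i).A (X i).B) :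
    z.mapDomain (fun w => Function.update x i w.1) ∈ ratEqP X := by
  have key : ratEq (X i).A (X i).B ≤ (ratEqP X).comap (Finsupp.lmapDomain ℚ ℚ
      (fun w : (Fin 4 → k) × (Fin 4 → k) => Function.update x i w.1)) := by
    unfold ratEq
    rw [Submodule.span_le]
    rintro z ⟨n, P, Q, a, b, v, w, p, q, p', q', hOn, hG, hv, hw, hp, hp', rfl⟩
    refine Submodule.subset_span ⟨n,
      fun t => Function.update (pi_cst x) i (P t), a, b, v, w,
      fun t => Function.update x i (p t),
      fun t => Function.update x i (p' t),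
      fun t l => ?_, fun g => ?_, hv, hw, fun t l => ?_, fun t l => ?_, ?_⟩
    · beta_reduce
      by_cases h2 : l = i
      · subst h2
        rw [Function.update_self]
        exact (hOn t).1
      · rw [Function.update_of_ne h2]
        exact pi_onX_const (hx l) _
    · obtain ⟨r, hr⟩ := hG g
      refine ⟨r, fun t l => ?_⟩
      beta_reduce
      by_cases h2 : l = i
      · subst h2
        rw [Function.update_self, Function.update_self]
        exact (hr t).1
      · rw [Function.update_of_ne h2, Function.update_of_ne h2]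
        exact pi_gal g (x l)
    · beta_reduce
      by_cases h2 : l = i
      · subst h2
        rw [Function.update_self, Function.update_self]
        exact ⟨(hp t).1, (hp t).2.2.1⟩
      · rw [Function.update_of_ne h2, Function.update_of_ne h2]
        exact ⟨(hx l).1, pi_val v (x l)⟩
    · beta_reduce
      by_cases h2 : l = i
      · subst h2
        rw [Function.update_self, Function.update_self]
        exact ⟨(hp' t).1, (hp' t).2.2.1⟩
      · rw [Function.update_of_ne h2, Function.update_of_ne h2]
        exact ⟨(hx l).1, pi_val w (x l)⟩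
    · rw [map_sum]
      refine Finset.sum_congr rfl fun t _ => ?_
      rw [map_sub, Finsupp.lmapDomain_apply, Finsupp.lmapDomain_apply, Finsupp.mapDomain_single,
        Finsupp.mapDomain_single]
  exact key hz

omit [IsAlgClosed k] [CharZero k] in
private theorem pi_ngv_ngv (w : Fin 4 → k) : ngv (ngv w) = w := by
  funext i
  fin_cases i <;> simp [ngv]

omit [IsAlgClosed k] [CharZero k] in
private theorem pi_onX_ngv {A B : MvPolynomial (Fin 2) k} {w : Fin 4 → k} (h : OnX A B w) :
    OnX A B (ngv w) := by
  refine ⟨fun h0 => ?_, ?_⟩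
  · apply h.1
    rw [← pi_ngv_ngv w, h0]
    funext i
    fin_cases i <;> simp [ngv]
  · have h1 := h.2
    show (-w 3) ^ 2 = _
    rw [neg_sq]
    exact h1

omit [IsAlgClosed k] [CharZero k] in
private theorem pi_DD_ngv (A B : MvPolynomial (Fin 2) k) (w : Fin 4 → k) :
    DD A B (ngv w) = -DD A B w := by
  unfold DD
  rw [pi_ngv_ngv]
  abel

private theorem pi_pair (E : EK3 k) {w w' : Fin 4 → k} (hw : OnX E.A E.B w)
    (hw' : OnX E.A E.B w') :
    (2 : ℚ) • (cv E.A E.B w w' - cv E.A E.B w' w) = DD E.A E.B w - DD E.A E.B w' :=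
  pair E.homA E.homB (two_zeros E.homA E.homB E.disc E.minimal) hw hw'

/-- `{w} × {w'} = {w'} × {w}`, from `pair` and `two_zeros` -/
theorem swap_pair (E : EK3 k) {w w' : Fin 4 → k} (hw : OnX E.A E.B w) (hw' : OnX E.A E.B w') :
    cv E.A E.B w w' - cv E.A E.B (ngv w) w' - cv E.A E.B w (ngv w') +
      cv E.A E.B (ngv w) (ngv w') =
    cv E.A E.B w' w - cv E.A E.B w' (ngv w) - cv E.A E.B (ngv w') w +
      cv E.A E.B (ngv w') (ngv w) := by
  have h1 := pi_pair E hw hw'
  have h2 := pi_pair E (pi_onX_ngv hw) hw'
  have h3 := pi_pair E hw (pi_onX_ngv hw')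
  have h4 := pi_pair E (pi_onX_ngv hw) (pi_onX_ngv hw')
  rw [pi_DD_ngv] at h2 h4
  rw [pi_DD_ngv] at h3
  rw [pi_DD_ngv] at h4
  rw [← sub_eq_zero]
  have h5 : (2 : ℚ) • ((cv E.A E.B w w' - cv E.A E.B (ngv w) w' - cv E.A E.B w (ngv w') +
      cv E.A E.B (ngv w) (ngv w')) -
      (cv E.A E.B w' w - cv E.A E.B w' (ngv w) - cv E.A E.B (ngv w') w +
      cv E.A E.B (ngv w') (ngv w))) =
      (2 : ℚ) • (cv E.A E.B w w' - cv E.A E.B w' w) -
      (2 : ℚ) • (cv E.A E.B (ngv w) w' - cv E.A E.B w' (ngv w)) -
      (2 : ℚ) • (cv E.A E.B w (ngv w') - cv E.A E.B (ngv w') w) +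
      (2 : ℚ) • (cv E.A E.B (ngv w) (ngv w') - cv E.A E.B (ngv w') (ngv w)) := by
    module
  have h6 : (2 : ℚ) • ((cv E.A E.B w w' - cv E.A E.B (ngv w) w' - cv E.A E.B w (ngv w') +
      cv E.A E.B (ngv w) (ngv w')) -
      (cv E.A E.B w' w - cv E.A E.B w' (ngv w) - cv E.A E.B (ngv w') w +
      cv E.A E.B (ngv w') (ngv w))) = 0 := by
    rw [h5, h1, h2, h3, h4]
    abel
  exact (smul_eq_zero.1 h6).resolve_left (by norm_num)

omit [IsAlgClosed k] [CharZero k] in
private theorem pi_ne {c v₀ v₁ : k} (hc : c ≠ -v₀ / v₁) (hv : v₀ ≠ 0 ∨ v₁ ≠ 0) :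
    v₀ + c * v₁ ≠ 0 := by
  intro h
  by_cases h1 : v₁ = 0
  · rw [h1, mul_zero, add_zero] at h
    rcases hv with h2 | h2
    · exact h2 h
    · exact h2 h1
  · apply hc
    rw [eq_div_iff h1]
    linear_combination h

/-- the cycle of the relation -/
private def piZ (w r : Fin 4 → k) : (Fin 4 → k) × (Fin 4 → k) →₀ ℚ :=
  Finsupp.single (w, r) 1 + Finsupp.single (ngv w, r) 1 - (2 : ℚ) • Finsupp.single (oo, r) 1

omit [IsAlgClosed k] [CharZero k] in
private theorem piZ_mem {A B : MvPolynomial (Fin 2) k} (w r : Fin 4 → k) :
    piZ w r ∈ ratEq A B ↔ cv A B w r + cv A B (ngv w) r = (2 : ℚ) • cv A B oo r := by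
  rw [← Submodule.Quotient.mk_eq_zero, piZ, Submodule.Quotient.mk_sub, sub_eq_zero]
  rfl

omit [IsAlgClosed k] [CharZero k] in
private theorem pi_shv_ngv (c : k) (w : Fin 4 → k) : shv c (ngv w) = ngv (shv c w) := by
  funext j
  fin_cases j <;> simp [shv, ngv]

omit [IsAlgClosed k] [CharZero k] in
private theorem pi_shv_oo (c : k) : shv c oo = oo := by
  funext j
  fin_cases j <;> simp [shv, oo]

omit [IsAlgClosed k] [CharZero k] in
private theorem piZ_map (c : k) (w r : Fin 4 → k) :
    (piZ w r).mapDomain (Prod.map (shv c) (shv c)) = piZ (shv c w) (shv c r) := by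
  unfold piZ
  simp only [sub_eq_add_neg, Finsupp.mapDomain_add, Finsupp.mapDomain_smul,
    ← Finsupp.single_neg, ← smul_neg, Finsupp.mapDomain_single, Prod.map_apply,
    pi_shv_oo, pi_shv_ngv]

/-- `[w] + [-w] = 2 [O]`, from `pencil_left`, `cv_scale`, `exists_pnt`, for all vectors (after a
shear as in `pair`) -/
theorem pencil_cv (E : EK3 k) {w r : Fin 4 → k} (hw : OnX E.A E.B w) (hr : OnX E.A E.B r) :
    cv E.A E.B w r + cv E.A E.B (ngv w) r = (2 : ℚ) • cv E.A E.B oo r := by
  classical
  obtain ⟨c, hc⟩ := Infinite.exists_notMem_finset ({-w 0 / w 1, -r 0 / r 1} : Finset k)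
  simp only [Finset.mem_insert, Finset.mem_singleton, not_or] at hc
  obtain ⟨hc1, hc2⟩ := hc
  set A' := shf c E.A with hA'
  set B' := shf c E.B with hB'
  set a : k[X] := MvPolynomial.aeval ![(1 : k[X]), Polynomial.X] A' with ha
  set b : k[X] := MvPolynomial.aeval ![(1 : k[X]), Polynomial.X] B' with hb
  have hD : Deh A' B' a b := ⟨shf_hom E.homA, shf_hom E.homB, rfl, rfl⟩
  have hP : ∀ v : Fin 4 → k, OnX E.A E.B v → c ≠ -v 0 / v 1 →
      ∃ (p : Pnt k) (d d' : k), d ≠ 0 ∧ d' ≠ 0 ∧ On a b p ∧ scale d (vec p) = shv c v ∧
        scale d' (vec (ng p)) = ngv (shv c v) := by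
    intro v hv hcv
    have h1 : OnX A' B' (shv c v) := onX_shv c hv
    refine exists_pnt hD h1 ?_
    by_cases h2 : v 0 ≠ 0 ∨ v 1 ≠ 0
    · left
      show v 0 + c * v 1 ≠ 0
      exact pi_ne hcv h2
    · right
      push Not at h2
      refine ⟨?_, ?_⟩
      · show v 0 + c * v 1 = 0
        rw [h2.1, h2.2, mul_zero, add_zero]
      · exact h2.2
  obtain ⟨p, d, d', hd, hd', hp, hdp, hdp'⟩ := hP w hw hc1
  obtain ⟨q, e, e', he, he', hq, heq, -⟩ := hP r hr hc2
  have hO : On a b (none : Pnt k) := trivial
  have hpn : On a b (ng p) := by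
    match p, hp with
    | none, _ => trivial
    | some (s, x, y), hp =>
      show (-y) ^ 2 = ff a b s x
      rw [neg_sq]
      exact hp
  have hX : ∀ {p : Pnt k}, On a b p → OnX A' B' (vec p) := fun hp => (hD.onX _).2 hp
  have h1 : ∀ w : Fin 4 → k, scale 1 w = w := fun w => by
    funext j
    simp [scale]
  have h2 : c2 A' B' p q + c2 A' B' (ng p) q = (2 : ℚ) • c2 A' B' none q := by
    match p, hp with
    | none, _ =>
      show c2 A' B' none q + c2 A' B' none q = _
      module
    | some (s, x, y), hp => exact pencil_left hD hp hq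
  have e1 := cv_scale (hX hp) (hX hq) hd he
  have e2 := cv_scale (hX hpn) (hX hq) hd' he
  have e3 := cv_scale (hX hO) (hX hq) (one_ne_zero (α := k)) he
  rw [hdp, heq] at e1
  rw [hdp', heq] at e2
  rw [h1, heq] at e3
  have h3 : cv A' B' (shv c w) (shv c r) + cv A' B' (ngv (shv c w)) (shv c r) =
      (2 : ℚ) • cv A' B' oo (shv c r) := by
    rw [e1, e2]
    have e4 : cv A' B' oo (shv c r) = cv A' B' (vec none) (vec q) := e3
    rw [e4]
    exact h2
  rw [← piZ_mem] at h3
  have h4 := ratEq_shv (-c) h3
  rw [piZ_map, shv_shv, shv_shv, hA', hB', shf_shf, shf_shf, piZ_mem] at h4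
  exact h4

omit [IsAlgClosed k] [CharZero k] in
private theorem pi_onX_oo (E : EK3 k) : OnX E.A E.B (oo : Fin 4 → k) := by
  have hz : ∀ {n : ℕ} {A : MvPolynomial (Fin 2) k}, n ≠ 0 → A.IsHomogeneous n →
      MvPolynomial.aeval ![(0 : k), 0] A = 0 := by
    intro n A hn hA
    have e : (![(0 : k), 0] : Fin 2 → k) = 0 := by
      funext i
      fin_cases i <;> rfl
    rw [e, MvPolynomial.aeval_zero]
    have h0 : MvPolynomial.constantCoeff A = 0 := by
      rw [MvPolynomial.constantCoeff_eq]
      by_contra h1
      have h2 := hA h1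
      rw [map_zero] at h2
      exact hn h2.symm
    rw [h0, map_zero]
  refine ⟨fun h => ?_, ?_⟩
  · have := congrFun h 2
    simp [oo] at this
  · show (1 : k) ^ 2 = 1 ^ 3 + MvPolynomial.aeval ![(0 : k), 0] E.A * 1 +
      MvPolynomial.aeval ![(0 : k), 0] E.B
    rw [hz (by norm_num) E.homA, hz (by norm_num) E.homB]
    norm_num

private theorem pi_cv_oo (E : EK3 k) {r : Fin 4 → k} (hr : OnX E.A E.B r) :
    cv E.A E.B (ngv oo) r = cv E.A E.B oo r := by
  obtain ⟨i, hi⟩ := IsAlgClosed.exists_pow_nat_eq (-1 : k) (n := 2) (by norm_num)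
  have hi0 : i ≠ 0 := by
    rintro rfl
    norm_num at hi
  have h := cv_scale (pi_onX_oo E) hr hi0 (one_ne_zero (α := k))
  have h4 : i ^ 4 = 1 := by
    have : i ^ 4 = (i ^ 2) ^ 2 := by ring
    rw [this, hi]
    norm_num
  have h6 : i ^ 6 = -1 := by
    have : i ^ 6 = (i ^ 2) ^ 3 := by ring
    rw [this, hi]
    norm_num
  have e1 : scale i oo = ngv oo := by
    funext j
    fin_cases j <;> simp [ngv, oo, scale, wt, h4, h6]
  have e2 : scale 1 r = r := by
    funext j
    simp [scale]
  rw [e1, e2] at h
  exact h

theorem clP_oo {x : Pts m k} (hx : OnP X x) (i : Fin m) :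
    clP X (Function.update x i (ngv oo)) = clP X (Function.update x i oo) := by
  have h := pi_cv_oo (X i) (hx i)
  unfold cv at h
  rw [Submodule.Quotient.eq] at h
  have h2 := ins1_mem hx i h
  rw [sub_eq_add_neg, ← Finsupp.single_neg, Finsupp.mapDomain_add, Finsupp.mapDomain_single,
    Finsupp.mapDomain_single, Finsupp.single_neg, ← sub_eq_add_neg] at h2
  unfold clP
  rw [Submodule.Quotient.eq]
  exact h2

theorem clP_pencil {x : Pts m k} (hx : OnP X x) (i : Fin m) :
    clP X x + clP X (Function.update x i (ngv (x i))) =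
      (2 : ℚ) • clP X (Function.update x i oo) := by
  have h := pencil_cv (X i) (hx i) (hx i)
  rw [← piZ_mem] at h
  have h2 := ins1_mem hx i h
  have e : (piZ (x i) (x i)).mapDomain (fun w => Function.update x i w.1) =
      Finsupp.single x 1 + Finsupp.single (Function.update x i (ngv (x i))) 1 -
        (2 : ℚ) • Finsupp.single (Function.update x i oo) 1 := by
    unfold piZ
    simp only [sub_eq_add_neg, Finsupp.mapDomain_add, Finsupp.mapDomain_smul,
      ← Finsupp.single_neg, ← smul_neg, Finsupp.mapDomain_single, Function.update_eq_self]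
  rw [e, ← Submodule.Quotient.mk_eq_zero, Submodule.Quotient.mk_sub, sub_eq_zero] at h2
  exact h2

/-- the product of `{x i} × {x j} - {x j} × {x i}` and of the other points -/
theorem clP_swap {x : Pts m k} (hx : OnP X x) {i j : Fin m} (hij : i ≠ j) (h : X i = X j) :
    clP X x - clP X (Function.update x i (ngv (x i))) -
      clP X (Function.update x j (ngv (x j))) +
      clP X (Function.update (Function.update x i (ngv (x i))) j (ngv (x j))) =
    clP X (x ∘ Equiv.swap i j) -
      clP X (Function.update (x ∘ Equiv.swap i j) i (ngv (x j))) -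
      clP X (Function.update (x ∘ Equiv.swap i j) j (ngv (x i))) +
      clP X (Function.update (Function.update (x ∘ Equiv.swap i j) i (ngv (x j))) j
        (ngv (x i))) := by
  have hj : OnX (X i).A (X i).B (x j) := by
    rw [h]
    exact hx j
  have h1 := swap_pair (X i) (hx i) hj
  have h2 : ∀ a b : Fin 4 → k, cv (X i).A (X i).B a b =
    (ratEq (X i).A (X i).B).mkQ (Finsupp.single (a, b) 1) := fun _ _ => rfl
  simp only [h2] at h1
  simp only [← map_sub, ← map_add] at h1
  rw [← sub_eq_zero, ← map_sub, Submodule.mkQ_apply, Submodule.Quotient.mk_eq_zero] at h1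
  have h3 := ins2_mem hx hij h h1
  have e0 : x ∘ Equiv.swap i j = Function.update (Function.update x i (x j)) j (x i) := by
    funext l
    by_cases h4 : l = j
    · subst h4
      simp
    · rw [Function.update_of_ne h4]
      by_cases h5 : l = i
      · subst h5
        simp
      · rw [Function.update_of_ne h5, Function.comp_apply, Equiv.swap_apply_of_ne_of_ne h5 h4]
  have e1 : ∀ a b : Fin 4 → k, Function.update (x ∘ Equiv.swap i j) i a =
      Function.update (Function.update x i a) j (x i) := by
    intro a b
    rw [e0]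
    funext l
    by_cases h4 : l = j
    · subst h4
      rw [Function.update_of_ne hij.symm, Function.update_self, Function.update_self]
    · by_cases h5 : l = i
      · subst h5
        rw [Function.update_self, Function.update_of_ne h4, Function.update_self]
      · rw [Function.update_of_ne h5, Function.update_of_ne h4, Function.update_of_ne h5,
          Function.update_of_ne h4, Function.update_of_ne h5]
  have e2 : Function.update (x ∘ Equiv.swap i j) j (ngv (x i)) =
      Function.update (Function.update x i (x j)) j (ngv (x i)) := by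
    rw [e0, Function.update_idem]
  have e3 : Function.update (Function.update (x ∘ Equiv.swap i j) i (ngv (x j))) j (ngv (x i)) =
      Function.update (Function.update x i (ngv (x j))) j (ngv (x i)) := by
    rw [e1 _ 0, Function.update_idem]
  have e4 : Function.update x i (ngv (x i)) =
      Function.update (Function.update x i (ngv (x i))) j (x j) := by
    rw [Function.update_comm hij, Function.update_eq_self]
  have e5 : Function.update x j (ngv (x j)) =
      Function.update (Function.update x i (x i)) j (ngv (x j)) := by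
    rw [Function.update_eq_self]
  have e6 : x = Function.update (Function.update x i (x i)) j (x j) := by
    rw [Function.update_eq_self, Function.update_eq_self]
  rw [e3, e2, e1 _ 0, e0, e5]
  rw [show clP X x = clP X (Function.update (Function.update x i (x i)) j (x j)) from
      congrArg _ e6,
    show clP X (Function.update x i (ngv (x i))) =
      clP X (Function.update (Function.update x i (ngv (x i))) j (x j)) from congrArg _ e4]
  rw [← sub_eq_zero]
  have h4 : ∀ y : Pts m k, clP X y = (ratEqP X).mkQ (Finsupp.single y 1) := fun _ => rfl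
  simp only [h4]
  simp only [← map_sub, ← map_add]
  rw [Submodule.mkQ_apply, Submodule.Quotient.mk_eq_zero]
  convert h3 using 1
  simp only [sub_eq_add_neg, neg_add, neg_neg, Finsupp.mapDomain_add, ← Finsupp.single_neg,
    Finsupp.mapDomain_single]
  abel

end Pool.Agent.VK3
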