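import Pool.Agent.VK3.Line
import Pool.Agent.VK3.Line0
import Pool.Agent.VK3.AlgW
import Pool.Agent.VK3.AlgEx
import Pool.Agent.VK3.AlgA
import Pool.Agent.VK3.AlgB
import Pool.Agent.VK3.AlgC

/-!
# The class psi
-/

set_option autoImplicit false

noncomputable section

namespace Pool.Agent.VK3

open Pool.Agent.ZCyc Polynomial

universe u

section Roots

private lemma psi_root (k : Type u) [Field k] [IsAlgClosed k] : ∃ z : k, z ^ 2 + z + 1 = 0 := by
  obtain ⟨z, hz⟩ := IsAlgClosed.exists_root (X ^ 2 + X + 1 : k[X]) (by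
    have : (X ^ 2 + X + 1 : k[X]).degree = 2 := by compute_degree!
    rw [this]
    exact two_ne_zero)
  refine ⟨z, ?_⟩
  simpa [IsRoot] using hz

variable {k : Type u} [Field k]

private lemma psi_cube {z : k} (hz : z ^ 2 + z + 1 = 0) : z ^ 3 = 1 := by
  linear_combination (z - 1) * hz

private lemma psi_root_sq {z : k} (hz : z ^ 2 + z + 1 = 0) : (z ^ 2) ^ 2 + z ^ 2 + 1 = 0 := by
  linear_combination (z ^ 2 - z + 1) * hz

private lemma psi_ne {z : k} (hz : z ^ 2 + z + 1 = 0) : z ≠ 0 := by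
  rintro rfl
  rw [zero_pow two_ne_zero, zero_add, zero_add] at hz
  exact one_ne_zero hz

private lemma psi_cube_root {n n' z : k} (hz : z ^ 2 + z + 1 = 0) (h : n' ^ 3 = n ^ 3) :
    n' = n ∨ n' = z * n ∨ n' = z ^ 2 * n := by
  have h1 : (n' - n) * ((n' - z * n) * (n' - z ^ 2 * n)) = 0 := by
    have h2 := psi_cube hz
    linear_combination h + (-n' ^ 2 * n + z * (n' * n ^ 2)) * hz - n ^ 3 * h2
  rcases mul_eq_zero.mp h1 with h2 | h2
  · exact Or.inl (sub_eq_zero.mp h2)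
  · rcases mul_eq_zero.mp h2 with h3 | h3
    · exact Or.inr (Or.inl (sub_eq_zero.mp h3))
    · exact Or.inr (Or.inr (sub_eq_zero.mp h3))

private lemma psi_cube_mul {n z u : k} (hz : z ^ 2 + z + 1 = 0) (hn : n ^ 3 = u ^ 2) :
    (z * n) ^ 3 = u ^ 2 := by
  rw [mul_pow, psi_cube hz, one_mul, hn]

end Roots

variable {k : Type u} [Field k] [IsAlgClosed k] [CharZero k] {A B : MvPolynomial (Fin 2) k}
  {a b : k[X]}

/-- the factor `Xi - n' As - At / n'` vanishes for `n' = z n` -/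
private lemma cl5_zero_aux (h : Deh A B a b) {s t Z Xi Th u n x₁ x₂ z : k}
    (hz : z ^ 2 + z + 1 = 0) (hL : Lft a b s t Z Xi Th u n x₁ x₂)
    (hX : z * n * Xi = (z * n) ^ 2 * aeval s a + aeval t a) :
    cl5 A B a b s t u x₁ x₂ = 0 := by
  have hz' := psi_root_sq hz
  have hn0 : z ^ 2 * n ≠ 0 := mul_ne_zero (psi_ne hz') hL.hn0
  have hn3 : (z ^ 2 * n) ^ 3 = u ^ 2 := psi_cube_mul hz' hL.hn
  have hF : ff a b t x₂ = u ^ 2 * ff a b s x₁ := hL.hF
  by_cases hm : x₂ - z ^ 2 * n * x₁ = 0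
  · have h1 : x₂ = z ^ 2 * n * x₁ := sub_eq_zero.mp hm
    rw [h1] at hF ⊢
    exact line0 h hn0 hn3 hF
  · obtain ⟨w, hw1, hw2⟩ := lift_degenerate hz hL hX hm
    have h1 := line h hn0 hn3 hF hm hw1
    rw [hw2] at h1
    have h2 : cl5 A B a b s t u w (n * w) = 0 := by
      apply line0 h hL.hn0 hL.hn
      rw [← hw2]
      unfold ff at hF ⊢
      linear_combination hF + (w - x₁) * hw1 + (w ^ 3 - x₁ ^ 3 + aeval s a * (w - x₁)) * hn3
    rw [h2, add_zero] at h1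
    exact h1

/-- the factor `Xi - n' As - At / n'` vanishes for `n' = n` -/
private lemma cl5_zero_aux' (h : Deh A B a b) {s t Z Xi Th u n x₁ x₂ z : k}
    (hz : z ^ 2 + z + 1 = 0) (hL : Lft a b s t Z Xi Th u n x₁ x₂)
    (hX : n * Xi = n ^ 2 * aeval s a + aeval t a) :
    cl5 A B a b s t u x₁ x₂ = 0 := by
  have hF : ff a b t x₂ = u ^ 2 * ff a b s x₁ := hL.hF
  have h1 := Lift.xi hL hz
  have h2 : (3 : k) * ((x₂ - z * n * x₁) * (x₂ - z ^ 2 * n * x₁)) = 0 := by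
    rw [← h1, hX]
    ring
  rcases mul_eq_zero.mp h2 with h3 | h3
  · exact absurd h3 (by norm_num)
  · rcases mul_eq_zero.mp h3 with h4 | h4
    · have h5 : x₂ = z * n * x₁ := sub_eq_zero.mp h4
      rw [h5] at hF ⊢
      exact line0 h (mul_ne_zero (psi_ne hz) hL.hn0) (psi_cube_mul hz hL.hn) hF
    · have h5 : x₂ = z ^ 2 * n * x₁ := sub_eq_zero.mp h4
      rw [h5] at hF ⊢
      exact line0 h (mul_ne_zero (psi_ne (psi_root_sq hz)) hL.hn0)
        (psi_cube_mul (psi_root_sq hz) hL.hn) hF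

omit [IsAlgClosed k] [CharZero k] in
private lemma psi_u_ne {s t Z Xi Th u n x₁ x₂ : k} (hL : Lft a b s t Z Xi Th u n x₁ x₂) :
    u ≠ 0 := by
  rintro rfl
  have := hL.hn
  rw [zero_pow two_ne_zero] at this
  exact hL.hn0 (pow_eq_zero_iff three_ne_zero |>.mp this)

/-- if `Dst = 0` the class of every lift vanishes -/
theorem cl5_zero (h : Deh A B a b) {s t Z Xi Th u n x₁ x₂ : k}
    (hL : Lft a b s t Z Xi Th u n x₁ x₂) (hs : dsc a b s ≠ 0)
    (hD : Dst (aeval s a) (aeval s b) (aeval t a) Z Xi = 0) :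
    cl5 A B a b s t u x₁ x₂ = 0 := by
  obtain ⟨z, hz⟩ := psi_root k
  have h1 := Lift.dst hL hz
  rw [hD, mul_zero] at h1
  have hu := psi_u_ne hL
  have h2 : u ^ 2 * (4 * aeval s a ^ 3 + 27 * aeval s b ^ 2) ^ 2 ≠ 0 :=
    mul_ne_zero (pow_ne_zero _ hu) (pow_ne_zero _ hs)
  rcases mul_eq_zero.mp h1.symm with h3 | h3
  · exact absurd h3 h2
  · rcases mul_eq_zero.mp h3 with h4 | h4
    · rcases mul_eq_zero.mp h4 with h5 | h5
      · exact cl5_zero_aux' h hz hL (by linear_combination h5)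
      · exact cl5_zero_aux h hz hL (by linear_combination h5)
    · exact cl5_zero_aux h (psi_root_sq hz) hL (by linear_combination h4)

/-- lifts for the cube roots `n` and `z n` -/
private lemma cl5_slopes (h : Deh A B a b) {s t Z Xi Th u n x₁ x₂ x₁' x₂' z : k}
    (hz : z ^ 2 + z + 1 = 0) (hL : Lft a b s t Z Xi Th u n x₁ x₂)
    (hL' : Lft a b s t Z Xi Th u (z * n) x₁' x₂')
    (hD : Dst (aeval s a) (aeval s b) (aeval t a) Z Xi ≠ 0) :
    cl5 A B a b s t u x₁ x₂ = cl5 A B a b s t u x₁' x₂' := by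
  obtain ⟨hm, hm', w, hw, hw', hww⟩ := lift_slopes hz hL hL' hD
  have h1 := line h (A := A) (B := B) hL'.hn0 hL'.hn hL.hF hm hw
  have h2 := line h (A := A) (B := B) hL.hn0 hL.hn hL'.hF hm' hw'
  rw [hww] at h1
  exact add_right_cancel (h1.trans h2.symm)

/-- all lifts with the same `u` have the same class -/
private lemma cl5_same (h : Deh A B a b) {s t Z Xi Th u n x₁ x₂ n' x₁' x₂' : k}
    (hL : Lft a b s t Z Xi Th u n x₁ x₂) (hL' : Lft a b s t Z Xi Th u n' x₁' x₂')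
    (hD : Dst (aeval s a) (aeval s b) (aeval t a) Z Xi ≠ 0) :
    cl5 A B a b s t u x₁ x₂ = cl5 A B a b s t u x₁' x₂' := by
  obtain ⟨z, hz⟩ := psi_root k
  rcases psi_cube_root hz (hL'.hn.trans hL.hn.symm) with h1 | h1 | h1
  · subst h1
    obtain ⟨h2, h3⟩ := Lift.unique hL hL' hD
    rw [h2, h3]
  · rw [h1] at hL'
    exact cl5_slopes h hz hL hL' hD
  · rw [h1] at hL'
    exact cl5_slopes h (psi_root_sq hz) hL hL' hD

/-- lifts for `Th` and `-Th` -/
private lemma cl5_neg_lift (h : Deh A B a b) {s t Z Xi Th u n x₁ x₂ n' y₁ y₂ : k}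
    (hL : Lft a b s t Z Xi Th u n x₁ x₂) (hL' : Lft a b s t Z Xi (-Th) u n' y₁ y₂)
    (hD : Dst (aeval s a) (aeval s b) (aeval t a) Z Xi ≠ 0) :
    cl5 A B a b s t u x₁ x₂ = -cl5 A B a b s t u y₁ y₂ := by
  obtain ⟨z, hz⟩ := psi_root k
  obtain ⟨p₁, p₂, hp⟩ := exists_lift (n := z * n') hL.wd hD
    (mul_ne_zero (psi_ne hz) hL'.hn0) (psi_cube_mul hz hL'.hn) hL.hZ
  obtain ⟨hm, hw, hww⟩ := lift_neg hz hL' hp hD
  have h1 := line h (A := A) (B := B) (mul_ne_zero (psi_ne (psi_root_sq hz)) hL'.hn0)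
    (psi_cube_mul (psi_root_sq hz) hL'.hn) hp.hF hm hw
  rw [hww, ← cl5_same h hL hp hD] at h1
  exact eq_neg_of_add_eq_zero_left h1

/-- all lifts have the same class -/
theorem cl5_eq (h : Deh A B a b) {s t Z Xi Th u n x₁ x₂ u' n' x₁' x₂' : k}
    (hL : Lft a b s t Z Xi Th u n x₁ x₂) (hL' : Lft a b s t Z Xi Th u' n' x₁' x₂')
    (hs : dsc a b s ≠ 0) (hD : Dst (aeval s a) (aeval s b) (aeval t a) Z Xi ≠ 0) :
    cl5 A B a b s t u x₁ x₂ = cl5 A B a b s t u' x₁' x₂' := by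
  have h1 : u' ^ 2 = u ^ 2 := mul_right_cancel₀ hs (hL'.hZ.trans hL.hZ.symm)
  rcases sq_eq_sq_iff_eq_or_eq_neg.mp h1 with h2 | h2
  · subst h2
    exact cl5_same h hL hL' hD
  · subst h2
    have h3 := Lift.neg hL'
    rw [neg_neg] at h3
    rw [cl5_neg]
    exact cl5_neg_lift h hL h3 hD

theorem psi_eq (h : Deh A B a b) {s t Z Xi Th u n x₁ x₂ : k}
    (hL : Lft a b s t Z Xi Th u n x₁ x₂) (hs : dsc a b s ≠ 0) :
    psi A B a b s t Z Xi Th = cl5 A B a b s t u x₁ x₂ := by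
  classical
  have hex : ∃ w : k × k × k × k, Lft a b s t Z Xi Th w.1 w.2.1 w.2.2.1 w.2.2.2 :=
    ⟨(u, n, x₁, x₂), hL⟩
  rw [psi, dif_pos hex]
  by_cases hD : Dst (aeval s a) (aeval s b) (aeval t a) Z Xi = 0
  · rw [cl5_zero h hL hs hD, cl5_zero h hex.choose_spec hs hD]
  · exact cl5_eq h hex.choose_spec hL hs hD

theorem psi_zero (h : Deh A B a b) {s t Z Xi Th : k} (hs : dsc a b s ≠ 0)
    (hD : Dst (aeval s a) (aeval s b) (aeval t a) Z Xi = 0) :
    psi A B a b s t Z Xi Th = 0 := by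
  classical
  by_cases hex : ∃ w : k × k × k × k, Lft a b s t Z Xi Th w.1 w.2.1 w.2.2.1 w.2.2.2
  · rw [psi, dif_pos hex]
    exact cl5_zero h hex.choose_spec hs hD
  · rw [psi, dif_neg hex]

/-- exchange of the two factors -/
theorem psi_swap (h : Deh A B a b) {s t Z Xi Th : k} (hs : dsc a b s ≠ 0) (ht : dsc a b t ≠ 0)
    (hZ : Z ≠ 0) :
    psi A B a b t s (dsc a b s * dsc a b t / Z) Xi Th = -psi A B a b s t Z Xi Th := by
  classical
  by_cases hex : ∃ w : k × k × k × k, Lft a b s t Z Xi Th w.1 w.2.1 w.2.2.1 w.2.2.2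
  · obtain ⟨⟨u, n, x₁, x₂⟩, hL⟩ := hex
    have h1 : Lft a b t s (dsc a b s * dsc a b t / Z) Xi Th (1 / u) (1 / n) x₂ x₁ :=
      Lift.swap hL hs
    rw [psi_eq h hL hs, psi_eq h h1 ht]
    exact cl5_swap (psi_u_ne hL) hL.hF
  · have hex' : ¬ ∃ w : k × k × k × k, Lft a b t s (dsc a b s * dsc a b t / Z) Xi Th
        w.1 w.2.1 w.2.2.1 w.2.2.2 := by
      rintro ⟨⟨u, n, x₁, x₂⟩, hL⟩
      apply hex
      have h1 := Lift.swap hL ht
      have h2 : (4 * (aeval t a : k) ^ 3 + 27 * (aeval t b) ^ 2) *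
          (4 * (aeval s a) ^ 3 + 27 * (aeval s b) ^ 2) / (dsc a b s * dsc a b t / Z) = Z := by
        show dsc a b t * dsc a b s / (dsc a b s * dsc a b t / Z) = Z
        field_simp
      rw [h2] at h1
      exact ⟨(1 / u, 1 / n, x₂, x₁), h1⟩
    rw [psi, dif_neg hex', psi, dif_neg hex, neg_zero]

end Pool.Agent.VK3
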