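import Pool.Agent.VK3.Defs2

/-!
# Values of points at places
-/

set_option autoImplicit false

noncomputable section

namespace Pool.Agent.VK3

open Pool.Agent.ZCyc Polynomial

universe u

variable {k : Type u} [Field k] {A B : MvPolynomial (Fin 2) k} {a b : k[X]}

private theorem eval_aux {K : Type*} [Field K] [Algebra k K] (s : K) (A : MvPolynomial (Fin 2) k) :
    MvPolynomial.aeval ![(1 : K), s] A = aeval s (MvPolynomial.aeval ![(1 : k[X]), X] A) := by
  rw [MvPolynomial.comp_aeval_apply]
  congr 2
  funext i
  fin_cases i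
  · simp
  · simp

theorem Deh.evalA (h : Deh A B a b) {K : Type*} [Field K] [Algebra k K] (s : K) :
    MvPolynomial.aeval ![(1 : K), s] A = aeval s a := by
  rw [h.ha]
  exact eval_aux s A

theorem Deh.evalB (h : Deh A B a b) {K : Type*} [Field K] [Algebra k K] (s : K) :
    MvPolynomial.aeval ![(1 : K), s] B = aeval s b := by
  rw [h.hb]
  exact eval_aux s B

private theorem nat_aux (A : MvPolynomial (Fin 2) k) {m : ℕ} (hA : A.IsHomogeneous m) :
    (MvPolynomial.aeval ![(1 : k[X]), X] A).natDegree ≤ m := by
  have h := MvPolynomial.aeval_natDegree_le (m := m) (n := 1) A hA.totalDegree_le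
    ![(1 : k[X]), X] (by
      intro i
      fin_cases i
      · simp
      · simp)
  simpa using h

theorem Deh.natA (h : Deh A B a b) : a.natDegree ≤ 8 := by
  rw [h.ha]
  exact nat_aux A h.hA

theorem Deh.natB (h : Deh A B a b) : b.natDegree ≤ 12 := by
  rw [h.hb]
  exact nat_aux B h.hB

private theorem zero_aux (A : MvPolynomial (Fin 2) k) {m : ℕ} (hm : m ≠ 0)
    (hA : A.IsHomogeneous m) {K : Type*} [Field K] [Algebra k K] :
    MvPolynomial.aeval ![(0 : K), 0] A = 0 := by
  have h1 : (![(0 : K), 0] : Fin 2 → K) = 0 := by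
    funext i
    fin_cases i
    · rfl
    · rfl
  rw [h1, MvPolynomial.aeval_zero]
  have h2 : MvPolynomial.constantCoeff A = 0 := by
    rw [MvPolynomial.constantCoeff_eq]
    apply hA.coeff_eq_zero
    simpa using Ne.symm hm
  rw [h2, map_zero]

theorem Deh.onX (h : Deh A B a b) {K : Type*} [Field K] [Algebra k K] (P : Pnt K) :
    OnX A B (vec P) ↔ On a b P := by
  rcases P with _ | ⟨s, x, y⟩
  · refine ⟨fun _ => trivial, fun _ => ⟨?_, ?_⟩⟩
    · intro h0
      have := congrFun h0 2
      simp [vec] at this
    · have hA : MvPolynomial.aeval ![(0 : K), 0] A = 0 := zero_aux A (by norm_num) h.hA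
      have hB : MvPolynomial.aeval ![(0 : K), 0] B = 0 := zero_aux B (by norm_num) h.hB
      simp [vec, hA, hB]
  · have hw : vec (some (s, x, y)) ≠ 0 := by
      intro h0
      have := congrFun h0 0
      simp [vec] at this
    have hA := h.evalA s
    have hB := h.evalB s
    have e0 : vec (some (s, x, y)) 0 = 1 := rfl
    have e1 : vec (some (s, x, y)) 1 = s := rfl
    have e2 : vec (some (s, x, y)) 2 = x := rfl
    have e3 : vec (some (s, x, y)) 3 = y := rfl
    unfold OnX On ff
    rw [e0, e1, e2, e3, hA, hB]
    exact ⟨fun h => h.2, fun h => ⟨hw, h⟩⟩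

private theorem vec_ne {K : Type*} [Field K] (P : Pnt K) : vec P ≠ 0 := by
  rcases P with _ | ⟨s, x, y⟩
  · intro h0
    have := congrFun h0 2
    simp [vec] at this
  · intro h0
    have := congrFun h0 0
    simp [vec] at this

private theorem at_ff {v : Place k (Om k)} {s x : Om k} {s' x' : k} (hs : v.At s s')
    (hx : v.At x x') : v.At (ff a b s x) (ff a b s' x') := by
  unfold ff
  have h1 := ((hx.pow 3).add ((hs.aeval a).mul hx)).add (hs.aeval b)
  rw [Polynomial.coe_aeval_eq_eval]
  exact h1

private theorem vanishes_inv {v : Place k (Om k)} {x : Om k} (hx : x ∉ v.ring) :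
    v.Vanishes x⁻¹ := by
  rw [Place.vanishes_iff_or, inv_inv]
  exact Or.inr hx

/-- in the case `x ∉ v.ring` use the square root `c` of `x / y` -/
theorem Val.isValue [IsAlgClosed k] [CharZero k] (h : Deh A B a b) {v : Place k (Om k)}
    {P : Pnt (Om k)} {p : Pnt k} (hP : On a b P) (hv : Val v P p) :
    On a b p ∧ vec p ≠ 0 ∧ IsValue v (vec P) (vec p) := by
  rcases P with _ | ⟨s, x, y⟩
  · rcases p with _ | ⟨s', x', y'⟩
    · refine ⟨trivial, vec_ne _, 1, ?_⟩
      intro i
      fin_cases i <;> simp [scale, vec, Place.vanishes_zero]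
    · exact hv.elim
  · rcases p with _ | ⟨s', x', y'⟩
    · obtain ⟨hs, hx⟩ := hv
      refine ⟨trivial, vec_ne _, ?_⟩
      have hx0 : x ≠ 0 := by
        rintro rfl
        exact hx (zero_mem _)
      have hxi : v.Vanishes x⁻¹ := vanishes_inv hx
      obtain ⟨s', hs'⟩ := DCI57.exists_at v hs
      have hA := hs'.aeval a
      have hB := hs'.aeval b
      have hxi' : v.At x⁻¹ 0 := Place.at_zero_iff.2 hxi
      have hw : v.At (1 + aeval s a * x⁻¹ ^ 2 + aeval s b * x⁻¹ ^ 3) 1 := by
        have h1 := ((Place.at_const (v := v) (1 : k)).add (hA.mul (hxi'.pow 2))).add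
          (hB.mul (hxi'.pow 3))
        simpa using h1
      have hwy : y ^ 2 = x ^ 3 * (1 + aeval s a * x⁻¹ ^ 2 + aeval s b * x⁻¹ ^ 3) := by
        have hP' : y ^ 2 = x ^ 3 + aeval s a * x + aeval s b := hP
        rw [hP']
        field_simp
      set w : Om k := 1 + aeval s a * x⁻¹ ^ 2 + aeval s b * x⁻¹ ^ 3 with hwdef
      have hw0 : w ≠ 0 := by
        intro h0
        rw [h0] at hw
        have h1 : v.At (0 : Om k) 0 := by simpa using Place.at_const (v := v) (0 : k)
        exact one_ne_zero (hw.unique h1)
      have hy0 : y ≠ 0 := by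
        rintro rfl
        have : x ^ 3 * w = 0 := by rw [← hwy]; ring
        rcases mul_eq_zero.1 this with h1 | h1
        · exact hx0 (pow_eq_zero_iff (by norm_num) |>.1 h1)
        · exact hw0 h1
      have hwi : v.At w⁻¹ 1 := by simpa using hw.inv one_ne_zero
      obtain ⟨c, hc⟩ := IsAlgClosed.exists_pow_nat_eq (x / y) (n := 2) (by norm_num)
      have hc4 : c ^ 4 = w⁻¹ * x⁻¹ := by
        have h1 : c ^ 4 = (x / y) ^ 2 := by rw [← hc]; ring
        rw [h1, div_pow, hwy]
        field_simp
      have hc4x : c ^ 4 * x = w⁻¹ := by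
        rw [hc4]
        field_simp
      have hc6y : c ^ 6 * y = w⁻¹ := by
        have h1 : c ^ 6 = (x / y) ^ 3 := by rw [← hc]; ring
        have h2 : (x / y) ^ 3 * y = x ^ 3 / y ^ 2 := by
          field_simp
        rw [h1, h2, hwy]
        field_simp
      have hcv : v.Vanishes c := by
        apply v.vanishes_of_pow (n := 4)
        rw [hc4]
        exact hxi.mul' v hwi.mem
      refine ⟨c, ?_⟩
      intro i
      fin_cases i
      · have : scale c (vec (some (s, x, y))) 0 - algebraMap k (Om k) (vec (none : Pnt k) 0)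
            = c := by
          simp [scale, vec, wt]
        show v.Vanishes (scale c (vec (some (s, x, y))) 0 -
          algebraMap k (Om k) (vec (none : Pnt k) 0))
        rw [this]
        exact hcv
      · have : scale c (vec (some (s, x, y))) 1 - algebraMap k (Om k) (vec (none : Pnt k) 1)
            = c * s := by
          simp [scale, vec, wt]
        show v.Vanishes (scale c (vec (some (s, x, y))) 1 -
          algebraMap k (Om k) (vec (none : Pnt k) 1))
        rw [this]
        exact hcv.mul v hs
      · have : scale c (vec (some (s, x, y))) 2 - algebraMap k (Om k) (vec (none : Pnt k) 2)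
            = w⁻¹ - algebraMap k (Om k) 1 := by
          rw [← hc4x]
          simp [scale, vec, wt]
        show v.Vanishes (scale c (vec (some (s, x, y))) 2 -
          algebraMap k (Om k) (vec (none : Pnt k) 2))
        rw [this]
        exact hwi
      · have : scale c (vec (some (s, x, y))) 3 - algebraMap k (Om k) (vec (none : Pnt k) 3)
            = w⁻¹ - algebraMap k (Om k) 1 := by
          rw [← hc6y]
          simp [scale, vec, wt]
        show v.Vanishes (scale c (vec (some (s, x, y))) 3 -
          algebraMap k (Om k) (vec (none : Pnt k) 3))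
        rw [this]
        exact hwi
    · obtain ⟨hs, hx, hy⟩ := hv
      refine ⟨?_, vec_ne _, 1, ?_⟩
      · have h1 : v.At (y ^ 2) (y' ^ 2) := hy.pow 2
        have hP' : y ^ 2 = ff a b s x := hP
        rw [hP'] at h1
        exact h1.unique (at_ff hs hx)
      · intro i
        fin_cases i
        · show v.Vanishes (1 ^ wt 0 * 1 - algebraMap k (Om k) 1)
          simp [Place.vanishes_zero]
        · show v.Vanishes (1 ^ wt 1 * s - algebraMap k (Om k) s')
          rw [one_pow, one_mul]
          exact hs
        · show v.Vanishes (1 ^ wt 2 * x - algebraMap k (Om k) x')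
          rw [one_pow, one_mul]
          exact hx
        · show v.Vanishes (1 ^ wt 3 * y - algebraMap k (Om k) y')
          rw [one_pow, one_mul]
          exact hy

theorem exists_val [IsAlgClosed k] [CharZero k] {v : Place k (Om k)} {s x y : Om k}
    (hP : y ^ 2 = ff a b s x) {s' : k} (hs : v.At s s') :
    (x ∉ v.ring ∧ Val v (some (s, x, y)) none) ∨
      ∃ x' y' : k, v.At x x' ∧ v.At y y' ∧ Val v (some (s, x, y)) (some (s', x', y')) ∧
        y' ^ 2 = ff a b s' x' := by
  by_cases hx : x ∈ v.ring
  · right
    obtain ⟨x', hx'⟩ := DCI57.exists_at v hx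
    have hff := at_ff (a := a) (b := b) hs hx'
    have hy2 : y ^ 2 ∈ v.ring := by
      rw [hP]
      exact hff.mem
    have hy : y ∈ v.ring := by
      rcases v.ring.mem_or_inv_mem y with h1 | h1
      · exact h1
      · by_cases hy0 : y = 0
        · rw [hy0]
          exact zero_mem _
        · have h2 : y = y ^ 2 * y⁻¹ := by field_simp
          rw [h2]
          exact mul_mem hy2 h1
    obtain ⟨y', hy'⟩ := DCI57.exists_at v hy
    refine ⟨x', y', hx', hy', ⟨hs, hx', hy'⟩, ?_⟩
    have h1 : v.At (y ^ 2) (y' ^ 2) := hy'.pow 2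
    rw [hP] at h1
    exact h1.unique hff
  · left
    exact ⟨hx, hs.mem, hx⟩

end Pool.Agent.VK3
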