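import Pool.Agent.VK3.CLBasic

/-!
# Values of pairs of points
-/

set_option autoImplicit false

noncomputable section

namespace Pool.Agent.VK3

open Pool.Agent.ZCyc Polynomial

universe u

variable {k : Type u} [Field k] [IsAlgClosed k] [CharZero k] {A B : MvPolynomial (Fin 2) k}
  {a b : k[X]}

omit [IsAlgClosed k] [CharZero k] in
private theorem mem_of_sq {v : Place k (Om k)} {y : Om k} (h : y ^ 2 ∈ v.ring) : y ∈ v.ring := by
  by_contra hy
  have h1 : y⁻¹ ∈ v.ring := (v.ring.mem_or_inv_mem y).resolve_left hy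
  have hy0 : y ≠ 0 := fun h0 => hy (h0 ▸ v.ring.zero_mem)
  apply hy
  have h2 : y = y⁻¹ * y ^ 2 := by
    field_simp
  rw [h2]
  exact v.ring.mul_mem _ _ h1 h

omit [IsAlgClosed k] [CharZero k] in
private theorem ff_at {v : Place k (Om k)} {s x : Om k} {s' x' : k} (hs : v.At s s')
    (hx : v.At x x') : v.At (ff a b s x) (ff a b s' x') := by
  unfold ff
  have ha : v.At (aeval s a) (aeval s' a) := by
    have := hs.aeval a
    rwa [← Polynomial.coe_aeval_eq_eval] at this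
  have hb : v.At (aeval s b) (aeval s' b) := by
    have := hs.aeval b
    rwa [← Polynomial.coe_aeval_eq_eval] at this
  exact ((hx.pow 3).add (ha.mul hx)).add hb

omit [CharZero k] in
/-- the value of a root of a function with a value -/
private theorem exists_sq_at {v : Place k (Om k)} {y f : Om k} {c : k} (hy : y ^ 2 = f)
    (hf : v.At f c) : ∃ d : k, v.At y d ∧ d ^ 2 = c := by
  have h1 : y ∈ v.ring := mem_of_sq (hy ▸ hf.mem)
  obtain ⟨d, hd⟩ := DCI57.exists_at v h1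
  exact ⟨d, hd, (hy ▸ hd.pow 2 : v.At f (d ^ 2)).unique hf⟩

theorem value_fin {v : Place k (Om k)} {s t u X₁ X₂ Y₁ : Om k} {s' t' u' x₁ x₂ : k}
    (hY : Y₁ ^ 2 = ff a b s X₁) (hs : v.At s s') (ht : v.At t t')
    (hu : v.At u u') (h1 : v.At X₁ x₁) (h2 : v.At X₂ x₂) :
    ∃ p q : Pnt k, Val v (some (s, X₁, Y₁)) p ∧ Val v (some (t, X₂, u * Y₁)) q ∧
      CL A B p q = cl5 A B a b s' t' u' x₁ x₂ := by
  obtain ⟨y, hy, hy2⟩ := exists_sq_at hY (ff_at hs h1)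
  exact ⟨some (s', x₁, y), some (t', x₂, u' * y), ⟨hs, h1, hy⟩, ⟨ht, h2, hu.mul hy⟩,
    (cl5_eq_CL hy2).symm⟩

theorem value_inf {v : Place k (Om k)} {s t u X₁ X₂ Y₁ : Om k} {s' t' : k}
    (hY : Y₁ ^ 2 = ff a b s X₁) (hF : ff a b t X₂ = u ^ 2 * ff a b s X₁) (hs : v.At s s')
    (ht : v.At t t') (hX : X₁ ∉ v.ring) :
    ∃ p q : Pnt k, Val v (some (s, X₁, Y₁)) p ∧ Val v (some (t, X₂, u * Y₁)) q ∧
      CL A B p q = 0 := by
  by_cases h2 : X₂ ∈ v.ring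
  · obtain ⟨x₂, hx₂⟩ := DCI57.exists_at v h2
    have h3 : (u * Y₁) ^ 2 = ff a b t X₂ := by rw [mul_pow, hY, hF]
    obtain ⟨y, hy, -⟩ := exists_sq_at h3 (ff_at ht hx₂)
    exact ⟨none, some (t', x₂, y), ⟨hs.mem, hX⟩, ⟨ht, hx₂, hy⟩, CL_none_left _⟩
  · exact ⟨none, none, ⟨hs.mem, hX⟩, ⟨ht.mem, h2⟩, CL_none_left _⟩

/-- the value of `u` is `0` or `∞` -/
theorem value_u {v : Place k (Om k)} {s t u X₁ X₂ Y₁ : Om k} {s' t' : k}
    (hY : Y₁ ^ 2 = ff a b s X₁) (hF : ff a b t X₂ = u ^ 2 * ff a b s X₁) (hs : v.At s s')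
    (ht : v.At t t') (hu : v.At u 0 ∨ u ∉ v.ring) :
    ∃ p q : Pnt k, Val v (some (s, X₁, Y₁)) p ∧ Val v (some (t, X₂, u * Y₁)) q ∧
      CL A B p q = 0 := by
  by_cases h1 : X₁ ∈ v.ring
  · obtain ⟨x₁, hx₁⟩ := DCI57.exists_at v h1
    obtain ⟨y₁, hy₁, -⟩ := exists_sq_at hY (ff_at hs hx₁)
    by_cases h2 : X₂ ∈ v.ring
    · obtain ⟨x₂, hx₂⟩ := DCI57.exists_at v h2
      have h3 : (u * Y₁) ^ 2 = ff a b t X₂ := by rw [mul_pow, hY, hF]
      obtain ⟨y₂, hy₂, -⟩ := exists_sq_at h3 (ff_at ht hx₂)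
      rcases hu with hu | hu
      · have h4 : y₂ = 0 := by
          have h5 := hu.mul hy₁
          rw [zero_mul] at h5
          exact hy₂.unique h5
        subst h4
        exact ⟨some (s', x₁, y₁), some (t', x₂, 0), ⟨hs, hx₁, hy₁⟩, ⟨ht, hx₂, hy₂⟩,
          CL_y_right _ _ _⟩
      · have h4 : y₁ = 0 := by
          have hu0 : u ≠ 0 := fun h0 => hu (h0 ▸ v.ring.zero_mem)
          have h5 : v.Vanishes u⁻¹ :=
            (v.vanishes_iff_or u⁻¹).2 (Or.inr (by rwa [inv_inv]))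
          have h6 := (Place.at_zero_iff.2 h5).mul hy₂
          rw [zero_mul, ← mul_assoc, inv_mul_cancel₀ hu0, one_mul] at h6
          exact hy₁.unique h6
        subst h4
        exact ⟨some (s', x₁, 0), some (t', x₂, y₂), ⟨hs, hx₁, hy₁⟩, ⟨ht, hx₂, hy₂⟩,
          CL_y_left _ _ _⟩
    · exact ⟨some (s', x₁, y₁), none, ⟨hs, hx₁, hy₁⟩, ⟨ht.mem, h2⟩, CL_none_right _⟩
  · exact value_inf hY hF hs ht h1

end Pool.Agent.VK3
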