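import Pool.Agent.VK3.Psi
import Pool.Agent.VK3.Sing
import Pool.Agent.VK3.Value
import Pool.Agent.VK3.Val

/-!
# Specialisation of lifts
-/

set_option autoImplicit false
set_option linter.unusedSectionVars false

noncomputable section

namespace Pool.Agent.VK3

open Pool.Agent.ZCyc Polynomial

universe u

variable {k : Type u} [Field k] [IsAlgClosed k] [CharZero k] {A B : MvPolynomial (Fin 2) k}
  {a b : k[X]}

private lemma mem_of_pow {v : Place k (Om k)} {f : Om k} {m : ℕ} (hm : m ≠ 0)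
    (h : f ^ m ∈ v.ring) : f ∈ v.ring := by
  rw [← v.ring.valuation_le_one_iff] at h ⊢
  rw [map_pow] at h
  exact (pow_le_one_iff hm).1 h

private lemma mem_of_cubic {v : Place k (Om k)} {X p q : Om k} (hp : p ∈ v.ring) (hq : q ∈ v.ring)
    (h : X ^ 3 + p * X = q) : X ∈ v.ring := by
  by_contra hX
  have hX0 : X ≠ 0 := by
    rintro rfl
    exact hX (zero_mem _)
  have hw : v.Vanishes X⁻¹ := by
    rw [v.vanishes_iff_or]
    right
    rwa [inv_inv]
  have h1 : v.Vanishes (q * X⁻¹ ^ 3 - p * X⁻¹ ^ 2) :=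
    Place.Vanishes.sub v ((hw.pow v (by norm_num)).mul' v hq) ((hw.pow v (by norm_num)).mul' v hp)
  have h2 : q * X⁻¹ ^ 3 - p * X⁻¹ ^ 2 = algebraMap k (Om k) 1 := by
    rw [← h, map_one]
    field_simp
    ring
  rw [h2] at h1
  exact v.const_unit one_ne_zero h1

private lemma at_evalc {v : Place k (Om k)} {s : Om k} {s' : k} (hs : v.At s s') (c : k[X]) :
    v.At (aeval s c) (aeval s' c) := by
  have := hs.aeval c
  rwa [← Polynomial.coe_aeval_eq_eval] at this

private lemma at_num {v : Place k (Om k)} (m : ℕ) [m.AtLeastTwo] :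
    v.At (OfNat.ofNat m : Om k) (OfNat.ofNat m : k) := by
  have := Place.at_const (v := v) (OfNat.ofNat m : k)
  rwa [map_ofNat] at this

/-- the class of the values of a lift at `v` is the value of `psi` at `v` -/
theorem exists_val_of_PV (h : Deh A B a b) {v : Place k (Om k)}
    {s t Z Xi Th u n X₁ X₂ Y₁ : Om k} (hL : Lft a b s t Z Xi Th u n X₁ X₂)
    (hY : Y₁ ^ 2 = ff a b s X₁) {C : V A B} (hC : PV A B a b v s t Z Xi Th C) :
    ∃ p q : Pnt k, Val v (some (s, X₁, Y₁)) p ∧ Val v (some (t, X₂, u * Y₁)) q ∧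
      CL A B p q = C := by
  have hF : ff a b t X₂ = u ^ 2 * ff a b s X₁ := hL.hF
  have hQ : (u * Y₁) ^ 2 = ff a b t X₂ := by rw [hF, mul_pow, hY]
  -- `X₂` is integral over `X₁` and `u`
  have hX₂ : s ∈ v.ring → t ∈ v.ring → u ∈ v.ring → X₁ ∈ v.ring → X₂ ∈ v.ring := by
    intro hs ht hu h1
    have hal : ∀ (c : k[X]) (z : Om k), z ∈ v.ring → aeval z c ∈ v.ring := by
      intro c z hz
      obtain ⟨z', hz'⟩ := DCI57.exists_at v hz
      exact (at_evalc hz' c).mem
    refine mem_of_cubic (p := aeval t a)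
      (q := u ^ 2 * (X₁ ^ 3 + aeval s a * X₁ + aeval s b) - aeval t b) (hal a t ht) ?_ ?_
    · exact sub_mem (mul_mem (pow_mem hu 2) (add_mem (add_mem (pow_mem h1 3)
        (mul_mem (hal a s hs) h1)) (hal b s hs))) (hal b t ht)
    · have := hL.hF
      linear_combination this
  cases hC with
  | fin s' t' Z' Xi' Th' hs ht hZ hXi hTh hZ0 hDs hDt =>
    have hAs := at_evalc hs a
    have hBs := at_evalc hs b
    have hAt := at_evalc ht a
    have hBt := at_evalc ht b
    have hD : v.At (4 * aeval s a ^ 3 + 27 * aeval s b ^ 2) (dsc a b s') :=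
      ((at_num 4).mul (hAs.pow 3)).add ((at_num 27).mul (hBs.pow 2))
    have hD0 : 4 * aeval s a ^ 3 + 27 * aeval s b ^ 2 ≠ 0 := by
      intro h0
      rw [h0] at hD
      exact hDs (hD.unique (by simpa using Place.at_const (v := v) (0 : k)))
    have hu2 : v.At (u ^ 2) (Z' / dsc a b s') := by
      have h1 := hZ.div hD hDs
      have h2 : Z / (4 * aeval s a ^ 3 + 27 * aeval s b ^ 2) = u ^ 2 := by
        rw [div_eq_iff hD0]
        exact hL.hZ.symm
      rwa [h2] at h1
    obtain ⟨u', hu⟩ := DCI57.exists_at v (mem_of_pow (by norm_num) hu2.mem)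
    have hu'2 : u' ^ 2 * dsc a b s' = Z' := by
      have := (hu.pow 2).unique hu2
      rw [this]
      field_simp
    have hu'0 : u' ≠ 0 := by
      rintro rfl
      apply hZ0
      rw [← hu'2]
      ring
    have hn3 : v.At (n ^ 3) (u' ^ 2) := by
      rw [hL.hn]
      exact hu.pow 2
    obtain ⟨n', hn⟩ := DCI57.exists_at v (mem_of_pow (by norm_num) hn3.mem)
    have hn'3 : n' ^ 3 = u' ^ 2 := (hn.pow 3).unique hn3
    have hn'0 : n' ≠ 0 := by
      rintro rfl
      apply hu'0
      have : u' ^ 2 = 0 := by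
        rw [← hn'3]
        ring
      exact pow_eq_zero_iff (by norm_num) |>.1 this
    by_cases h1 : X₁ ∈ v.ring
    · obtain ⟨x₁, hx₁⟩ := DCI57.exists_at v h1
      obtain ⟨x₂, hx₂⟩ := DCI57.exists_at v (hX₂ hs.mem ht.mem hu.mem h1)
      have hL' : Lft a b s' t' Z' Xi' Th' u' n' x₁ x₂ := by
        refine ⟨hn'0, hn'3, hu'2, ?_, ?_, ?_⟩
        · have e1 : v.At (X₂ ^ 3 + aeval t a * X₂ + aeval t b)
              (x₂ ^ 3 + aeval t' a * x₂ + aeval t' b) :=
            ((hx₂.pow 3).add (hAt.mul hx₂)).add hBt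
          have e2 : v.At (u ^ 2 * (X₁ ^ 3 + aeval s a * X₁ + aeval s b))
              (u' ^ 2 * (x₁ ^ 3 + aeval s' a * x₁ + aeval s' b)) :=
            (hu.pow 2).mul (((hx₁.pow 3).add (hAs.mul hx₁)).add hBs)
          rw [hL.hF] at e1
          exact e1.unique e2
        · have e1 : v.At (n * Xi) (n' * Xi') := hn.mul hXi
          have e2 : v.At (3 * (n ^ 2 * X₁ ^ 2 + n * X₁ * X₂ + X₂ ^ 2) + n ^ 2 * aeval s a +
              aeval t a) (3 * (n' ^ 2 * x₁ ^ 2 + n' * x₁ * x₂ + x₂ ^ 2) + n' ^ 2 * aeval s' a +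
              aeval t' a) :=
            (((at_num 3).mul ((((hn.pow 2).mul (hx₁.pow 2)).add ((hn.mul hx₁).mul hx₂)).add
              (hx₂.pow 2))).add ((hn.pow 2).mul hAs)).add hAt
          rw [hL.hXi] at e1
          exact e1.unique e2
        · have e1 : v.At (n ^ 2 * Th) (n' ^ 2 * Th') := (hn.pow 2).mul hTh
          have e2 : v.At (3 * u * ((n * X₁ + X₂) * Xi + n * aeval s a * X₂ + aeval t a * X₁))
              (3 * u' * ((n' * x₁ + x₂) * Xi' + n' * aeval s' a * x₂ + aeval t' a * x₁)) :=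
            ((at_num 3).mul hu).mul (((((hn.mul hx₁).add hx₂).mul hXi).add
              ((hn.mul hAs).mul hx₂)).add (hAt.mul hx₁))
          rw [hL.hTh] at e1
          exact e1.unique e2
      obtain ⟨p, q, hp, hq, hpq⟩ := value_fin (A := A) (B := B) (a := a) (b := b) hY hs ht hu hx₁ hx₂
      exact ⟨p, q, hp, hq, by rw [hpq, psi_eq h hL' hDs]⟩
    · obtain ⟨p, q, hp, hq, hpq⟩ := value_inf (A := A) (B := B) hY hF hs ht h1
      refine ⟨p, q, hp, hq, ?_⟩
      rw [hpq]
      symm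
      apply psi_zero h hDs
      by_contra hne
      have hdet := dett_ne hn'0 hn'3 hu'2 hne
      apply h1
      have e1 : v.At (3 * u * dett (aeval s a) (aeval t a) Xi n)
          (3 * u' * dett (aeval s' a) (aeval t' a) Xi' n') := by
        unfold dett
        exact ((at_num 3).mul hu).mul ((at_num 2).mul ((((((hn.pow 2).mul (hXi.pow 2)).add
          (((((hn.pow 2).mul hAs).add hAt).mul hn).mul hXi)).add
          ((hn.pow 4).mul (hAs.pow 2))).sub (((hn.pow 2).mul hAs).mul hAt)).add (hAt.pow 2)))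
      have e2 : v.At (n ^ 2 * Th * (n * Xi - n ^ 2 * aeval s a + 2 * aeval t a) -
          9 * u * (Xi + n * aeval s a) * (n ^ 3 * aeval s b - aeval t b))
          (n' ^ 2 * Th' * (n' * Xi' - n' ^ 2 * aeval s' a + 2 * aeval t' a) -
          9 * u' * (Xi' + n' * aeval s' a) * (n' ^ 3 * aeval s' b - aeval t' b)) :=
        (((hn.pow 2).mul hTh).mul (((hn.mul hXi).sub ((hn.pow 2).mul hAs)).add
          ((at_num 2).mul hAt))).sub ((((at_num 9).mul hu).mul (hXi.add (hn.mul hAs))).mul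
          (((hn.pow 3).mul hBs).sub hBt))
      have hne' : 3 * u' * dett (aeval s' a) (aeval t' a) Xi' n' ≠ 0 :=
        mul_ne_zero (mul_ne_zero (by norm_num) hu'0) hdet
      have e3 := e2.div e1 hne'
      have hne1 : 3 * u * dett (aeval s a) (aeval t a) Xi n ≠ 0 := by
        intro h0
        rw [h0] at e1
        exact hne' (e1.unique (by simpa using Place.at_const (v := v) (0 : k)))
      have e4 : X₁ = (n ^ 2 * Th * (n * Xi - n ^ 2 * aeval s a + 2 * aeval t a) -
          9 * u * (Xi + n * aeval s a) * (n ^ 3 * aeval s b - aeval t b)) /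
          (3 * u * dett (aeval s a) (aeval t a) Xi n) := by
        rw [eq_div_iff hne1]
        have := hL.cramer₁
        linear_combination this
      rw [e4]
      exact e3.mem
  | inf s' t' hs ht hor =>
    -- one of the fibres is singular
    have hval : (X₁ ∉ v.ring ∧ ∃ p q : Pnt k, Val v (some (s, X₁, Y₁)) p ∧
        Val v (some (t, X₂, u * Y₁)) q ∧ CL A B p q = 0) ∨ ∃ (x₁ y₁ : k) (q : Pnt k),
        Val v (some (s, X₁, Y₁)) (some (s', x₁, y₁)) ∧ y₁ ^ 2 = ff a b s' x₁ ∧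
        Val v (some (t, X₂, u * Y₁)) q ∧ (q = none ∨ ∃ x₂ y₂ : k, q = some (t', x₂, y₂) ∧
          y₂ ^ 2 = ff a b t' x₂) := by
      rcases exists_val hY hs with ⟨h1, -⟩ | ⟨x₁, y₁, -, -, h1, h2⟩
      · exact Or.inl ⟨h1, value_inf (A := A) (B := B) hY hF hs ht h1⟩
      · right
        rcases exists_val hQ ht with ⟨-, h3⟩ | ⟨x₂, y₂, -, -, h3, h4⟩
        · exact ⟨x₁, y₁, none, h1, h2, h3, Or.inl rfl⟩
        · exact ⟨x₁, y₁, _, h1, h2, h3, Or.inr ⟨x₂, y₂, rfl, h4⟩⟩
    by_cases hDs : dsc a b s' = 0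
    · rcases hval with ⟨-, h1⟩ | ⟨x₁, y₁, q, h1, h2, h3, h4⟩
      · exact h1
      · refine ⟨_, q, h1, h3, ?_⟩
        rcases h4 with rfl | ⟨x₂, y₂, rfl, h4⟩
        · exact CL_none_right _
        · exact (CL_sing h hDs h2 (r := some (t', x₂, y₂)) h4).1
    by_cases hDt : dsc a b t' = 0
    · rcases hval with ⟨-, h1⟩ | ⟨x₁, y₁, q, h1, h2, h3, h4⟩
      · exact h1
      · refine ⟨_, q, h1, h3, ?_⟩
        rcases h4 with rfl | ⟨x₂, y₂, rfl, h4⟩
        · exact CL_none_right _
        · exact (CL_sing h hDt h4 (r := some (s', x₁, y₁)) h2).2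
    have hor' := (hor.resolve_left hDs).resolve_left hDt
    by_cases hu : v.At u 0 ∨ u ∉ v.ring
    · exact value_u (A := A) (B := B) hY hF hs ht hu
    push Not at hu
    obtain ⟨hu0, hur⟩ := hu
    obtain ⟨u', hu⟩ := DCI57.exists_at v hur
    have hu'0 : u' ≠ 0 := by
      rintro rfl
      exact hu0 hu
    have hAs := at_evalc hs a
    have hBs := at_evalc hs b
    have hAt := at_evalc ht a
    have hD : v.At (4 * aeval s a ^ 3 + 27 * aeval s b ^ 2) (dsc a b s') :=
      ((at_num 4).mul (hAs.pow 3)).add ((at_num 27).mul (hBs.pow 2))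
    have hZ : v.At Z (u' ^ 2 * dsc a b s') := by
      rw [← hL.hZ]
      exact (hu.pow 2).mul hD
    have hn3 : v.At (n ^ 3) (u' ^ 2) := by
      rw [hL.hn]
      exact hu.pow 2
    obtain ⟨n', hn⟩ := DCI57.exists_at v (mem_of_pow (by norm_num) hn3.mem)
    have hn'3 : n' ^ 3 = u' ^ 2 := (hn.pow 3).unique hn3
    have hn'0 : n' ≠ 0 := by
      rintro rfl
      apply hu'0
      have : u' ^ 2 = 0 := by
        rw [← hn'3]
        ring
      exact pow_eq_zero_iff (by norm_num) |>.1 this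
    have hninv : n⁻¹ ∈ v.ring := (hn.inv hn'0).mem
    have hn0 : n ≠ 0 := hL.hn0
    have h3 : (3 : Om k) ∈ v.ring := (at_num 3).mem
    have hX₁ : X₁ ∉ v.ring := by
      intro h1
      have h2 := hX₂ hs.mem ht.mem hur h1
      have hXi : Xi ∈ v.ring := by
        have e1 : Xi = n⁻¹ * (3 * (n ^ 2 * X₁ ^ 2 + n * X₁ * X₂ + X₂ ^ 2) + n ^ 2 * aeval s a +
            aeval t a) := by
          rw [← hL.hXi, inv_mul_cancel_left₀ hn0]
        rw [e1]
        exact mul_mem hninv (add_mem (add_mem (mul_mem h3 (add_mem (add_mem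
          (mul_mem (pow_mem hn.mem 2) (pow_mem h1 2)) (mul_mem (mul_mem hn.mem h1) h2))
          (pow_mem h2 2))) (mul_mem (pow_mem hn.mem 2) hAs.mem)) hAt.mem)
      have hTh : Th ∈ v.ring := by
        have e1 : Th = n⁻¹ ^ 2 * (3 * u * ((n * X₁ + X₂) * Xi + n * aeval s a * X₂ +
            aeval t a * X₁)) := by
          rw [← hL.hTh, ← mul_assoc, ← mul_pow, inv_mul_cancel₀ hn0, one_pow, one_mul]
        rw [e1]
        exact mul_mem (pow_mem hninv 2) (mul_mem (mul_mem h3 hur) (add_mem (add_mem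
          (mul_mem (add_mem (mul_mem hn.mem h1) h2) hXi) (mul_mem (mul_mem hn.mem hAs.mem) h2))
          (mul_mem hAt.mem h1)))
      rcases hor' with h5 | h5 | h5 | h5
      · have := h5.unique hZ
        exact mul_ne_zero (pow_ne_zero 2 hu'0) hDs this.symm
      · exact h5 hZ.mem
      · exact h5 hXi
      · exact h5 hTh
    exact value_inf (A := A) (B := B) hY hF hs ht hX₁

end Pool.Agent.VK3
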