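import Pool.Agent.VK3.Spec

/-!
# Families of points of the Jacobian fibration
-/

set_option autoImplicit false

noncomputable section

namespace Pool.Agent.VK3

open Pool.Agent.ZCyc Polynomial

universe u

variable {k : Type u} [Field k] [IsAlgClosed k] [CharZero k] {A B : MvPolynomial (Fin 2) k}
  {a b : k[X]}

omit [IsAlgClosed k] in
private lemma transfer_lift {s t Z Xi Th : Om k}
    (hW : Wd (aeval s a) (aeval s b) (aeval t a) (aeval t b) Z Xi Th)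
    (hs : dsc a b s ≠ 0) (hZ : Z ≠ 0)
    (hD : Dst (aeval s a) (aeval s b) (aeval t a) Z Xi ≠ 0) :
    ∃ u n X₁ X₂ Y₁ : Om k, Lft a b s t Z Xi Th u n X₁ X₂ ∧ Y₁ ^ 2 = ff a b s X₁ := by
  obtain ⟨u, hu⟩ := IsAlgClosed.exists_pow_nat_eq (Z / dsc a b s) (n := 2) (by norm_num)
  obtain ⟨n, hn⟩ := IsAlgClosed.exists_pow_nat_eq (u ^ 2) (n := 3) (by norm_num)
  have hu0 : u ^ 2 ≠ 0 := by
    rw [hu]
    exact div_ne_zero hZ hs
  have hn0 : n ≠ 0 := by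
    rintro rfl
    apply hu0
    rw [← hn]
    ring
  have hZ' : u ^ 2 * (4 * aeval s a ^ 3 + 27 * aeval s b ^ 2) = Z := by
    rw [hu]
    exact div_mul_cancel₀ Z hs
  obtain ⟨X₁, X₂, hL⟩ := exists_lift hW hD hn0 hn hZ'
  obtain ⟨Y₁, hY⟩ := IsAlgClosed.exists_pow_nat_eq (ff a b s X₁) (n := 2) (by norm_num)
  exact ⟨u, n, X₁, X₂, Y₁, hL, hY⟩

theorem transfer (h : Deh A B a b) {I : Type} [Fintype I] (s t Z Xi Th : I → Om k)
    (hW : ∀ i, Wd (aeval (s i) a) (aeval (s i) b) (aeval (t i) a) (aeval (t i) b) (Z i) (Xi i)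
      (Th i))
    (hs : ∀ i, dsc a b (s i) ≠ 0) (hZ : ∀ i, Z i ≠ 0)
    (hD : ∀ i, Dst (aeval (s i) a) (aeval (s i) b) (aeval (t i) a) (Z i) (Xi i) ≠ 0)
    (c₀ c₁ : k) (C₀ C₁ : V A B)
    (h₀ : ∀ v : Place k (Om k), v.At (tt k) c₀ → ∃ C : I → V A B,
      (∀ i, PV A B a b v (s i) (t i) (Z i) (Xi i) (Th i) (C i)) ∧ ∑ i, C i = C₀)
    (h₁ : ∀ v : Place k (Om k), v.At (tt k) c₁ → ∃ C : I → V A B,
      (∀ i, PV A B a b v (s i) (t i) (Z i) (Xi i) (Th i) (C i)) ∧ ∑ i, C i = C₁) :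
    C₀ = C₁ := by
  choose u n X₁ X₂ Y₁ hL hY using fun i => transfer_lift (hW i) (hs i) (hZ i) (hD i)
  have key : ∀ (c : k) (C' : V A B),
      (∀ v : Place k (Om k), v.At (tt k) c → ∃ C : I → V A B,
        (∀ i, PV A B a b v (s i) (t i) (Z i) (Xi i) (Th i) (C i)) ∧ ∑ i, C i = C') →
      ∀ v : Place k (Om k), v.At (tt k) c → ∃ p q : I → Pnt k,
        (∀ i, Val v (some (s i, X₁ i, Y₁ i)) (p i)) ∧
        (∀ i, Val v (some (t i, X₂ i, u i * Y₁ i)) (q i)) ∧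
        ∑ i, CL A B (p i) (q i) = C' := by
    intro c C' hc v hv
    obtain ⟨C, hC, hsum⟩ := hc v hv
    choose p q hp hq hCL using fun i => exists_val_of_PV h (hL i) (hY i) (hC i)
    refine ⟨p, q, hp, hq, ?_⟩
    rw [← hsum]
    exact Finset.sum_congr rfl fun i _ => hCL i
  refine bridgeCL h (fun i => some (s i, X₁ i, Y₁ i)) (fun i => some (t i, X₂ i, u i * Y₁ i))
    (fun i => hY i) (fun i => ?_) c₀ c₁ C₀ C₁ (key c₀ C₀ h₀) (key c₁ C₁ h₁)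
  show (u i * Y₁ i) ^ 2 = ff a b (t i) (X₂ i)
  have h1 := hY i
  have h2 := (hL i).hF
  unfold ff at h1 ⊢
  rw [mul_pow, h1]
  exact h2.symm

end Pool.Agent.VK3
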